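import Pool.Agent.Lib.Common.Planar.Defs

/-! Basic facts on restricted reachability, components, minors and path systems. -/

namespace Pool.Agent.Lib.Common.Pl

open SimpleGraph

variable {V W : Type} {G G' : SimpleGraph V} {S T A B : Set V} {u v w x y : V}

theorem RIn.refl (h : u ∈ S) : RIn G S u u :=
  ⟨Walk.nil, by simpa using h⟩

theorem RIn.left_mem (h : RIn G S u v) : u ∈ S := by
  obtain ⟨p, hp⟩ := h
  exact hp _ p.start_mem_support

theorem RIn.right_mem (h : RIn G S u v) : v ∈ S := by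
  obtain ⟨p, hp⟩ := h
  exact hp _ p.end_mem_support

theorem RIn.symm (h : RIn G S u v) : RIn G S v u := by
  obtain ⟨p, hp⟩ := h
  exact ⟨p.reverse, by simpa using hp⟩

theorem RIn.trans (h : RIn G S u v) (h' : RIn G S v w) : RIn G S u w := by
  obtain ⟨p, hp⟩ := h
  obtain ⟨q, hq⟩ := h'
  refine ⟨p.append q, fun x hx => ?_⟩
  rcases (Walk.mem_support_append_iff p q).1 hx with h | h
  exacts [hp x h, hq x h]

theorem RIn.of_adj (h : G.Adj u v) (hu : u ∈ S) (hv : v ∈ S) : RIn G S u v :=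
  ⟨h.toWalk, by simp [hu, hv]⟩

theorem RIn.tail (h : RIn G S u v) (hvw : G.Adj v w) (hw : w ∈ S) : RIn G S u w :=
  h.trans (RIn.of_adj hvw h.right_mem hw)

theorem RIn.head (huv : G.Adj u v) (hu : u ∈ S) (h : RIn G S v w) : RIn G S u w :=
  (RIn.of_adj huv hu h.left_mem).trans h

/-- Induction along a restricted walk. -/
theorem RIn.induction {P : V → Prop} (h : RIn G S u v) (h0 : P u)
    (hs : ∀ a b, a ∈ S → b ∈ S → G.Adj a b → P a → P b) : P v := by
  obtain ⟨p, hp⟩ := h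
  induction p with
  | nil => exact h0
  | cons hadj p ih =>
    refine ih (hs _ _ (hp _ (by simp)) (hp _ (by simp)) hadj h0) fun x hx => hp x (by simp [hx])

theorem RIn.mono' (h : RIn G S u v) (hST : S ⊆ T)
    (hG : ∀ a b, a ∈ S → b ∈ S → G.Adj a b → G'.Adj a b) : RIn G' T u v :=
  h.induction (P := fun x => RIn G' T u x) (RIn.refl (hST h.left_mem))
    fun a b ha hb hab ih => ih.tail (hG a b ha hb hab) (hST hb)

theorem RIn.mono (h : RIn G S u v) (hST : S ⊆ T) : RIn G T u v :=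
  h.mono' hST fun _ _ _ _ h => h

theorem RIn.mono_graph (h : RIn G S u v) (hG : G ≤ G') : RIn G' S u v :=
  h.mono' le_rfl fun _ _ _ _ h => hG h

theorem RIn.exists_path (h : RIn G S u v) :
    ∃ p : G.Walk u v, p.IsPath ∧ ∀ x ∈ p.support, x ∈ S := by
  classical
  obtain ⟨p, hp⟩ := h
  exact ⟨p.toPath, p.toPath.2, fun x hx => hp x (p.support_toPath_subset hx)⟩

theorem RIn.map {H : SimpleGraph W} (f : V → W) (h : RIn G S u v)
    (hf : ∀ a b, a ∈ S → b ∈ S → G.Adj a b → f a = f b ∨ H.Adj (f a) (f b)) :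
    RIn H (f '' S) (f u) (f v) :=
  h.induction (P := fun x => RIn H (f '' S) (f u) (f x)) (RIn.refl ⟨u, h.left_mem, rfl⟩)
    fun a b ha hb hab ih => by
      rcases hf a b ha hb hab with h | h
      · exact h ▸ ih
      · exact ih.tail h ⟨b, hb, rfl⟩

theorem RIn.graph_map (f : V → W) (h : RIn G S u v) :
    RIn (G.map f) (f '' S) (f u) (f v) :=
  h.map f fun a b _ _ hab => by
    by_cases h : f a = f b
    · exact Or.inl h
    · exact Or.inr (map_adj_apply' hab h)

theorem rIn_support_start (p : G.Walk u v) (hx : x ∈ p.support) :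
    RIn G {z | z ∈ p.support} u x := by
  classical
  exact ⟨p.takeUntil x hx, fun z hz => p.support_takeUntil_subset hx hz⟩

theorem rIn_support (p : G.Walk u v) (hx : x ∈ p.support) (hy : y ∈ p.support) :
    RIn G {z | z ∈ p.support} x y :=
  (rIn_support_start p hx).symm.trans (rIn_support_start p hy)

/-- The first exit from `A` of a restricted walk. -/
theorem RIn.exists_exit (h : RIn G S u v) (hu : u ∈ A) (hv : v ∉ A) :
    ∃ a b, RIn G (S ∩ A) u a ∧ G.Adj a b ∧ b ∈ S ∧ b ∉ A := by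
  by_contra hcon
  push Not at hcon
  refine hv (h.induction (P := fun x => RIn G (S ∩ A) u x) (RIn.refl ⟨h.left_mem, hu⟩)
    fun a b _ hb hab ih => ih.tail hab ⟨hb, hcon a b ih hab hb⟩).right_mem.2

theorem RIn.eq_or_mem_support (h : RIn G S u v) : u = v ∨ (u ∈ G.support ∧ v ∈ G.support) := by
  refine h.induction (P := fun x => u = x ∨ (u ∈ G.support ∧ x ∈ G.support)) (Or.inl rfl) ?_
  rintro a b - - hab (rfl | ih)
  · exact Or.inr ⟨hab.mem_support_left, hab.mem_support_right⟩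
  · exact Or.inr ⟨ih.1, hab.mem_support_right⟩

theorem ConnSet.nonempty (h : ConnSet G S) : S.Nonempty := h.1

theorem ConnSet.rIn (h : ConnSet G S) (hu : u ∈ S) (hv : v ∈ S) : RIn G S u v := h.2 u hu v hv

theorem ConnSet.of_root (hu : u ∈ S) (h : ∀ v ∈ S, RIn G S u v) : ConnSet G S :=
  ⟨⟨u, hu⟩, fun a ha b hb => (h a ha).symm.trans (h b hb)⟩

theorem connSet_singleton (G : SimpleGraph V) (u : V) : ConnSet G {u} :=
  ConnSet.of_root rfl fun v hv => by obtain rfl : v = u := hv; exact RIn.refl rfl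

theorem connSet_pair (h : G.Adj u v) : ConnSet G {u, v} :=
  ConnSet.of_root (u := u) (by simp) fun x hx => by
    rcases hx with rfl | rfl
    · exact RIn.refl (by simp)
    · exact RIn.of_adj h (by simp) (by simp)

theorem ConnSet.mono' (h : ConnSet G S)
    (hG : ∀ a b, a ∈ S → b ∈ S → G.Adj a b → G'.Adj a b) : ConnSet G' S :=
  ⟨h.1, fun a ha b hb => (h.rIn ha hb).mono' le_rfl hG⟩

theorem ConnSet.mono_graph (h : ConnSet G S) (hG : G ≤ G') : ConnSet G' S :=
  h.mono' fun _ _ _ _ h => hG h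

theorem ConnSet.union (hS : ConnSet G S) (hT : ConnSet G T) (h : (S ∩ T).Nonempty) :
    ConnSet G (S ∪ T) := by
  obtain ⟨z, hzS, hzT⟩ := h
  refine ConnSet.of_root (u := z) (Or.inl hzS) ?_
  rintro a (ha | ha)
  · exact (hS.rIn hzS ha).mono Set.subset_union_left
  · exact (hT.rIn hzT ha).mono Set.subset_union_right

theorem ConnSet.union_of_sAdj (hS : ConnSet G S) (hT : ConnSet G T) (h : SAdj G S T) :
    ConnSet G (S ∪ T) := by
  obtain ⟨a, ha, b, hb, hab⟩ := h
  refine ConnSet.of_root (u := a) (Or.inl ha) ?_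
  rintro z (hz | hz)
  · exact (hS.rIn ha hz).mono Set.subset_union_left
  · exact RIn.head hab (Or.inl ha) ((hT.rIn hb hz).mono Set.subset_union_right)

theorem ConnSet.insert (hS : ConnSet G S) (hu : u ∈ S) (h : G.Adj u v) :
    ConnSet G (insert v S) := by
  have := hS.union_of_sAdj (connSet_singleton G v) ⟨u, hu, v, rfl, h⟩
  rwa [Set.union_singleton] at this

theorem ConnSet.union_iUnion {ι : Sort*} (hS : ConnSet G S) {T : ι → Set V}
    (hT : ∀ i, ConnSet G (S ∪ T i)) : ConnSet G (S ∪ ⋃ i, T i) := by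
  obtain ⟨z, hz⟩ := hS.1
  refine ConnSet.of_root (u := z) (Or.inl hz) ?_
  rintro a (ha | ha)
  · exact (hS.rIn hz ha).mono Set.subset_union_left
  · obtain ⟨i, hi⟩ := Set.mem_iUnion.1 ha
    exact ((hT i).rIn (Or.inl hz) (Or.inr hi)).mono
      (Set.union_subset_union_right _ (Set.subset_iUnion T i))

theorem connSet_support (p : G.Walk u v) : ConnSet G {z | z ∈ p.support} :=
  ⟨⟨u, p.start_mem_support⟩, fun _ ha _ hb => rIn_support p ha hb⟩

theorem ConnSet.graph_map (f : V → W) (h : ConnSet G S) : ConnSet (G.map f) (f '' S) :=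
  ⟨h.1.image f, by
    rintro _ ⟨a, ha, rfl⟩ _ ⟨b, hb, rfl⟩
    exact (h.rIn ha hb).graph_map f⟩

theorem SAdj.symm (h : SAdj G A B) : SAdj G B A := by
  obtain ⟨a, ha, b, hb, hab⟩ := h
  exact ⟨b, hb, a, ha, hab.symm⟩

theorem SAdj.mono {A' B' : Set V} (h : SAdj G A B) (hA : A ⊆ A') (hB : B ⊆ B') : SAdj G A' B' := by
  obtain ⟨a, ha, b, hb, hab⟩ := h
  exact ⟨a, hA ha, b, hB hb, hab⟩

theorem SAdj.mono_graph (h : SAdj G A B) (hG : G ≤ G') : SAdj G' A B := by
  obtain ⟨a, ha, b, hb, hab⟩ := h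
  exact ⟨a, ha, b, hb, hG hab⟩

theorem mem_comp : v ∈ comp G S u ↔ RIn G S u v := Iff.rfl

theorem mem_comp_self (hu : u ∈ S) : u ∈ comp G S u := RIn.refl hu

theorem comp_subset : comp G S u ⊆ S := fun _ h => RIn.right_mem h

theorem mem_comp_of_adj (hx : x ∈ comp G S u) (hxy : G.Adj x y) (hy : y ∈ S) : y ∈ comp G S u :=
  RIn.tail hx hxy hy

theorem rIn_comp (hx : x ∈ comp G S u) : RIn G (comp G S u) u x :=
  RIn.induction (P := fun x => RIn G (comp G S u) u x) hx
    (RIn.refl (mem_comp_self (RIn.left_mem hx)))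
    fun _ _ _ hb hab ih => ih.tail hab (mem_comp_of_adj ih.right_mem hab hb)

theorem connSet_comp (hu : u ∈ S) : ConnSet G (comp G S u) :=
  ConnSet.of_root (mem_comp_self hu) fun _ hv => rIn_comp hv

theorem ConnSet.subset_comp (hT : ConnSet G T) (hTS : T ⊆ S) (hx : x ∈ T)
    (hxu : x ∈ comp G S u) : T ⊆ comp G S u :=
  fun _ hy => RIn.trans hxu ((hT.rIn hx hy).mono hTS)

theorem comp_eq_of_mem (hx : x ∈ comp G S u) : comp G S x = comp G S u :=
  Set.ext fun _ => ⟨fun h => RIn.trans hx h, fun h => RIn.trans (RIn.symm hx) h⟩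

theorem comp_eq_or_disjoint (G : SimpleGraph V) (S : Set V) (u v : V) :
    comp G S u = comp G S v ∨ Disjoint (comp G S u) (comp G S v) := by
  by_cases h : Disjoint (comp G S u) (comp G S v)
  · exact Or.inr h
  · obtain ⟨z, hz, hz'⟩ := Set.not_disjoint_iff.1 h
    exact Or.inl ((comp_eq_of_mem hz).symm.trans (comp_eq_of_mem hz'))

theorem comp_mono (hST : S ⊆ T) : comp G S u ⊆ comp G T u := fun _ h => RIn.mono h hST

theorem mem_bd : x ∈ bd G S ↔ x ∉ S ∧ ∃ u ∈ S, G.Adj x u := Iff.rfl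

theorem bd_comp_subset : bd G (comp G S u) ⊆ Sᶜ :=
  fun _ ⟨hx, _, hy, hxy⟩ hxS => hx (mem_comp_of_adj hy hxy.symm hxS)

theorem res_adj : (res G S).Adj x y ↔ G.Adj x y ∧ x ∈ S ∧ y ∈ S := Iff.rfl

theorem inc_adj : (inc G S).Adj x y ↔ G.Adj x y ∧ (x ∈ S ∨ y ∈ S) := Iff.rfl

theorem res_le : res G S ≤ G := fun _ _ h => h.1

theorem inc_le : inc G S ≤ G := fun _ _ h => h.1

theorem inc_sup_res (G : SimpleGraph V) (S : Set V) : inc G S ⊔ res G Sᶜ = G := by
  ext a b
  simp only [sup_adj, inc_adj, res_adj, Set.mem_compl_iff]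
  tauto

theorem support_res_subset : (res G S).support ⊆ S := fun _ ⟨_, h⟩ => h.2.1

theorem support_inc_subset : (inc G S).support ⊆ S ∪ bd G S := by
  rintro x ⟨y, hxy, hx | hy⟩
  · exact Or.inl hx
  · by_cases hx : x ∈ S
    · exact Or.inl hx
    · exact Or.inr ⟨hx, y, hy, hxy⟩

theorem RIn.res (h : RIn G S u v) (hST : S ⊆ T) : RIn (res G T) S u v :=
  h.mono' le_rfl fun _ _ ha hb hab => ⟨hab, hST ha, hST hb⟩

theorem ConnSet.res (h : ConnSet G S) (hST : S ⊆ T) : ConnSet (res G T) S :=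
  h.mono' fun _ _ ha hb hab => ⟨hab, hST ha, hST hb⟩

theorem contr_of_mem {K : Set V} {k₀ : V} (h : v ∈ K) : contr K k₀ v = k₀ := by
  simp [contr, h]

theorem contr_of_notMem {K : Set V} {k₀ : V} (h : v ∉ K) : contr K k₀ v = v := by
  simp [contr, h]

theorem HasMinor.mono {F : SimpleGraph W} (h : HasMinor F G) (hG : G ≤ G') : HasMinor F G' := by
  obtain ⟨B, h1, h2, h3⟩ := h
  exact ⟨B, fun x => (h1 x).mono_graph hG, h2, fun x y h => (h3 x y h).mono_graph hG⟩

theorem HasMinor.trans_minorOn {U : Type} {F : SimpleGraph U} {H : SimpleGraph W}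
    (hF : ∀ x, x ∈ F.support) (h : HasMinor F H) (h' : MinorOn H G) : HasMinor F G := by
  obtain ⟨B, h1, h2, h3⟩ := h
  obtain ⟨D, k1, k2, k3⟩ := h'
  have hsup : ∀ x, ∀ b ∈ B x, b ∈ H.support := by
    intro x b hb
    obtain ⟨y, hxy⟩ := hF x
    obtain ⟨a, ha, c, -, hac⟩ := h3 x y hxy
    rcases ((h1 x).rIn ha hb).eq_or_mem_support with rfl | h
    · exact hac.mem_support_left
    · exact h.2
  refine ⟨fun x => ⋃ b ∈ B x, D b, fun x => ?_, fun x y hxy => ?_, fun x y hxy => ?_⟩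
  · obtain ⟨a, ha⟩ := (h1 x).1
    obtain ⟨z, hz⟩ := (k1 a (hsup x a ha)).1
    have hsub : ∀ b ∈ B x, D b ⊆ ⋃ b ∈ B x, D b := fun b hb => Set.subset_biUnion_of_mem hb
    refine ConnSet.of_root (u := z) (hsub a ha hz) fun v hv => ?_
    obtain ⟨b, hb, hvb⟩ := Set.mem_iUnion₂.1 hv
    refine ((h1 x).rIn ha hb).induction
      (P := fun b => ∀ v ∈ D b, RIn G (⋃ b ∈ B x, D b) z v) ?_ ?_ v hvb
    · exact fun v hv => ((k1 a (hsup x a ha)).rIn hz hv).mono (hsub a ha)
    · intro c d hc hd hcd ih v hv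
      obtain ⟨c', hc', d', hd', hadj⟩ := k3 c d hcd
      exact ((ih c' hc').tail hadj (hsub d hd hd')).trans
        (((k1 d (hsup x d hd)).rIn hd' hv).mono (hsub d hd))
  · rw [Set.disjoint_left]
    intro v hv hv'
    obtain ⟨b, hb, hvb⟩ := Set.mem_iUnion₂.1 hv
    obtain ⟨c, hc, hvc⟩ := Set.mem_iUnion₂.1 hv'
    have hbc : b ≠ c := fun h => Set.disjoint_left.1 (h2 x y hxy) hb (h ▸ hc)
    exact Set.disjoint_left.1 (k2 b (hsup x b hb) c (hsup y c hc) hbc) hvb hvc
  · obtain ⟨a, ha, b, hb, hab⟩ := h3 x y hxy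
    exact (k3 a b hab).mono (Set.subset_biUnion_of_mem ha) (Set.subset_biUnion_of_mem hb)

theorem K5_support (x : Fin 5) : x ∈ K5.support :=
  ⟨x + 1, by revert x; decide⟩

theorem K33_support (x : Fin 3 ⊕ Fin 3) : x ∈ K33.support := by
  rcases x with x | x
  · exact ⟨Sum.inr 0, by simp⟩
  · exact ⟨Sum.inl 0, by simp⟩

theorem Planar.mono (h : Planar G) (hG : G' ≤ G) : Planar G' :=
  ⟨fun h' => h.1 (h'.mono hG), fun h' => h.2 (h'.mono hG)⟩

theorem Planar.of_minorOn {H : SimpleGraph W} (h : Planar G) (h' : MinorOn H G) : Planar H :=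
  ⟨fun k => h.1 (k.trans_minorOn K5_support h'), fun k => h.2 (k.trans_minorOn K33_support h')⟩

/-- A quotient with connected fibres is a minor. -/
theorem minorOn_map (G : SimpleGraph V) (f : V → W)
    (hf : ∀ a ∈ G.support, ∀ b ∈ G.support, f a = f b → RIn G (f ⁻¹' {f a} ∩ G.support) a b) :
    MinorOn (G.map f) G := by
  refine ⟨fun x => f ⁻¹' {x} ∩ G.support, ?_, ?_, ?_⟩
  · rintro x ⟨y, -, a, b, hab, rfl, rfl⟩
    exact ConnSet.of_root (u := a) ⟨rfl, hab.mem_support_left⟩ fun v hv =>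
      hf a hab.mem_support_left v hv.2 (Eq.symm hv.1)
  · intro x _ y _ hxy
    exact Set.disjoint_left.2 fun v hv hv' => hxy (Eq.trans (Eq.symm hv.1) hv'.1)
  · rintro x y ⟨-, a, b, hab, rfl, rfl⟩
    exact ⟨a, ⟨rfl, hab.mem_support_left⟩, b, ⟨rfl, hab.mem_support_right⟩, hab⟩

theorem Planar.map_of_injOn (h : Planar G) (f : V → W) (hf : Set.InjOn f G.support) :
    Planar (G.map f) :=
  h.of_minorOn (minorOn_map G f fun a ha b hb hab => by
    obtain rfl := hf ha hb hab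
    exact RIn.refl ⟨rfl, ha⟩)

theorem Planar.map_contr (h : Planar G) {K : Set V} {k₀ : V} (hK : ConnSet G K) (hk : k₀ ∈ K) :
    Planar (G.map (contr K k₀)) := by
  refine h.of_minorOn (minorOn_map G _ fun a ha b hb hab => ?_)
  by_cases haK : a ∈ K
  · have hbK : b ∈ K := by
      by_contra hbK
      rw [contr_of_mem haK, contr_of_notMem hbK] at hab
      exact hbK (hab ▸ hk)
    refine (hK.rIn haK hbK).induction (P := fun z => RIn G _ a z) (RIn.refl ⟨rfl, ha⟩) ?_
    intro c d _ hd hcd ih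
    exact ih.tail hcd ⟨by simp [contr_of_mem haK, contr_of_mem hd], hcd.mem_support_right⟩
  · have hbK : b ∉ K := by
      intro hbK
      rw [contr_of_mem hbK, contr_of_notMem haK] at hab
      exact haK (hab ▸ hk)
    rw [contr_of_notMem haK, contr_of_notMem hbK] at hab
    subst hab
    exact RIn.refl ⟨rfl, ha⟩

theorem Planar.comap_of_injOn {H : SimpleGraph W} (h : Planar H) (f : V → W)
    (hf : Set.InjOn f G.support) (hG : ∀ a b, G.Adj a b → H.Adj (f a) (f b)) : Planar G :=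
  h.of_minorOn ⟨fun x => {f x}, fun x _ => connSet_singleton _ _,
    fun x hx y hy hxy => Set.disjoint_singleton.2 fun e => hxy (hf hx hy e),
    fun x y hxy => ⟨_, rfl, _, rfl, hG x y hxy⟩⟩

theorem not_planar_of_K5 (B : Fin 5 → Set V) (h1 : ∀ x, ConnSet G (B x))
    (h2 : ∀ x y, x < y → Disjoint (B x) (B y)) (h3 : ∀ x y, x < y → SAdj G (B x) (B y)) :
    ¬ Planar G := by
  refine fun h => h.1 ⟨B, h1, fun x y hxy => ?_, fun x y hxy => ?_⟩
  · rcases lt_or_gt_of_ne hxy with h | h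
    exacts [h2 x y h, (h2 y x h).symm]
  · rcases lt_or_gt_of_ne hxy.ne with h | h
    exacts [h3 x y h, (h3 y x h).symm]

theorem not_planar_of_K33 (A B : Fin 3 → Set V) (hA : ∀ x, ConnSet G (A x))
    (hB : ∀ x, ConnSet G (B x)) (hAA : ∀ x y, x < y → Disjoint (A x) (A y))
    (hBB : ∀ x y, x < y → Disjoint (B x) (B y)) (hAB : ∀ x y, Disjoint (A x) (B y))
    (h3 : ∀ x y, SAdj G (A x) (B y)) : ¬ Planar G := by
  refine fun h => h.2 ⟨Sum.elim A B, ?_, ?_, ?_⟩
  · rintro (x | x)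
    exacts [hA x, hB x]
  · rintro (x | x) (y | y) hxy
    · rcases lt_or_gt_of_ne (fun e => hxy (congrArg Sum.inl e) : x ≠ y) with h | h
      exacts [hAA x y h, (hAA y x h).symm]
    · exact hAB x y
    · exact (hAB y x).symm
    · rcases lt_or_gt_of_ne (fun e => hxy (congrArg Sum.inr e) : x ≠ y) with h | h
      exacts [hBB x y h, (hBB y x h).symm]
  · rintro (x | x) (y | y) hxy
    · simp at hxy
    · exact h3 x y
    · exact (h3 y x).symm
    · simp at hxy

/-- A restricted walk from `A` to `B` contains an `A`-`B` path. -/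
theorem RIn.exists_AB_path (h : RIn G S u v) (hu : u ∈ A) (hv : v ∈ B) :
    ∃ (a b : V) (p : G.Walk a b), p.IsPath ∧ (∀ x ∈ p.support, x ∈ S) ∧
      (∀ x ∈ p.support, x ∈ A ↔ x = a) ∧ (∀ x ∈ p.support, x ∈ B ↔ x = b) := by
  classical
  have hex : ∃ n, ∃ (a b : V) (p : G.Walk a b), a ∈ A ∧ b ∈ B ∧ (∀ x ∈ p.support, x ∈ S) ∧
      p.length = n := by
    obtain ⟨p, hp⟩ := h
    exact ⟨_, u, v, p, hu, hv, hp, rfl⟩
  obtain ⟨a, b, p, ha, hb, hp, hlen⟩ := Nat.find_spec hex
  have hmin : ∀ (a' b' : V) (q : G.Walk a' b'), a' ∈ A → b' ∈ B → (∀ x ∈ q.support, x ∈ S) →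
      p.length ≤ q.length := fun a' b' q ha' hb' hq =>
    hlen ▸ Nat.find_min' hex ⟨a', b', q, ha', hb', hq, rfl⟩
  have hpath : p.IsPath := by
    have h1 := hmin a b p.bypass ha hb fun x hx => hp x (p.support_bypass_subset hx)
    have h2 := p.bypass_eq_self_of_length_le h1
    exact h2 ▸ p.bypass_isPath
  refine ⟨a, b, p, hpath, hp, fun x hx => ⟨fun hxA => ?_, fun e => e ▸ ha⟩,
    fun x hx => ⟨fun hxB => ?_, fun e => e ▸ hb⟩⟩
  · have h1 := hmin x b (p.dropUntil x hx) hxA hb fun y hy => hp y (p.support_dropUntil_subset hx hy)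
    have h2 := congrArg Walk.length (p.take_spec hx)
    rw [Walk.length_append] at h2
    exact (Walk.eq_of_length_eq_zero (p := p.takeUntil x hx) (by omega)).symm
  · have h1 := hmin a x (p.takeUntil x hx) ha hxB fun y hy => hp y (p.support_takeUntil_subset hx hy)
    have h2 := congrArg Walk.length (p.take_spec hx)
    rw [Walk.length_append] at h2
    exact Walk.eq_of_length_eq_zero (p := p.dropUntil x hx) (by omega)

/-- Disjoint connected sets meeting `A` and `B` contain a path system. -/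
theorem PathSys.exists_of_sets {ι : Type} (T : ι → Set V)
    (hT : ∀ i, ∃ a ∈ A, ∃ b ∈ B, RIn G (T i) a b) (hd : ∀ i j, i ≠ j → Disjoint (T i) (T j)) :
    ∃ P : PathSys G A B ι, ∀ i, ∀ x ∈ (P.p i).support, x ∈ T i := by
  choose a ha b hb hr using hT
  choose s t p h1 h2 h3 h4 using fun i => (hr i).exists_AB_path (ha i) (hb i)
  exact ⟨⟨s, t, p, h1, h3, h4, fun i j hij x hx hx' =>
    Set.disjoint_left.1 (hd i j hij) (h2 i x hx) (h2 j x hx')⟩, h2⟩

theorem PathSys.s_mem {ι : Type} (P : PathSys G A B ι) (i : ι) : P.s i ∈ A :=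
  (P.memA i _ (P.p i).start_mem_support).2 rfl

theorem PathSys.t_mem {ι : Type} (P : PathSys G A B ι) (i : ι) : P.t i ∈ B :=
  (P.memB i _ (P.p i).end_mem_support).2 rfl

/-- A subfamily of a path system. -/
def PathSys.sub {ι κ : Type} (P : PathSys G A B ι) (f : κ → ι) (hf : Function.Injective f) :
    PathSys G A B κ :=
  ⟨fun i => P.s (f i), fun i => P.t (f i), fun i => P.p (f i), fun i => P.isPath _,
    fun i => P.memA _, fun i => P.memB _, fun i j hij => P.disj _ _ fun e => hij (hf e)⟩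

end Pool.Agent.Lib.Common.Pl
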