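import Pool.Agent.Lib.Common.Planar.Basic

/-! Cycles as periodic sequences. -/

namespace Pool.Agent.Lib.Common.Pl

open SimpleGraph

variable {V : Type} {G G' : SimpleGraph V}

namespace Cyc

variable (C : Cyc G)

theorem c_add_mul (i m : ℕ) : C.c (i + m * C.n) = C.c i := by
  induction m with
  | zero => simp
  | succ m ih => rw [Nat.succ_mul, ← add_assoc, C.per, ih]

theorem c_mod (i : ℕ) : C.c (i % C.n) = C.c i := by
  conv_rhs => rw [← Nat.mod_add_div' i C.n]
  exact (C.c_add_mul _ _).symm

theorem n_pos : 0 < C.n := by have := C.three_le; omega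

theorem c_eq_iff {i j : ℕ} : C.c i = C.c j ↔ i % C.n = j % C.n := by
  constructor
  · intro h
    exact C.inj _ _ (Nat.mod_lt _ C.n_pos) (Nat.mod_lt _ C.n_pos)
      (by rw [C.c_mod, C.c_mod, h])
  · intro h
    rw [← C.c_mod i, h, C.c_mod]

/-- Injectivity on any window of length `n`. -/
theorem inj' {i j : ℕ} (h : C.c i = C.c j) (hij : i < j + C.n) (hji : j < i + C.n) : i = j := by
  rw [c_eq_iff] at h
  rcases le_total i j with h' | h'
  · have := (Nat.modEq_iff_dvd' h').1 h
    have := Nat.eq_zero_of_dvd_of_lt this (by omega)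
    omega
  · have := (Nat.modEq_iff_dvd' h').1 h.symm
    have := Nat.eq_zero_of_dvd_of_lt this (by omega)
    omega

theorem c_mem_verts (i : ℕ) : C.c i ∈ C.verts := ⟨i, rfl⟩

/-- Every vertex of the cycle has a position in any window of length `n`. -/
theorem exists_pos {v : V} (hv : v ∈ C.verts) (i : ℕ) :
    ∃ j, i ≤ j ∧ j < i + C.n ∧ C.c j = v := by
  obtain ⟨j, rfl⟩ := hv
  have hn := C.n_pos
  refine ⟨i + (j + i * C.n - i) % C.n, by omega, by have := Nat.mod_lt (j + i * C.n - i) hn; omega, ?_⟩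
  rw [← C.c_add_mul j i, c_eq_iff, Nat.add_mod_mod]
  congr 1
  have : i ≤ i * C.n := Nat.le_mul_of_pos_right _ hn
  omega

theorem graph_adj_succ (i : ℕ) : C.graph.Adj (C.c i) (C.c (i + 1)) := ⟨i, Or.inl ⟨rfl, rfl⟩⟩

theorem graph_le : C.graph ≤ G := by
  rintro a b ⟨i, ⟨rfl, rfl⟩ | ⟨rfl, rfl⟩⟩
  exacts [C.adj i, (C.adj i).symm]

theorem support_graph : C.graph.support = C.verts := by
  ext v
  constructor
  · rintro ⟨w, i, ⟨rfl, rfl⟩ | ⟨rfl, rfl⟩⟩ <;> exact C.c_mem_verts _
  · rintro ⟨i, rfl⟩
    exact ⟨_, C.graph_adj_succ i⟩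

theorem mem_arc {i j : ℕ} {v : V} : v ∈ C.arc i j ↔ ∃ l, i ≤ l ∧ l ≤ j ∧ C.c l = v := by
  simp [arc, and_assoc]

theorem c_mem_arc {i j l : ℕ} (h1 : i ≤ l) (h2 : l ≤ j) : C.c l ∈ C.arc i j :=
  C.mem_arc.2 ⟨l, h1, h2, rfl⟩

theorem arc_subset_verts (i j : ℕ) : C.arc i j ⊆ C.verts := Set.image_subset_range _ _

theorem arc_mono {i j i' j' : ℕ} (h1 : i' ≤ i) (h2 : j ≤ j') : C.arc i j ⊆ C.arc i' j' :=
  Set.image_mono (Set.Icc_subset_Icc h1 h2)

theorem verts_eq_arc (i : ℕ) : C.verts = C.arc i (i + C.n - 1) := by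
  refine Set.Subset.antisymm (fun v hv => ?_) (C.arc_subset_verts _ _)
  obtain ⟨j, h1, h2, rfl⟩ := C.exists_pos hv i
  exact C.c_mem_arc h1 (by omega)

theorem c_notMem_arc {i j l : ℕ} (h1 : j < l) (h2 : l < i + C.n) : C.c l ∉ C.arc i j := by
  rw [mem_arc]
  rintro ⟨m, k1, k2, h⟩
  have := C.inj' h (by omega) (by omega)
  omega

theorem c_notMem_arc' {i j l : ℕ} (h1 : l < i) (h2 : j < l + C.n) : C.c l ∉ C.arc i j := by
  rw [mem_arc]
  rintro ⟨m, k1, k2, h⟩
  have := C.inj' h (by omega) (by omega)
  omega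

theorem disjoint_arc {i j k l : ℕ} (h1 : j < k) (h2 : l < i + C.n) :
    Disjoint (C.arc i j) (C.arc k l) := by
  rw [Set.disjoint_right]
  intro v hv
  obtain ⟨m, k1, k2, rfl⟩ := C.mem_arc.1 hv
  exact C.c_notMem_arc (by omega) (by omega)

theorem rIn_arc_graph {i j l : ℕ} (h1 : i ≤ l) (h2 : l ≤ j) :
    RIn C.graph (C.arc i j) (C.c i) (C.c l) := by
  induction l, h1 using Nat.le_induction with
  | base => exact RIn.refl (C.c_mem_arc le_rfl h2)
  | succ l hl ih =>
    exact (ih (by omega)).tail (C.graph_adj_succ l) (C.c_mem_arc (by omega) h2)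

theorem connSet_arc_graph {i j : ℕ} (h : i ≤ j) : ConnSet C.graph (C.arc i j) :=
  ConnSet.of_root (C.c_mem_arc le_rfl h) fun v hv => by
    obtain ⟨l, h1, h2, rfl⟩ := C.mem_arc.1 hv
    exact C.rIn_arc_graph h1 h2

theorem connSet_arc {i j : ℕ} (h : i ≤ j) : ConnSet G (C.arc i j) :=
  (C.connSet_arc_graph h).mono_graph C.graph_le

theorem rIn_arc {i j : ℕ} (h : i ≤ j) : RIn G (C.arc i j) (C.c i) (C.c j) :=
  (C.rIn_arc_graph h le_rfl).mono_graph C.graph_le

theorem connSet_verts_graph : ConnSet C.graph C.verts := by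
  rw [C.verts_eq_arc 0]
  exact C.connSet_arc_graph (Nat.zero_le _)

theorem connSet_verts : ConnSet G C.verts := C.connSet_verts_graph.mono_graph C.graph_le

theorem sAdj_arc {i j l : ℕ} (h1 : i ≤ j) (h2 : j + 1 ≤ l) :
    SAdj G (C.arc i j) (C.arc (j + 1) l) :=
  ⟨_, C.c_mem_arc h1 le_rfl, _, C.c_mem_arc le_rfl h2, C.adj j⟩

theorem arc_add_n (i j : ℕ) : C.arc (i + C.n) (j + C.n) = C.arc i j := by
  ext v
  simp only [mem_arc]
  constructor
  · rintro ⟨l, h1, h2, rfl⟩
    refine ⟨l - C.n, by omega, by omega, ?_⟩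
    rw [← C.per (l - C.n)]
    congr 1
    omega
  · rintro ⟨l, h1, h2, rfl⟩
    exact ⟨l + C.n, by omega, by omega, C.per l⟩

/-- The walk along the cycle from position `i` to position `i + m`. -/
def walk (i : ℕ) : (m : ℕ) → C.graph.Walk (C.c i) (C.c (i + m))
  | 0 => Walk.nil
  | m + 1 => (walk i m).concat (C.graph_adj_succ (i + m))

theorem mem_support_walk (i m : ℕ) {v : V} : v ∈ (C.walk i m).support ↔ v ∈ C.arc i (i + m) := by
  induction m with
  | zero => simp [walk, arc]
  | succ m ih =>
    simp only [walk, Walk.support_concat, List.mem_append, List.mem_singleton, ih, mem_arc]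
    constructor
    · rintro (⟨l, h1, h2, rfl⟩ | rfl)
      · exact ⟨l, h1, by omega, rfl⟩
      · exact ⟨i + m + 1, by omega, by omega, rfl⟩
    · rintro ⟨l, h1, h2, rfl⟩
      by_cases h : l = i + m + 1
      · exact Or.inr (by rw [h]; rfl)
      · exact Or.inl ⟨l, h1, by omega, rfl⟩

theorem length_walk (i m : ℕ) : (C.walk i m).length = m := by
  induction m with
  | zero => rfl
  | succ m ih => simp [walk, ih]

theorem isPath_walk (i : ℕ) {m : ℕ} (hm : m < C.n) : (C.walk i m).IsPath := by
  induction m with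
  | zero => exact Walk.IsPath.nil
  | succ m ih =>
    refine (Walk.concat_isPath_iff _).2 ⟨ih (by omega), ?_⟩
    rw [mem_support_walk]
    exact C.c_notMem_arc (by omega) (by omega)

/-- The same cycle, started at position `s`. -/
def rot (s : ℕ) : Cyc G where
  n := C.n
  c i := C.c (s + i)
  three_le := C.three_le
  adj i := C.adj (s + i)
  per i := by rw [← add_assoc, C.per]
  inj i j hi hj h := by have := C.inj' h (by omega) (by omega); omega

@[simp] theorem rot_n (s : ℕ) : (C.rot s).n = C.n := rfl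

@[simp] theorem rot_c (s i : ℕ) : (C.rot s).c i = C.c (s + i) := rfl

@[simp] theorem rot_verts (s : ℕ) : (C.rot s).verts = C.verts := by
  ext v
  constructor
  · rintro ⟨i, rfl⟩
    exact C.c_mem_verts _
  · intro hv
    obtain ⟨j, h1, -, rfl⟩ := C.exists_pos hv s
    exact ⟨j - s, by simp [Nat.add_sub_cancel' h1]⟩

@[simp] theorem rot_graph (s : ℕ) : (C.rot s).graph = C.graph := by
  ext a b
  constructor
  · rintro ⟨i, h⟩
    exact ⟨s + i, h⟩
  · rintro ⟨i, h⟩
    obtain ⟨j, h1, -, hj⟩ := C.exists_pos (C.c_mem_verts i) s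
    have hj' : C.c (j + 1) = C.c (i + 1) := by
      rw [c_eq_iff] at hj ⊢
      rw [Nat.add_mod, hj, ← Nat.add_mod]
    refine ⟨j - s, ?_⟩
    simp only [rot_c, ← add_assoc, Nat.add_sub_cancel' h1, hj, hj']
    exact h

/-- The same cycle in any graph containing its edges. -/
def transfer (G' : SimpleGraph V) (h : C.graph ≤ G') : Cyc G' where
  n := C.n
  c := C.c
  three_le := C.three_le
  adj i := h (C.graph_adj_succ i)
  per := C.per
  inj := C.inj

@[simp] theorem transfer_n (h : C.graph ≤ G') : (C.transfer G' h).n = C.n := rfl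

@[simp] theorem transfer_c (h : C.graph ≤ G') : (C.transfer G' h).c = C.c := rfl

@[simp] theorem transfer_verts (h : C.graph ≤ G') : (C.transfer G' h).verts = C.verts := rfl

@[simp] theorem transfer_graph (h : C.graph ≤ G') : (C.transfer G' h).graph = C.graph := rfl

@[simp] theorem transfer_arc (h : C.graph ≤ G') (i j : ℕ) :
    (C.transfer G' h).arc i j = C.arc i j := rfl

theorem ncard_verts : C.verts.ncard = C.n := by
  have : C.verts = C.c '' (Finset.range C.n : Set ℕ) := by
    ext v
    constructor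
    · intro hv
      obtain ⟨j, -, h2, rfl⟩ := C.exists_pos hv 0
      exact ⟨j, by simpa using h2, rfl⟩
    · rintro ⟨j, -, rfl⟩
      exact C.c_mem_verts j
  rw [this, Set.InjOn.ncard_image, Set.ncard_coe_finset, Finset.card_range]
  intro i hi j hj h
  exact C.inj i j (by simpa using hi) (by simpa using hj) h

end Cyc

/-- A finite injective sequence whose consecutive terms are adjacent and whose ends are adjacent
gives a cycle. -/
theorem exists_cyc_of_seq (q : ℕ → V) (n : ℕ) (hn : 3 ≤ n)
    (hadj : ∀ i, i + 1 < n → G.Adj (q i) (q (i + 1))) (hlast : G.Adj (q (n - 1)) (q 0))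
    (hinj : ∀ i j, i < n → j < n → q i = q j → i = j) :
    ∃ C : Cyc G, C.n = n ∧ ∀ i < n, C.c i = q i := by
  refine ⟨⟨n, fun i => q (i % n), hn, fun i => ?_, fun i => by simp, fun i j hi hj h => ?_⟩, rfl,
    fun i hi => by simp [Nat.mod_eq_of_lt hi]⟩
  · have hlt := Nat.mod_lt i (show 0 < n by omega)
    by_cases h : i % n + 1 < n
    · have : (i + 1) % n = i % n + 1 := by
        rw [Nat.add_mod, Nat.mod_eq_of_lt (show 1 < n by omega), Nat.mod_eq_of_lt h]
      rw [this]
      exact hadj _ h
    · have h1 : i % n = n - 1 := by omega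
      have : (i + 1) % n = 0 := by
        rw [Nat.add_mod, Nat.mod_eq_of_lt (show 1 < n by omega), h1,
          Nat.sub_add_cancel (by omega), Nat.mod_self]
      rw [this, h1]
      exact hlast
  · simp only [Nat.mod_eq_of_lt hi, Nat.mod_eq_of_lt hj] at h
    exact hinj i j hi hj h

/-- Two paths with common ends and no other common vertex form a cycle; the first path occupies
the positions `0, …, p.length`. -/
theorem exists_cyc_of_paths {a b : V} (p : G.Walk a b) (q : G.Walk b a) (hp : p.IsPath)
    (hq : q.IsPath) (hpq : ∀ x ∈ p.support, x ∈ q.support → x = a ∨ x = b) (hab : a ≠ b)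
    (hlen : 3 ≤ p.length + q.length) :
    ∃ C : Cyc G, C.n = p.length + q.length ∧ (∀ i ≤ p.length, C.c i = p.getVert i) ∧
      (∀ i ≤ q.length, C.c (p.length + i) = q.getVert i) ∧
      C.verts = {x | x ∈ p.support ∨ x ∈ q.support} := by
  have hq0 : 0 < q.length := Nat.pos_of_ne_zero fun h => hab (Walk.eq_of_length_eq_zero h).symm
  have hp0 : 0 < p.length := Nat.pos_of_ne_zero fun h => hab (Walk.eq_of_length_eq_zero h)
  set w := p.append q with hw
  have hwl : w.length = p.length + q.length := Walk.length_append p q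
  have h1 : ∀ i ≤ p.length, w.getVert i = p.getVert i := by
    intro i hi
    rw [hw, Walk.getVert_append]
    split_ifs with h
    · rfl
    · obtain rfl : i = p.length := by omega
      simp
  have h2 : ∀ i, w.getVert (p.length + i) = q.getVert i := by
    intro i
    rw [hw, Walk.getVert_append]
    simp
  obtain ⟨C, hn, hc⟩ := exists_cyc_of_seq (G := G) w.getVert (p.length + q.length) hlen
    (fun i hi => w.adj_getVert_succ (by omega))
    (by
      have := w.adj_getVert_succ (i := p.length + q.length - 1) (by omega)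
      rw [Nat.sub_add_cancel (by omega), ← hwl, Walk.getVert_length] at this
      rw [Walk.getVert_zero, ← hwl]
      exact this)
    (by
      have key : ∀ i j, i ≤ p.length → p.length < j → j < p.length + q.length →
          w.getVert i ≠ w.getVert j := by
        intro i j hi hj hj' h
        obtain ⟨j, rfl⟩ : ∃ l, j = p.length + l := ⟨j - p.length, by omega⟩
        rw [h1 i hi, h2] at h
        rcases hpq _ (p.getVert_mem_support i) (h ▸ q.getVert_mem_support j) with e | e
        · have := hq.getVert_injOn (x₁ := j) (x₂ := q.length) (by simp; omega) (by simp)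
            (by rw [← h, e, Walk.getVert_length])
          omega
        · have := hq.getVert_injOn (x₁ := j) (x₂ := 0) (by simp; omega) (by simp)
            (by rw [← h, e, Walk.getVert_zero])
          omega
      intro i j hi hj h
      by_cases hi' : i ≤ p.length <;> by_cases hj' : j ≤ p.length
      · rw [h1 i hi', h1 j hj'] at h
        exact hp.getVert_injOn (by simpa using hi') (by simpa using hj') h
      · exact absurd h (key i j hi' (by omega) hj)
      · exact absurd h.symm (key j i hj' (by omega) hi)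
      · obtain ⟨i, rfl⟩ : ∃ l, i = p.length + l := ⟨i - p.length, by omega⟩
        obtain ⟨j, rfl⟩ : ∃ l, j = p.length + l := ⟨j - p.length, by omega⟩
        rw [h2, h2] at h
        have := hq.getVert_injOn (x₁ := i) (x₂ := j) (by simp; omega) (by simp; omega) h
        omega)
  have hq' : ∀ i ≤ q.length, C.c (p.length + i) = q.getVert i := by
    intro i hi
    by_cases h : i < q.length
    · rw [hc _ (by omega), h2]
    · obtain rfl : i = q.length := by omega
      rw [← hn, ← zero_add C.n, C.per, hc 0 (by omega)]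
      simp
  refine ⟨C, hn, fun i hi => by rw [hc i (by omega), h1 i hi], hq', ?_⟩
  ext x
  constructor
  · intro hx
    obtain ⟨j, -, hj, rfl⟩ := C.exists_pos hx 0
    by_cases h : j ≤ p.length
    · exact Or.inl (by rw [hc j (by omega), h1 j h]; exact p.getVert_mem_support j)
    · obtain ⟨j, rfl⟩ : ∃ l, j = p.length + l := ⟨j - p.length, by omega⟩
      exact Or.inr (by rw [hq' j (by omega)]; exact q.getVert_mem_support j)
  · rintro (hx | hx)
    · obtain ⟨i, rfl, hi⟩ := Walk.mem_support_iff_exists_getVert.1 hx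
      exact ⟨i, by rw [hc i (by omega), h1 i hi]⟩
    · obtain ⟨i, rfl, hi⟩ := Walk.mem_support_iff_exists_getVert.1 hx
      exact ⟨p.length + i, hq' i hi⟩

end Pool.Agent.Lib.Common.Pl
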