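import Mathlib

/-!
Definitions for the planarity library.  All graphs live on types in `Type`.
`Planar` means: no `K₅` minor and no `K₃,₃` minor.
-/

namespace Pool.Agent.Lib.Common.Pl

open SimpleGraph

variable {V W : Type}

/-- `u` and `v` are joined by a walk all of whose vertices lie in `S`. -/
def RIn (G : SimpleGraph V) (S : Set V) (u v : V) : Prop :=
  ∃ w : G.Walk u v, ∀ x ∈ w.support, x ∈ S

/-- `S` is nonempty and induces a connected subgraph. -/
def ConnSet (G : SimpleGraph V) (S : Set V) : Prop :=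
  S.Nonempty ∧ ∀ u ∈ S, ∀ v ∈ S, RIn G S u v

/-- Some vertex of `A` is adjacent to some vertex of `B`. -/
def SAdj (G : SimpleGraph V) (A B : Set V) : Prop :=
  ∃ a ∈ A, ∃ b ∈ B, G.Adj a b

/-- The component of `u` in the subgraph induced on `S`. -/
def comp (G : SimpleGraph V) (S : Set V) (u : V) : Set V :=
  {v | RIn G S u v}

/-- The outer boundary of `U`. -/
def bd (G : SimpleGraph V) (U : Set V) : Set V :=
  {x | x ∉ U ∧ ∃ u ∈ U, G.Adj x u}

/-- The edges with both ends in `S`. -/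
def res (G : SimpleGraph V) (S : Set V) : SimpleGraph V where
  Adj a b := G.Adj a b ∧ a ∈ S ∧ b ∈ S
  symm := ⟨fun _ _ h => ⟨h.1.symm, h.2.2, h.2.1⟩⟩
  loopless := ⟨fun _ h => h.1.ne rfl⟩

/-- The edges with at least one end in `U`. -/
def inc (G : SimpleGraph V) (U : Set V) : SimpleGraph V where
  Adj a b := G.Adj a b ∧ (a ∈ U ∨ b ∈ U)
  symm := ⟨fun _ _ h => ⟨h.1.symm, h.2.symm⟩⟩
  loopless := ⟨fun _ h => h.1.ne rfl⟩

open Classical in
/-- The map contracting `K` to the vertex `k₀`. -/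
noncomputable def contr (K : Set V) (k₀ : V) : V → V :=
  fun v => if v ∈ K then k₀ else v

/-- `F` is a minor of `G`. -/
def HasMinor (F : SimpleGraph W) (G : SimpleGraph V) : Prop :=
  ∃ B : W → Set V, (∀ x, ConnSet G (B x)) ∧ (∀ x y, x ≠ y → Disjoint (B x) (B y)) ∧
    ∀ x y, F.Adj x y → SAdj G (B x) (B y)

/-- `F` without its isolated vertices is a minor of `G`. -/
def MinorOn (F : SimpleGraph W) (G : SimpleGraph V) : Prop :=
  ∃ B : W → Set V, (∀ x ∈ F.support, ConnSet G (B x)) ∧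
    (∀ x ∈ F.support, ∀ y ∈ F.support, x ≠ y → Disjoint (B x) (B y)) ∧
    ∀ x y, F.Adj x y → SAdj G (B x) (B y)

/-- The complete graph on five vertices. -/
abbrev K5 : SimpleGraph (Fin 5) := ⊤

/-- The complete bipartite graph `K₃,₃`. -/
abbrev K33 : SimpleGraph (Fin 3 ⊕ Fin 3) := completeBipartiteGraph (Fin 3) (Fin 3)

/-- Planarity in Wagner's form. -/
def Planar (G : SimpleGraph V) : Prop :=
  ¬ HasMinor K5 G ∧ ¬ HasMinor K33 G

/-- A van Kampen cochain: `a u x` is the direction from `u` to `x` and `θ u x y` is the angle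
swept, as seen from `u`, by the oriented edge from `x` to `y`; the unit is a half turn and
angles are taken modulo two full turns. -/
structure VK (G : SimpleGraph V) where
  a : V → V → ZMod 4
  θ : V → V → V → ZMod 4
  a_anti : ∀ u x, u ≠ x → 2 * a x u = 2 * a u x + 2
  θ_anti : ∀ u x y, G.Adj x y → u ≠ x → u ≠ y → θ u y x = - θ u x y
  parity : ∀ u x y, G.Adj x y → u ≠ x → u ≠ y → 2 * θ u x y = 2 * (a u y - a u x)
  sq : ∀ x y u v, G.Adj x y → G.Adj u v → u ≠ x → u ≠ y → v ≠ x → v ≠ y →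
    θ u x y + θ y u v - θ v x y - θ x u v = 0

/-- The van Kampen obstruction of `G` vanishes. -/
def IsVK (G : SimpleGraph V) : Prop := Nonempty (VK G)

/-- A cycle, given as a periodic sequence of vertices. -/
structure Cyc (G : SimpleGraph V) where
  n : ℕ
  c : ℕ → V
  three_le : 3 ≤ n
  adj : ∀ i, G.Adj (c i) (c (i + 1))
  per : ∀ i, c (i + n) = c i
  inj : ∀ i j, i < n → j < n → c i = c j → i = j

namespace Cyc

variable {G : SimpleGraph V} (C : Cyc G)

/-- The vertex set of a cycle. -/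
def verts : Set V := Set.range C.c

/-- The vertices in positions `i, …, j`. -/
def arc (i j : ℕ) : Set V := C.c '' Set.Icc i j

/-- The edges of a cycle. -/
def graph : SimpleGraph V where
  Adj a b := ∃ i, (a = C.c i ∧ b = C.c (i + 1)) ∨ (b = C.c i ∧ a = C.c (i + 1))
  symm := ⟨fun _ _ ⟨i, h⟩ => ⟨i, h.symm⟩⟩
  loopless := ⟨fun _ ⟨i, h⟩ => by
    rcases h with ⟨h1, h2⟩ | ⟨h1, h2⟩ <;> exact (C.adj i).ne (h1.symm.trans h2)⟩

end Cyc

/-- A family of pairwise disjoint `A`-`B` paths. -/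
structure PathSys (G : SimpleGraph V) (A B : Set V) (ι : Type) where
  s : ι → V
  t : ι → V
  p : ∀ i, G.Walk (s i) (t i)
  isPath : ∀ i, (p i).IsPath
  memA : ∀ i, ∀ x ∈ (p i).support, x ∈ A ↔ x = s i
  memB : ∀ i, ∀ x ∈ (p i).support, x ∈ B ↔ x = t i
  disj : ∀ i j, i ≠ j → ∀ x ∈ (p i).support, x ∉ (p j).support

/-- `S` meets every walk from `A` to `B`. -/
def Sep (G : SimpleGraph V) (A B S : Set V) : Prop :=
  ∀ a ∈ A, ∀ b ∈ B, ¬ RIn G Sᶜ a b

/-- `G` has an `r × r` grid minor. -/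
def Grid (G : SimpleGraph V) (r : ℕ) : Prop :=
  ∃ B : ℕ → ℕ → Set V, (∀ i < r, ∀ j < r, ConnSet G (B i j)) ∧
    (∀ i < r, ∀ j < r, ∀ i' < r, ∀ j' < r, (i, j) ≠ (i', j') → Disjoint (B i j) (B i' j')) ∧
    (∀ i j, i + 1 < r → j < r → SAdj G (B i j) (B (i + 1) j)) ∧
    (∀ i j, i < r → j + 1 < r → SAdj G (B i j) (B i (j + 1)))

/-- A recursive decomposition along small boundaries (a form of bounded tree-width). -/
def Dec (G : SimpleGraph V) (w : ℕ) : Prop :=
  ∃ 𝒰 : Set (Set V), (∃ U ∈ 𝒰, Uᶜ.ncard ≤ w) ∧ ∀ U ∈ 𝒰, (bd G U).ncard ≤ w ∧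
    (U.Nonempty → (∃ Z, Z ⊆ U ∧ Z.Nonempty ∧ Z.ncard ≤ w ∧ U \ Z ∈ 𝒰) ∨
      ∃ U₁ ∈ 𝒰, ∃ U₂ ∈ 𝒰, U₁.Nonempty ∧ U₂.Nonempty ∧ Disjoint U₁ U₂ ∧ U₁ ∪ U₂ = U)

/-- `G` is a planar graph on the vertex set `S` to which no edge inside `S` can be added. -/
def MaxOn (G : SimpleGraph V) (S : Set V) : Prop :=
  Planar G ∧ G.support ⊆ S ∧
    ∀ a ∈ S, ∀ b ∈ S, a ≠ b → ¬ G.Adj a b → ¬ Planar (G ⊔ edge a b)

/-- The graph induced on `S` stays connected after deleting at most two vertices. -/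
def ThreeConnOn (G : SimpleGraph V) (S : Set V) : Prop :=
  ∀ a b : V, ConnSet G (S \ {a, b})

/-- Three linear orders (given by ranks) witnessing Schnyder's dimension condition on `S`. -/
def Realizer (G : SimpleGraph V) (S : Set V) (r : Fin 3 → V → ℕ) : Prop :=
  (∀ i, Set.InjOn (r i) S) ∧
    ∀ x y z, G.Adj x y → z ∈ S → z ≠ x → z ≠ y → ∃ i, r i x < r i z ∧ r i y < r i z

/-- A straight-line drawing without crossings. -/
def Straight (G : SimpleGraph V) (pos : V → ℝ × ℝ) : Prop :=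
  Function.Injective pos ∧
    (∀ x y z, G.Adj x y → z ≠ x → z ≠ y → pos z ∉ segment ℝ (pos x) (pos y)) ∧
    ∀ x y u v, G.Adj x y → G.Adj u v → s(x, y) ≠ s(u, v) →
      ∀ q ∈ segment ℝ (pos x) (pos y), q ∈ segment ℝ (pos u) (pos v) → q ∈ Set.range pos

end Pool.Agent.Lib.Common.Pl
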