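import Pool.Agent.Lib.Common.Planar.Schnyder

/-! Straight-line drawings of planar graphs. -/

namespace Pool.Agent.Lib.Common.Pl

open SimpleGraph

variable {V : Type} {G : SimpleGraph V}

/-- Two segments with a common end meet in that end only, unless they overlap. -/
private theorem draw_share {x y v q : ℝ × ℝ} (h1 : q ∈ segment ℝ x y) (h2 : q ∈ segment ℝ x v) :
    q = x ∨ v ∈ segment ℝ x y ∨ y ∈ segment ℝ x v := by
  have key : ∀ {y v : ℝ × ℝ} {s t : ℝ}, 0 ≤ s → s ≤ t → 0 < t →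
      x + s • (y - x) = x + t • (v - x) → v ∈ segment ℝ x y := by
    intro y v s t hs hst ht e
    rw [segment_eq_image']
    refine ⟨s / t, ⟨by positivity, (div_le_one ht).2 hst⟩, ?_⟩
    have e' : s • (y - x) = t • (v - x) := add_left_cancel e
    have : (s / t) • (y - x) = v - x := by
      rw [div_eq_inv_mul, mul_smul, e', smul_smul, inv_mul_cancel₀ ht.ne', one_smul]
    simp only [this, add_sub_cancel]
  rw [segment_eq_image'] at h1 h2
  obtain ⟨s, ⟨hs0, -⟩, hs⟩ := h1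
  obtain ⟨t, ⟨ht0, -⟩, ht⟩ := h2
  simp only at hs ht
  rcases ht0.eq_or_lt with rfl | ht0'
  · left; rw [← ht]; simp
  rcases hs0.eq_or_lt with rfl | hs0'
  · left; rw [← hs]; simp
  rcases le_total s t with h | h
  · exact Or.inr (Or.inl (key hs0 h ht0' (hs.trans ht.symm)))
  · exact Or.inr (Or.inr (key ht0 h hs0' (ht.trans hs.symm)))

private theorem draw_pow {m n : ℕ} (h : m < n) : 2 * (2 : ℝ) ^ m ≤ 2 ^ n := by
  rw [← pow_succ']
  exact pow_le_pow_right₀ (by norm_num) h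

/-- Convex combinations are separated when both ends are. -/
private theorem draw_sep {a b c d s t s' t' : ℝ} (hs : 0 ≤ s) (ht : 0 ≤ t) (hst : s + t = 1)
    (hs' : 0 ≤ s') (ht' : 0 ≤ t') (hst' : s' + t' = 1) (h1 : a < c) (h2 : a < d) (h3 : b < c)
    (h4 : b < d) : s * a + t * b ≠ s' * c + t' * d := by
  have e1 : s * a + t * b ≤ max a b := by
    have := mul_le_mul_of_nonneg_left (le_max_left a b) hs
    have := mul_le_mul_of_nonneg_left (le_max_right a b) ht
    have e : s * max a b + t * max a b = max a b := by rw [← add_mul, hst, one_mul]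
    linarith
  have e2 : min c d ≤ s' * c + t' * d := by
    have := mul_le_mul_of_nonneg_left (min_le_left c d) hs'
    have := mul_le_mul_of_nonneg_left (min_le_right c d) ht'
    have e : s' * min c d + t' * min c d = min c d := by rw [← add_mul, hst', one_mul]
    linarith
  have e3 : max a b < min c d := max_lt (lt_min h1 h2) (lt_min h3 h4)
  exact (e1.trans_lt (e3.trans_le e2)).ne

/-- The corner case. -/
private theorem draw_corner {x0 x1 y0 y1 u0 u1 v0 v1 s t s' t' : ℝ} (hs : 0 ≤ s) (ht : 0 ≤ t)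
    (hst : s + t = 1) (hs' : 0 ≤ s') (ht' : 0 ≤ t') (hst' : s' + t' = 1) (hx0 : 0 < x0)
    (hx1 : 0 < x1) (hy0 : 0 < y0) (hy1 : 0 < y1) (h1 : 2 * u0 ≤ x0) (h2 : 2 * v0 ≤ x0)
    (h3 : 2 * u1 ≤ y1) (h4 : 2 * v1 ≤ y1) (e0 : s * x0 + t * y0 = s' * u0 + t' * v0)
    (e1 : s * x1 + t * y1 = s' * u1 + t' * v1) : False := by
  have k0 : 2 * (s * x0 + t * y0) ≤ x0 := by
    rw [e0]
    have := mul_le_mul_of_nonneg_left h1 hs'
    have := mul_le_mul_of_nonneg_left h2 ht'
    have e : s' * x0 + t' * x0 = x0 := by rw [← add_mul, hst', one_mul]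
    linarith
  have k1 : 2 * (s * x1 + t * y1) ≤ y1 := by
    rw [e1]
    have := mul_le_mul_of_nonneg_left h3 hs'
    have := mul_le_mul_of_nonneg_left h4 ht'
    have e : s' * y1 + t' * y1 = y1 := by rw [← add_mul, hst', one_mul]
    linarith
  have hty := mul_nonneg ht hy0.le
  have hsx := mul_nonneg hs hx1.le
  have a1 : 2 * s ≤ 1 := by
    by_contra hc
    have := mul_pos (show 0 < 2 * s - 1 by linarith) hx0
    nlinarith
  have a2 : 2 * t ≤ 1 := by
    by_contra hc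
    have := mul_pos (show 0 < 2 * t - 1 by linarith) hy1
    nlinarith
  have a3 : s = 1 / 2 := by linarith
  have a4 : t = 1 / 2 := by linarith
  rw [a3, a4] at k0
  linarith

private theorem draw_low {r : Fin 3 → V → ℕ} {x y u v : V} {q : ℝ × ℝ}
    (hq : q ∈ segment ℝ ((2 : ℝ) ^ r 0 x, (2 : ℝ) ^ r 1 x) ((2 : ℝ) ^ r 0 y, (2 : ℝ) ^ r 1 y))
    (hq' : q ∈ segment ℝ ((2 : ℝ) ^ r 0 u, (2 : ℝ) ^ r 1 u) ((2 : ℝ) ^ r 0 v, (2 : ℝ) ^ r 1 v))
    {k l : Fin 3} (hk2 : k ≠ 2) (hl2 : l ≠ 2) (hk : r k u < r k x ∧ r k v < r k x)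
    (hl : r l u < r l y ∧ r l v < r l y) : False := by
  obtain ⟨s, t, hs, ht, hst, e⟩ := hq
  obtain ⟨s', t', hs', ht', hst', e'⟩ := hq'
  have ee := e.trans e'.symm
  have e0 := congrArg Prod.fst ee
  have e1 := congrArg Prod.snd ee
  simp only [Prod.fst_add, Prod.snd_add, Prod.smul_fst, Prod.smul_snd, smul_eq_mul] at e0 e1
  have mono : ∀ {m n : ℕ}, m < n → (2 : ℝ) ^ m < 2 ^ n := fun h =>
    pow_lt_pow_right₀ (by norm_num) h
  have hk' : k = 0 ∨ k = 1 := by omega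
  have hl' : l = 0 ∨ l = 1 := by omega
  rcases hk' with rfl | rfl <;> rcases hl' with rfl | rfl
  · exact draw_sep hs' ht' hst' hs ht hst (mono hk.1) (mono hl.1) (mono hk.2) (mono hl.2) e0.symm
  · exact draw_corner hs ht hst hs' ht' hst' (by positivity) (by positivity) (by positivity)
      (by positivity) (draw_pow hk.1) (draw_pow hk.2) (draw_pow hl.1) (draw_pow hl.2) e0 e1
  · exact draw_corner ht hs (by linarith) hs' ht' hst' (by positivity) (by positivity)
      (by positivity) (by positivity) (draw_pow hl.1) (draw_pow hl.2) (draw_pow hk.1)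
      (draw_pow hk.2) ((add_comm _ _).trans e0) ((add_comm _ _).trans e1)
  · exact draw_sep hs' ht' hst' hs ht hst (mono hk.1) (mono hl.1) (mono hk.2) (mono hl.2) e1.symm

private theorem draw_high {r : Fin 3 → V → ℕ} {x y u v : V} {q : ℝ × ℝ}
    (hq : q ∈ segment ℝ ((2 : ℝ) ^ r 0 x, (2 : ℝ) ^ r 1 x) ((2 : ℝ) ^ r 0 y, (2 : ℝ) ^ r 1 y))
    (hq' : q ∈ segment ℝ ((2 : ℝ) ^ r 0 u, (2 : ℝ) ^ r 1 u) ((2 : ℝ) ^ r 0 v, (2 : ℝ) ^ r 1 v))
    {i k l : Fin 3} (hu : r i x < r i u ∧ r i y < r i u) (hv : r i x < r i v ∧ r i y < r i v)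
    (hk : r k u < r k x ∧ r k v < r k x) (hl : r l u < r l y ∧ r l v < r l y) : False := by
  by_cases hi : i = 2
  · subst hi
    refine draw_low hq hq' ?_ ?_ hk hl
    · rintro rfl; omega
    · rintro rfl; omega
  · exact draw_low hq' hq hi hi hu hv

theorem straight_of_realizer {r : Fin 3 → V → ℕ} (h : Realizer G Set.univ r)
    (hanti : ∀ y z, y ≠ z → ∃ i, r i z < r i y) :
    Straight G fun v => ((2 : ℝ) ^ r 0 v, (2 : ℝ) ^ r 1 v) := by
  have hvert : ∀ x y z, G.Adj x y → z ≠ x → z ≠ y →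
      ((2 : ℝ) ^ r 0 z, (2 : ℝ) ^ r 1 z) ∉
        segment ℝ ((2 : ℝ) ^ r 0 x, (2 : ℝ) ^ r 1 x) ((2 : ℝ) ^ r 0 y, (2 : ℝ) ^ r 1 y) := by
    intro x y z hxy hzx hzy hq
    obtain ⟨i, hi⟩ := h.2 x y z hxy (Set.mem_univ _) hzx hzy
    obtain ⟨k, hk⟩ := hanti x z hzx.symm
    obtain ⟨l, hl⟩ := hanti y z hzy.symm
    exact draw_high (u := z) (v := z) hq (left_mem_segment _ _ _) hi hi ⟨hk, hk⟩ ⟨hl, hl⟩
  have hshare : ∀ x y v, G.Adj x y → G.Adj x v → y ≠ v → ∀ q ∈
      segment ℝ ((2 : ℝ) ^ r 0 x, (2 : ℝ) ^ r 1 x) ((2 : ℝ) ^ r 0 y, (2 : ℝ) ^ r 1 y),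
      q ∈ segment ℝ ((2 : ℝ) ^ r 0 x, (2 : ℝ) ^ r 1 x) ((2 : ℝ) ^ r 0 v, (2 : ℝ) ^ r 1 v) →
      q ∈ Set.range fun v => ((2 : ℝ) ^ r 0 v, (2 : ℝ) ^ r 1 v) := by
    intro x y v hxy hxv hyv q hq hq'
    rcases draw_share hq hq' with e | e | e
    · exact ⟨x, e.symm⟩
    · exact absurd e (hvert x y v hxy hxv.ne' hyv.symm)
    · exact absurd e (hvert x v y hxv hxy.ne' hyv)
  refine ⟨fun x y e => ?_, hvert, fun x y u v hxy huv hne q hq hq' => ?_⟩
  · have e0 : (2 : ℝ) ^ r 0 x = 2 ^ r 0 y := congrArg Prod.fst e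
    exact h.1 0 (Set.mem_univ _) (Set.mem_univ _)
      (pow_right_injective₀ (by norm_num) (by norm_num) e0)
  by_cases hux : u = x
  · subst hux
    exact hshare u y v hxy huv (fun e => hne (by rw [e])) q hq hq'
  by_cases huy : u = y
  · subst huy
    rw [segment_symm] at hq
    exact hshare u x v hxy.symm huv (fun e => hne (by rw [e, Sym2.eq_swap])) q hq hq'
  by_cases hvx : v = x
  · subst hvx
    rw [segment_symm] at hq'
    exact hshare v y u hxy huv.symm (Ne.symm huy) q hq hq'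
  by_cases hvy : v = y
  · subst hvy
    rw [segment_symm] at hq hq'
    exact hshare v x u hxy.symm huv.symm (Ne.symm hux) q hq hq'
  exfalso
  obtain ⟨i, hi⟩ := h.2 x y u hxy (Set.mem_univ _) hux huy
  obtain ⟨j, hj⟩ := h.2 x y v hxy (Set.mem_univ _) hvx hvy
  obtain ⟨k, hk⟩ := h.2 u v x huv (Set.mem_univ _) (Ne.symm hux) (Ne.symm hvx)
  obtain ⟨l, hl⟩ := h.2 u v y huv (Set.mem_univ _) (Ne.symm huy) (Ne.symm hvy)
  have hik : i ≠ k := by rintro rfl; omega
  have hil : i ≠ l := by rintro rfl; omega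
  have hjk : j ≠ k := by rintro rfl; omega
  have hjl : j ≠ l := by rintro rfl; omega
  have hc : i = j ∨ k = l := by omega
  rcases hc with rfl | rfl
  · exact draw_high hq hq' hi hj hk hl
  · exact draw_high hq' hq hk hl hi hj

/-- Every finite graph without `K₅` and `K₃,₃` minor has a straight-line plane drawing. -/
theorem Planar.exists_straight [Finite V] (h : Planar G) : ∃ pos, Straight G pos := by
  have h1 : Planar (G.map (Sum.inl : V → V ⊕ Fin 3)) :=
    h.map_of_injOn _ Sum.inl_injective.injOn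
  obtain ⟨H, hle, hH⟩ := h1.exists_maxOn (S := Set.univ) (Set.subset_univ _)
  have h3 : 3 ≤ (Set.univ : Set (V ⊕ Fin 3)).ncard := by
    rw [Set.ncard_univ, Nat.card_sum]
    simp
  obtain ⟨r, hr, hanti⟩ := hH.exists_realizer h3
  obtain ⟨k1, k2, k3⟩ := straight_of_realizer hr
    fun y z hyz => hanti y (Set.mem_univ _) z (Set.mem_univ _) hyz
  generalize (fun v => ((2 : ℝ) ^ r 0 v, (2 : ℝ) ^ r 1 v)) = pos at k1 k2 k3
  have hadj : ∀ x y, G.Adj x y → H.Adj (Sum.inl x) (Sum.inl y) := fun x y hxy =>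
    hle (map_adj_apply' hxy fun e => hxy.ne (Sum.inl_injective e))
  refine ⟨fun v => pos (Sum.inl v), k1.comp Sum.inl_injective, fun x y z hxy hzx hzy => ?_,
    fun x y u v hxy huv hne q hq hq' => ?_⟩
  · exact k2 _ _ _ (hadj x y hxy) (fun e => hzx (Sum.inl_injective e))
      fun e => hzy (Sum.inl_injective e)
  · obtain ⟨w, rfl⟩ := k3 _ _ _ _ (hadj x y hxy) (hadj u v huv) (by
      intro e
      apply hne
      simpa [Sym2.eq_iff] using e) q hq hq'
    by_cases hx : w = Sum.inl x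
    · exact ⟨x, by rw [hx]⟩
    by_cases hy : w = Sum.inl y
    · exact ⟨y, by rw [hy]⟩
    exact absurd hq (k2 _ _ _ (hadj x y hxy) hx hy)

end Pool.Agent.Lib.Common.Pl
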