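import Pool.Agent.Lib.Common.Planar.Segments

/-! Many large path systems: either disjoint representatives or an ordered crossing pattern. -/

namespace Pool.Agent.Lib.Common.Pl

open SimpleGraph

section Aux

variable {V : Type} {G H : SimpleGraph V} {A B S : Set V} {ι : Type}

theorem Seg.mono {h d : ℕ} (hs : Seg H h d) (hle : H ≤ G) : Seg G h d := by
  obtain ⟨s, t, p, Q, h1, h2, h3, h4, h5, h6⟩ := hs
  have hv : ∀ i a, ((p i).mapLe hle).getVert a = (p i).getVert a := fun i a => by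
    simp [Walk.mapLe, Walk.getVert_map]
  refine ⟨s, t, fun i => (p i).mapLe hle, Q, fun i => (h1 i).mapLe hle, ?_,
    fun n => (h3 n).mono_graph hle, h4, ?_, ?_⟩
  · intro i j hij x hx hx'
    rw [Walk.support_mapLe_eq_support] at hx hx'
    exact h2 i j hij x hx hx'
  · intro n i
    obtain ⟨x, hx, hxQ⟩ := h5 n i
    exact ⟨x, by rw [Walk.support_mapLe_eq_support]; exact hx, hxQ⟩
  · intro i n n' hn a ha b hb hQa hQb
    rw [Walk.length_mapLe] at ha hb
    rw [hv] at hQa hQb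
    exact h6 i n n' hn a ha b hb hQa hQb

/-- A path system of a subgraph is a path system of the graph. -/
def PathSys.mapLe (P : PathSys H A B ι) (hle : H ≤ G) : PathSys G A B ι where
  s := P.s
  t := P.t
  p := fun i => (P.p i).mapLe hle
  isPath := fun i => (P.isPath i).mapLe hle
  memA := fun i x hx => P.memA i x (by rwa [Walk.support_mapLe_eq_support] at hx)
  memB := fun i x hx => P.memB i x (by rwa [Walk.support_mapLe_eq_support] at hx)
  disj := fun i j hij x hx hx' => by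
    rw [Walk.support_mapLe_eq_support] at hx hx'
    exact P.disj i j hij x hx hx'

/-- The edges used by a path system. -/
def PathSys.edges (P : PathSys G A B ι) : Set (Sym2 V) := {e | ∃ i, e ∈ (P.p i).edges}

theorem PathSys.edges_subset (P : PathSys G A B ι) : P.edges ⊆ G.edgeSet :=
  fun _ ⟨i, hi⟩ => (P.p i).edges_subset_edgeSet hi

theorem PathSys.edges_mapLe (P : PathSys H A B ι) (hle : H ≤ G) :
    (P.mapLe hle).edges = P.edges := by
  ext e
  constructor
  · rintro ⟨i, hi⟩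
    exact ⟨i, by rwa [← Walk.edges_mapLe_eq_edges hle]⟩
  · rintro ⟨i, hi⟩
    exact ⟨i, by rwa [← Walk.edges_mapLe_eq_edges hle] at hi⟩

theorem mk_getVert_mem_edges {u v : V} (p : G.Walk u v) {a : ℕ} (ha : a < p.length) :
    s(p.getVert a, p.getVert (a + 1)) ∈ p.edges :=
  (p.mk_mem_edges_iff_exists).2 ⟨a, ha, rfl⟩

theorem rIn_getVert {u v : V} (p : G.Walk u v) {lo hi : ℕ} (hlh : lo ≤ hi)
    (hadj : ∀ a, lo ≤ a → a < hi → H.Adj (p.getVert a) (p.getVert (a + 1)))
    (hS : ∀ a, lo ≤ a → a ≤ hi → p.getVert a ∈ S) :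
    RIn H S (p.getVert lo) (p.getVert hi) := by
  induction hi, hlh using Nat.le_induction with
  | base => exact RIn.refl (hS lo le_rfl le_rfl)
  | succ m hm ih =>
    exact (ih (fun a h1 h2 => hadj a h1 (by omega)) fun a h1 h2 => hS a h1 (by omega)).tail
      (hadj m hm (by omega)) (hS (m + 1) (by omega) le_rfl)

theorem rIn_of_edges {u v x y : V} (p : G.Walk u v) (hE : ∀ e ∈ p.edges, e ∈ H.edgeSet)
    (hS : ∀ z ∈ p.support, z ∈ S) (hx : x ∈ p.support) (hy : y ∈ p.support) : RIn H S x y := by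
  have h := rIn_support (p.transfer H hE) (x := x) (y := y) (by simpa using hx) (by simpa using hy)
  exact h.mono fun z hz => hS z (by simpa using hz)

theorem edge_pos_eq {u v : V} {p : G.Walk u v} (hp : p.IsPath) {a b : ℕ} (ha : a < p.length)
    (hb : b < p.length)
    (h : s(p.getVert a, p.getVert (a + 1)) = s(p.getVert b, p.getVert (b + 1))) : a = b := by
  have hinj : ∀ i j, i ≤ p.length → j ≤ p.length → p.getVert i = p.getVert j → i = j :=
    fun i j hi hj e => hp.getVert_injOn hi hj e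
  rcases Sym2.eq_iff.1 h with ⟨h1, -⟩ | ⟨h1, h2⟩
  · exact hinj a b ha.le hb.le h1
  · have k1 := hinj a (b + 1) ha.le hb h1
    have k2 := hinj (a + 1) b ha hb.le h2
    omega

/-- The cut lemma: deleting an edge of one path of a system that cannot be rerouted. -/
theorem exists_cut [Finite V] {q : ℕ} (Q : PathSys G A B (Fin q)) (j₀ : Fin q) (c : ℕ)
    (hc : c < (Q.p j₀).length)
    (hE : ∀ e ∈ Q.edges, e ≠ s((Q.p j₀).getVert c, (Q.p j₀).getVert (c + 1)) → e ∈ H.edgeSet)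
    (hno : ¬ Nonempty (PathSys H A B (Fin q))) :
    ∃ (S : Set V) (σ : Fin q → ℕ), S.ncard < q ∧
      ∀ T : Set V, (∀ x ∈ T, ∀ y ∈ T, RIn H Sᶜ x y) →
        ((∃ a ≤ c, (Q.p j₀).getVert a ∈ T) →
          ∀ j ≠ j₀, ∀ a ≤ (Q.p j).length, (Q.p j).getVert a ∈ T → a < σ j) ∧
        ((∃ a, c < a ∧ a ≤ (Q.p j₀).length ∧ (Q.p j₀).getVert a ∈ T) →
          ∀ j ≠ j₀, ∀ a ≤ (Q.p j).length, (Q.p j).getVert a ∈ T → σ j < a) := by
  classical
  obtain ⟨S, hS, hsep⟩ := (menger H A B q).resolve_left hno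
  have hEj : ∀ j ≠ j₀, ∀ e ∈ (Q.p j).edges, e ∈ H.edgeSet := by
    intro j hj e he
    refine hE e ⟨j, he⟩ ?_
    rintro rfl
    exact hj (Q.eq_of_mem ((Q.p j).fst_mem_support_of_mem_edges he)
      ((Q.p j₀).getVert_mem_support c))
  have hmeet : ∀ j : {j // j ≠ j₀}, ∃ x ∈ (Q.p j).support, x ∈ S := by
    intro j
    by_contra hcon
    push Not at hcon
    exact hsep _ (Q.s_mem j) _ (Q.t_mem j) (rIn_of_edges (Q.p j) (hEj j j.2) hcon
      (Q.p j).start_mem_support (Q.p j).end_mem_support)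
  choose g hg hgS using hmeet
  have hginj : Function.Injective g := fun j j' e =>
    Subtype.ext (Q.eq_of_mem (hg j) (e ▸ hg j'))
  have hrange : Set.range g = S := by
    refine Set.eq_of_subset_of_ncard_le (by rintro _ ⟨j, rfl⟩; exact hgS j) ?_ (Set.toFinite S)
    rw [Set.ncard_range_of_injective hginj, Nat.card_eq_fintype_card, Fintype.card_subtype_compl,
      Fintype.card_fin, Fintype.card_subtype_eq]
    omega
  have hS0 : ∀ x ∈ (Q.p j₀).support, x ∉ S := by
    intro x hx hxS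
    rw [← hrange] at hxS
    obtain ⟨j, rfl⟩ := hxS
    exact j.2 (Q.eq_of_mem (hg j) hx)
  have hpos : ∀ j : Fin q, ∃ n : ℕ, j ≠ j₀ → n ≤ (Q.p j).length ∧ (Q.p j).getVert n ∈ S ∧
      ∀ a ≤ (Q.p j).length, (Q.p j).getVert a ∈ S → a = n := by
    intro j
    by_cases hj : j = j₀
    · exact ⟨0, fun h => (h hj).elim⟩
    obtain ⟨n, hn, hnl⟩ := Walk.mem_support_iff_exists_getVert.1 (hg ⟨j, hj⟩)
    refine ⟨n, fun _ => ⟨hnl, hn ▸ hgS ⟨j, hj⟩, fun a ha haS => ?_⟩⟩
    rw [← hrange] at haS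
    obtain ⟨j', hj'⟩ := haS
    have e : j'.1 = j := Q.eq_of_mem (hg j') (hj' ▸ (Q.p j).getVert_mem_support a)
    have e' : j' = ⟨j, hj⟩ := Subtype.ext e
    subst e'
    exact (Q.isPath j).getVert_injOn ha hnl (hj'.symm.trans hn.symm)
  choose σ hσ using hpos
  -- initial and final segments
  have hL0 : ∀ a ≤ c, RIn H Sᶜ (Q.s j₀) ((Q.p j₀).getVert a) := by
    intro a ha
    have := rIn_getVert (H := H) (S := Sᶜ) (Q.p j₀) (Nat.zero_le a) (fun b _ hb => by
      refine hE _ ⟨j₀, mk_getVert_mem_edges _ (by omega)⟩ fun e => ?_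
      have := edge_pos_eq (Q.isPath j₀) (by omega) hc e
      omega) fun b _ _ => hS0 _ ((Q.p j₀).getVert_mem_support b)
    rwa [Walk.getVert_zero] at this
  have hR0 : ∀ a, c < a → a ≤ (Q.p j₀).length → RIn H Sᶜ ((Q.p j₀).getVert a) (Q.t j₀) := by
    intro a ha hal
    have := rIn_getVert (H := H) (S := Sᶜ) (Q.p j₀) hal (fun b hb hb' => by
      refine hE _ ⟨j₀, mk_getVert_mem_edges _ hb'⟩ fun e => ?_
      have := edge_pos_eq (Q.isPath j₀) hb' hc e
      omega) fun b _ _ => hS0 _ ((Q.p j₀).getVert_mem_support b)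
    rwa [Walk.getVert_length] at this
  have hL : ∀ j ≠ j₀, ∀ a < σ j, RIn H Sᶜ (Q.s j) ((Q.p j).getVert a) := by
    intro j hj a ha
    obtain ⟨k1, -, k3⟩ := hσ j hj
    have := rIn_getVert (H := H) (S := Sᶜ) (Q.p j) (Nat.zero_le a)
      (fun b _ hb => hEj j hj _ (mk_getVert_mem_edges _ (by omega)))
      fun b _ hb hbS => by
        have := k3 b (by omega) hbS
        omega
    rwa [Walk.getVert_zero] at this
  have hR : ∀ j ≠ j₀, ∀ a, σ j < a → a ≤ (Q.p j).length →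
      RIn H Sᶜ ((Q.p j).getVert a) (Q.t j) := by
    intro j hj a ha hal
    obtain ⟨-, -, k3⟩ := hσ j hj
    have := rIn_getVert (H := H) (S := Sᶜ) (Q.p j) hal
      (fun b _ hb => hEj j hj _ (mk_getVert_mem_edges _ hb))
      fun b hb hb' hbS => by
        have := k3 b hb' hbS
        omega
    rwa [Walk.getVert_length] at this
  refine ⟨S, σ, hS, fun T hT => ⟨?_, ?_⟩⟩
  · rintro ⟨b, hb, hbT⟩ j hj a ha haT
    have hba := hT _ hbT _ haT
    rcases lt_trichotomy a (σ j) with h | h | h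
    · exact h
    · exact (hba.right_mem (h ▸ (hσ j hj).2.1)).elim
    · exact (hsep _ (Q.s_mem j₀) _ (Q.t_mem j)
        (((hL0 b hb).trans hba).trans (hR j hj a h ha))).elim
  · rintro ⟨b, hb, hbl, hbT⟩ j hj a ha haT
    have hab := hT _ haT _ hbT
    rcases lt_trichotomy a (σ j) with h | h | h
    · exact (hsep _ (Q.s_mem j) _ (Q.t_mem j₀)
        (((hL j hj a h).trans hab).trans (hR0 b hb hbl))).elim
    · exact (hab.left_mem (h ▸ (hσ j hj).2.1)).elim
    · exact h

/-- Few of the paths of a system meet a small set. -/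
theorem PathSys.ncard_meet_le [Finite V] {κ : Type} (P : PathSys G A B ι) (f : κ → ι)
    (hf : Function.Injective f) (S : Set V) :
    {k | ∃ x ∈ (P.p (f k)).support, x ∈ S}.ncard ≤ S.ncard := by
  classical
  have hex : ∀ k : {k | ∃ x ∈ (P.p (f k)).support, x ∈ S}, ∃ x : S, x.1 ∈ (P.p (f k)).support :=
    fun ⟨_, x, hx, hxS⟩ => ⟨⟨x, hxS⟩, hx⟩
  choose g hg using hex
  have hinj : Function.Injective g := fun k k' e =>
    Subtype.ext (hf (P.eq_of_mem (hg k) (e ▸ hg k')))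
  exact Nat.card_le_card_of_injective g hinj

/-- The main step: a system `Q` that cannot be rerouted and many paths of `P` crossing it. -/
theorem seg_of_min [Finite V] {A' B' : Set V} {q h d : ℕ} (P : PathSys G A B ι)
    (Q : PathSys G A' B' (Fin q))
    (hmin : ∀ Q' : PathSys G A' B' (Fin q), (Q.edges \ P.edges).ncard ≤ (Q'.edges \ P.edges).ncard)
    (j₀ : Fin q) (ρ : Fin h → Fin q) (hρ : Function.Injective ρ) (hρ₀ : ∀ r, ρ r ≠ j₀)
    (I : Finset ι) (hI : 2 * q * d + 2 ≤ I.card)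
    (hI₀ : ∀ i ∈ I, ∃ x ∈ (Q.p j₀).support, x ∈ (P.p i).support)
    (hIρ : ∀ i ∈ I, ∀ r, ∃ x ∈ (Q.p (ρ r)).support, x ∈ (P.p i).support) : Seg G h d := by
  classical
  have hex : ∀ i, ∃ n : ℕ, i ∈ I → n ≤ (Q.p j₀).length ∧ (Q.p j₀).getVert n ∈ (P.p i).support ∧
      ∀ a < n, (Q.p j₀).getVert a ∉ (P.p i).support := by
    intro i
    by_cases hi : i ∈ I
    · have h1 : ∃ n, n ≤ (Q.p j₀).length ∧ (Q.p j₀).getVert n ∈ (P.p i).support := by
        obtain ⟨x, hx, hx'⟩ := hI₀ i hi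
        obtain ⟨n, rfl, hn⟩ := Walk.mem_support_iff_exists_getVert.1 hx
        exact ⟨n, hn, hx'⟩
      refine ⟨Nat.find h1, fun _ => ⟨(Nat.find_spec h1).1, (Nat.find_spec h1).2, fun a ha h => ?_⟩⟩
      exact Nat.find_min h1 ha ⟨le_trans ha.le (Nat.find_spec h1).1, h⟩
    · exact ⟨0, fun h => (hi h).elim⟩
  choose f hf using hex
  have hfinj : Set.InjOn f I := fun i hi i' hi' e =>
    P.eq_of_mem (hf i hi).2.1 (e ▸ (hf i' hi').2.1)
  have hcard : 2 * q * d + 2 ≤ (I.image f).card := by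
    rw [Finset.card_image_of_injOn hfinj]; exact hI
  let φ := (I.image f).orderEmbOfCardLe hcard
  have hφ : ∀ k, ∃ i ∈ I, f i = φ k := fun k =>
    Finset.mem_image.1 ((I.image f).orderEmbOfCardLe_mem hcard k)
  choose ψ hψI hψ using hφ
  have hψinj : Function.Injective ψ := fun k k' e =>
    φ.injective ((hψ k).symm.trans (e ▸ hψ k'))
  -- the cut positions
  let κ : Fin (d + 1) → Fin (2 * q * d + 2) := fun n =>
    ⟨2 * q * n + 1, by
      have := Nat.mul_le_mul_left (2 * q) (Nat.lt_succ_iff.1 n.2)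
      omega⟩
  have hκpos : ∀ n, 0 < φ (κ n) := fun n =>
    lt_of_le_of_lt (Nat.zero_le _) (φ.strictMono (show (⟨0, by omega⟩ : Fin (2 * q * d + 2)) < κ n by
      simp [κ, Fin.lt_def]))
  have hcut : ∀ n : Fin (d + 1), ∃ (S : Set V) (σ : Fin q → ℕ), S.ncard < q ∧
      ∀ i, (∀ x ∈ (P.p i).support, x ∉ S) →
        ((∃ a < φ (κ n), (Q.p j₀).getVert a ∈ (P.p i).support) →
          ∀ j ≠ j₀, ∀ a ≤ (Q.p j).length, (Q.p j).getVert a ∈ (P.p i).support → a < σ j) ∧
        ((∃ a, φ (κ n) ≤ a ∧ a ≤ (Q.p j₀).length ∧ (Q.p j₀).getVert a ∈ (P.p i).support) →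
          ∀ j ≠ j₀, ∀ a ≤ (Q.p j).length, (Q.p j).getVert a ∈ (P.p i).support → σ j < a) := by
    intro n
    obtain ⟨c, hc⟩ : ∃ c, φ (κ n) = c + 1 := ⟨φ (κ n) - 1, by have := hκpos n; omega⟩
    obtain ⟨k1, k2, k3⟩ := hf _ (hψI (κ n))
    rw [hψ, hc] at k1 k2 k3
    set e := s((Q.p j₀).getVert c, (Q.p j₀).getVert (c + 1)) with he
    have heQ : e ∈ Q.edges := ⟨j₀, mk_getVert_mem_edges _ (by omega)⟩
    have heP : e ∉ P.edges := by
      rintro ⟨i, hi⟩
      have e1 : i = ψ (κ n) := P.eq_of_mem ((P.p i).snd_mem_support_of_mem_edges hi) k2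
      exact k3 c (by omega) (e1 ▸ (P.p i).fst_mem_support_of_mem_edges hi)
    let J : SimpleGraph V := fromEdgeSet ((P.edges ∪ Q.edges) \ {e})
    have hJE : J.edgeSet ⊆ (P.edges ∪ Q.edges) \ {e} := by
      rw [edgeSet_fromEdgeSet]; exact Set.sdiff_subset
    have hJE' : ∀ e' ∈ P.edges ∪ Q.edges, e' ≠ e → e' ∈ J.edgeSet := by
      intro e' h1 h2
      rw [edgeSet_fromEdgeSet]
      refine ⟨⟨h1, h2⟩, ?_⟩
      have : e' ∈ G.edgeSet := h1.elim (fun h => P.edges_subset h) fun h => Q.edges_subset h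
      exact G.not_isDiag_of_mem_edgeSet this
    have hJG : J ≤ G := by
      intro a b hab
      have := hJE ((mem_edgeSet J).2 hab)
      exact (mem_edgeSet G).1 (this.1.elim (fun h => P.edges_subset h) fun h => Q.edges_subset h)
    have hno : ¬ Nonempty (PathSys J A' B' (Fin q)) := by
      rintro ⟨Q'⟩
      have h1 := hmin (Q'.mapLe hJG)
      rw [PathSys.edges_mapLe] at h1
      have h2 : Q'.edges \ P.edges ⊂ Q.edges \ P.edges := by
        refine ⟨fun e' he' => ⟨?_, he'.2⟩, fun hsub => ?_⟩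
        · exact (hJE (Q'.edges_subset he'.1)).1.resolve_left he'.2
        · exact (hJE (Q'.edges_subset (hsub ⟨heQ, heP⟩).1)).2 rfl
      exact absurd (Set.ncard_lt_ncard h2 (Set.toFinite _)) (not_lt.2 h1)
    obtain ⟨S, σ, hS, hT⟩ := exists_cut (H := J) Q j₀ c (by omega)
      (fun e' h1 h2 => hJE' e' (Or.inr h1) h2) hno
    refine ⟨S, σ, hS, fun i hi => ?_⟩
    obtain ⟨m1, m2⟩ := hT {x | x ∈ (P.p i).support} fun x hx y hy =>
      rIn_of_edges (P.p i) (fun e' he' => hJE' e' (Or.inl ⟨i, he'⟩) fun e2 =>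
        heP (e2 ▸ ⟨i, he'⟩)) hi hx hy
    rw [hc]
    exact ⟨fun ⟨a, ha, h⟩ => m1 ⟨a, by omega, h⟩, fun ⟨a, ha, h⟩ => m2 ⟨a, by omega, h⟩⟩
  choose S σ hS hT using hcut
  -- a path in each group avoiding both separators
  have hgrp : ∀ n : Fin d, ∃ k : Fin (2 * q * d + 2), κ n.castSucc ≤ k ∧ k < κ n.succ ∧
      (∀ x ∈ (P.p (ψ k)).support, x ∉ S n.castSucc) ∧ ∀ x ∈ (P.p (ψ k)).support, x ∉ S n.succ := by
    intro n
    let γ : Fin (2 * q) → Fin (2 * q * d + 2) := fun m =>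
      ⟨2 * q * n + 1 + m, by
        have h1 := Nat.mul_le_mul_left (2 * q) (Nat.succ_le_of_lt n.2)
        have h2 := m.2
        rw [Nat.mul_succ] at h1
        omega⟩
    have hγ : Function.Injective γ := fun m m' e => by
      have := congrArg Fin.val e
      simp only [γ] at this
      exact Fin.ext (by omega)
    have h1 := P.ncard_meet_le (ψ ∘ γ) (hψinj.comp hγ) (S n.castSucc ∪ S n.succ)
    have h2 := Set.ncard_union_le (S n.castSucc) (S n.succ)
    have h3 := hS n.castSucc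
    have h4 := hS n.succ
    have h5 : {m | ∃ x ∈ (P.p ((ψ ∘ γ) m)).support, x ∈ S n.castSucc ∪ S n.succ} ≠ Set.univ := by
      intro e
      rw [e, Set.ncard_univ, Nat.card_eq_fintype_card, Fintype.card_fin] at h1
      omega
    obtain ⟨m, hm⟩ := (Set.ne_univ_iff_exists_notMem _).1 h5
    refine ⟨γ m, ?_, ?_, fun x hx hx' => hm ⟨x, hx, Or.inl hx'⟩,
      fun x hx hx' => hm ⟨x, hx, Or.inr hx'⟩⟩
    · simp [κ, γ, Fin.le_def]
    · have := m.2
      simp only [κ, γ, Fin.lt_def, Fin.val_succ, Nat.mul_succ]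
      omega
  choose k hk1 hk2 hk3 hk4 using hgrp
  have hlo : ∀ n : Fin d, ∀ j ≠ j₀, ∀ a ≤ (Q.p j).length,
      (Q.p j).getVert a ∈ (P.p (ψ (k n))).support → σ n.castSucc j < a := fun n =>
    (hT n.castSucc _ (hk3 n)).2 ⟨f (ψ (k n)), by rw [hψ]; exact φ.monotone (hk1 n),
      (hf _ (hψI _)).1, (hf _ (hψI _)).2.1⟩
  have hhi : ∀ n : Fin d, ∀ j ≠ j₀, ∀ a ≤ (Q.p j).length,
      (Q.p j).getVert a ∈ (P.p (ψ (k n))).support → a < σ n.succ j := fun n =>
    (hT n.succ _ (hk4 n)).1 ⟨f (ψ (k n)), by rw [hψ]; exact φ.strictMono (hk2 n),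
      (hf _ (hψI _)).2.1⟩
  have hσmono : ∀ r, Monotone fun n => σ n (ρ r) := by
    intro r
    refine (Fin.strictMono_iff_lt_succ.2 fun n => ?_).monotone
    obtain ⟨x, hx, hx'⟩ := hIρ _ (hψI (k n)) r
    obtain ⟨a, rfl, ha⟩ := Walk.mem_support_iff_exists_getVert.1 hx
    exact (hlo n _ (hρ₀ r) a ha hx').trans (hhi n _ (hρ₀ r) a ha hx')
  have hκmono : Monotone κ := fun n n' hn => by
    have := Nat.mul_le_mul_left (2 * q) (Fin.le_def.1 hn)
    simp only [κ, Fin.le_def]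
    omega
  have hkmono : StrictMono k := fun n n' hn =>
    lt_of_lt_of_le (hk2 n) (le_trans (hκmono (Fin.succ_le_castSucc_iff.2 hn)) (hk1 n'))
  refine ⟨fun r => Q.s (ρ r), fun r => Q.t (ρ r), fun r => Q.p (ρ r),
    fun n => {x | x ∈ (P.p (ψ (k n))).support}, fun r => Q.isPath _,
    fun r r' hr => Q.disj _ _ fun e => hr (hρ e), fun n => connSet_support _,
    fun n n' hn => Set.disjoint_left.2 fun x hx hx' =>
      hn (hkmono.injective (hψinj (P.eq_of_mem hx hx'))),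
    fun n r => hIρ _ (hψI _) r, fun r n n' hn a ha b hb h1 h2 => ?_⟩
  have e1 := hhi n _ (hρ₀ r) a ha h1
  have e2 := hlo n' _ (hρ₀ r) b hb h2
  have e3 : σ n.succ (ρ r) ≤ σ n'.castSucc (ρ r) := hσmono r (Fin.succ_le_castSucc_iff.2 hn)
  omega

end Aux

/-- One rerouting step: a large system `P` against a system `Q`. -/
theorem reroute (h d q' : ℕ) : ∃ q g : ℕ, ∀ (V : Type) [Finite V] (G : SimpleGraph V)
    (A B A' B' : Set V) (ι : Type) [Finite ι] (P : PathSys G A B ι),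
    Nonempty (PathSys G A' B' (Fin q)) →
    Seg G h d ∨ ∃ (Q : PathSys G A' B' (Fin q)) (bad : Set ι), bad.ncard ≤ g ∧
      ∀ i ∉ bad, q' ≤ {j | ∀ x ∈ (Q.p j).support, x ∉ (P.p i).support}.ncard := by
  classical
  refine ⟨q' + h, Fintype.card (Finset (Fin (q' + h))) * (2 * (q' + h) * d + 1), ?_⟩
  intro V _ G A B A' B' ι _ P hQ
  have := Fintype.ofFinite ι
  have hex : ∃ n, ∃ Q : PathSys G A' B' (Fin (q' + h)), (Q.edges \ P.edges).ncard = n := by
    obtain ⟨Q⟩ := hQ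
    exact ⟨_, Q, rfl⟩
  obtain ⟨Q, hQn⟩ := Nat.find_spec hex
  have hmin : ∀ Q' : PathSys G A' B' (Fin (q' + h)),
      (Q.edges \ P.edges).ncard ≤ (Q'.edges \ P.edges).ncard := fun Q' =>
    hQn ▸ Nat.find_min' hex ⟨Q', rfl⟩
  let M : ι → Finset (Fin (q' + h)) := fun i =>
    Finset.univ.filter fun j => ∃ x ∈ (Q.p j).support, x ∈ (P.p i).support
  let bad : Finset ι := Finset.univ.filter fun i => h + 1 ≤ (M i).card
  by_cases hb : bad.card ≤ Fintype.card (Finset (Fin (q' + h))) * (2 * (q' + h) * d + 1)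
  · refine Or.inr ⟨Q, bad, by simpa using hb, fun i hi => ?_⟩
    have h1 : (M i).card ≤ h := by
      have : ¬ h + 1 ≤ (M i).card := fun hh => hi (by simpa [bad] using hh)
      omega
    have h2 : {j | ∀ x ∈ (Q.p j).support, x ∉ (P.p i).support} = ((M i)ᶜ : Finset _) := by
      ext j
      simp [M]
    rw [h2, Set.ncard_coe_finset, Finset.card_compl, Fintype.card_fin]
    omega
  · left
    obtain ⟨M₀, -, hM₀⟩ := Finset.exists_lt_card_fiber_of_mul_lt_card_of_maps_to
      (s := bad) (t := Finset.univ) (f := M) (n := 2 * (q' + h) * d + 1)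
      (fun _ _ => Finset.mem_univ _) (by rw [Finset.card_univ]; exact not_le.1 hb)
    obtain ⟨i₀, hi₀⟩ := Finset.card_pos.1 (lt_of_le_of_lt (Nat.zero_le _) hM₀)
    have hM₀c : h + 1 ≤ M₀.card := by
      obtain ⟨h1, h2⟩ := Finset.mem_filter.1 hi₀
      exact h2 ▸ (Finset.mem_filter.1 h1).2
    let φ := M₀.orderEmbOfCardLe hM₀c
    have hφ : ∀ i ∈ bad.filter (fun i => M i = M₀), ∀ r,
        ∃ x ∈ (Q.p (φ r)).support, x ∈ (P.p i).support := by
      intro i hi r
      have h1 : φ r ∈ M i := (Finset.mem_filter.1 hi).2 ▸ M₀.orderEmbOfCardLe_mem hM₀c r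
      exact (Finset.mem_filter.1 h1).2
    exact seg_of_min P Q hmin (φ 0) (fun r => φ r.succ)
      (fun r r' e => Fin.succ_injective _ (φ.injective e))
      (fun r e => Fin.succ_ne_zero r (φ.injective e)) _ hM₀ (fun i hi => hφ i hi 0)
      fun i hi r => hφ i hi r.succ

theorem linkage_or_seg (L h d : ℕ) : ∃ s : ℕ, ∀ (V : Type) [Finite V] (G : SimpleGraph V)
    (A B : Fin L → Set V), (∀ l, Nonempty (PathSys G (A l) (B l) (Fin s))) →
    Seg G h d ∨ ∃ T : Fin L → Set V, (∀ l, ∃ a ∈ A l, ∃ b ∈ B l, RIn G (T l) a b) ∧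
      ∀ l l', l ≠ l' → Disjoint (T l) (T l') := by
  classical
  induction L with
  | zero => exact ⟨0, fun V _ G A B _ => Or.inr ⟨fun l => l.elim0, fun l => l.elim0, fun l => l.elim0⟩⟩
  | succ L ih =>
    obtain ⟨s, hs⟩ := ih
    obtain ⟨q, g, hqg⟩ := reroute h d s
    refine ⟨q + (L * g + 1), fun V _ G A B hP => ?_⟩
    obtain ⟨P⟩ := hP 0
    by_cases hseg : Seg G h d
    · exact Or.inl hseg
    have h1 : ∀ l : Fin L, ∃ (Q : PathSys G (A l.succ) (B l.succ) (Fin q))
        (bad : Set (Fin (q + (L * g + 1)))), bad.ncard ≤ g ∧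
        ∀ i ∉ bad, s ≤ {j | ∀ x ∈ (Q.p j).support, x ∉ (P.p i).support}.ncard := by
      intro l
      obtain ⟨Q⟩ := hP l.succ
      exact (hqg V G (A 0) (B 0) (A l.succ) (B l.succ) _ P
        ⟨Q.sub (Fin.castAdd _) (Fin.castAdd_injective _ _)⟩).resolve_left hseg
    choose Q bad hbad hgood using h1
    have h2 : (⋃ l, bad l) ≠ Set.univ := by
      intro e
      have k1 := Set.ncard_iUnion_le_of_fintype bad
      have k2 : ∑ l, (bad l).ncard ≤ L * g := by
        have := Finset.sum_le_card_nsmul Finset.univ (fun l => (bad l).ncard) g fun l _ => hbad l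
        simpa using this
      rw [e, Set.ncard_univ, Nat.card_eq_fintype_card, Fintype.card_fin] at k1
      omega
    obtain ⟨i, hi⟩ := (Set.ne_univ_iff_exists_notMem _).1 h2
    set Z : Set V := {x | x ∈ (P.p i).support} with hZ
    have h3 : ∀ l : Fin L,
        Nonempty (PathSys (res G Zᶜ) (A l.succ \ Z) (B l.succ \ Z) (Fin s)) := by
      intro l
      have k1 := hgood l i fun hl => hi (Set.mem_iUnion.2 ⟨l, hl⟩)
      rw [Set.ncard_eq_toFinset_card'] at k1
      let φ := Finset.orderEmbOfCardLe _ k1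
      have hφ : ∀ r, ∀ x ∈ ((Q l).p (φ r)).support, x ∉ (P.p i).support := fun r => by
        have := Finset.orderEmbOfCardLe_mem _ k1 r
        rw [Set.mem_toFinset] at this
        exact this
      obtain ⟨Q', -⟩ := PathSys.exists_of_sets (G := res G Zᶜ) (A := A l.succ \ Z)
        (B := B l.succ \ Z) (fun r : Fin s => {x | x ∈ ((Q l).p (φ r)).support})
        (fun r => ⟨_, ⟨(Q l).s_mem (φ r), hφ r _ (Walk.start_mem_support _)⟩, _,
          ⟨(Q l).t_mem (φ r), hφ r _ (Walk.end_mem_support _)⟩,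
          (rIn_support_start _ (Walk.end_mem_support _)).res fun x hx => hφ r x hx⟩)
        fun r r' hr => Set.disjoint_left.2 fun x hx hx' =>
          hr (φ.injective ((Q l).eq_of_mem hx hx'))
      exact ⟨Q'⟩
    rcases hs V (res G Zᶜ) (fun l => A l.succ \ Z) (fun l => B l.succ \ Z) h3 with h4 | ⟨T, hT, hd⟩
    · exact Or.inl (h4.mono res_le)
    refine Or.inr ⟨Fin.cons Z fun l => T l \ Z, fun l => ?_, fun l l' hl => ?_⟩
    · refine Fin.cases ?_ (fun l => ?_) l
      · exact ⟨_, P.s_mem i, _, P.t_mem i, rIn_support_start _ (Walk.end_mem_support _)⟩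
      · obtain ⟨a, ha, b, hb, hab⟩ := hT l
        refine ⟨a, ha.1, b, hb.1, ?_⟩
        exact hab.induction (P := fun x => RIn G (T l \ Z) a x) (RIn.refl ⟨hab.left_mem, ha.2⟩)
          fun x y _ hy hxy ihx => ihx.tail hxy.1 ⟨hy, hxy.2.2⟩
    · revert hl
      refine Fin.cases ?_ (fun l => ?_) l <;> refine Fin.cases ?_ (fun l' => ?_) l' <;> intro hl
      · exact (hl rfl).elim
      · exact Set.disjoint_sdiff_right
      · exact Set.disjoint_sdiff_left
      · exact (hd l l' fun e => hl (e ▸ rfl)).mono Set.sdiff_subset Set.sdiff_subset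

end Pool.Agent.Lib.Common.Pl
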