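import Pool.Agent.Lib.Common.Planar.Mesh
import Pool.Agent.Lib.Common.Planar.Linkage

/-! The grid theorem for planar graphs. -/

namespace Pool.Agent.Lib.Common.Pl

open SimpleGraph

theorem dec_or_grid (r : ℕ) : ∃ w : ℕ, ∀ (V : Type) [Finite V] (G : SimpleGraph V),
    Planar G → Dec G w ∨ Grid G r := by
  classical
  obtain ⟨h, d, hhd⟩ := grid_of_seg r
  let κ := {p : Fin 5 × Fin 5 // p.1 < p.2}
  let ε : κ ≃ Fin (Fintype.card κ) := Fintype.equivFin κ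
  obtain ⟨s, hs⟩ := linkage_or_seg (Fintype.card κ) h d
  obtain ⟨w, hw⟩ := dec_or_mesh 5 s
  refine ⟨w, fun V _ G hG => ?_⟩
  rcases hw V G with hdec | ⟨D, A, hA, hAA, hP⟩
  · exact Or.inl hdec
  right
  rcases hs V (res G D) (fun l => D ∩ bd G (A (ε.symm l).1.1)) (fun l => D ∩ bd G (A (ε.symm l).1.2))
    (fun l => hP _ _ (ε.symm l).2.ne) with hseg | ⟨T, hT, hTd⟩
  · exact hhd V G hG (hseg.mono res_le)
  exfalso
  have hex : ∀ p : κ, ∃ U : Set V, ConnSet G U ∧ U ⊆ D ∧ U ⊆ T (ε p) ∧ SAdj G (A p.1.1) U ∧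
      SAdj G U (A p.1.2) := by
    intro p
    obtain ⟨a, ha, b, hb, hab⟩ := hT (ε p)
    simp only [Equiv.symm_apply_apply] at ha hb
    obtain ⟨haD, -, a', ha', haa'⟩ := ha
    obtain ⟨-, -, b', hb', hbb'⟩ := hb
    refine ⟨comp (res G D) (T (ε p)) a, (connSet_comp hab.left_mem).mono_graph res_le,
      fun x hx => ?_, comp_subset, ⟨a', ha', a, mem_comp_self hab.left_mem, haa'.symm⟩,
      ⟨b, hab, b', hb', hbb'⟩⟩
    exact RIn.induction (P := fun x => x ∈ D) hx haD fun _ _ _ _ hxy _ => hxy.2.2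
  choose U hUc hUD hUT hU1 hU2 using hex
  have hUU : ∀ p p' : κ, p ≠ p' → Disjoint (U p) (U p') := fun p p' hp =>
    (hTd _ _ fun e => hp (ε.injective e)).mono (hUT p) (hUT p')
  refine not_planar_of_K5 (fun i => A i ∪ ⋃ j : {j // i < j}, U ⟨(i, j.1), j.2⟩) (fun i => ?_)
    (fun i j hij => ?_) (fun i j hij => ?_) hG
  · exact (hA i).1.union_iUnion fun j => (hA i).1.union_of_sAdj (hUc _) (hU1 ⟨(i, j.1), j.2⟩)
  · rw [Set.disjoint_left]
    rintro x (hx | hx) (hx' | hx')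
    · exact Set.disjoint_left.1 (hAA i j hij.ne) hx hx'
    · obtain ⟨k, hk⟩ := Set.mem_iUnion.1 hx'
      exact Set.disjoint_left.1 (hA i).2 hx (hUD _ hk)
    · obtain ⟨k, hk⟩ := Set.mem_iUnion.1 hx
      exact Set.disjoint_left.1 (hA j).2 hx' (hUD _ hk)
    · obtain ⟨k, hk⟩ := Set.mem_iUnion.1 hx
      obtain ⟨k', hk'⟩ := Set.mem_iUnion.1 hx'
      refine Set.disjoint_left.1 (hUU _ _ fun e => hij.ne ?_) hk hk'
      exact congrArg (fun p : κ => p.1.1) e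
  · refine (hU2 ⟨(i, j), hij⟩).mono (fun x hx => Or.inr ?_) Set.subset_union_left
    exact Set.mem_iUnion.2 ⟨⟨j, hij⟩, hx⟩

end Pool.Agent.Lib.Common.Pl
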