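import Pool.Agent.Lib.Common.Planar.Cyc

/-! Link cycles and contractible edges (pure graph theory). -/

namespace Pool.Agent.Lib.Common.Pl

open SimpleGraph

variable {V : Type} [Finite V] {G : SimpleGraph V}

omit [Finite V] in
/-- A component of `S \ {z}` which does not exhaust a connected set `S` is attached to `z`. -/
theorem link_exit {S : Set V} {z u u' : V} (hS : ConnSet G S) (hu : u ∈ S \ {z}) (hu' : u' ∈ S)
    (hne : u' ∉ comp G (S \ {z}) u) : ∃ v ∈ comp G (S \ {z}) u, G.Adj v z := by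
  obtain ⟨a, b, ha, hab, hb, hbD⟩ :=
    (hS.rIn hu.1 hu').exists_exit (A := comp G (S \ {z}) u) (mem_comp_self hu) hne
  refine ⟨a, ha.right_mem.2, ?_⟩
  by_cases hbz : b = z
  · exact hbz ▸ hab
  · exact absurd (mem_comp_of_adj ha.right_mem.2 hab ⟨hb, hbz⟩) hbD

omit [Finite V] in
/-- A vertex of a connected set with another vertex has a neighbour in the set. -/
theorem link_exists_adj {S : Set V} {u u' : V} (hS : ConnSet G S) (hu : u ∈ S) (hu' : u' ∈ S)
    (hne : u' ≠ u) : ∃ v ∈ S, G.Adj u v := by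
  obtain ⟨a, b, ha, hab, hb, -⟩ := (hS.rIn hu hu').exists_exit (A := {u}) rfl hne
  obtain rfl : a = u := ha.right_mem.2
  exact ⟨b, hb, hab⟩

omit [Finite V] in
theorem link_not_connSet {S : Set V} (hne : S.Nonempty) (h : ¬ ConnSet G S) :
    ∃ u ∈ S, ∃ u' ∈ S, u' ∉ comp G S u := by
  by_contra hcon
  push Not at hcon
  exact h ⟨hne, fun u hu v hv => hcon u hu v hv⟩

theorem link_exists_notMem {T U : Set V} (h : U.ncard < T.ncard) : ∃ x ∈ T, x ∉ U := by
  by_contra hcon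
  push Not at hcon
  exact absurd (Set.ncard_le_ncard hcon) (by omega)

/-- A two-connected vertex set contains a cycle. -/
theorem exists_cyc_of_two_conn {T : Set V} (h3 : 3 ≤ T.ncard)
    (h2 : ∀ z, ConnSet G (T \ {z})) : ∃ C : Cyc G, C.verts ⊆ T := by
  have key : ∀ a ∈ T, ∀ z, z ≠ a → ∃ b ∈ T, b ≠ z ∧ G.Adj a b := by
    intro a ha z hz
    obtain ⟨c, hc, hc'⟩ := link_exists_notMem (T := T) (U := {a, z})
      (lt_of_le_of_lt (Set.ncard_insert_le _ _) (by rw [Set.ncard_singleton]; omega))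
    have hca : c ≠ a := fun e => hc' (Or.inl e)
    have hcz : c ≠ z := fun e => hc' (Or.inr e)
    obtain ⟨b, hb, hab⟩ := link_exists_adj (h2 z) (u := a) (u' := c) ⟨ha, hz.symm⟩ ⟨hc, hcz⟩ hca
    exact ⟨b, hb.1, hb.2, hab⟩
  obtain ⟨a, ha, -⟩ := link_exists_notMem (T := T) (U := ∅) (by rw [Set.ncard_empty]; omega)
  obtain ⟨z, -, hz⟩ := link_exists_notMem (T := T) (U := {a}) (by rw [Set.ncard_singleton]; omega)
  obtain ⟨b, hb, -, hab⟩ := key a ha z hz
  obtain ⟨b', hb', hbb', hab'⟩ := key a ha b hab.ne'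
  obtain ⟨p, hp, hpT⟩ := ((h2 a).rIn (u := b) (v := b') ⟨hb, hab.ne'⟩ ⟨hb', hab'.ne'⟩).exists_path
  have hp0 : 0 < p.length := Nat.pos_of_ne_zero fun h => hbb' (Walk.eq_of_length_eq_zero h).symm
  obtain ⟨C, -, -, -, hC⟩ := exists_cyc_of_paths p
    (Walk.cons hab'.symm (Walk.cons hab Walk.nil)) hp
    (by simp [hab.ne, hab'.ne', hbb']) (by
      intro x hx hx'
      simp only [Walk.support_cons, Walk.support_nil, List.mem_cons, List.not_mem_nil,
        or_false] at hx'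
      rcases hx' with rfl | rfl | rfl
      · exact Or.inr rfl
      · exact absurd rfl (hpT _ hx).2
      · exact Or.inl rfl) hbb'.symm (by simp only [Walk.length_cons, Walk.length_nil]; omega)
  refine ⟨C, ?_⟩
  rw [hC]
  rintro x (hx | hx)
  · exact (hpT x hx).1
  · simp only [Walk.support_cons, Walk.support_nil, List.mem_cons, List.not_mem_nil,
      or_false] at hx
    rcases hx with rfl | rfl | rfl
    exacts [hb', ha, hb]

omit [Finite V] in
/-- An arc of a cycle together with a path outside the cycle joining its ends is a cycle. -/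
theorem link_cyc_of_arc (C : Cyc G) {i j : ℕ} (hij : i < j) (hj : j < i + C.n) {a' b' : V}
    (P : G.Walk b' a') (hP : P.IsPath) (hPC : ∀ x ∈ P.support, x ∉ C.verts)
    (hb : G.Adj (C.c j) b') (ha : G.Adj a' (C.c i)) :
    ∃ C₁ : Cyc G, C₁.verts = C.arc i j ∪ {x | x ∈ P.support} := by
  obtain ⟨m, rfl⟩ : ∃ m, j = i + m := ⟨j - i, by omega⟩
  have hne : C.c i ≠ C.c (i + m) := fun h => by
    have := C.inj' h (by omega) (by omega)
    omega
  have hsup : ∀ x, x ∈ ((C.walk i m).mapLe C.graph_le).support ↔ x ∈ C.arc i (i + m) := by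
    intro x
    rw [Walk.support_mapLe_eq_support, C.mem_support_walk]
  have hsup' : ∀ x, x ∈ (Walk.cons hb (P.concat ha)).support ↔
      x = C.c (i + m) ∨ x ∈ P.support ∨ x = C.c i := by
    intro x
    simp [Walk.support_concat]
  obtain ⟨C₁, -, -, -, hC⟩ := exists_cyc_of_paths ((C.walk i m).mapLe C.graph_le)
    (Walk.cons hb (P.concat ha)) ((C.isPath_walk i (by omega)).mapLe _)
    (by
      refine (Walk.cons_isPath_iff _ _).2 ⟨(Walk.concat_isPath_iff _).2
        ⟨hP, fun h => hPC _ h (C.c_mem_verts _)⟩, ?_⟩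
      simp only [Walk.support_concat, List.mem_append, List.mem_singleton, not_or]
      exact ⟨fun h => hPC _ h (C.c_mem_verts _), hne.symm⟩)
    (by
      intro x hx hx'
      rcases (hsup' x).1 hx' with h | h | h
      · exact Or.inr h
      · exact absurd (C.arc_subset_verts _ _ ((hsup x).1 hx)) (hPC x h)
      · exact Or.inl h) hne
    (by
      have : ((C.walk i m).mapLe C.graph_le).length = m := by
        rw [Walk.mapLe, Walk.length_map, C.length_walk]
      rw [this, Walk.length_cons, Walk.length_concat]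
      omega)
  refine ⟨C₁, ?_⟩
  rw [hC]
  ext x
  simp only [Set.mem_ofPred_eq, Set.mem_union, hsup, hsup']
  constructor
  · rintro (h | rfl | h | rfl)
    · exact Or.inl h
    · exact Or.inl (C.c_mem_arc (by omega) le_rfl)
    · exact Or.inr h
    · exact Or.inl (C.c_mem_arc le_rfl (by omega))
  · rintro (h | h)
    · exact Or.inl h
    · exact Or.inr (Or.inr (Or.inl h))

omit [Finite V] in
/-- A chordal path and a connected set attached to it and to both open arcs give `K₃,₃`. -/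
theorem link_not_planar (C : Cyc G) {i j k l : ℕ} (h1 : i < k) (h2 : k < j) (h3 : j < l)
    (h4 : l < i + C.n) {I T : Set V} (hI : ConnSet G I) (hT : ConnSet G T)
    (hIC : Disjoint I C.verts) (hTC : Disjoint T C.verts) (hTI : Disjoint T I)
    (hadj : SAdj G T I) (hi : SAdj G {C.c i} I) (hj : SAdj G {C.c j} I)
    (hk : SAdj G T {C.c k}) (hl : SAdj G T {C.c l}) : ¬ Planar G := by
  have e1 : ∀ s, ({C.c s} : Set V) = C.arc s s := fun s => by simp [Cyc.arc]
  have hin : C.c (i + C.n - 1 + 1) = C.c i := by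
    rw [Nat.sub_add_cancel (by omega), C.per]
  have hjn : C.c (j - 1 + 1) = C.c j := by rw [Nat.sub_add_cancel (by omega)]
  refine not_planar_of_K33 ![{C.c i}, {C.c j}, T]
    ![C.arc (i + 1) (j - 1), C.arc (j + 1) (i + C.n - 1), I] ?_ ?_ ?_ ?_ ?_ ?_
  · intro x
    fin_cases x
    exacts [connSet_singleton _ _, connSet_singleton _ _, hT]
  · intro x
    fin_cases x
    exacts [C.connSet_arc (by omega), C.connSet_arc (by omega), hI]
  · intro x y hxy
    fin_cases x <;> fin_cases y <;> simp only [Fin.mk_lt_mk] at hxy <;> try omega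
    · show Disjoint {C.c i} {C.c j}
      rw [e1, e1]; exact C.disjoint_arc (by omega) (by omega)
    · exact hTC.symm.mono_left (Set.singleton_subset_iff.2 (C.c_mem_verts _))
    · exact hTC.symm.mono_left (Set.singleton_subset_iff.2 (C.c_mem_verts _))
  · intro x y hxy
    fin_cases x <;> fin_cases y <;> simp only [Fin.mk_lt_mk] at hxy <;> try omega
    · exact C.disjoint_arc (by omega) (by omega)
    · exact hIC.symm.mono_left (C.arc_subset_verts _ _)
    · exact hIC.symm.mono_left (C.arc_subset_verts _ _)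
  · intro x y
    fin_cases x <;> fin_cases y
    · exact Set.disjoint_singleton_left.2 (C.c_notMem_arc' (by omega) (by omega))
    · exact Set.disjoint_singleton_left.2 (C.c_notMem_arc' (by omega) (by omega))
    · exact hIC.symm.mono_left (Set.singleton_subset_iff.2 (C.c_mem_verts _))
    · exact Set.disjoint_singleton_left.2 (C.c_notMem_arc (by omega) (by omega))
    · exact Set.disjoint_singleton_left.2 (C.c_notMem_arc' (by omega) (by omega))
    · exact hIC.symm.mono_left (Set.singleton_subset_iff.2 (C.c_mem_verts _))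
    · exact hTC.mono_right (C.arc_subset_verts _ _)
    · exact hTC.mono_right (C.arc_subset_verts _ _)
    · exact hTI
  · intro x y
    fin_cases x <;> fin_cases y
    · exact ⟨_, rfl, _, C.c_mem_arc le_rfl (by omega), C.adj i⟩
    · exact ⟨_, rfl, _, C.c_mem_arc (l := i + C.n - 1) (by omega) le_rfl,
        hin ▸ (C.adj (i + C.n - 1)).symm⟩
    · exact hi
    · exact ⟨_, rfl, _, C.c_mem_arc (l := j - 1) (by omega) le_rfl, hjn ▸ (C.adj (j - 1)).symm⟩
    · exact ⟨_, rfl, _, C.c_mem_arc le_rfl (by omega), C.adj j⟩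
    · exact hj
    · exact hk.mono le_rfl (Set.singleton_subset_iff.2 (C.c_mem_arc (by omega) (by omega)))
    · exact hl.mono le_rfl (Set.singleton_subset_iff.2 (C.c_mem_arc (by omega) (by omega)))
    · exact hadj

/-- In a planar graph, a connected set with two-connected complement is surrounded by a cycle
through all its neighbours. -/
theorem exists_link_cyc (hG : Planar G) {S K : Set V} (hS : G.support ⊆ S) (hK : ConnSet G K)
    (h3 : 3 ≤ (S \ K).ncard) (h2 : ∀ z, ConnSet G ((S \ K) \ {z})) :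
    ∃ C : Cyc G, Disjoint C.verts K ∧ bd G K ⊆ C.verts := by
  classical
  obtain ⟨k₀, hk₀⟩ := hK.1
  have hex : ∃ n, ∃ C : Cyc G, C.verts ⊆ S \ K ∧ (comp G C.vertsᶜ k₀).ncard = n := by
    obtain ⟨C, hC⟩ := exists_cyc_of_two_conn h3 h2
    exact ⟨_, C, hC, rfl⟩
  obtain ⟨C, hC, hCn⟩ := Nat.find_spec hex
  have hmin : ∀ C' : Cyc G, C'.verts ⊆ S \ K →
      (comp G C.vertsᶜ k₀).ncard ≤ (comp G C'.vertsᶜ k₀).ncard := fun C' hC' =>
    hCn ▸ Nat.find_min' hex ⟨C', hC', rfl⟩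
  set Kc := comp G C.vertsᶜ k₀ with hKc
  have hKC : K ⊆ C.vertsᶜ := fun x hx hx' => (hC hx').2 hx
  have hk₀c : k₀ ∈ Kc := mem_comp_self (hKC hk₀)
  have hKKc : K ⊆ Kc := hK.subset_comp hKC hk₀ hk₀c
  have hKcC : Kc ⊆ C.vertsᶜ := comp_subset
  refine ⟨C, Set.disjoint_left.2 fun x hx => (hC hx).2, ?_⟩
  by_contra hcon
  obtain ⟨d, hd, hdC⟩ := Set.not_subset.1 hcon
  obtain ⟨hdK, k₁, hk₁, hdk₁⟩ := hd
  have hdKc : d ∈ Kc := mem_comp_of_adj (hKKc hk₁) hdk₁.symm hdC
  set D := comp G (Kc \ K) d with hD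
  have hdD : d ∈ D := mem_comp_self ⟨hdKc, hdK⟩
  have hDsub : D ⊆ Kc \ K := comp_subset
  have hDS : D ⊆ S := by
    intro x hx
    rcases RIn.eq_or_mem_support hx with rfl | h
    · exact hS hdk₁.mem_support_left
    · exact hS h.2
  -- `D` has two neighbours on the cycle
  have hnb : ∀ z ∈ C.verts, ∃ b ∈ C.verts, b ≠ z ∧ ∃ b' ∈ D, G.Adj b' b := by
    intro z hz
    obtain ⟨c, hc, hcz⟩ := link_exists_notMem (T := C.verts) (U := {z})
      (by rw [Set.ncard_singleton, C.ncard_verts]; have := C.three_le; omega)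
    have hdz : d ≠ z := fun e => hdC (e ▸ hz)
    obtain ⟨b', b, hb', hbb, hb, hbD⟩ :=
      ((h2 z).rIn (u := d) (v := c) ⟨⟨hDS hdD, hdK⟩, hdz⟩ ⟨hC hc, hcz⟩).exists_exit (A := D) hdD
        (fun h => hKcC (hDsub h).1 hc)
    refine ⟨b, ?_, hb.2, b', hb'.right_mem.2, hbb⟩
    by_contra hbC
    exact hbD (mem_comp_of_adj hb'.right_mem.2 hbb
      ⟨mem_comp_of_adj (hDsub hb'.right_mem.2).1 hbb hbC, hb.1.2⟩)
  obtain ⟨a, ha, -, a', ha', haa⟩ := hnb _ (C.c_mem_verts 0)
  obtain ⟨b, hb, hba, b', hb', hbb⟩ := hnb a ha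
  obtain ⟨i, rfl⟩ := ha
  obtain ⟨j, hij, hj, rfl⟩ := C.exists_pos hb i
  have hij' : i < j := lt_of_le_of_ne hij fun e => hba (by rw [e])
  obtain ⟨P, hP, hPD⟩ := ((connSet_comp (G := G) (S := Kc \ K) (u := d) ⟨hdKc, hdK⟩).rIn
    hb' ha').exists_path
  set I : Set V := {x | x ∈ P.support} with hI
  have hID : I ⊆ D := hPD
  have hPC : ∀ x ∈ P.support, x ∉ C.verts := fun x hx => hKcC (hDsub (hPD x hx)).1
  have hk₀I : k₀ ∉ I := fun h => (hDsub (hID h)).2 hk₀
  set T := comp G (Kc \ I) k₀ with hT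
  have hk₀T : k₀ ∈ T := mem_comp_self ⟨hk₀c, hk₀I⟩
  have hTsub : T ⊆ Kc \ I := comp_subset
  have hTlt : T.ncard < Kc.ncard := by
    refine Set.ncard_lt_ncard ⟨fun x hx => (hTsub hx).1, fun h => ?_⟩
    have h1 : a' ∈ I := P.end_mem_support
    exact (hTsub (h (hDsub (hID h1)).1)).2 h1
  -- attachments of `T` outside any new cycle
  have hatt : ∀ (C₁ : Cyc G) (A : Set V), A ⊆ C.verts → C₁.verts = A ∪ I →
      ∃ t ∈ T, ∃ y ∈ C.verts, y ∉ A ∧ G.Adj t y := by
    intro C₁ A hA hC₁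
    by_contra hno
    push Not at hno
    have hsub : comp G C₁.vertsᶜ k₀ ⊆ T := by
      intro x hx
      refine RIn.induction (P := fun y => y ∈ T) hx hk₀T ?_
      intro t y _ hy hty ht
      rw [hC₁] at hy
      have hyC : y ∉ C.verts := fun h => hno t ht y h (fun h' => hy (Or.inl h')) hty
      exact mem_comp_of_adj ht hty
        ⟨mem_comp_of_adj (hTsub ht).1 hty hyC, fun h' => hy (Or.inr h')⟩
    have h1 := hmin C₁ (by
      rw [hC₁]
      rintro x (hx | hx)
      · exact hC (hA hx)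
      · exact ⟨hDS (hID hx), (hDsub (hID hx)).2⟩)
    have h2 := Set.ncard_le_ncard hsub
    omega
  obtain ⟨C₁, hC₁⟩ := link_cyc_of_arc C hij' hj P hP hPC hbb.symm haa
  obtain ⟨C₂, hC₂⟩ := link_cyc_of_arc C (i := j) (j := i + C.n) hj (by omega) P.reverse hP.reverse
    (fun x hx => hPC x (by simpa using hx)) (by rw [C.per]; exact haa.symm) hbb
  obtain ⟨t₁, ht₁, y₁, hy₁, hy₁A, hty₁⟩ := hatt C₁ _ (C.arc_subset_verts _ _) hC₁
  obtain ⟨t₂, ht₂, y₂, hy₂, hy₂A, hty₂⟩ := hatt C₂ _ (C.arc_subset_verts j (i + C.n))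
    (by rw [hC₂]; simp [hI])
  obtain ⟨l, hl1, hl2, rfl⟩ := C.exists_pos hy₁ i
  obtain ⟨k, hk1, hk2, rfl⟩ := C.exists_pos hy₂ i
  have hjl : j < l := by
    by_contra h
    exact hy₁A (C.c_mem_arc hl1 (by omega))
  have hkj : k < j := by
    by_contra h
    exact hy₂A (C.c_mem_arc (by omega) (by omega))
  have hik : i < k := by
    refine lt_of_le_of_ne hk1 fun e => hy₂A ?_
    rw [← e, ← C.per i]
    exact C.c_mem_arc (by omega) le_rfl
  have hTI : SAdj G T I := by
    have h1 : a' ∈ I := P.end_mem_support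
    obtain ⟨t, y, ht, hty, hy, hyT⟩ :=
      ((connSet_comp (G := G) (S := C.vertsᶜ) (hKC hk₀)).rIn hk₀c
        (hDsub (hID h1)).1).exists_exit (A := T) hk₀T (fun h => (hTsub h).2 h1)
    refine ⟨t, ht.right_mem.2, y, ?_, hty⟩
    by_contra hyI
    exact hyT (mem_comp_of_adj ht.right_mem.2 hty ⟨hy, hyI⟩)
  exact link_not_planar C hik hkj hjl hl2 (connSet_support P)
    (connSet_comp (S := Kc \ I) ⟨hk₀c, hk₀I⟩)
    (Set.disjoint_left.2 hPC) (Set.disjoint_left.2 fun x hx => hKcC (hTsub hx).1)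
    (Set.disjoint_left.2 fun x hx => (hTsub hx).2) hTI
    ⟨_, rfl, a', P.end_mem_support, haa.symm⟩ ⟨_, rfl, b', P.start_mem_support, hbb.symm⟩
    ⟨t₂, ht₂, _, rfl, hty₂⟩ ⟨t₁, ht₁, _, rfl, hty₁⟩ hG

/-- A three-connected graph with at least five vertices has a contractible edge. -/
theorem exists_contractible {S : Set V} (hS : G.support ⊆ S) (h5 : 5 ≤ S.ncard)
    (h3 : ThreeConnOn G S) : ∃ x y, G.Adj x y ∧ ∀ z, ConnSet G ((S \ {x, y}) \ {z}) := by
  classical
  by_contra hcon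
  push Not at hcon
  have hsep : ∀ x y, G.Adj x y → ∃ z, ∃ u ∈ (S \ {x, y}) \ {z}, ∃ u' ∈ (S \ {x, y}) \ {z},
      u' ∉ comp G ((S \ {x, y}) \ {z}) u := by
    intro x y hxy
    obtain ⟨z, hz⟩ := hcon x y hxy
    refine ⟨z, link_not_connSet ?_ hz⟩
    obtain ⟨c, hc, hc'⟩ := link_exists_notMem (T := S) (U := {z, x, y}) (by
      have h1 := Set.ncard_insert_le z ({x, y} : Set V)
      have h2 := Set.ncard_insert_le x ({y} : Set V)
      rw [Set.ncard_singleton] at h2
      omega)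
    exact ⟨c, ⟨hc, fun h => hc' (Or.inr h)⟩, fun h => hc' (Or.inl h)⟩
  have hex : ∃ n, ∃ x y z u u', G.Adj x y ∧ u ∈ (S \ {x, y}) \ {z} ∧ u' ∈ (S \ {x, y}) \ {z} ∧
      u' ∉ comp G ((S \ {x, y}) \ {z}) u ∧ (comp G ((S \ {x, y}) \ {z}) u).ncard = n := by
    obtain ⟨a, -, -⟩ := link_exists_notMem (T := S) (U := ∅) (by rw [Set.ncard_empty]; omega)
    obtain ⟨x, hx, hxa⟩ := link_exists_notMem (T := S) (U := {a})
      (by rw [Set.ncard_singleton]; omega)
    obtain ⟨x', hx', hxa'⟩ := link_exists_notMem (T := S) (U := {a, x})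
      (lt_of_le_of_lt (Set.ncard_insert_le _ _) (by rw [Set.ncard_singleton]; omega))
    obtain ⟨y, -, hxy⟩ := link_exists_adj (h3 a a) (u := x) (u' := x')
      ⟨hx, by simpa using hxa⟩ ⟨hx', fun h => hxa' (Or.inl (by simpa using h))⟩
      (fun h => hxa' (Or.inr h))
    obtain ⟨z, u, hu, u', hu', h⟩ := hsep x y hxy
    exact ⟨_, x, y, z, u, u', hxy, hu, hu', h, rfl⟩
  obtain ⟨x, y, z, u, u', hxy, hu, hu', hne, hn⟩ := Nat.find_spec hex
  obtain ⟨v, hv, hvz⟩ := link_exit (h3 x y) hu hu'.1 hne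
  obtain ⟨w, u₁, hu₁, u₂, hu₂, h12⟩ := hsep z v hvz.symm
  set W := (S \ {x, y}) \ {z} with hW
  set W' := (S \ {z, v}) \ {w} with hW'
  have main : ∀ u₁ ∈ W', ∀ u₂ ∈ W', u₂ ∉ comp G W' u₁ → x ∉ comp G W' u₁ → y ∉ comp G W' u₁ →
      False := by
    intro u₁ hu₁ u₂ hu₂ h12 hx hy
    have e : (S \ {z, w}) \ {v} = W' := by
      ext t
      simp only [hW', Set.mem_sdiff, Set.mem_insert_iff, Set.mem_singleton_iff]
      tauto
    obtain ⟨t, ht, htv⟩ := link_exit (h3 z w) (z := v) (u := u₁) (u' := u₂) (e ▸ hu₁)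
      (show u₂ ∈ (S \ {z, w}) \ {v} from e ▸ hu₂).1 (by rw [e]; exact h12)
    rw [e] at ht
    have hsubW : comp G W' u₁ ⊆ W := by
      intro s hs
      have hs' : s ∈ W' := comp_subset hs
      refine ⟨⟨hs'.1.1, ?_⟩, fun h => hs'.1.2 (Or.inl h)⟩
      rintro (rfl | rfl)
      exacts [hx hs, hy hs]
    have hsub : comp G W' u₁ ⊆ comp G W u :=
      (connSet_comp hu₁).subset_comp hsubW ht (mem_comp_of_adj hv htv.symm (hsubW ht))
    have hlt : (comp G W' u₁).ncard < (comp G W u).ncard :=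
      Set.ncard_lt_ncard ⟨hsub, fun h => (comp_subset (h hv) : v ∈ W').1.2 (Or.inr rfl)⟩
    have hle : Nat.find hex ≤ (comp G W' u₁).ncard :=
      Nat.find_min' hex ⟨z, v, w, u₁, u₂, hvz.symm, hu₁, hu₂, h12, rfl⟩
    omega
  have h21 : u₁ ∉ comp G W' u₂ := fun h => h12 (RIn.symm h)
  have hdisj : ∀ s, s ∈ comp G W' u₁ → s ∈ comp G W' u₂ → False := fun s h1 h2 =>
    h12 (RIn.trans h1 (RIn.symm h2))
  by_cases hx : x ∈ comp G W' u₁
  · exact main u₂ hu₂ u₁ hu₁ h21 (hdisj x hx)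
      fun hy => hdisj y (mem_comp_of_adj hx hxy (comp_subset hy)) hy
  · by_cases hy : y ∈ comp G W' u₁
    · exact main u₂ hu₂ u₁ hu₁ h21
        (fun hx' => hx (mem_comp_of_adj hy hxy.symm (comp_subset hx'))) (hdisj y hy)
    · exact main u₁ hu₁ u₂ hu₂ h12 hx hy

end Pool.Agent.Lib.Common.Pl
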