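import Pool.Agent.Lib.Common.Planar.Wagner

/-! Maximal planar graphs are three-connected and have link cycles. -/

namespace Pool.Agent.Lib.Common.Pl

open SimpleGraph

variable {V : Type} [Finite V] {G : SimpleGraph V} {S : Set V}

omit [Finite V] in
theorem mx_support_sup {G₁ G₂ : SimpleGraph V} {P : Set V} (h₁ : G₁.support ⊆ P)
    (h₂ : G₂.support ⊆ P) : (G₁ ⊔ G₂).support ⊆ P := by
  rintro x ⟨y, h | h⟩
  exacts [h₁ h.mem_support_left, h₂ h.mem_support_left]

omit [Finite V] in
theorem mx_support_edge {a b : V} {P : Set V} (ha : a ∈ P) (hb : b ∈ P) :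
    (edge a b).support ⊆ P := by
  rintro x ⟨y, h⟩
  rcases ((edge_adj _ _ _ _).1 h).1 with ⟨rfl, -⟩ | ⟨rfl, -⟩
  exacts [ha, hb]

omit [Finite V] in
theorem mx_edge_adj {a b : V} (h : a ≠ b) : (edge a b).Adj a b :=
  (edge_adj _ _ _ _).2 ⟨Or.inl ⟨rfl, rfl⟩, h⟩

omit [Finite V] in
theorem mx_edge_le {a b : V} {H : SimpleGraph V} (h : a ≠ b → H.Adj a b) : edge a b ≤ H := by
  rw [edge_le_iff]
  by_cases e : a = b
  exacts [Or.inl e, Or.inr (h e)]

omit [Finite V] in
theorem mx_verts_subset (C : Cyc G) : C.verts ⊆ G.support := by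
  rintro _ ⟨i, rfl⟩
  exact (C.adj i).mem_support_left

omit [Finite V] in
theorem MaxOn.adj_of_planar (h : MaxOn G S) {a b : V} (ha : a ∈ S) (hb : b ∈ S) (hab : a ≠ b)
    (hp : Planar (G ⊔ edge a b)) : G.Adj a b := by
  by_contra hn
  exact h.2.2 a ha b hb hab hn hp

theorem Planar.exists_maxOn (h : Planar G) (hS : G.support ⊆ S) : ∃ G', G ≤ G' ∧ MaxOn G' S := by
  obtain ⟨G', hle, hmax⟩ := Set.Finite.exists_le_maximal
    (Set.toFinite {H : SimpleGraph V | Planar H ∧ H.support ⊆ S}) (a := G) ⟨h, hS⟩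
  refine ⟨G', hle, hmax.1.1, hmax.1.2, fun a ha b hb hab hn hp => hn ?_⟩
  have := hmax.2 (y := G' ⊔ edge a b) ⟨hp, mx_support_sup hmax.1.2 (mx_support_edge ha hb)⟩
    le_sup_left
  exact this (Or.inr (mx_edge_adj hab))

theorem MaxOn.adj_of_ncard_le (h : MaxOn G S) (h4 : S.ncard ≤ 4) {a b : V} (ha : a ∈ S)
    (hb : b ∈ S) (hab : a ≠ b) : G.Adj a b :=
  h.adj_of_planar ha hb hab (planar_of_ncard_support_le
    ((Set.ncard_le_ncard (mx_support_sup h.2.1 (mx_support_edge ha hb))).trans h4))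

/-- Stacking a new vertex `v` on `a` and two neighbours of `a` that are consecutive on a cycle
through all neighbours of `a`. -/
theorem planar_stack (h : Planar G) {a v : V} (hv : v ∉ G.support) (hva : v ≠ a) (C : Cyc G)
    (ha : a ∉ C.verts) {i j : ℕ} (hij : i < j) (hj : j < i + C.n) (hi' : G.Adj a (C.c i))
    (hj' : G.Adj a (C.c j)) (hN : ∀ b, G.Adj a b → b ∈ C.arc j (i + C.n)) :
    Planar (G ⊔ edge v a ⊔ edge v (C.c i) ⊔ edge v (C.c j)) := by
  set H := G ⊔ edge v a ⊔ edge v (C.c i) ⊔ edge v (C.c j) with hH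
  have hGH : G ≤ H := le_sup_of_le_left (le_sup_of_le_left le_sup_left)
  have hvC : v ∉ C.verts := fun hc => hv (mx_verts_subset C hc)
  have hadj : ∀ x y, H.Adj x y → G.Adj x y ∨ (x = v ∧ (y = a ∨ y = C.c i ∨ y = C.c j)) ∨
      (y = v ∧ (x = a ∨ x = C.c i ∨ x = C.c j)) := by
    intro x y hxy
    simp only [hH, sup_adj, edge_adj] at hxy
    tauto
  have hfix : ∀ x, x ≠ v → contr {a, v} a x = x := by
    intro x hx
    by_cases hxa : x = a
    · rw [contr_of_mem (by simp [hxa]), hxa]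
    · exact contr_of_notMem (by simp [hx, hxa])
  have hcv : contr {a, v} a v = a := contr_of_mem (by simp)
  have hci : C.c i ≠ v := fun e => hvC (e ▸ C.c_mem_verts i)
  have hcj : C.c j ≠ v := fun e => hvC (e ▸ C.c_mem_verts j)
  have hle : H.map (contr {a, v} a) ≤ G := by
    rintro _ _ ⟨hne, x, y, hxy, rfl, rfl⟩
    rcases hadj x y hxy with hg | ⟨rfl, rfl | rfl | rfl⟩ | ⟨rfl, rfl | rfl | rfl⟩
    · rw [hfix x fun e => hv (e ▸ hg.mem_support_left),
        hfix y fun e => hv (e ▸ hg.mem_support_right)]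
      exact hg
    · exact absurd (hcv.trans (hfix _ hva.symm).symm) hne
    · rw [hcv, hfix _ hci]; exact hi'
    · rw [hcv, hfix _ hcj]; exact hj'
    · exact absurd (hcv.trans (hfix _ hva.symm).symm).symm hne
    · rw [hcv, hfix _ hci]; exact hi'.symm
    · rw [hcv, hfix _ hcj]; exact hj'.symm
  have hav : H.Adj a v := by
    refine Or.inl (Or.inl (Or.inr ?_))
    exact (mx_edge_adj hva).symm
  refine planar_of_split_cyc hav (h.mono hle) (C.transfer H (C.graph_le.trans hGH)) ha hvC hij hj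
    ?_ ?_
  · intro b hb hba
    rcases hadj _ _ hb with hg | ⟨-, rfl | rfl | rfl⟩ | ⟨rfl, -⟩
    · exact absurd hg.mem_support_left hv
    · exact absurd rfl hba
    · exact C.c_mem_arc le_rfl hij.le
    · exact C.c_mem_arc hij.le le_rfl
    · exact absurd rfl hb.ne
  · intro b hb hbv
    rcases hadj _ _ hb with hg | ⟨e, -⟩ | ⟨e, -⟩
    · exact hN b hg
    · exact absurd e.symm hva
    · exact absurd e hbv

/-- The image of a cycle under an injective map. -/
def Cyc.mxMap {W : Type} (C : Cyc G) (f : V → W) (hf : Function.Injective f) : Cyc (G.map f) where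
  n := C.n
  c i := f (C.c i)
  three_le := C.three_le
  adj i := map_adj_apply' (C.adj i) fun e => (C.adj i).ne (hf e)
  per i := by rw [C.per]
  inj i j hi hj h := C.inj i j hi hj (hf h)

/-- Adding an edge between two neighbours of `a` that are consecutive on a cycle through all
neighbours of `a`. -/
theorem planar_add_edge (h : Planar G) {a : V} (C : Cyc G)
    (ha : a ∉ C.verts) {i j : ℕ} (hij : i < j) (hj : j < i + C.n) (hi' : G.Adj a (C.c i))
    (hj' : G.Adj a (C.c j)) (hN : ∀ b, G.Adj a b → b ∈ C.arc j (i + C.n)) :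
    Planar (G ⊔ edge (C.c i) (C.c j)) := by
  classical
  have hinj : Function.Injective (some : V → Option V) := Option.some_injective V
  have hmap : ∀ x y, G.Adj x y → (G.map (some : V → Option V)).Adj (some x) (some y) :=
    fun x y hxy => map_adj_apply' hxy fun e => hxy.ne (hinj e)
  have hst := planar_stack (G := G.map (some : V → Option V))
    (h.map_of_injOn some hinj.injOn) (a := some a) (v := none)
    (by rintro ⟨y, -, x, z, -, hx, -⟩; exact Option.some_ne_none x hx) (by simp)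
    (C.mxMap some hinj) (by rintro ⟨l, hl⟩; exact ha ⟨l, hinj hl⟩) hij hj (hmap _ _ hi')
    (hmap _ _ hj') (by
      rintro _ ⟨-, x, y, hxy, hx, rfl⟩
      obtain rfl := hinj hx
      obtain ⟨l, h1, h2, rfl⟩ := C.mem_arc.1 (hN y hxy)
      exact (C.mxMap some hinj).c_mem_arc h1 h2)
  change Planar (G.map some ⊔ edge none (some a) ⊔ edge none (some (C.c i)) ⊔
    edge none (some (C.c j))) at hst
  refine hst.of_minorOn ⟨fun x => if x = C.c i then {some x, none} else {some x}, ?_, ?_, ?_⟩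
  · intro x _
    by_cases hx : x = C.c i
    · simp only [hx, if_true]
      exact connSet_pair (Or.inl (Or.inr (mx_edge_adj (by simp)).symm))
    · simp only [hx, if_false]
      exact connSet_singleton _ _
  · intro x _ y _ hxy
    by_cases hx : x = C.c i <;> by_cases hy : y = C.c i
    · exact absurd (hx.trans hy.symm) hxy
    · simp [hx, hy]
    · simp [hx, hy]
    · simp [hx, hy, hxy]
  · have hself : ∀ x : V, some x ∈ (if x = C.c i then {some x, none} else {some x} :
        Set (Option V)) := by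
      intro x
      split_ifs <;> simp
    have hnone : none ∈ (if C.c i = C.c i then {some (C.c i), none} else {some (C.c i)} :
        Set (Option V)) := by simp
    rintro x y (hxy | hxy)
    · exact ⟨_, hself x, _, hself y, Or.inl (Or.inl (Or.inl (hmap _ _ hxy)))⟩
    · rcases ((edge_adj _ _ _ _).1 hxy).1 with ⟨rfl, rfl⟩ | ⟨rfl, rfl⟩
      · exact ⟨none, hnone, _, hself _, Or.inr (mx_edge_adj (by simp))⟩
      · exact ⟨_, hself _, none, hnone, Or.inr (mx_edge_adj (by simp)).symm⟩

theorem mx_exists_notMem (h4 : 4 ≤ S.ncard) (x y z : V) :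
    ∃ w ∈ S, w ≠ x ∧ w ≠ y ∧ w ≠ z := by
  by_contra hcon
  push Not at hcon
  have hsub : S ⊆ {x, y, z} := by
    intro w hw
    by_cases h1 : w = x
    · simp [h1]
    by_cases h2 : w = y
    · simp [h2]
    simp [hcon w hw h1 h2]
  have h1 := Set.ncard_le_ncard hsub
  have h2 : ({x, y, z} : Set V).ncard ≤ 3 := by
    have a1 := Set.ncard_insert_le x ({y, z} : Set V)
    have a2 := Set.ncard_insert_le y ({z} : Set V)
    rw [Set.ncard_singleton] at a2
    omega
  omega

theorem mx_third_neighbor (h4 : 4 ≤ S.ncard) (h3 : ThreeConnOn G S) {a x y : V} (ha : a ∈ S)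
    (hx : a ≠ x) (hy : a ≠ y) : ∃ z, G.Adj a z ∧ z ≠ x ∧ z ≠ y := by
  obtain ⟨w, hw, hwx, hwy, hwa⟩ := mx_exists_notMem h4 x y a
  have hr := (h3 x y).rIn (u := a) (v := w) ⟨ha, by simp [hx, hy]⟩ ⟨hw, by simp [hwx, hwy]⟩
  obtain ⟨p, q, hp, hpq, hq, -⟩ := hr.exists_exit (A := {a}) rfl hwa
  obtain rfl : p = a := hp.right_mem.2
  refine ⟨q, hpq, fun e => hq.2 (by simp [e]), fun e => hq.2 (by simp [e])⟩

theorem MaxOn.exists_link_of_threeConnOn (h : MaxOn G S) (h4 : 4 ≤ S.ncard)
    (h3 : ThreeConnOn G S) {a : V} (ha : a ∈ S) :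
    ∃ C : Cyc G, C.verts = G.neighborSet a := by
  classical
  have hex : ∃ n, ∃ C : Cyc G, C.n = n ∧ a ∉ C.verts ∧ ∀ b, G.Adj a b → b ∈ C.verts := by
    obtain ⟨C, h1, h2⟩ := exists_link_cyc h.1 h.2.1 (connSet_singleton G a)
      (by rw [Set.ncard_sdiff_singleton_of_mem ha]; omega)
      (fun z => by
        have := h3 a z
        rwa [show S \ {a, z} = (S \ {a}) \ {z} by ext w; simp [and_assoc, not_or]] at this)
    refine ⟨C.n, C, rfl, fun hc => Set.disjoint_left.1 h1 hc rfl, fun b hb => h2 ?_⟩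
    exact ⟨hb.ne.symm, a, rfl, hb.symm⟩
  obtain ⟨C, hCn, haC, hN⟩ := Nat.find_spec hex
  refine ⟨C, Set.Subset.antisymm (fun v hv => ?_) fun b hb => hN b hb⟩
  by_contra hva
  have hva' : ¬ G.Adj a v := hva
  have hne : ∀ l, a ≠ C.c l := fun l e => haC (e ▸ C.c_mem_verts l)
  obtain ⟨b0, hb0, -, -⟩ := mx_third_neighbor h4 h3 ha (hne 0) (hne 0)
  obtain ⟨i0, rfl⟩ := hN b0 hb0
  obtain ⟨k, hk1, hk2, rfl⟩ := C.exists_pos hv i0
  have hexj : ∃ j, k ≤ j ∧ G.Adj a (C.c j) := ⟨i0 + C.n, hk2.le, by rw [C.per]; exact hb0⟩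
  set j := Nat.find hexj with hjdef
  obtain ⟨hkj, haj⟩ : k ≤ j ∧ G.Adj a (C.c j) := Nat.find_spec hexj
  have hjle : j ≤ i0 + C.n := Nat.find_min' hexj ⟨hk2.le, by rw [C.per]; exact hb0⟩
  have hjmin : ∀ l, k ≤ l → l < j → ¬ G.Adj a (C.c l) := fun l h1 h2 h3 =>
    Nat.find_min hexj h2 ⟨h1, h3⟩
  set i := Nat.findGreatest (fun l => G.Adj a (C.c l)) k with hidef
  have hai : G.Adj a (C.c i) := Nat.findGreatest_spec (P := fun l => G.Adj a (C.c l)) hk1 hb0
  have hi0 : i0 ≤ i := Nat.le_findGreatest (P := fun l => G.Adj a (C.c l)) hk1 hb0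
  have hik : i ≤ k := Nat.findGreatest_le k
  have himax : ∀ l, i < l → l ≤ k → ¬ G.Adj a (C.c l) := fun l h1 h2 =>
    Nat.findGreatest_is_greatest (P := fun l => G.Adj a (C.c l)) h1 h2
  have hik' : i < k := lt_of_le_of_ne hik fun e => hva' (e ▸ hai)
  have hkj' : k < j := lt_of_le_of_ne hkj fun e => hva' (e ▸ haj)
  have hpos : ∀ b, G.Adj a b → ∃ l, j ≤ l ∧ l ≤ i + C.n ∧ C.c l = b := by
    intro b hb
    obtain ⟨l, h1, h2, rfl⟩ := C.exists_pos (hN b hb) (i + 1)
    refine ⟨l, ?_, by omega, rfl⟩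
    by_contra hl
    by_cases hlk : l ≤ k
    · exact himax l (by omega) hlk hb
    · exact hjmin l (by omega) (by omega) hb
  obtain ⟨z, hz, hzi, hzj⟩ := mx_third_neighbor h4 h3 ha (hne i) (hne j)
  obtain ⟨l, hl1, hl2, rfl⟩ := hpos z hz
  have hlj : l ≠ j := fun e => hzj (by rw [e])
  have hli : l ≠ i + C.n := fun e => hzi (by rw [e, C.per])
  have hjn : j < i + C.n := by omega
  have hpl := planar_add_edge h.1 C haC (i := i) (j := j) (by omega) hjn hai haj
    fun b hb => C.mem_arc.2 (hpos b hb)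
  have hcij : C.c i ≠ C.c j := fun e => by
    have := C.inj' e (by omega) (by omega)
    omega
  have hadj : G.Adj (C.c i) (C.c j) :=
    h.adj_of_planar (h.2.1 hai.mem_support_right) (h.2.1 haj.mem_support_right) hcij hpl
  obtain ⟨C', hn', hc'⟩ := exists_cyc_of_seq (G := G) (fun t => C.c (j + t)) (i + C.n - j + 1)
    (by omega) (fun t _ => C.adj (j + t))
    (by
      have e : j + (i + C.n - j + 1 - 1) = i + C.n := by omega
      simp only [e, C.per, add_zero]
      exact hadj)
    (fun s t hs ht e => by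
      have := C.inj' e (by omega) (by omega)
      omega)
  refine Nat.find_min hex (m := C'.n) (by omega) ⟨C', rfl, fun hc => ?_, fun b hb => ?_⟩
  · obtain ⟨t, -, ht, e⟩ := C'.exists_pos hc 0
    rw [hc' t (by omega)] at e
    exact hne _ e.symm
  · obtain ⟨t, h1, h2, rfl⟩ := hpos b hb
    refine ⟨t - j, ?_⟩
    rw [hc' _ (by omega)]
    congr 1
    omega

theorem mx_planar_triangle (a b c : V) : Planar (edge a b ⊔ edge a c ⊔ edge b c) := by
  refine planar_of_ncard_support_le ?_
  have hsub : (edge a b ⊔ edge a c ⊔ edge b c).support ⊆ {a, b, c} :=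
    mx_support_sup (mx_support_sup (mx_support_edge (by simp) (by simp))
      (mx_support_edge (by simp) (by simp))) (mx_support_edge (by simp) (by simp))
  have h1 := Set.ncard_le_ncard hsub
  have a1 := Set.ncard_insert_le a ({b, c} : Set V)
  have a2 := Set.ncard_insert_le b ({c} : Set V)
  rw [Set.ncard_singleton] at a2
  omega

theorem mx_exists_edge_at {H : SimpleGraph V} (hH : Planar H) {a : V} {P : Set V}
    (hP : P.Nonempty) (hsub : H.support ⊆ insert a P) : ∃ u ∈ P, Planar (H ⊔ edge a u) := by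
  by_cases ha : a ∈ H.support
  · obtain ⟨u, hu⟩ := ha
    refine ⟨u, (hsub hu.mem_support_right).resolve_left hu.ne.symm, ?_⟩
    rwa [sup_edge_of_adj H hu]
  · obtain ⟨u, hu⟩ := hP
    refine ⟨u, hu, hH.sup_one ((mx_planar_triangle a u u).mono
      (le_sup_of_le_left le_sup_left)) u ?_⟩
    rintro x ⟨hx, hx'⟩
    rcases mx_support_edge (P := {a, u}) (by simp) (by simp) hx' with rfl | rfl
    · exact absurd hx ha
    · rfl

/-- A maximal planar graph stays connected after deleting one vertex. -/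
theorem MaxOn.rIn_diff_one (h : MaxOn G S) (a : V) {u w : V} (hu : u ∈ S \ {a})
    (hw : w ∈ S \ {a}) : RIn G (S \ {a}) u w := by
  by_contra hn
  set D := comp G (S \ {a}) u with hD
  have hDsub : D ⊆ S \ {a} := comp_subset
  have hs1 : (inc G D).support ⊆ insert a D := by
    intro x hx
    rcases support_inc_subset hx with hx' | hx'
    · exact Or.inr hx'
    · left
      by_contra hxa
      exact bd_comp_subset hx' ⟨h.2.1 (support_mono inc_le hx), hxa⟩
  have hs2 : (res G Dᶜ).support ⊆ insert a ((S \ {a}) \ D) := by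
    intro x hx
    by_cases hxa : x = a
    · exact Or.inl hxa
    · exact Or.inr ⟨⟨h.2.1 (support_mono res_le hx), hxa⟩, support_res_subset hx⟩
  obtain ⟨p, hp, hp'⟩ := mx_exists_edge_at (h.1.mono inc_le) ⟨u, mem_comp_self hu⟩ hs1
  obtain ⟨q, hq, hq'⟩ := mx_exists_edge_at (P := (S \ {a}) \ D) (h.1.mono res_le)
    ⟨w, hw, hn⟩ hs2
  have hpa : a ≠ p := fun e => (hDsub hp).2 e.symm
  have hqa : a ≠ q := fun e => hq.1.2 e.symm
  have hpq : p ≠ q := fun e => hq.2 (e ▸ hp)
  have t1 : (inc G D ⊔ edge a p).support ⊆ insert a D :=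
    mx_support_sup hs1 (mx_support_edge (Or.inl rfl) (Or.inr hp))
  have t2 : (edge a p ⊔ edge a q ⊔ edge p q).support ⊆ {a, p, q} :=
    mx_support_sup (mx_support_sup (mx_support_edge (by simp) (by simp))
      (mx_support_edge (by simp) (by simp))) (mx_support_edge (by simp) (by simp))
  have t3 : (res G Dᶜ ⊔ edge a q).support ⊆ insert a ((S \ {a}) \ D) :=
    mx_support_sup hs2 (mx_support_edge (Or.inl rfl) (Or.inr hq))
  have k1 := hp'.sup_two (mx_planar_triangle a p q) (a := a) (b := p)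
    (Or.inr (mx_edge_adj hpa)) (Or.inl (Or.inl (mx_edge_adj hpa))) (by
      rintro x ⟨hx, hx'⟩
      rcases t2 hx' with rfl | rfl | rfl
      · simp
      · simp
      · rcases t1 hx with e | e
        · exact absurd e.symm hqa
        · exact absurd e hq.2)
  have k2 := k1.sup_two hq' (a := a) (b := q)
    (Or.inr (Or.inl (Or.inr (mx_edge_adj hqa)))) (Or.inr (mx_edge_adj hqa)) (by
      rintro x ⟨hx, hx'⟩
      rcases t3 hx' with rfl | hx''
      · simp
      · have := mx_support_sup (P := insert a D ∪ {a, p, q}) (t1.trans Set.subset_union_left)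
          (t2.trans Set.subset_union_right) hx
        rcases this with (rfl | e) | rfl | rfl | rfl
        · simp
        · exact absurd e hx''.2
        · simp
        · exact absurd hp hx''.2
        · simp)
  have hadj : G.Adj p q := by
    refine h.adj_of_planar (hDsub hp).1 hq.1.1 hpq (k2.mono (sup_le ?_ ?_))
    · conv_lhs => rw [← inc_sup_res G D]
      exact sup_le (le_sup_of_le_left (le_sup_of_le_left le_sup_left))
        (le_sup_of_le_right le_sup_left)
    · exact le_sup_of_le_left (le_sup_of_le_right le_sup_right)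
  exact hq.2 (mem_comp_of_adj hp hadj hq.1)

/-- A component of `S - a - b` is adjacent to `b`. -/
theorem MaxOn.comp_adj (h : MaxOn G S) {a b u : V} (hb : b ∈ S) (hab : a ≠ b)
    (hu : u ∈ S \ {a, b}) : ∃ p ∈ comp G (S \ {a, b}) u, G.Adj p b := by
  have hr := h.rIn_diff_one a (u := u) (w := b) ⟨hu.1, fun e => hu.2 (Or.inl e)⟩
    ⟨hb, fun e => hab (Eq.symm e)⟩
  obtain ⟨p, q, hp, hpq, hq, hq'⟩ := hr.exists_exit (A := comp G (S \ {a, b}) u)
    (mem_comp_self hu) (fun hc => (comp_subset hc).2 (Or.inr rfl))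
  refine ⟨p, hp.right_mem.2, ?_⟩
  by_cases hqb : q = b
  · exact hqb ▸ hpq
  · refine absurd (mem_comp_of_adj hp.right_mem.2 hpq ⟨hq.1, ?_⟩) hq'
    rintro (e | e)
    exacts [hq.2 e, hqb e]

/-- One side of a separation of order two, with the virtual edge added, is planar. -/
theorem MaxOn.planar_side (h : MaxOn G S) {a b u : V} (ha : a ∈ S) (hb : b ∈ S) (hab : a ≠ b)
    (hu : u ∈ S \ {a, b}) {T : Set V} (hT : Disjoint T (comp G (S \ {a, b}) u)) :
    Planar (res G T ⊔ edge a b) := by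
  classical
  set E := comp G (S \ {a, b}) u with hE
  obtain ⟨p, hp, hpb⟩ := h.comp_adj hb hab hu
  obtain ⟨q, hq, hqa⟩ := h.comp_adj (a := b) (b := a) (u := u) ha hab.symm
    (by rwa [Set.pair_comm])
  rw [Set.pair_comm] at hq
  have hsup : ∀ x ∈ (res G T ⊔ edge a b).support, x ∉ E := by
    intro x hx hxE
    have := mx_support_sup (P := T ∪ {a, b}) (support_res_subset.trans Set.subset_union_left)
      (mx_support_edge (by simp) (by simp)) hx
    rcases this with e | e
    · exact Set.disjoint_left.1 hT e hxE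
    · exact (comp_subset hxE).2 e
  refine h.1.of_minorOn ⟨fun x => if x = a then insert a E else {x}, ?_, ?_, ?_⟩
  · intro x _
    by_cases hx : x = a
    · simp only [hx, if_true]
      exact (connSet_comp hu).insert hq hqa
    · simp only [hx, if_false]
      exact connSet_singleton _ _
  · intro x hx' y hy' hxy
    by_cases hx : x = a <;> by_cases hy : y = a
    · exact absurd (hx.trans hy.symm) hxy
    · simp only [hx, hy, if_true, if_false, Set.disjoint_singleton_right]
      rintro (e | e)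
      exacts [hy e, hsup y hy' e]
    · simp only [hx, hy, if_true, if_false, Set.disjoint_singleton_left]
      rintro (e | e)
      exacts [hx e, hsup x hx' e]
    · simp [hx, hy, hxy]
  · have hself : ∀ x : V, x ∈ (if x = a then insert a E else {x} : Set V) := by
      intro x
      split_ifs with hx <;> simp [hx]
    have hpm : p ∈ (if a = a then insert a E else {a} : Set V) := by
      simp only [if_true]
      exact Or.inr hp
    rintro x y (hxy | hxy)
    · exact ⟨_, hself x, _, hself y, hxy.1⟩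
    · rcases ((edge_adj _ _ _ _).1 hxy).1 with ⟨rfl, rfl⟩ | ⟨rfl, rfl⟩
      · exact ⟨p, hpm, _, hself _, hpb⟩
      · exact ⟨_, hself _, p, hpm, hpb.symm⟩

/-- Both sides of a separation along an edge are maximal. -/
theorem MaxOn.side (h : MaxOn G S) {a b : V} (hab : G.Adj a b) {T T' : Set V} (hT : T ⊆ S)
    (hsup : res G T ⊔ res G T' = G) (hint : T ∩ T' ⊆ {a, b}) (haT : a ∈ T) (hbT : b ∈ T)
    (haT' : a ∈ T') (hbT' : b ∈ T') : MaxOn (res G T) T := by
  refine ⟨h.1.mono res_le, support_res_subset, fun x hx y hy hxy hn hp => hn ⟨?_, hx, hy⟩⟩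
  have k := hp.sup_two (h.1.mono (res_le (S := T'))) (a := a) (b := b) (Or.inl ⟨hab, haT, hbT⟩)
    ⟨hab, haT', hbT'⟩ (fun z hz => hint
      ⟨mx_support_sup support_res_subset (mx_support_edge hx hy) hz.1, support_res_subset hz.2⟩)
  refine h.adj_of_planar (hT hx) (hT hy) hxy (k.mono (sup_le ?_ ?_))
  · conv_lhs => rw [← hsup]
    exact sup_le (le_sup_of_le_left le_sup_left) le_sup_right
  · exact le_sup_of_le_left le_sup_right

/-- A facial triangle on a given edge. -/
theorem MaxOn.exists_face (h : MaxOn G S) {a b : V} (hab : G.Adj a b)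
    (hne : (S \ {a, b}).Nonempty) (h3 : 4 ≤ S.ncard → ThreeConnOn G S) :
    ConnSet G (S \ {a, b}) ∧ ∃ z ∈ S \ {a, b}, G.Adj a z ∧ G.Adj b z ∧
      ∀ v, v ∉ S → Planar (G ⊔ edge v a ⊔ edge v b ⊔ edge v z) := by
  have ha : a ∈ S := h.2.1 hab.mem_support_left
  have hb : b ∈ S := h.2.1 hab.mem_support_right
  by_cases h4 : 4 ≤ S.ncard
  · refine ⟨h3 h4 a b, ?_⟩
    obtain ⟨C, hC⟩ := h.exists_link_of_threeConnOn h4 (h3 h4) ha
    have hN : ∀ x, x ∈ C.verts ↔ G.Adj a x := fun x => by rw [hC]; rfl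
    obtain ⟨i, rfl⟩ := (hN b).2 hab
    have haz : G.Adj a (C.c (i + 1)) := (hN _).1 (C.c_mem_verts _)
    refine ⟨C.c (i + 1), ⟨h.2.1 haz.mem_support_right, ?_⟩, haz, C.adj i, fun v hv => ?_⟩
    · rintro (e | e)
      exacts [haz.ne e.symm, (C.adj i).ne (Eq.symm e)]
    · have := C.three_le
      refine planar_stack h.1 (fun hc => hv (h.2.1 hc)) (fun e => hv (e ▸ ha)) C
        (fun hc => ((hN a).1 hc).ne rfl) (Nat.lt_succ_self i) (by omega) hab haz fun x hx => ?_
      obtain ⟨l, h1, h2, rfl⟩ := C.exists_pos ((hN x).2 hx) (i + 1)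
      exact C.c_mem_arc h1 (by omega)
  · obtain ⟨z, hz⟩ := hne
    have hza : z ≠ a := fun e => hz.2 (Or.inl e)
    have hzb : z ≠ b := fun e => hz.2 (Or.inr e)
    refine ⟨ConnSet.of_root hz fun w hw => ?_, z, hz,
      h.adj_of_ncard_le (by omega) ha hz.1 hza.symm,
      h.adj_of_ncard_le (by omega) hb hz.1 hzb.symm, fun v _ => ?_⟩
    · by_cases e : z = w
      · exact e ▸ RIn.refl hz
      · exact RIn.of_adj (h.adj_of_ncard_le (by omega) hz.1 hw.1 e) hz hw
    · refine planar_of_ncard_support_le ?_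
      have hsub : (G ⊔ edge v a ⊔ edge v b ⊔ edge v z).support ⊆ insert v S :=
        mx_support_sup (mx_support_sup (mx_support_sup (h.2.1.trans (Set.subset_insert _ _))
          (mx_support_edge (Or.inl rfl) (Or.inr ha))) (mx_support_edge (Or.inl rfl) (Or.inr hb)))
          (mx_support_edge (Or.inl rfl) (Or.inr hz.1))
      have h1 := Set.ncard_le_ncard hsub
      have h2 := Set.ncard_insert_le v S
      omega

omit [Finite V] in
theorem mx_exists_triangle {a b c : V} (hab : G.Adj a b) (hbc : G.Adj b c) (hca : G.Adj c a) :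
    ∃ C : Cyc G, C.verts = {a, b, c} := by
  obtain ⟨C, hn, hc⟩ := exists_cyc_of_seq (G := G)
    (fun t => if t = 0 then a else if t = 1 then b else c) 3 le_rfl
    (fun t ht => by
      obtain rfl | rfl : t = 0 ∨ t = 1 := by omega
      · simpa using hab
      · simpa using hbc)
    (by simpa using hca)
    (fun s t hs ht e => by
      have e1 := hab.ne
      have e2 := hbc.ne
      have e3 := hca.ne
      obtain rfl | rfl | rfl : s = 0 ∨ s = 1 ∨ s = 2 := by omega
      all_goals obtain rfl | rfl | rfl : t = 0 ∨ t = 1 ∨ t = 2 := by omega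
      all_goals simp_all)
  have h0 : C.c 0 = a := by simpa using hc 0 (by omega)
  have h1 : C.c 1 = b := by simpa using hc 1 (by omega)
  have h2 : C.c 2 = c := by simpa using hc 2 (by omega)
  refine ⟨C, Set.Subset.antisymm (fun x hx => ?_) ?_⟩
  · obtain ⟨t, -, ht, rfl⟩ := C.exists_pos hx 0
    obtain rfl | rfl | rfl : t = 0 ∨ t = 1 ∨ t = 2 := by omega
    · simp [h0]
    · simp [h1]
    · simp [h2]
  · rintro x (rfl | rfl | rfl)
    exacts [⟨0, h0⟩, ⟨1, h1⟩, ⟨2, h2⟩]

theorem MaxOn.threeConnOn_aux (n : ℕ) : ∀ (G : SimpleGraph V) (S : Set V), S.ncard = n →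
    MaxOn G S → 4 ≤ S.ncard → ThreeConnOn G S := by
  induction n using Nat.strong_induction_on with
  | _ n ih =>
  intro G S hn h h4 a b
  obtain ⟨u, huS, hua, hub, -⟩ := mx_exists_notMem h4 a b a
  have hu : u ∈ S \ {a, b} := ⟨huS, by simp [hua, hub]⟩
  refine ConnSet.of_root hu fun w hw => ?_
  have hone : ∀ c, S \ {a, b} = S \ {c} → RIn G (S \ {a, b}) u w := fun c e => by
    rw [e] at hu hw ⊢
    exact h.rIn_diff_one c hu hw
  by_cases hab : a = b
  · exact hone a (by simp [hab])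
  by_cases ha : a ∈ S
  swap
  · refine hone b ?_
    ext x
    simp only [Set.mem_sdiff, Set.mem_insert_iff, Set.mem_singleton_iff, not_or]
    exact ⟨fun k => ⟨k.1, k.2.2⟩, fun k => ⟨k.1, fun e => ha (e ▸ k.1), k.2⟩⟩
  by_cases hb : b ∈ S
  swap
  · refine hone a ?_
    ext x
    simp only [Set.mem_sdiff, Set.mem_insert_iff, Set.mem_singleton_iff, not_or]
    exact ⟨fun k => ⟨k.1, k.2.1⟩, fun k => ⟨k.1, k.2, fun e => hb (e ▸ k.1)⟩⟩
  by_contra hnr
  set D := comp G (S \ {a, b}) u with hD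
  have hDsub : D ⊆ S \ {a, b} := comp_subset
  have huD : u ∈ D := mem_comp_self hu
  have hwD : w ∉ D := hnr
  have haD : a ∉ D := fun k => (hDsub k).2 (Or.inl rfl)
  have hbD : b ∉ D := fun k => (hDsub k).2 (Or.inr rfl)
  set T := D ∪ {a, b} with hT
  set T' := S \ D with hT'
  have hTS : T ⊆ S := by
    rintro x (k | rfl | rfl)
    exacts [(hDsub k).1, ha, hb]
  have hT'S : T' ⊆ S := Set.sdiff_subset
  have haT : a ∈ T := Or.inr (Or.inl rfl)
  have hbT : b ∈ T := Or.inr (Or.inr rfl)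
  have haT' : a ∈ T' := ⟨ha, haD⟩
  have hbT' : b ∈ T' := ⟨hb, hbD⟩
  have hint : T ∩ T' ⊆ {a, b} := by
    rintro x ⟨k | k, k'⟩
    exacts [absurd k k'.2, k]
  have hstep : ∀ x y, G.Adj x y → x ∈ D → y ∈ T := by
    intro x y hxy hx
    by_cases hy : y ∈ ({a, b} : Set V)
    · exact Or.inr hy
    · exact Or.inl (mem_comp_of_adj hx hxy ⟨h.2.1 hxy.mem_support_right, hy⟩)
  have hsup : res G T ⊔ res G T' = G := by
    refine le_antisymm (sup_le res_le res_le) fun x y hxy => ?_
    by_cases hx : x ∈ D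
    · exact Or.inl ⟨hxy, Or.inl hx, hstep x y hxy hx⟩
    by_cases hy : y ∈ D
    · exact Or.inl ⟨hxy, hstep y x hxy.symm hy, Or.inl hy⟩
    exact Or.inr ⟨hxy, ⟨h.2.1 hxy.mem_support_left, hx⟩, ⟨h.2.1 hxy.mem_support_right, hy⟩⟩
  have hGab : G.Adj a b := by
    have p1 := h.planar_side ha hb hab hw (T := T) (by
      rw [Set.disjoint_left]
      rintro x (k | k) k'
      · exact hnr (RIn.trans k (RIn.symm k'))
      · exact (comp_subset k').2 k)
    have p2 := h.planar_side ha hb hab hu (T := T') (Set.disjoint_left.2 fun x k k' => k.2 k')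
    have k := p1.sup_two p2 (a := a) (b := b) (Or.inr (mx_edge_adj hab))
      (Or.inr (mx_edge_adj hab)) (fun z hz => hint
        ⟨mx_support_sup support_res_subset (mx_support_edge haT hbT) hz.1,
          mx_support_sup support_res_subset (mx_support_edge haT' hbT') hz.2⟩)
    refine h.adj_of_planar ha hb hab (k.mono (sup_le ?_ ?_))
    · conv_lhs => rw [← hsup]
      exact sup_le_sup le_sup_left le_sup_left
    · exact le_sup_of_le_left le_sup_right
  have m1 : MaxOn (res G T) T := h.side hGab hTS hsup hint haT hbT haT' hbT'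
  have m2 : MaxOn (res G T') T' := h.side hGab hT'S (by rw [sup_comm, hsup])
    (by rw [Set.inter_comm]; exact hint) haT' hbT' haT hbT
  have hwT : w ∉ T := by
    rintro (k | k)
    exacts [hwD k, hw.2 k]
  have lt1 : T.ncard < n := hn ▸ Set.ncard_lt_ncard ⟨hTS, fun k => hwT (k hw.1)⟩
  have lt2 : T'.ncard < n := hn ▸ Set.ncard_lt_ncard ⟨hT'S, fun k => (k huS).2 huD⟩
  obtain ⟨-, z1, hz1, haz1, hbz1, st1⟩ := m1.exists_face (a := a) (b := b) ⟨hGab, haT, hbT⟩
    ⟨u, Or.inl huD, hu.2⟩ (ih _ lt1 _ _ rfl m1)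
  obtain ⟨hK, z2, hz2, -, -, st2⟩ := m2.exists_face (a := a) (b := b) ⟨hGab, haT', hbT'⟩
    ⟨w, ⟨hw.1, hwD⟩, hw.2⟩ (ih _ lt2 _ _ rfl m2)
  have hz1D : z1 ∈ D := hz1.1.resolve_right hz1.2
  set K := T' \ {a, b} with hKdef
  have hz12 : z1 ≠ z2 := fun e => hz2.1.2 (e ▸ hz1D)
  have hKT : ∀ x ∈ K, x ∉ T := by
    rintro x hx (k | k)
    exacts [hx.1.2 k, hx.2 k]
  have hKstep : ∀ x y, G.Adj x y → x ∈ K → y ∈ T' := fun x y hxy hx =>
    ⟨h.2.1 hxy.mem_support_right, fun hy => hKT x hx (hstep y x hxy.symm hy)⟩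
  set H := G ⊔ edge z1 z2 with hH
  have hHadj : ∀ x y, H.Adj x y → G.Adj x y ∨ (x = z1 ∧ y = z2) ∨ (x = z2 ∧ y = z1) := by
    rintro x y (k | k)
    exacts [Or.inl k, Or.inr ((edge_adj _ _ _ _).1 k).1]
  obtain ⟨C, hC⟩ := mx_exists_triangle (G := H) (a := a) (b := b) (c := z1) (Or.inl hGab)
    (Or.inl hbz1.1) (Or.inl haz1.1.symm)
  have hpl : Planar H := by
    refine planar_of_rep (K := K) (k₀ := z2) hz2 (hK.mono_graph (res_le.trans le_sup_left)) C
      ?_ ?_ ?_ ?_
    · rw [hC, Set.disjoint_left]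
      rintro x (rfl | rfl | rfl) k
      exacts [hKT _ k haT, hKT _ k hbT, hKT _ k hz1.1]
    · rw [hC]
      rintro x ⟨hx, y, hy, hxy⟩
      rcases hHadj x y hxy with k | ⟨rfl, rfl⟩ | ⟨rfl, rfl⟩
      · have hxT' := hKstep y x k.symm hy
        have : x ∈ ({a, b} : Set V) := by
          by_contra hc
          exact hx ⟨hxT', hc⟩
        rcases this with rfl | rfl <;> simp
      · simp
      · exact absurd hz2 hx
    · refine (st2 z1 fun k => k.2 hz1D).mono (sup_le ?_ ?_)
      · rintro x y ⟨hxy, hK'⟩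
        rcases hHadj x y hxy with k | ⟨rfl, rfl⟩ | ⟨rfl, rfl⟩
        · refine Or.inl (Or.inl (Or.inl ?_))
          rcases hK' with k' | k'
          · exact ⟨k, k'.1, hKstep x y k k'⟩
          · exact ⟨k, hKstep y x k.symm k', k'.1⟩
        · exact Or.inr (mx_edge_adj hz12)
        · exact Or.inr (mx_edge_adj hz12).symm
      · intro x y hxy
        have hx : x ∈ ({a, b, z1} : Set V) := by
          rw [← hC, ← C.support_graph]; exact hxy.mem_support_left
        have hy : y ∈ ({a, b, z1} : Set V) := by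
          rw [← hC, ← C.support_graph]; exact hxy.mem_support_right
        have hne := hxy.ne
        rcases hx with rfl | rfl | rfl <;> rcases hy with rfl | rfl | rfl
        · exact absurd rfl hne
        · exact Or.inl (Or.inl (Or.inl ⟨hGab, haT', hbT'⟩))
        · exact Or.inl (Or.inl (Or.inr (mx_edge_adj hne.symm).symm))
        · exact Or.inl (Or.inl (Or.inl ⟨hGab.symm, hbT', haT'⟩))
        · exact absurd rfl hne
        · exact Or.inl (Or.inr (mx_edge_adj hne.symm).symm)
        · exact Or.inl (Or.inl (Or.inr (mx_edge_adj hne)))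
        · exact Or.inl (Or.inr (mx_edge_adj hne))
        · exact absurd rfl hne
    · refine (st1 z2 (hKT z2 hz2)).mono ?_
      have key : ∀ x y, G.Adj x y → x ∈ K → y ∉ K →
          (res G T ⊔ edge z2 a ⊔ edge z2 b ⊔ edge z2 z1).Adj z2 y := by
        intro x y hxy hx hy
        have : y ∈ ({a, b} : Set V) := by
          by_contra hc
          exact hy ⟨hKstep x y hxy hx, hc⟩
        rcases this with rfl | rfl
        · exact Or.inl (Or.inl (Or.inr (mx_edge_adj fun e => hy (e ▸ hz2))))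
        · exact Or.inl (Or.inr (mx_edge_adj fun e => hy (e ▸ hz2)))
      have hnK : ∀ x, x ∈ S → x ∉ K → x ∈ T := by
        intro x hx hxK
        by_contra hc
        exact hxK ⟨⟨hx, fun k => hc (Or.inl k)⟩, fun k => hc (Or.inr k)⟩
      have hz1K : z1 ∉ K := fun k => hKT _ k hz1.1
      rintro _ _ ⟨hne, x, y, hxy, rfl, rfl⟩
      rcases hHadj x y hxy with k | ⟨rfl, rfl⟩ | ⟨rfl, rfl⟩
      · by_cases hx : x ∈ K <;> by_cases hy : y ∈ K
        · exact absurd ((contr_of_mem hx).trans (contr_of_mem hy).symm) hne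
        · rw [contr_of_mem hx, contr_of_notMem hy]
          exact key x y k hx hy
        · rw [contr_of_notMem hx, contr_of_mem hy]
          exact (key y x k.symm hy hx).symm
        · rw [contr_of_notMem hx, contr_of_notMem hy]
          exact Or.inl (Or.inl (Or.inl ⟨k, hnK x (h.2.1 k.mem_support_left) hx,
            hnK y (h.2.1 k.mem_support_right) hy⟩))
      · rw [contr_of_notMem hz1K, contr_of_mem hz2]
        exact Or.inr (mx_edge_adj hz12.symm).symm
      · rw [contr_of_notMem hz1K, contr_of_mem hz2]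
        exact Or.inr (mx_edge_adj hz12.symm)
  have hfin := h.adj_of_planar (hDsub hz1D).1 hz2.1.1 hz12 hpl
  exact hKT z2 hz2 (hstep z1 z2 hfin hz1D)

theorem MaxOn.threeConnOn (h : MaxOn G S) (h4 : 4 ≤ S.ncard) : ThreeConnOn G S :=
  MaxOn.threeConnOn_aux _ G S rfl h h4

theorem MaxOn.exists_link (h : MaxOn G S) (h4 : 4 ≤ S.ncard) {a : V} (ha : a ∈ S) :
    ∃ C : Cyc G, C.verts = G.neighborSet a :=
  h.exists_link_of_threeConnOn h4 (h.threeConnOn h4) ha

end Pool.Agent.Lib.Common.Pl
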