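import Pool.Agent.Lib.Common.Planar.Basic

/-! Menger's theorem (vertex version, for sets). -/

namespace Pool.Agent.Lib.Common.Pl

open SimpleGraph

variable {V : Type}

theorem Sep.symm {G : SimpleGraph V} {A B S : Set V} (h : Sep G A B S) : Sep G B A S :=
  fun b hb a ha hr => h a ha b hb hr.symm

/-- The reversed path system. -/
def PathSys.rev {G : SimpleGraph V} {A B : Set V} {ι : Type} (P : PathSys G A B ι) :
    PathSys G B A ι :=
  ⟨P.t, P.s, fun i => (P.p i).reverse, fun i => (P.isPath i).reverse,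
    fun i x hx => P.memB i x (by simpa using hx), fun i x hx => P.memA i x (by simpa using hx),
    fun i j hij x hx hx' => P.disj i j hij x (by simpa using hx) (by simpa using hx')⟩

theorem PathSys.eq_of_mem {G : SimpleGraph V} {A B : Set V} {ι : Type} (P : PathSys G A B ι)
    {i j : ι} {x : V} (hi : x ∈ (P.p i).support) (hj : x ∈ (P.p j).support) : i = j := by
  by_contra h
  exact P.disj i j h x hi hj

theorem PathSys.t_inj {G : SimpleGraph V} {A B : Set V} {ι : Type} (P : PathSys G A B ι) :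
    Function.Injective P.t := fun i j h => by
  have h1 : P.t i ∈ (P.p i).support := (P.p i).end_mem_support
  have h2 : P.t j ∈ (P.p j).support := (P.p j).end_mem_support
  exact P.eq_of_mem h1 (Eq.mpr (congrArg (fun z => z ∈ (P.p j).support) h) h2)

theorem PathSys.range_t {G : SimpleGraph V} {A B : Set V} [Finite V] {k : ℕ}
    (P : PathSys G A B (Fin k)) (hB : B.ncard ≤ k) : Set.range P.t = B := by
  refine Set.eq_of_subset_of_ncard_le (Set.range_subset_iff.2 P.t_mem) ?_
  rw [Set.ncard_range_of_injective P.t_inj]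
  simpa using hB

theorem PathSys.rIn_compl {G : SimpleGraph V} {A B S : Set V} {ι : Type} (P : PathSys G A B ι)
    (hS : S ⊆ B) {i : ι} {z : V} (hz : z ∈ (P.p i).support) (hzS : z ∉ S) :
    RIn G Sᶜ (P.s i) z := by
  classical
  refine ⟨(P.p i).takeUntil z hz, fun v hv hvS => ?_⟩
  have h1 : v = P.t i := (P.memB i v ((P.p i).support_takeUntil_subset_support hz hv)).1 (hS hvS)
  have h2 : P.t i ≠ z := fun h => hzS (h ▸ h1 ▸ hvS)
  exact Walk.endpoint_notMem_support_takeUntil (P.isPath i) hz h2 (h1 ▸ hv)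

theorem rIn_deleteEdge {G : SimpleGraph V} {U : Set V} {a b x y : V} (h : RIn G U a b) :
    RIn (G.deleteEdges {s(x, y)}) U a b ∨
      (RIn (G.deleteEdges {s(x, y)}) U a x ∧ RIn (G.deleteEdges {s(x, y)}) U y b) ∨
      (RIn (G.deleteEdges {s(x, y)}) U a y ∧ RIn (G.deleteEdges {s(x, y)}) U x b) := by
  refine h.induction (P := fun v => RIn (G.deleteEdges {s(x, y)}) U a v ∨
      (RIn (G.deleteEdges {s(x, y)}) U a x ∧ RIn (G.deleteEdges {s(x, y)}) U y v) ∨
      (RIn (G.deleteEdges {s(x, y)}) U a y ∧ RIn (G.deleteEdges {s(x, y)}) U x v))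
    (Or.inl (RIn.refl h.left_mem)) fun c d _ hd hcd ih => ?_
  by_cases he : s(c, d) = s(x, y)
  · rcases Sym2.eq_iff.1 he with ⟨rfl, rfl⟩ | ⟨rfl, rfl⟩
    · rcases ih with h1 | ⟨h1, h2⟩ | ⟨h1, h2⟩
      exacts [Or.inr (Or.inl ⟨h1, RIn.refl hd⟩), Or.inl (h1.trans h2.symm), Or.inl h1]
    · rcases ih with h1 | ⟨h1, h2⟩ | ⟨h1, h2⟩
      exacts [Or.inr (Or.inr ⟨h1, RIn.refl hd⟩), Or.inl h1, Or.inl (h1.trans h2.symm)]
  · have hadj : (G.deleteEdges {s(x, y)}).Adj c d := by simp [hcd, he]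
    rcases ih with h1 | ⟨h1, h2⟩ | ⟨h1, h2⟩
    exacts [Or.inl (h1.tail hadj hd), Or.inr (Or.inl ⟨h1, h2.tail hadj hd⟩),
      Or.inr (Or.inr ⟨h1, h2.tail hadj hd⟩)]

theorem sep_of_sep_deleteEdge {G : SimpleGraph V} {A B S T : Set V} {x y b : V}
    (hS : Sep (G.deleteEdges {s(x, y)}) A B S) (hb : b ∈ B)
    (hy : RIn (G.deleteEdges {s(x, y)}) Sᶜ y b)
    (hT : Sep (G.deleteEdges {s(x, y)}) A (insert x S) T) : Sep G A B T := by
  intro a ha b' hb' hr
  have key : RIn (G.deleteEdges {s(x, y)}) (Tᶜ ∩ (insert x S)ᶜ) a b' := by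
    have h0 : a ∉ insert x S := fun h => hT a ha a h (RIn.refl hr.left_mem)
    refine hr.induction (P := fun v => RIn (G.deleteEdges {s(x, y)}) (Tᶜ ∩ (insert x S)ᶜ) a v)
      (RIn.refl ⟨hr.left_mem, h0⟩) fun c d _ hd hcd ih => ?_
    have hsub : Tᶜ ∩ (insert x S)ᶜ ⊆ Sᶜ := fun v hv h => hv.2 (Set.mem_insert_of_mem _ h)
    have he : s(c, d) ≠ s(x, y) := by
      intro he
      rcases Sym2.eq_iff.1 he with ⟨rfl, rfl⟩ | ⟨rfl, rfl⟩
      · exact ih.right_mem.2 (Set.mem_insert _ _)
      · exact hS a ha b hb ((ih.mono hsub).trans hy)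
    have hadj : (G.deleteEdges {s(x, y)}).Adj c d := by simp [hcd, he]
    refine ih.tail hadj ⟨hd, fun h => hT a ha d h ?_⟩
    exact (ih.mono Set.inter_subset_left).tail hadj hd
  exact hS a ha b' hb' (key.mono fun v hv h => hv.2 (Set.mem_insert_of_mem _ h))

theorem menger_join [Finite V] {G : SimpleGraph V} {A B S : Set V} {x y : V} {k : ℕ}
    (hxy : G.Adj x y) (hS : Sep (G.deleteEdges {s(x, y)}) A B S) (hk : S.ncard < k)
    (hx : x ∉ S) (hy : y ∉ S) (P : PathSys (G.deleteEdges {s(x, y)}) A (insert x S) (Fin k))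
    (Q : PathSys (G.deleteEdges {s(x, y)}) B (insert y S) (Fin k)) :
    Nonempty (PathSys G A B (Fin k)) := by
  classical
  have hP := P.range_t ((Set.ncard_insert_le _ _).trans hk)
  have hQ := Q.range_t ((Set.ncard_insert_le _ _).trans hk)
  have hex : ∀ i, ∃ j, Q.t j = if P.t i = x then y else P.t i := by
    intro i
    have : (if P.t i = x then y else P.t i) ∈ insert y S := by
      split_ifs with h
      · exact Set.mem_insert _ _
      · exact Set.mem_insert_of_mem _ ((P.t_mem i).resolve_left h)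
    rwa [← hQ] at this
  choose σ hσ using hex
  have hPt : ∀ i j, P.t i = P.t j → i = j := fun i j h => P.t_inj h
  have hQt : ∀ i j, Q.t i = Q.t j → i = j := fun i j h => Q.t_inj h
  have hinj : ∀ i j, σ i = σ j → i = j := by
    intro i j h
    have h1 := hσ i
    rw [h, hσ j] at h1
    apply hPt
    split_ifs at h1 with h2 h3 h3
    · rw [h2, h3]
    · exact absurd (h1 ▸ (P.t_mem i).resolve_left h3) hy
    · exact absurd (h1 ▸ (P.t_mem j).resolve_left h2) hy
    · exact h1.symm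
  have hcross : ∀ i j z, z ∈ (P.p i).support → z ∈ (Q.p j).support → σ i = j := by
    intro i j z hi hj
    by_cases hz : z ∈ S
    · have h1 := (P.memB i z hi).1 (Set.mem_insert_of_mem _ hz)
      have h2 := (Q.memB j z hj).1 (Set.mem_insert_of_mem _ hz)
      apply hQt
      rw [hσ i, if_neg (fun h : P.t i = x => hx (by rw [← h, ← h1]; exact hz)), ← h1, h2]
    · exact absurd ((P.rIn_compl (Set.subset_insert _ _) hi hz).trans
        (Q.rIn_compl (Set.subset_insert _ _) hj hz).symm) (hS _ (P.s_mem i) _ (Q.s_mem j))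
  have hle : G.deleteEdges {s(x, y)} ≤ G := deleteEdges_le _
  obtain ⟨R, -⟩ := PathSys.exists_of_sets (G := G) (A := A) (B := B)
    (fun i => {z | z ∈ (P.p i).support} ∪ {z | z ∈ (Q.p (σ i)).support}) (fun i => by
      refine ⟨_, P.s_mem i, _, Q.s_mem (σ i), ?_⟩
      have h1 := ((rIn_support_start (P.p i) (P.p i).end_mem_support).mono_graph hle).mono
        (Set.subset_union_left (t := {z | z ∈ (Q.p (σ i)).support}))
      have h2 := ((rIn_support_start (Q.p (σ i)) (Q.p (σ i)).end_mem_support).mono_graph hle).mono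
        (Set.subset_union_right (s := {z | z ∈ (P.p i).support}))
      have h3 := hσ i
      refine h1.trans (RIn.trans ?_ h2.symm)
      split_ifs at h3 with h4
      · exact RIn.of_adj (by rw [h3, h4]; exact hxy) h1.right_mem h2.right_mem
      · exact Eq.mpr (congrArg (fun z => RIn G _ (P.t i) z) h3) (RIn.refl h1.right_mem))
    (fun i j hij => by
      rw [Set.disjoint_left]
      rintro z (hi | hi) (hj | hj)
      · exact hij (P.eq_of_mem hi hj)
      · exact hij (hinj _ _ (hcross _ _ z hi hj))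
      · exact hij (hinj _ _ (hcross _ _ z hj hi)).symm
      · exact hij (hinj _ _ (Q.eq_of_mem hi hj)))
  exact ⟨R⟩

theorem menger_bot [Finite V] (A B : Set V) (k : ℕ) :
    Nonempty (PathSys (⊥ : SimpleGraph V) A B (Fin k)) ∨
      ∃ S : Set V, S.ncard < k ∧ Sep (⊥ : SimpleGraph V) A B S := by
  by_cases h : (A ∩ B).ncard < k
  · refine Or.inr ⟨A ∩ B, h, fun a ha b hb hr => ?_⟩
    rcases hr.eq_or_mem_support with rfl | h1
    · exact hr.left_mem ⟨ha, hb⟩
    · simpa using h1.1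
  · left
    have := Fintype.ofFinite (A ∩ B : Set V)
    have h1 : Fintype.card (Fin k) ≤ Fintype.card (A ∩ B : Set V) := by
      rw [← Nat.card_eq_fintype_card (α := (A ∩ B : Set V)), Nat.card_coe_set_eq]
      simpa using h
    obtain ⟨f⟩ := Function.Embedding.nonempty_of_card_le h1
    obtain ⟨R, -⟩ := PathSys.exists_of_sets (G := (⊥ : SimpleGraph V)) (A := A) (B := B)
      (fun i => {(f i : V)}) (fun i => ⟨_, (f i).2.1, _, (f i).2.2, RIn.refl rfl⟩)
      (fun i j hij => Set.disjoint_singleton.2 fun e => hij (f.injective (Subtype.ext e)))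
    exact ⟨R⟩

/-- Menger's theorem. -/
theorem menger [Finite V] (G : SimpleGraph V) (A B : Set V) (k : ℕ) :
    Nonempty (PathSys G A B (Fin k)) ∨ ∃ S : Set V, S.ncard < k ∧ Sep G A B S := by
  induction hn : G.edgeSet.ncard using Nat.strong_induction_on generalizing G A B with
  | _ n ih =>
  by_cases hG : G = ⊥
  · exact hG ▸ menger_bot A B k
  obtain ⟨x, y, hxy⟩ := ne_bot_iff_exists_adj.1 hG
  have hlt : (G.deleteEdges {s(x, y)}).edgeSet.ncard < n := by
    rw [edgeSet_deleteEdges, ← hn]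
    exact Set.ncard_sdiff_singleton_lt_of_mem hxy
  have ih' := fun A B => ih _ hlt (G.deleteEdges {s(x, y)}) A B rfl
  by_contra hcon
  rw [not_or] at hcon
  obtain ⟨h1, h2⟩ := hcon
  have hle : G.deleteEdges {s(x, y)} ≤ G := deleteEdges_le _
  rcases ih' A B with ⟨⟨P⟩⟩ | ⟨S, hSk, hS⟩
  · obtain ⟨R, -⟩ := PathSys.exists_of_sets (G := G) (A := A) (B := B)
      (fun i => {z | z ∈ (P.p i).support}) (fun i => ⟨_, P.s_mem i, _, P.t_mem i,
        (rIn_support_start (P.p i) (P.p i).end_mem_support).mono_graph hle⟩)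
      (fun i j hij => Set.disjoint_left.2 (P.disj i j hij))
    exact h1 ⟨R⟩
  have main : ∀ x' y', G.Adj x' y' → s(x', y') = s(x, y) → ∀ a ∈ A, ∀ b ∈ B,
      RIn (G.deleteEdges {s(x, y)}) Sᶜ a x' → RIn (G.deleteEdges {s(x, y)}) Sᶜ y' b → False := by
    intro x' y' hadj he a ha b hb hx hy
    rcases ih' A (insert x' S) with ⟨⟨P⟩⟩ | ⟨T, hTk, hT⟩
    · rcases ih' B (insert y' S) with ⟨⟨Q⟩⟩ | ⟨T, hTk, hT⟩
      · rw [← he] at P Q hS
        exact h1 (menger_join hadj hS hSk hx.right_mem hy.left_mem P Q)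
      · rw [← he, Sym2.eq_swap] at hT hS hx
        exact h2 ⟨T, hTk, (sep_of_sep_deleteEdge hS.symm ha hx.symm hT).symm⟩
    · rw [← he] at hT hS hy
      exact h2 ⟨T, hTk, sep_of_sep_deleteEdge hS hb hy hT⟩
  refine h2 ⟨S, hSk, fun a ha b hb hr => ?_⟩
  rcases rIn_deleteEdge (x := x) (y := y) hr with h | ⟨h, h'⟩ | ⟨h, h'⟩
  · exact hS a ha b hb h
  · exact main x y hxy rfl a ha b hb h h'
  · exact main y x hxy.symm Sym2.eq_swap a ha b hb h h'

end Pool.Agent.Lib.Common.Pl
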