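import Pool.Agent.Lib.Common.Planar.Menger

/-! Either a decomposition of bounded width or a highly linked configuration (mesh lemma). -/

namespace Pool.Agent.Lib.Common.Pl

open SimpleGraph

section
variable {V : Type} {G T : SimpleGraph V} {S X D : Set V} {a : V}

theorem ncard_le_mul_of_cover [Finite V] {N Y : Set V} (f : V → Set V) {k : ℕ}
    (hY : ∀ y ∈ Y, ∃ n ∈ N, y ∈ f n) (hf : ∀ n ∈ N, (f n ∩ Y).ncard ≤ k) :
    Y.ncard ≤ N.ncard * k := by
  classical
  have h1 : Y ⊆ ⋃ n ∈ N.toFinite.toFinset, (f n ∩ Y) := by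
    intro y hy
    obtain ⟨n, hn, h⟩ := hY y hy
    exact Set.mem_biUnion (by simpa using hn) ⟨h, hy⟩
  refine (Set.ncard_le_ncard h1).trans ((Finset.set_ncard_biUnion_le _ _).trans ?_)
  rw [Set.ncard_eq_toFinset_card N]
  exact Finset.sum_le_card_nsmul _ _ _ fun n hn => hf n (by simpa using hn)

theorem ConnSet.exists_nbr_comp (hS : ConnSet G S) (ha : a ∈ S) {v : V} (hv : v ∈ S)
    (hva : v ≠ a) : ∃ n ∈ S, G.Adj a n ∧ v ∈ comp G (S \ {a}) n := by
  obtain ⟨c, d, h1, h2, h3, h4⟩ := (hS.rIn hv ha).exists_exit (A := {a}ᶜ) hva (by simp)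
  obtain rfl : d = a := by simpa using h4
  exact ⟨c, h1.right_mem.1, h2.symm, h1.symm⟩

theorem ConnSet.diff_comp (hS : ConnSet G S) (ha : a ∈ S) (n : V) :
    ConnSet G (S \ comp G (S \ {a}) n) := by
  have ha' : a ∈ S \ comp G (S \ {a}) n := ⟨ha, fun h => (comp_subset h).2 rfl⟩
  refine ConnSet.of_root ha' fun v hv => ?_
  by_cases hva : v = a
  · subst hva
    exact RIn.refl hv
  obtain ⟨c, hc, hac, hvc⟩ := hS.exists_nbr_comp ha hv.1 hva
  refine RIn.head hac ha' ((rIn_comp hvc).mono fun z hz => ⟨(comp_subset hz).1, fun hz' => hv.2 ?_⟩)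
  rw [← comp_eq_of_mem hz', comp_eq_of_mem hz]
  exact hvc

theorem exists_split [Finite V] {k : ℕ} (hS : ConnSet T S)
    (hdeg : ∀ v, (T.neighborSet v).ncard ≤ 3) (hXS : X ⊆ S) (hX : 3 * k + 2 ≤ X.ncard) :
    ∃ A, ConnSet T A ∧ A ⊆ S ∧ ConnSet T (S \ A) ∧ k + 1 ≤ (A ∩ X).ncard ∧
      (A ∩ X).ncard ≤ 2 * k + 1 := by
  classical
  obtain ⟨r, hr⟩ := hS.1
  have hex : ∃ n, ∃ A, ConnSet T A ∧ A ⊆ S ∧ ConnSet T (S \ A) ∧ k + 1 ≤ (A ∩ X).ncard ∧
      A.ncard = n := by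
    by_contra hcon
    push Not at hcon
    have h1 : (X \ {r}).ncard ≤ (T.neighborSet r ∩ S).ncard * k := by
      refine ncard_le_mul_of_cover (fun n => comp T (S \ {r}) n) (fun y hy => ?_) fun n hn => ?_
      · obtain ⟨n, hn, h1, h2⟩ := hS.exists_nbr_comp hr (hXS hy.1) hy.2
        exact ⟨n, ⟨h1, hn⟩, h2⟩
      · by_contra h
        refine hcon _ (comp T (S \ {r}) n) (connSet_comp ⟨hn.2, hn.1.ne'⟩)
          (fun z hz => (comp_subset hz).1) (hS.diff_comp hr n) ?_ rfl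
        exact (not_le.1 h).trans_le
          (Set.ncard_le_ncard (Set.inter_subset_inter_right _ Set.sdiff_subset))
    have h2 : (T.neighborSet r ∩ S).ncard ≤ 3 :=
      (Set.ncard_le_ncard Set.inter_subset_left).trans (hdeg r)
    have h3 : X.ncard ≤ (X \ {r}).ncard + 1 := by
      refine le_trans (Set.ncard_le_ncard fun z hz => ?_) (Set.ncard_insert_le r (X \ {r}))
      by_cases h : z = r
      · exact Or.inl h
      · exact Or.inr ⟨hz, h⟩
    nlinarith
  obtain ⟨A, hA, hAS, hSA, hk, hn⟩ := Nat.find_spec hex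
  refine ⟨A, hA, hAS, hSA, hk, ?_⟩
  obtain ⟨u, hu⟩ := hA.1
  obtain ⟨v, hv⟩ := hSA.1
  obtain ⟨a, b, h1, hab, hbS, hbA⟩ := (hS.rIn (hAS hu) hv.1).exists_exit hu hv.2
  have haA : a ∈ A := h1.right_mem.2
  have h2 : ((A ∩ X) \ {a}).ncard ≤ (T.neighborSet a ∩ A).ncard * k := by
    refine ncard_le_mul_of_cover (fun n => comp T (A \ {a}) n) (fun y hy => ?_) fun n hn' => ?_
    · obtain ⟨n, hn, h1, h2⟩ := hA.exists_nbr_comp haA hy.1.1 hy.2
      exact ⟨n, ⟨h1, hn⟩, h2⟩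
    · by_contra h
      have hsub : comp T (A \ {a}) n ⊆ A := fun z hz => (comp_subset hz).1
      have h3 : ConnSet T (S \ comp T (A \ {a}) n) := by
        have h4 := hSA.union_of_sAdj (hA.diff_comp haA n)
          ⟨b, ⟨hbS, hbA⟩, a, ⟨haA, fun h => (comp_subset h).2 rfl⟩, hab.symm⟩
        rwa [Set.sdiff_union_sdiff_cancel hAS hsub] at h4
      have h5 := Nat.find_min' hex ⟨comp T (A \ {a}) n, connSet_comp ⟨hn'.2, hn'.1.ne'⟩,
        hsub.trans hAS, h3, (not_le.1 h).trans_le (Set.ncard_le_ncard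
          (Set.inter_subset_inter_right _ fun z hz => hz.1.2)), rfl⟩
      have h6 : (comp T (A \ {a}) n).ncard < A.ncard :=
        Set.ncard_lt_ncard ⟨hsub, fun h => (comp_subset (h haA)).2 rfl⟩
      omega
  have h3 : (T.neighborSet a ∩ A).ncard ≤ 2 := by
    have h4 : (T.neighborSet a ∩ A).ncard < (T.neighborSet a).ncard :=
      Set.ncard_lt_ncard ⟨Set.inter_subset_left, fun h => hbA (h hab).2⟩
    have := hdeg a
    omega
  have h4 : (A ∩ X).ncard ≤ ((A ∩ X) \ {a}).ncard + 1 := by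
    refine le_trans (Set.ncard_le_ncard fun z hz => ?_) (Set.ncard_insert_le a ((A ∩ X) \ {a}))
    by_cases h : z = a
    · exact Or.inl h
    · exact Or.inr ⟨hz, h⟩
  nlinarith

end

/-- A connected graph of maximum degree three splits off many connected pieces, each containing
many marked vertices. -/
theorem exists_pieces {V : Type} [Finite V] (T : SimpleGraph V) (S X : Set V) (k m : ℕ)
    (hS : ConnSet T S) (hdeg : ∀ v, (T.neighborSet v).ncard ≤ 3) (hXS : X ⊆ S)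
    (hX : 3 * (k + 1) * m ≤ X.ncard) :
    ∃ A : Fin m → Set V, (∀ i, ConnSet T (A i) ∧ A i ⊆ S ∧ k ≤ (A i ∩ X).ncard) ∧
      ∀ i j, i ≠ j → Disjoint (A i) (A j) := by
  induction m generalizing S X with
  | zero => exact ⟨Fin.elim0, fun i => i.elim0, fun i => i.elim0⟩
  | succ m ih =>
    obtain ⟨A, hA, hAS, hSA, hk, hk'⟩ := exists_split (k := k) hS hdeg hXS (by nlinarith)
    have h1 : (X \ A).ncard + (A ∩ X).ncard = X.ncard := by
      rw [Set.inter_comm, add_comm]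
      exact Set.ncard_inter_add_ncard_sdiff_eq_ncard X A
    obtain ⟨B, hB, hB'⟩ := ih (S \ A) (X \ A) hSA (Set.sdiff_subset_sdiff_left hXS) (by nlinarith)
    refine ⟨Fin.cons A B, fun i => ?_, fun i j hij => ?_⟩
    · refine Fin.cases ⟨hA, hAS, ?_⟩ (fun i => ⟨(hB i).1, (hB i).2.1.trans Set.sdiff_subset, ?_⟩) i
      · simp only [Fin.cons_zero]
        omega
      · exact (hB i).2.2.trans
          (Set.ncard_le_ncard (Set.inter_subset_inter_right _ Set.sdiff_subset))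
    · have hd : ∀ i, Disjoint A (B i) := fun i =>
        Set.disjoint_left.2 fun z hz hz' => ((hB i).2.1 hz').2 hz
      revert hij
      refine Fin.cases ?_ (fun i => ?_) i <;> refine Fin.cases ?_ (fun j => ?_) j <;> intro hij
      · exact absurd rfl hij
      · exact hd j
      · exact (hd i).symm
      · exact hB' i j fun h => hij (congrArg Fin.succ h)

section
variable {V : Type} {G T : SimpleGraph V} {S X D : Set V}

/-- Attach disjoint paths to a connected subgraph. -/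
theorem exists_extend [Finite V] {ι : Type} (hTG : T ≤ G) (hS : ConnSet T S) (hsup : T.support ⊆ S)
    (q : ι → ℕ → V) (c : ι → ℕ) (hadj : ∀ l i, i < c l → G.Adj (q l i) (q l (i + 1)))
    (hinj : ∀ l l' i i', i ≤ c l → i' ≤ c l' → q l i = q l' i' → l = l' ∧ i = i')
    (h0 : ∀ l, q l 0 ∈ S) (hnew : ∀ l i, 0 < i → i ≤ c l → q l i ∉ S) :
    ∃ (T' : SimpleGraph V) (S' : Set V), T' ≤ G ∧ ConnSet T' S' ∧ T'.support ⊆ S' ∧ S ⊆ S' ∧
      (∀ v ∈ S', v ∈ S ∨ ∃ l i, i ≤ c l ∧ v = q l i) ∧ (∀ l, q l (c l) ∈ S') ∧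
      (∀ v ∈ S, (T'.neighborSet v).ncard ≤ (T.neighborSet v).ncard + 1) ∧
      (∀ v ∈ S, (∀ l, v ≠ q l 0) → (T'.neighborSet v).ncard ≤ (T.neighborSet v).ncard) ∧
      (∀ v, v ∉ S → (T'.neighborSet v).ncard ≤ 2) ∧
      ∀ l, 0 < c l → (T'.neighborSet (q l (c l))).ncard ≤ 1 := by
  let T' : SimpleGraph V :=
    { Adj := fun a b => T.Adj a b ∨ ∃ l i, i < c l ∧
        ((a = q l i ∧ b = q l (i + 1)) ∨ (b = q l i ∧ a = q l (i + 1)))
      symm := ⟨fun a b h => h.imp (fun h => h.symm) fun ⟨l, i, h1, h2⟩ => ⟨l, i, h1, h2.symm⟩⟩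
      loopless := ⟨fun a h => by
        rcases h with h | ⟨l, i, h1, ⟨h2, h3⟩ | ⟨h2, h3⟩⟩
        · exact h.ne rfl
        · exact (hadj l i h1).ne (h2.symm.trans h3)
        · exact (hadj l i h1).ne (h2.symm.trans h3)⟩ }
  have hle : T ≤ T' := fun a b h => Or.inl h
  let S' : Set V := S ∪ {v | ∃ l i, i ≤ c l ∧ v = q l i}
  have hN : ∀ l i, 0 < i → i ≤ c l → ∀ b, T'.Adj (q l i) b →
      b = q l (i - 1) ∨ (i < c l ∧ b = q l (i + 1)) := by
    rintro l i hi hic b (h | ⟨l', i', h1, ⟨h2, h3⟩ | ⟨h2, h3⟩⟩)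
    · exact absurd (hsup h.mem_support_left) (hnew l i hi hic)
    · obtain ⟨rfl, rfl⟩ := hinj _ _ _ _ hic h1.le h2
      exact Or.inr ⟨h1, h3⟩
    · obtain ⟨rfl, rfl⟩ := hinj _ _ _ _ hic h1 h3
      exact Or.inl h2
  have hNS : ∀ v ∈ S, ∀ b, T'.Adj v b → T.Adj v b ∨ ∃ l, v = q l 0 ∧ b = q l 1 := by
    rintro v hv b (h | ⟨l', i', h1, ⟨h2, h3⟩ | ⟨h2, h3⟩⟩)
    · exact Or.inl h
    · rcases Nat.eq_zero_or_pos i' with rfl | hi
      · exact Or.inr ⟨l', h2, h3⟩
      · exact absurd (h2 ▸ hv) (hnew l' i' hi h1.le)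
    · exact absurd (h3 ▸ hv) (hnew l' _ (Nat.succ_pos _) h1)
  refine ⟨T', S', ?_, ?_, ?_, Set.subset_union_left, fun v hv => hv,
    fun l => Or.inr ⟨l, c l, le_rfl, rfl⟩, ?_, ?_, ?_, ?_⟩
  · rintro a b (h | ⟨l, i, h1, ⟨rfl, rfl⟩ | ⟨rfl, rfl⟩⟩)
    exacts [hTG h, hadj l i h1, (hadj l i h1).symm]
  · obtain ⟨r, hr⟩ := hS.1
    have h1 : ∀ v ∈ S, RIn T' S' r v := fun v hv =>
      ((hS.rIn hr hv).mono_graph hle).mono Set.subset_union_left
    refine ConnSet.of_root (Or.inl hr) ?_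
    rintro v (hv | ⟨l, i, hi, rfl⟩)
    · exact h1 v hv
    · induction i with
      | zero => exact h1 _ (h0 l)
      | succ i ih =>
        exact (ih (by omega)).tail (Or.inr ⟨l, i, hi, Or.inl ⟨rfl, rfl⟩⟩) (Or.inr ⟨l, _, hi, rfl⟩)
  · rintro a ⟨b, h | ⟨l, i, h1, ⟨rfl, rfl⟩ | ⟨rfl, rfl⟩⟩⟩
    exacts [Or.inl (hsup h.mem_support_left), Or.inr ⟨l, i, h1.le, rfl⟩, Or.inr ⟨l, _, h1, rfl⟩]
  · intro v hv
    by_cases h : ∃ l, v = q l 0
    · obtain ⟨l, rfl⟩ := h
      refine le_trans (Set.ncard_le_ncard fun b hb => ?_)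
        (Set.ncard_insert_le (q l 1) (T.neighborSet (q l 0)))
      rcases hNS _ hv b hb with h | ⟨l', h1, h2⟩
      · exact Or.inr h
      · obtain ⟨rfl, -⟩ := hinj _ _ _ _ (Nat.zero_le _) (Nat.zero_le _) h1
        exact Or.inl h2
    · refine le_trans (Set.ncard_le_ncard fun b hb => ?_) (Nat.le_succ _)
      exact (hNS _ hv b hb).resolve_right fun ⟨l, h1, _⟩ => h ⟨l, h1⟩
  · intro v hv h
    exact Set.ncard_le_ncard fun b hb => (hNS _ hv b hb).resolve_right fun ⟨l, h1, _⟩ => h l h1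
  · intro v hv
    by_cases h : ∃ l i, i ≤ c l ∧ v = q l i
    · obtain ⟨l, i, hi, rfl⟩ := h
      have hi0 : 0 < i := Nat.pos_of_ne_zero fun h => hv (h ▸ h0 l)
      refine le_trans (Set.ncard_le_ncard (t := {q l (i - 1), q l (i + 1)}) fun b hb => ?_)
        ((Set.ncard_insert_le _ _).trans (by simp))
      exact (hN l i hi0 hi b hb).imp id fun h => h.2
    · have : T'.neighborSet v = ∅ := by
        refine Set.eq_empty_of_forall_notMem ?_
        rintro b (hb | ⟨l, i, h1, ⟨rfl, rfl⟩ | ⟨rfl, rfl⟩⟩)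
        exacts [hv (hsup hb.mem_support_left), h ⟨l, i, h1.le, rfl⟩, h ⟨l, _, h1, rfl⟩]
      simp [this]
  · intro l hl
    refine le_trans (Set.ncard_le_ncard (t := {q l (c l - 1)}) fun b hb => ?_) (by simp)
    exact (hN l _ hl le_rfl b hb).resolve_right fun h => lt_irrefl _ h.1

/-- The boundary of `D` hangs on a connected subcubic subgraph outside `D`. -/
def Hang (G : SimpleGraph V) (D : Set V) (T : SimpleGraph V) (S : Set V) : Prop :=
  T ≤ G ∧ Disjoint S D ∧ ConnSet T S ∧ bd G D ⊆ S ∧ T.support ⊆ S ∧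
    (∀ v, (T.neighborSet v).ncard ≤ 3) ∧ (∀ v ∈ bd G D, (T.neighborSet v).ncard ≤ 2) ∧
    ∃ v ∈ bd G D, (T.neighborSet v).ncard ≤ 1

/-- Good components. -/
def GoodComp (G : SimpleGraph V) (h : ℕ) (D : Set V) : Prop :=
  bd G D = ∅ ∨ ((bd G D).ncard ≤ h ∧ ∃ T S, Hang G D T S)

theorem bd_comp_diff {Z : Set V} {u x : V} (hx : x ∈ bd G (comp G (D \ Z) u)) :
    x ∈ Z ∨ x ∈ bd G D := by
  by_cases hZ : x ∈ Z
  · exact Or.inl hZ
  · obtain ⟨y, hy, hxy⟩ := hx.2
    exact Or.inr ⟨fun h => bd_comp_subset hx ⟨h, hZ⟩, y, (comp_subset hy).1, hxy⟩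

theorem exists_bd_comp_diff {Z : Set V} {u z : V} (hD : ConnSet G D) (hu : u ∈ D \ Z)
    (hz : z ∈ D) (hzZ : z ∈ Z) : ∃ x ∈ bd G (comp G (D \ Z) u), x ∈ D ∧ x ∈ Z := by
  obtain ⟨a, b, h1, hab, hb, hb'⟩ := (hD.rIn hu.1 hz).exists_exit (mem_comp_self hu)
    (fun h => (comp_subset h).2 hzZ)
  have hx : b ∈ bd G (comp G (D \ Z) u) := ⟨hb', a, h1.right_mem.2, hab.symm⟩
  exact ⟨b, hx, hb, (bd_comp_diff hx).resolve_right fun h => h.1 hb⟩

theorem good_of_small [Finite V] {h : ℕ} (hD : ConnSet G D) (hT : Hang G D T S)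
    (hX : (bd G D).ncard < h) : ∃ v ∈ D, ∀ u ∈ D \ {v}, GoodComp G h (comp G (D \ {v}) u) := by
  obtain ⟨h1, h2, h3, h4, h5, h6, h7, x, hx, h8⟩ := hT
  obtain ⟨v, hv, hxv⟩ := hx.2
  refine ⟨v, hv, fun u hu => Or.inr ⟨?_, ?_⟩⟩
  · exact le_trans (Set.ncard_le_ncard (t := insert v (bd G D)) fun z hz => bd_comp_diff hz)
      ((Set.ncard_insert_le _ _).trans hX)
  have hvS : v ∉ S := fun h => Set.disjoint_left.1 h2 h hv
  obtain ⟨T', S', k1, k2, k3, k4, k5, k6, k7, k8, k9, k10⟩ := exists_extend (ι := Unit) h1 h3 h5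
    (fun _ i => if i = 0 then x else v) (fun _ => 1)
    (fun l i hi => by obtain rfl : i = 0 := by omega
                      simpa using hxv)
    (fun l l' i i' hi hi' he => ⟨rfl, by
      split_ifs at he with e1 e2 e2
      · omega
      · exact absurd he hxv.ne
      · exact absurd he hxv.ne'
      · omega⟩)
    (fun _ => by simpa using h4 hx) (fun l i hi _ => by simpa [hi.ne'] using hvS)
  have k6' : v ∈ S' := by simpa using k6 ()
  have k10' : (T'.neighborSet v).ncard ≤ 1 := by simpa using k10 () one_pos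
  have k8' : ∀ z ∈ S, z ≠ x → (T'.neighborSet z).ncard ≤ (T.neighborSet z).ncard :=
    fun z hz hzx => k8 z hz fun _ => by simpa using hzx
  refine ⟨T', S', k1, ?_, k2, ?_, k3, fun z => ?_, fun z hz => ?_, ?_⟩
  · refine Set.disjoint_left.2 fun z hz hz' => ?_
    rcases k5 z hz with h | ⟨l, i, -, h⟩
    · exact Set.disjoint_left.1 h2 h (comp_subset hz').1
    · split_ifs at h
      · exact hx.1 (h ▸ (comp_subset hz').1)
      · exact (comp_subset hz').2 h
  · intro z hz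
    rcases bd_comp_diff hz with rfl | h
    exacts [k6', k4 (h4 h)]
  · by_cases hz : z ∈ S
    · by_cases hzx : z = x
      · have := k7 z hz
        rw [hzx] at this ⊢
        omega
      · exact (k8' z hz hzx).trans (h6 z)
    · exact (k9 z hz).trans (by norm_num)
  · rcases bd_comp_diff hz with rfl | h
    · omega
    · by_cases hzx : z = x
      · have := k7 z (h4 h)
        rw [hzx] at this ⊢
        omega
      · exact (k8' z (h4 h) hzx).trans (h7 z h)
  · obtain ⟨z, hz, -, rfl⟩ := exists_bd_comp_diff hD hu hv rfl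
    exact ⟨z, hz, k10'⟩

theorem hang_of_sep [Finite V] {ι : Type} {Y Z : Set V} {H : SimpleGraph V} (hD : ConnSet G D)
    (hT : Hang G D T S) (hY : Y ⊆ bd G D) (_hZ : Z ⊆ bd G D) (hHG : H ≤ G)
    (hH : H.support ⊆ D ∪ Y ∪ Z) (P : PathSys H Y Z ι) (sp : ι → V)
    (hsp : ∀ l, sp l ∈ (P.p l).support) (hne : ∃ l, sp l ∈ D) {u : V}
    (hu : u ∈ D \ Set.range sp)
    (hno : ∀ y ∈ Y, y ∈ bd G (comp G (D \ Set.range sp) u) → y ∈ Set.range sp) :
    ∃ T' S', Hang G (comp G (D \ Set.range sp) u) T' S' := by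
  obtain ⟨h1, h2, h3, h4, h5, h6, h7, -⟩ := hT
  choose c hc hc' using fun l => Walk.mem_support_iff_exists_getVert.1 (hsp l)
  have hinj : ∀ l l' i i', i ≤ c l → i' ≤ c l' → (P.p l).getVert i = (P.p l').getVert i' →
      l = l' ∧ i = i' := by
    intro l l' i i' hi hi' he
    obtain rfl : l = l' := P.eq_of_mem ((P.p l).getVert_mem_support i)
      (he ▸ (P.p l').getVert_mem_support i')
    exact ⟨rfl, (P.isPath l).getVert_injOn (hi.trans (hc' l)) (hi'.trans (hc' l)) he⟩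
  have hadj : ∀ l i, i < c l → H.Adj ((P.p l).getVert i) ((P.p l).getVert (i + 1)) :=
    fun l i hi => (P.p l).adj_getVert_succ (hi.trans_le (hc' l))
  have h0 : ∀ l, (P.p l).getVert 0 ∈ Y := fun l => by simpa using P.s_mem l
  have hrange : ∀ l i, i < c l → (P.p l).getVert i ∉ Set.range sp := by
    rintro l i hi ⟨l', he⟩
    rw [← hc l'] at he
    obtain ⟨rfl, rfl⟩ := hinj _ _ _ _ le_rfl hi.le he
    exact lt_irrefl _ hi
  have hin : ∀ l, sp l ∈ D → ∀ i, 0 < i → i ≤ c l → (P.p l).getVert i ∈ D := by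
    intro l hl i hi hic
    obtain ⟨j, rfl⟩ : ∃ j, i = j + 1 := ⟨i - 1, by omega⟩
    rcases hH (hadj l j hic).mem_support_right with (h | h) | h
    · exact h
    · have e := (P.memA l _ ((P.p l).getVert_mem_support _)).1 h
      have := (hinj l l (j + 1) 0 hic (Nat.zero_le _) (by simpa using e)).2
      omega
    · have e := (P.memB l _ ((P.p l).getVert_mem_support _)).1 h
      have e2 := (P.isPath l).getVert_injOn (hic.trans (hc' l)) (le_refl (P.p l).length)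
        (by simpa using e)
      have e3 : c l = j + 1 := by have := hc' l; omega
      rw [← e3, hc l]
      exact hl
  have hpos : ∀ l, sp l ∈ D → 0 < c l := fun l hl => Nat.pos_of_ne_zero fun h => by
    have := h0 l
    rw [← h, hc l] at this
    exact (hY this).1 hl
  have hout : ∀ l, sp l ∈ D → ∀ i, i ≤ c l →
      (P.p l).getVert i ∉ comp G (D \ Set.range sp) u := by
    intro l hl i
    induction i with
    | zero => exact fun _ h => (hY (h0 l)).1 (comp_subset h).1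
    | succ i ih =>
      intro hi h
      have ha := hHG (hadj l i hi)
      rcases Nat.eq_zero_or_pos i with rfl | hi0
      · exact hrange l 0 hi (hno _ (h0 l) ⟨ih (by omega), _, h, ha⟩)
      · exact ih (by omega) (mem_comp_of_adj h ha.symm ⟨hin l hl i hi0 (by omega), hrange l i hi⟩)
  obtain ⟨T', S', k1, k2, k3, k4, k5, k6, k7, k8, k9, k10⟩ :=
    exists_extend (ι := {l // sp l ∈ D}) h1 h3 h5 (fun l i => (P.p l.1).getVert i)
    (fun l => c l.1) (fun l i hi => hHG (hadj l.1 i hi))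
    (fun l l' i i' hi hi' he => (hinj _ _ _ _ hi hi' he).imp Subtype.ext id)
    (fun l => h4 (hY (h0 l.1)))
    (fun l i hi hi' h => Set.disjoint_left.1 h2 h (hin l.1 l.2 i hi hi'))
  have hbd : ∀ z ∈ bd G (comp G (D \ Set.range sp) u), z ∉ D → z ∈ bd G D := fun z hz hzD => by
    obtain ⟨y, hy, hzy⟩ := hz.2
    exact ⟨hzD, y, (comp_subset hy).1, hzy⟩
  refine ⟨T', S', k1, ?_, k2, ?_, k3, fun z => ?_, fun z hz => ?_, ?_⟩
  · refine Set.disjoint_left.2 fun z hz hz' => ?_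
    rcases k5 z hz with h | ⟨l, i, hi, rfl⟩
    · exact Set.disjoint_left.1 h2 h (comp_subset hz').1
    · exact hout l.1 l.2 i hi hz'
  · intro z hz
    by_cases hzD : z ∈ D
    · obtain ⟨l, rfl⟩ := (bd_comp_diff hz).resolve_right fun h => h.1 hzD
      have := k6 ⟨l, hzD⟩
      rwa [hc] at this
    · exact k4 (h4 (hbd z hz hzD))
  · by_cases hz : z ∈ S
    · by_cases hl : ∃ l : {l // sp l ∈ D}, z = (P.p l.1).getVert 0
      · obtain ⟨l, hl⟩ := hl
        have e1 := k7 z hz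
        have e2 := h7 z (hl ▸ hY (h0 l.1))
        omega
      · exact (k8 z hz fun l h => hl ⟨l, h⟩).trans (h6 z)
    · exact (k9 z hz).trans (by norm_num)
  · by_cases hzD : z ∈ D
    · exact k9 z fun h => Set.disjoint_left.1 h2 h hzD
    · refine (k8 z (h4 (hbd z hz hzD)) fun l h => ?_).trans (h7 z (hbd z hz hzD))
      exact hrange l.1 0 (hpos l.1 l.2) (h ▸ hno z (h ▸ h0 l.1) hz)
  · obtain ⟨l₀, hl₀⟩ := hne
    obtain ⟨z, hz, hzD, l, rfl⟩ := exists_bd_comp_diff hD hu hl₀ ⟨l₀, rfl⟩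
    have := k10 ⟨l, hzD⟩ (hpos l hzD)
    rw [hc] at this
    exact ⟨_, hz, this⟩

theorem exists_exact_sep [Finite V] (H : SimpleGraph V) (Y Z : Set V) (s : ℕ) :
    Nonempty (PathSys H Y Z (Fin s)) ∨ ∃ k < s, ∃ (P : PathSys H Y Z (Fin k)) (sp : Fin k → V),
      (∀ l, sp l ∈ (P.p l).support) ∧ Sep H Y Z (Set.range sp) := by
  induction s with
  | zero =>
    obtain ⟨R, -⟩ := PathSys.exists_of_sets (G := H) (A := Y) (B := Z) (ι := Fin 0)
      Fin.elim0 (fun i => i.elim0) fun i => i.elim0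
    exact Or.inl ⟨R⟩
  | succ s ih =>
    rcases ih with ⟨⟨P⟩⟩ | ⟨k, hk, h⟩
    · refine (menger H Y Z (s + 1)).imp id fun ⟨Sp, h1, h2⟩ => ⟨s, s.lt_succ_self, P, ?_⟩
      have hex : ∀ l, ∃ v ∈ (P.p l).support, v ∈ Sp := fun l => by
        by_contra hcon
        push Not at hcon
        exact h2 _ (P.s_mem l) _ (P.t_mem l) ⟨P.p l, hcon⟩
      choose sp hsp hsp' using hex
      refine ⟨sp, hsp, ?_⟩
      rw [Set.eq_of_subset_of_ncard_le (Set.range_subset_iff.2 hsp') (by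
        rw [Set.ncard_range_of_injective (f := sp) fun i j h => P.eq_of_mem (hsp i) (h ▸ hsp j)]
        simpa using Nat.lt_succ_iff.1 h1)]
      exact h2
    · exact Or.inr ⟨k, hk.trans s.lt_succ_self, h⟩

theorem linkage_inside {Y Z A B : Set V} {s : ℕ} (hY : Y ⊆ bd G D) (hZ : Z ⊆ bd G D)
    (hYA : Y ⊆ A) (hZB : Z ⊆ B) (hAB : Disjoint A B) (hA : Disjoint A D) (hB : Disjoint B D)
    (P : PathSys (res (inc G D) (D ∪ Y ∪ Z)) Y Z (Fin s)) :
    Nonempty (PathSys (res G D) (D ∩ bd G A) (D ∩ bd G B) (Fin s)) := by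
  obtain ⟨R, -⟩ := PathSys.exists_of_sets (G := res G D) (A := D ∩ bd G A) (B := D ∩ bd G B)
    (fun l => {z | z ∈ (P.p l).support} ∩ D) (fun l => by
      have hs := P.s_mem l
      have ht := P.t_mem l
      have key := (rIn_support_start (P.p l) (P.p l).end_mem_support).induction
        (P := fun v => v = P.s l ∨ ∃ a ∈ D ∩ bd G A,
          (v ∈ D ∧ RIn (res G D) ({z | z ∈ (P.p l).support} ∩ D) a v) ∨
          ∃ b ∈ D ∩ bd G B, RIn (res G D) ({z | z ∈ (P.p l).support} ∩ D) a b)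
        (Or.inl rfl) (by
          rintro c d hc hd hcd (rfl | ⟨a, ha, ⟨hcD, h⟩ | h⟩)
          · have hdD : d ∈ D := hcd.1.2.resolve_left (hY hs).1
            exact Or.inr ⟨d, ⟨hdD, fun h => Set.disjoint_left.1 hA h hdD, _, hYA hs, hcd.1.1.symm⟩,
              Or.inl ⟨hdD, RIn.refl ⟨hd, hdD⟩⟩⟩
          · rcases hcd.2.2 with (hdD | hdY) | hdZ
            · exact Or.inr ⟨a, ha, Or.inl ⟨hdD, h.tail ⟨hcd.1.1, hcD, hdD⟩ ⟨hd, hdD⟩⟩⟩
            · exact Or.inl ((P.memA l d hd).1 hdY)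
            · exact Or.inr ⟨a, ha, Or.inr ⟨c, ⟨hcD, fun h => Set.disjoint_left.1 hB h hcD, d,
                hZB hdZ, hcd.1.1⟩, h⟩⟩
          · exact Or.inr ⟨a, ha, Or.inr h⟩)
      rcases key with h | ⟨a, ha, ⟨h, -⟩ | ⟨b, hb, h⟩⟩
      · exact absurd (hZB ht) (Set.disjoint_left.1 hAB (by rw [h]; exact hYA hs))
      · exact absurd h (hZ ht).1
      · exact ⟨a, ha, b, hb, h⟩)
    (fun i j hij => Set.disjoint_left.2 fun z hz hz' => P.disj i j hij z hz.1 hz'.1)
  exact ⟨R⟩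

theorem good_of_sep [Finite V] {h s : ℕ} {Y Z : Set V} (hD : ConnSet G D) (hT : Hang G D T S)
    (hX : (bd G D).ncard ≤ h) (hY : Y ⊆ bd G D) (hZ : Z ⊆ bd G D) (hYs : Y.ncard = s)
    (hZs : Z.ncard = s) (hno : ¬ Nonempty (PathSys (res (inc G D) (D ∪ Y ∪ Z)) Y Z (Fin s))) :
    ∃ W, W ⊆ D ∧ W.Nonempty ∧ W.ncard ≤ s ∧ ∀ u ∈ D \ W, GoodComp G h (comp G (D \ W) u) := by
  obtain ⟨k, hk, P, sp, hsp, hsep⟩ := (exists_exact_sep _ Y Z s).resolve_left hno
  have hcard : (Set.range sp).ncard ≤ k := by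
    rw [← Set.image_univ]
    exact (Set.ncard_image_le).trans (by simp)
  have hwalk : ∀ C ⊆ D \ Set.range sp, ConnSet G C → ∀ y ∈ Y, ∀ z ∈ Z, y ∉ Set.range sp →
      z ∉ Set.range sp → y ∈ bd G C → z ∈ bd G C → False := by
    rintro C hC hCc y hy z hz hy' hz' ⟨-, a, ha, hya⟩ ⟨-, b, hb, hzb⟩
    have h1 : RIn (res (inc G D) (D ∪ Y ∪ Z)) (Set.range sp)ᶜ a b :=
      (hCc.rIn ha hb).mono' (fun v hv => (hC hv).2) fun c d hc hd hcd =>
        ⟨⟨hcd, Or.inl (hC hc).1⟩, Or.inl (Or.inl (hC hc).1), Or.inl (Or.inl (hC hd).1)⟩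
    have h2 : (res (inc G D) (D ∪ Y ∪ Z)).Adj y a :=
      ⟨⟨hya, Or.inr (hC ha).1⟩, Or.inl (Or.inr hy), Or.inl (Or.inl (hC ha).1)⟩
    have h3 : (res (inc G D) (D ∪ Y ∪ Z)).Adj b z :=
      ⟨⟨hzb.symm, Or.inl (hC hb).1⟩, Or.inl (Or.inl (hC hb).1), Or.inr hz⟩
    exact hsep y hy z hz ((RIn.head h2 hy' h1).tail h3 hz')
  have hne : ∃ l, sp l ∈ D := by
    by_contra hcon
    obtain ⟨y, hy, hy'⟩ := Set.exists_mem_notMem_of_ncard_lt_ncard
      (s := Set.range sp) (t := Y) (by omega)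
    obtain ⟨z, hz, hz'⟩ := Set.exists_mem_notMem_of_ncard_lt_ncard
      (s := Set.range sp) (t := Z) (by omega)
    exact hwalk D (fun v hv => ⟨hv, fun ⟨l, hl⟩ => hcon ⟨l, hl ▸ hv⟩⟩) hD y hy z hz hy' hz'
      (hY hy) (hZ hz)
  have he : D \ (D ∩ Set.range sp) = D \ Set.range sp := Set.sdiff_self_inter
  refine ⟨D ∩ Set.range sp, Set.inter_subset_left, ?_, ?_, ?_⟩
  · obtain ⟨l, hl⟩ := hne
    exact ⟨_, hl, l, rfl⟩
  · exact (Set.ncard_le_ncard Set.inter_subset_right).trans (by omega)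
  rw [he]
  intro u hu
  have hsize : ∀ Y' ⊆ bd G D, Y'.ncard = s → (∀ y ∈ Y',
      y ∈ bd G (comp G (D \ Set.range sp) u) → y ∈ Set.range sp) →
      (bd G (comp G (D \ Set.range sp) u)).ncard ≤ h := by
    intro Y' h1 h2 h3
    have h4 : bd G (comp G (D \ Set.range sp) u) ⊆ (bd G D \ Y') ∪ Set.range sp := by
      intro z hz
      by_cases hzs : z ∈ Set.range sp
      · exact Or.inr hzs
      · exact Or.inl ⟨(bd_comp_diff hz).resolve_left hzs, fun h => hzs (h3 z h hz)⟩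
    have h5 := (Set.ncard_le_ncard h4).trans (Set.ncard_union_le _ _)
    have h6 := Set.ncard_sdiff_add_ncard_of_subset h1
    omega
  by_cases hc : ∀ y ∈ Y, y ∈ bd G (comp G (D \ Set.range sp) u) → y ∈ Set.range sp
  · exact Or.inr ⟨hsize Y hY hYs hc, hang_of_sep hD hT hY hZ (res_le.trans inc_le)
      support_res_subset P sp hsp hne hu hc⟩
  · push Not at hc
    obtain ⟨y, hy, hy1, hy2⟩ := hc
    have hc' : ∀ z ∈ Z, z ∈ bd G (comp G (D \ Set.range sp) u) → z ∈ Set.range sp := by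
      intro z hz hz1
      by_contra hz2
      exact hwalk _ comp_subset (connSet_comp hu) y hy z hz hy2 hz2 hy1 hz1
    refine Or.inr ⟨hsize Z hZ hZs hc', hang_of_sep hD hT hZ hY (res_le.trans inc_le)
      (support_res_subset.trans (Set.union_right_comm D Y Z).le) P.rev sp (fun l => ?_) hne hu hc'⟩
    simpa [PathSys.rev] using hsp l

theorem good_of_empty [Finite V] {h : ℕ} (hh : 0 < h) (hX : bd G D = ∅) (v u : V) :
    GoodComp G h (comp G (D \ {v}) u) := by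
  have hsub : bd G (comp G (D \ {v}) u) ⊆ {v} := fun z hz =>
    (bd_comp_diff hz).resolve_right (by simp [hX])
  rcases Set.subset_singleton_iff_eq.1 hsub with h0 | h1
  · exact Or.inl h0
  · refine Or.inr ⟨by rw [h1, Set.ncard_singleton]; exact hh, ⊥, {v}, bot_le, ?_,
      connSet_singleton _ _, hsub, by simp, fun _ => by simp, fun _ _ => by simp,
      v, by rw [h1]; rfl, by simp⟩
    exact Set.disjoint_singleton_left.2 fun h => (comp_subset h).2 rfl

end

theorem dec_or_mesh (m s : ℕ) : ∃ w : ℕ, ∀ (V : Type) [Finite V] (G : SimpleGraph V),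
    Dec G w ∨ ∃ (D : Set V) (A : Fin m → Set V), (∀ i, ConnSet G (A i) ∧ Disjoint (A i) D) ∧
      (∀ i j, i ≠ j → Disjoint (A i) (A j)) ∧
      ∀ i j, i ≠ j → Nonempty (PathSys (res G D) (D ∩ bd G (A i)) (D ∩ bd G (A j)) (Fin s)) := by
  refine ⟨3 * (s + 1) * m + 1 + s + 1, fun V _ G => ?_⟩
  set h := 3 * (s + 1) * m + 1 with hh
  refine or_iff_not_imp_right.2 fun hcon => ⟨{U | (∀ u ∈ U, GoodComp G h (comp G U u)) ∧
    (bd G U).ncard ≤ h + s + 1}, ⟨Set.univ, ⟨fun u _ => Or.inl ?_, ?_⟩, by simp⟩, ?_⟩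
  · exact Set.eq_empty_of_subset_empty fun z hz => bd_comp_subset hz (Set.mem_univ z)
  · have : bd G Set.univ = ∅ := Set.eq_empty_of_forall_notMem fun z hz => hz.1 (Set.mem_univ z)
    simp [this]
  rintro U ⟨hU, hUw⟩
  refine ⟨hUw, fun ⟨u, hu⟩ => ?_⟩
  by_cases hc : comp G U u = U
  · left
    have hD : ConnSet G U := hc ▸ connSet_comp hu
    have hgood := hU u hu
    rw [hc] at hgood
    have hUh : (bd G U).ncard ≤ h := by
      rcases hgood with h0 | h0
      · simp [h0]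
      · exact h0.1
    suffices ∃ W, W ⊆ U ∧ W.Nonempty ∧ W.ncard ≤ s + 1 ∧
        ∀ u ∈ U \ W, GoodComp G h (comp G (U \ W) u) by
      obtain ⟨W, h1, h2, h3, h4⟩ := this
      refine ⟨W, h1, h2, by omega, h4, ?_⟩
      have h5 : bd G (U \ W) ⊆ bd G U ∪ W := by
        rintro z ⟨hz, y, hy, hzy⟩
        by_cases hzW : z ∈ W
        · exact Or.inr hzW
        · exact Or.inl ⟨fun h => hz ⟨h, hzW⟩, y, hy.1, hzy⟩
      have h6 := (Set.ncard_le_ncard h5).trans (Set.ncard_union_le _ _)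
      omega
    rcases hgood with h0 | ⟨-, T, S, hT⟩
    · exact ⟨{u}, by simpa using hu, by simp, by simp,
        fun v _ => good_of_empty (by omega) h0 u v⟩
    rcases hUh.lt_or_eq with hlt | heq
    · obtain ⟨v, hv, h1⟩ := good_of_small hD hT hlt
      exact ⟨{v}, by simpa using hv, by simp, by simp, h1⟩
    obtain ⟨A, hA, hA'⟩ := exists_pieces T S (bd G U) s m hT.2.2.1 hT.2.2.2.2.2.1 hT.2.2.2.1
      (by omega)
    choose Y hY hYs using fun i => Set.exists_subset_card_eq (hA i).2.2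
    have hAU : ∀ i, Disjoint (A i) U := fun i => hT.2.1.mono_left (hA i).2.1
    by_contra hno
    refine hcon ⟨U, A, fun i => ⟨(hA i).1.mono_graph hT.1, hAU i⟩, hA', fun i j hij => ?_⟩
    have hYi : ∀ i, Y i ⊆ bd G U := fun i z hz => (hY i hz).2
    by_cases hP : Nonempty (PathSys (res (inc G U) (U ∪ Y i ∪ Y j)) (Y i) (Y j) (Fin s))
    · obtain ⟨P⟩ := hP
      exact linkage_inside (hYi i) (hYi j) (fun z hz => (hY i hz).1) (fun z hz => (hY j hz).1)
        (hA' i j hij) (hAU i) (hAU j) P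
    · obtain ⟨W, h1, h2, h3, h4⟩ := good_of_sep hD hT hUh (hYi i) (hYi j) (hYs i) (hYs j) hP
      exact absurd ⟨W, h1, h2, by omega, h4⟩ hno
  · right
    have hcomp : ∀ U' ⊆ U, (∀ a ∈ U', ∀ b ∈ U, G.Adj a b → b ∈ U') →
        (∀ v ∈ U', GoodComp G h (comp G U' v)) ∧ (bd G U').ncard ≤ h + s + 1 := by
      intro U' h1 h2
      refine ⟨fun v hv => ?_, le_trans (Set.ncard_le_ncard ?_) hUw⟩
      · have : comp G U' v = comp G U v := by
          refine Set.Subset.antisymm (comp_mono h1) fun z hz => ?_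
          exact RIn.induction (P := fun z => RIn G U' v z) hz (RIn.refl hv)
            fun a b _ hb hab ih => ih.tail hab (h2 a ih.right_mem b hb hab)
        rw [this]
        exact hU v (h1 hv)
      · rintro z ⟨hz, y, hy, hzy⟩
        exact ⟨fun h => hz (h2 y hy z h hzy.symm), y, h1 hy, hzy⟩
    refine ⟨comp G U u, hcomp _ comp_subset fun a ha b hb hab => mem_comp_of_adj ha hab hb,
      U \ comp G U u, hcomp _ Set.sdiff_subset fun a ha b hb hab =>
        ⟨hb, fun h => ha.2 (mem_comp_of_adj h hab.symm ha.1)⟩, ⟨u, mem_comp_self hu⟩, ?_,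
      Set.disjoint_sdiff_right, Set.union_sdiff_cancel comp_subset⟩
    exact Set.nonempty_of_ssubset ⟨comp_subset, fun h => hc (Set.Subset.antisymm comp_subset h)⟩

end Pool.Agent.Lib.Common.Pl
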