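import Pool.Agent.Lib.Common.Planar.RepA

/-! Replacement lemma, part B: angle sums along a cycle and the orientation of a cycle. -/

namespace Pool.Agent.Lib.Common.Pl

open SimpleGraph

variable {V : Type} {H : SimpleGraph V}

/-- The angle swept, as seen from `u`, by the first `j` edges of the sequence `c`. -/
def VK.cs (T : VK H) (c : ℕ → V) (u : V) (j : ℕ) : ZMod 4 :=
  ∑ l ∈ Finset.range j, T.θ u (c l) (c (l + 1))

theorem VK.cs_succ (T : VK H) (c : ℕ → V) (u : V) (j : ℕ) :
    T.cs c u (j + 1) = T.cs c u j + T.θ u (c j) (c (j + 1)) := Finset.sum_range_succ _ _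

theorem VK.cs_zero (T : VK H) (c : ℕ → V) (u : V) : T.cs c u 0 = 0 := rfl

theorem VK.neg_cs (T : VK H) (c : ℕ → V) (u : V) (j : ℕ) : T.neg.cs c u j = - T.cs c u j := by
  simp [VK.cs, VK.neg]

theorem VK.cs_per (T : VK H) (C : Cyc H) (u : V) (j : ℕ) :
    T.cs C.c u (j + C.n) = T.cs C.c u j + T.cs C.c u C.n := by
  induction j with
  | zero => simp [VK.cs_zero]
  | succ j ih =>
    rw [show j + 1 + C.n = j + C.n + 1 by omega, T.cs_succ, T.cs_succ, ih, C.per,
      show j + C.n + 1 = j + 1 + C.n by omega, C.per]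
    ring

theorem VK.cs_sq (T : VK H) (C : Cyc H) {x y : V} (hxy : H.Adj x y) {i j : ℕ} (hij : i ≤ j)
    (h : ∀ l, i ≤ l → l ≤ j → C.c l ≠ x ∧ C.c l ≠ y) :
    T.θ (C.c i) x y - T.θ (C.c j) x y + (T.cs C.c y j - T.cs C.c y i)
      - (T.cs C.c x j - T.cs C.c x i) = 0 := by
  induction j, hij using Nat.le_induction with
  | base => ring
  | succ j hj ih =>
    have h1 := h j hj (by omega)
    have h2 := h (j + 1) (by omega) le_rfl
    rw [T.cs_succ, T.cs_succ]
    linear_combination ih (fun l a b => h l a (by omega))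
      + T.sq x y (C.c j) (C.c (j + 1)) hxy (C.adj j) h1.1 h1.2 h2.1 h2.2

theorem VK.cs_parity (T : VK H) (C : Cyc H) {u : V} {i j : ℕ} (hij : i ≤ j)
    (h : ∀ l, i ≤ l → l ≤ j → u ≠ C.c l) :
    2 * (T.cs C.c u j - T.cs C.c u i) = 2 * (T.a u (C.c j) - T.a u (C.c i)) := by
  induction j, hij using Nat.le_induction with
  | base => ring
  | succ j hj ih =>
    rw [T.cs_succ]
    linear_combination ih (fun l a b => h l a (by omega))
      + T.parity u (C.c j) (C.c (j + 1)) (C.adj j) (h j hj (by omega)) (h (j + 1) (by omega) le_rfl)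

theorem Cyc.c_ne (C : Cyc H) {i j : ℕ} (h1 : i < j) (h2 : j < i + C.n) : C.c i ≠ C.c j :=
  fun e => by have := C.inj' e (by omega) (by omega); omega

/-- The angle sum of the triangle formed by three points of a cycle. -/
def VK.tri (T : VK H) (C : Cyc H) (i j l : ℕ) : ZMod 4 :=
  (T.cs C.c (C.c i) l - T.cs C.c (C.c i) j) + (T.cs C.c (C.c j) (i + C.n) - T.cs C.c (C.c j) l)
    + (T.cs C.c (C.c l) j - T.cs C.c (C.c l) i)

theorem VK.tri_cyc (T : VK H) (C : Cyc H) (i j l : ℕ) :
    T.tri C j l (i + C.n) = T.tri C i j l := by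
  simp only [VK.tri, C.per, T.cs_per]
  ring

theorem VK.tri_mid (T : VK H) (C : Cyc H) {i j l : ℕ} (h1 : i < j) (h2 : j + 1 < l)
    (h3 : l < i + C.n) : T.tri C i (j + 1) l = T.tri C i j l := by
  have key := T.cs_sq C (C.adj j) (i := l) (j := i + C.n) (by omega) fun m a b =>
    ⟨(C.c_ne (by omega) (by omega)).symm, (C.c_ne (by omega) (by omega)).symm⟩
  rw [C.per] at key
  simp only [VK.tri, T.cs_succ]
  linear_combination key

theorem VK.tri_last (T : VK H) (C : Cyc H) {i j l : ℕ} (h2 : j < l)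
    (h3 : l + 1 < i + C.n) (h1 : i < j) : T.tri C i j (l + 1) = T.tri C i j l := by
  rw [← T.tri_cyc C i j, ← T.tri_cyc C i j]
  exact T.tri_mid C h2 h3 (by omega)

theorem VK.tri_first (T : VK H) (C : Cyc H) {i j l : ℕ} (h1 : i + 1 < j) (h2 : j < l)
    (h3 : l < i + C.n) : T.tri C (i + 1) j l = T.tri C i j l := by
  rw [← T.tri_cyc C i j, ← T.tri_cyc C (i + 1) j, ← T.tri_cyc C j l, ← T.tri_cyc C j l,
    show i + 1 + C.n = i + C.n + 1 by omega]
  exact T.tri_mid C h3 (by omega) (by omega)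

theorem VK.tri_const (T : VK H) (C : Cyc H) {i j l : ℕ} (h1 : i < j) (h2 : j < l)
    (h3 : l < C.n) : T.tri C i j l = T.tri C 0 1 2 := by
  have e1 : ∀ i, i < j → T.tri C i j l = T.tri C 0 j l := by
    intro i
    induction i with
    | zero => exact fun _ => rfl
    | succ i ih => exact fun h => (T.tri_first C h h2 (by omega)).trans (ih (by omega))
  have e2 : ∀ j, j + 1 < l → T.tri C 0 (j + 1) l = T.tri C 0 1 l := by
    intro j
    induction j with
    | zero => exact fun _ => rfl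
    | succ j ih =>
      exact fun h => (T.tri_mid C (by omega) h (by omega)).trans (ih (by omega))
  have e3 : ∀ l, l + 2 < C.n → T.tri C 0 1 (l + 2) = T.tri C 0 1 2 := by
    intro l
    induction l with
    | zero => exact fun _ => rfl
    | succ l ih =>
      exact fun h => (T.tri_last C (l := l + 2) (by omega) (by omega) (by omega)).trans
        (ih (by omega))
  obtain ⟨j, rfl⟩ : ∃ m, j = m + 1 := ⟨j - 1, by omega⟩
  obtain ⟨l, rfl⟩ : ∃ m, l = m + 2 := ⟨l - 2, by omega⟩
  rw [e1 i h1, e2 j h2, e3 l h3]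

theorem VK.tri_odd (T : VK H) (C : Cyc H) : 2 * T.tri C 0 1 2 = 2 := by
  have h4 : (4 : ZMod 4) = 0 := rfl
  have hn := C.three_le
  have k1 := T.cs_parity C (u := C.c 0) (i := 1) (j := 2) (by omega) fun m a b =>
    C.c_ne (by omega) (by omega)
  have k2 := T.cs_parity C (u := C.c 1) (i := 2) (j := 0 + C.n) (by omega) fun m a b =>
    C.c_ne (by omega) (by omega)
  have k3 := T.cs_parity C (u := C.c 2) (i := 0) (j := 1) (by omega) fun m a b =>
    (C.c_ne (by omega) (by omega)).symm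
  rw [C.per] at k2
  have a1 := T.a_anti (C.c 0) (C.c 1) (C.c_ne (by omega) (by omega))
  have a2 := T.a_anti (C.c 1) (C.c 2) (C.c_ne (by omega) (by omega))
  have a3 := T.a_anti (C.c 0) (C.c 2) (C.c_ne (by omega) (by omega))
  simp only [VK.tri]
  linear_combination k1 + k2 + k3 + a1 + a2 - a3

theorem VK.neg_tri (T : VK H) (C : Cyc H) (i j l : ℕ) : T.neg.tri C i j l = - T.tri C i j l := by
  simp only [VK.tri, T.neg_cs]
  ring

/-- The winding of the cycle around a point off the cycle is even. -/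
theorem VK.cs_even (T : VK H) (C : Cyc H) {u : V} (hu : u ∉ C.verts) :
    2 * T.cs C.c u C.n = 0 := by
  have := T.cs_parity C (u := u) (i := 0) (j := 0 + C.n) (by omega)
    fun m _ _ e => hu (e ▸ C.c_mem_verts m)
  rw [C.per, zero_add, T.cs_zero] at this
  linear_combination this

/-- The winding of the cycle is the same at both ends of an edge off the cycle. -/
theorem VK.cs_eq_of_adj (T : VK H) (C : Cyc H) {x y : V} (hxy : H.Adj x y) (hx : x ∉ C.verts)
    (hy : y ∉ C.verts) : T.cs C.c y C.n = T.cs C.c x C.n := by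
  have := T.cs_sq C hxy (i := 0) (j := 0 + C.n) (by omega)
    fun m _ _ => ⟨fun e => hx (e ▸ C.c_mem_verts m), fun e => hy (e ▸ C.c_mem_verts m)⟩
  rw [C.per, zero_add, T.cs_zero, T.cs_zero] at this
  linear_combination this

/-- A spoke from `w` to the cycle, seen from another point of the cycle. -/
theorem VK.spoke (T : VK H) (C : Cyc H) {w : V} (hw : w ∉ C.verts) {i j : ℕ}
    (hadj : H.Adj w (C.c i)) (h1 : i < j) (h2 : j < i + C.n) :
    T.θ (C.c j) w (C.c i) + T.cs C.c w j = T.θ (C.c (i + 1)) w (C.c i) + T.cs C.c w (i + 1)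
      + (T.cs C.c (C.c i) j - T.cs C.c (C.c i) (i + 1)) := by
  have := T.cs_sq C hadj (i := i + 1) (j := j) h1
    fun m _ _ => ⟨fun e => hw (e ▸ C.c_mem_verts m), (C.c_ne (by omega) (by omega)).symm⟩
  linear_combination - this

/-- The pair function whose coboundary is the orientation. -/
def VK.lam (T : VK H) (C : Cyc H) (i j : ℕ) : ZMod 4 :=
  (T.cs C.c (C.c i) j - T.cs C.c (C.c i) (i + 1))
    - (T.cs C.c (C.c j) (i + C.n) - T.cs C.c (C.c j) (j + 1))

theorem VK.lam_cocycle (T : VK H) (C : Cyc H) (i j l : ℕ) :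
    T.lam C i j + T.lam C j l - T.lam C i l = - T.tri C i j l := by
  simp only [VK.lam, VK.tri, T.cs_per]
  ring

theorem VK.lam_parity (T : VK H) (C : Cyc H) {i j : ℕ} (h1 : i < j) (h2 : j < i + C.n) :
    2 * T.lam C i j = 2 * (1 + T.a (C.c j) (C.c (j + 1)) - T.a (C.c i) (C.c (i + 1))) := by
  have h4 : (4 : ZMod 4) = 0 := rfl
  have k1 := T.cs_parity C (u := C.c i) (i := i + 1) (j := j) h1 fun m a b =>
    C.c_ne (by omega) (by omega)
  have k2 := T.cs_parity C (u := C.c j) (i := j + 1) (j := i + C.n) h2 fun m a b =>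
    C.c_ne (by omega) (by omega)
  rw [C.per] at k2
  have a1 := T.a_anti (C.c i) (C.c j) (C.c_ne h1 h2)
  simp only [VK.lam]
  linear_combination k1 - k2 - a1 - h4

/-- Two spokes, each seen from the end of the other one. -/
theorem VK.spokes (T : VK H) (C : Cyc H) {w w' : V} (hw : w ∉ C.verts) (hw' : w' ∉ C.verts)
    {i j : ℕ} (hadj : H.Adj w (C.c i)) (hadj' : H.Adj w' (C.c j)) (h1 : i < j)
    (h2 : j < i + C.n) :
    T.θ (C.c j) w (C.c i) - T.θ (C.c i) w' (C.c j) = T.lam C i j + T.cs C.c w' C.n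
      + (T.θ (C.c (i + 1)) w (C.c i) + T.cs C.c w (i + 1))
      - (T.θ (C.c (j + 1)) w' (C.c j) + T.cs C.c w' (j + 1))
      - T.cs C.c w j + T.cs C.c w' i := by
  have k1 := T.spoke C hw hadj h1 h2
  have k2 := T.spoke C hw' hadj' h2 (by omega)
  rw [C.per, T.cs_per C w'] at k2
  simp only [VK.lam]
  linear_combination k1 - k2

end Pool.Agent.Lib.Common.Pl
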