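import Pool.Agent.Lib.Common.Planar.VK
import Pool.Agent.Lib.Common.Planar.RepB

/-! The replacement lemma: a vertex may be replaced by a connected piece drawn inside a cycle. -/

namespace Pool.Agent.Lib.Common.Pl

open SimpleGraph

variable {V : Type} {G G₁ G₂ : SimpleGraph V}

theorem isVK_of_rep_aux {K : Set V} {k : V} (hk : k ∈ K) (hK : ConnSet G K)
    (T₁ : VK G₁) (T₂ : VK G₂) (C₁ : Cyc G₁) (C₂ : Cyc G₂) (hc : C₂.c = C₁.c) (hn : C₂.n = C₁.n)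
    (hCK : Disjoint C₁.verts K) (hbd : bd G K ⊆ C₁.verts)
    (g1 : ∀ x y, G.Adj x y → x ∈ K → G₁.Adj x y)
    (g2 : ∀ x y, G.Adj x y → x ∉ K → y ∉ K → G₂.Adj x y)
    (g3 : ∀ x y, G.Adj x y → x ∈ K → y ∉ K → G₂.Adj k y)
    (hor : T₁.cs C₁.c k C₁.n - T₁.tri C₁ 0 1 2 = T₂.cs C₁.c k C₁.n - T₂.tri C₂ 0 1 2) :
    IsVK G := by
  have h4 : (4 : ZMod 4) = 0 := rfl
  have hn3 := C₁.three_le
  have hK1 : ∀ w, w ∈ K → w ∉ C₁.verts := fun w hw hw' => Set.disjoint_left.1 hCK hw' hw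
  have hK2 : ∀ w, w ∈ K → w ∉ C₂.verts := fun w hw hw' => hK1 w hw (by
    simpa only [Cyc.verts, hc] using hw')
  have hcw : ∀ w, w ∈ K → ∀ l, C₁.c l ≠ w := fun w hw l e => hK1 w hw (e ▸ C₁.c_mem_verts l)
  have hex : ∀ x, ∃ j, x ∈ C₁.verts → j < C₁.n ∧ C₁.c j = x := by
    intro x
    by_cases hx : x ∈ C₁.verts
    · obtain ⟨j, -, h2, h3⟩ := C₁.exists_pos hx 0
      exact ⟨j, fun _ => ⟨by omega, h3⟩⟩
    · exact ⟨0, fun h => absurd h hx⟩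
  choose p hp using hex
  have hpc : ∀ w c, G.Adj w c → w ∈ K → c ∉ K → ∃ i, i < C₁.n ∧ C₁.c i = c ∧ p c = i :=
    fun w c h hw hc' => ⟨p c, (hp c (hbd ⟨hc', w, hw, h.symm⟩)).1,
      (hp c (hbd ⟨hc', w, hw, h.symm⟩)).2, rfl⟩
  have hom : ∀ w, w ∈ K → T₁.cs C₁.c w C₁.n = T₁.cs C₁.c k C₁.n := by
    intro w hw
    refine (hK.rIn hk hw).induction
      (P := fun w => T₁.cs C₁.c w C₁.n = T₁.cs C₁.c k C₁.n) rfl fun a b ha hb hab ih => ?_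
    exact (T₁.cs_eq_of_adj C₁ (g1 a b hab ha) (hK1 a ha) (hK1 b hb)).trans ih
  obtain ⟨μ, hμ⟩ : ∃ μ : ℕ → ℕ → ZMod 4, ∀ i j, μ i j =
      T₁.lam C₁ i j + T₁.cs C₁.c k C₁.n - T₂.lam C₂ i j - T₂.cs C₁.c k C₁.n := ⟨_, fun _ _ => rfl⟩
  obtain ⟨τ, hτ0, hτ⟩ : ∃ τ : ℕ → ZMod 4, τ 0 = 0 ∧ ∀ j, 0 < j → τ j = μ 0 j :=
    ⟨fun j => if j = 0 then 0 else μ 0 j, by simp, fun j hj => if_neg (by omega)⟩
  have hμτ : ∀ i j, i < j → j < C₁.n → μ i j = τ j - τ i := by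
    intro i j hij hj
    rcases Nat.eq_zero_or_pos i with rfl | hi
    · rw [hτ0, hτ j hij, sub_zero]
    · rw [hτ i hi, hτ j (by omega), hμ, hμ, hμ]
      have k1 := T₁.lam_cocycle C₁ 0 i j
      have k2 := T₂.lam_cocycle C₂ 0 i j
      rw [T₁.tri_const C₁ hi hij hj] at k1
      rw [T₂.tri_const C₂ hi hij (by omega)] at k2
      linear_combination k1 - k2 + hor
  have hev1 := T₁.cs_even C₁ (hK1 k hk)
  have hev2 := T₂.cs_even C₂ (hK2 k hk)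
  rw [hc, hn] at hev2
  have hτ2 : ∀ i, i < C₁.n → 2 * τ i =
      2 * (T₁.a (C₁.c i) (C₁.c (i + 1)) - T₂.a (C₁.c i) (C₁.c (i + 1))
        - (T₁.a (C₁.c 0) (C₁.c (0 + 1)) - T₂.a (C₁.c 0) (C₁.c (0 + 1)))) := by
    intro i hi
    rcases Nat.eq_zero_or_pos i with rfl | hi0
    · rw [hτ0]
      ring
    · have k1 := T₁.lam_parity C₁ hi0 (by omega)
      have k2 := T₂.lam_parity C₂ hi0 (by omega)
      rw [hc] at k2
      rw [hτ i hi0, hμ]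
      linear_combination k1 - k2 + hev1 - hev2
  obtain ⟨t, ht⟩ : ∃ t : V → V → ZMod 4, ∀ x y, t x y =
      - T₁.θ (C₁.c 0) x y + T₁.a (C₁.c 0) y - T₁.a (C₁.c 0) x := ⟨_, fun _ _ => rfl⟩
  obtain ⟨h, hh⟩ : ∃ h : V → V → ZMod 4, ∀ u c, h u c =
      - T₁.cs C₁.c u (p c) - T₁.a (C₁.c 0) u + T₂.a c k := ⟨_, fun _ _ => rfl⟩
  obtain ⟨s, hs⟩ : ∃ s : V → V → ZMod 4, ∀ w c, s w c =
      τ (p c) + (T₁.a (C₁.c 0) (C₁.c (0 + 1)) - T₂.a (C₁.c 0) (C₁.c (0 + 1)))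
        - (T₁.θ (C₁.c (p c + 1)) w c + T₁.cs C₁.c w (p c + 1)) - T₁.a (C₁.c 0) w - T₂.a c k
        + (T₂.θ (C₁.c (p c + 1)) k c + T₂.cs C₁.c k (p c + 1)) + T₂.cs C₁.c k (p c) :=
    ⟨_, fun _ _ => rfl⟩
  have hClt : ∀ w c w' c', G.Adj w c → w ∈ K → c ∉ K → G.Adj w' c' → w' ∈ K → c' ∉ K →
      p c < p c' → T₁.θ c' w c - T₁.θ c w' c' + h w' c - h w c' + s w c - s w' c' + T₂.θ c k c'
        - T₂.θ c' k c = 0 := by
    intro w c w' c' e hw hcK e' hw' hcK' hlt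
    obtain ⟨i, hi, rfl, hpi⟩ := hpc w c e hw hcK
    obtain ⟨j, hj, rfl, hpj⟩ := hpc w' c' e' hw' hcK'
    rw [hpi, hpj] at hlt
    have k1 := T₁.spokes C₁ (hK1 w hw) (hK1 w' hw') (g1 _ _ e hw) (g1 _ _ e' hw') hlt (by omega)
    have k2 := T₂.spokes C₂ (i := i) (j := j) (hK2 k hk) (hK2 k hk)
      (by rw [hc]; exact g3 _ _ e hw hcK) (by rw [hc]; exact g3 _ _ e' hw' hcK') hlt (by omega)
    rw [hc, hn] at k2
    rw [hom w' hw'] at k1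
    have k3 := hμτ i j hlt hj
    rw [hμ] at k3
    rw [hh, hh, hs, hs, hpi, hpj]
    linear_combination k1 - k2 + k3
  refine isVK_of_gauge hk T₁ T₂ t h s g1 g2 g3 ?_ ?_ ?_ ?_ ?_ ?_
  · intro x y e hx hy
    rw [ht, ht]
    linear_combination - T₁.θ_anti (C₁.c 0) x y (g1 x y e hx) (hcw x hx 0) (hcw y hy 0)
  · intro x y e hx hy
    rw [ht]
    linear_combination - T₁.parity (C₁.c 0) x y (g1 x y e hx) (hcw x hx 0) (hcw y hy 0)
  · intro w c e hw hcK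
    obtain ⟨i, hi, rfl, hpi⟩ := hpc w c e hw hcK
    have hne : C₁.c (i + 1) ≠ C₁.c i := (C₁.adj i).ne'
    have k1 := T₁.parity (C₁.c (i + 1)) w (C₁.c i) (g1 _ _ e hw) (hcw w hw _) hne
    have k2 := T₂.parity (C₁.c (i + 1)) k (C₁.c i) (g3 _ _ e hw hcK) (hcw k hk _) hne
    have k3 := T₁.cs_parity C₁ (u := w) (i := 0) (j := i + 1) (by omega)
      fun l _ _ => (hcw w hw l).symm
    have k4 := T₂.cs_parity C₂ (u := k) (i := 0) (j := i + 1) (by omega)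
      fun l _ _ => by rw [hc]; exact (hcw k hk l).symm
    have k5 := T₂.cs_parity C₂ (u := k) (i := 0) (j := i) (by omega)
      fun l _ _ => by rw [hc]; exact (hcw k hk l).symm
    rw [hc, VK.cs_zero] at k4 k5
    rw [VK.cs_zero] at k3
    have a1 := T₁.a_anti (C₁.c (i + 1)) w (hcw w hw _)
    have a2 := T₁.a_anti (C₁.c 0) w (hcw w hw _)
    have a3 := T₁.a_anti (C₁.c (i + 1)) (C₁.c i) hne
    have b1 := T₂.a_anti (C₁.c (i + 1)) k (hcw k hk _)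
    have b2 := T₂.a_anti (C₁.c i) k (hcw k hk _)
    have b3 := T₂.a_anti (C₁.c (i + 1)) (C₁.c i) hne
    rw [hs, hpi]
    linear_combination hτ2 i hi - k1 - k3 + k2 + k4 + k5 - a1 + a2 + a3 + b1 + b2 - b3
      + (1 - T₂.a k (C₁.c 0)) * h4
  · intro x y w c e hx hy e' hw hcK
    obtain ⟨i, hi, rfl, hpi⟩ := hpc w c e' hw hcK
    have k1 := T₁.cs_sq C₁ (g1 x y e hx) (i := 0) (j := i) (by omega)
      fun l _ _ => ⟨hcw x hx l, hcw y hy l⟩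
    rw [VK.cs_zero, VK.cs_zero] at k1
    rw [ht, hh, hh, hpi]
    linear_combination - k1
  · intro u w c hu e hw hcK
    obtain ⟨i, hi, rfl, hpi⟩ := hpc w c e hw hcK
    have k3 := T₁.cs_parity C₁ (u := u) (i := 0) (j := i) (by omega)
      fun l _ _ => (hcw u hu l).symm
    rw [VK.cs_zero] at k3
    have a2 := T₁.a_anti (C₁.c 0) u (hcw u hu _)
    have b2 := T₂.a_anti (C₁.c i) k (hcw k hk _)
    rw [hh, hpi]
    linear_combination - k3 + a2 - b2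
  · intro w c w' c' e hw hcK e' hw' hcK' hne
    rcases lt_trichotomy (p c) (p c') with hlt | heq | hlt
    · exact hClt w c w' c' e hw hcK e' hw' hcK' hlt
    · obtain ⟨i, -, hi, hpi⟩ := hpc w c e hw hcK
      obtain ⟨j, -, hj, hpj⟩ := hpc w' c' e' hw' hcK'
      exact absurd (by rw [← hi, ← hj, ← hpi, ← hpj, heq]) hne
    · linear_combination - hClt w' c' w c e' hw' hcK' e hw hcK hlt

theorem isVK_of_rep {K : Set V} {k₀ : V} (hk : k₀ ∈ K) (hK : ConnSet G K) (C : Cyc G)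
    (hCK : Disjoint C.verts K) (hbd : bd G K ⊆ C.verts) (h₁ : IsVK (inc G K ⊔ C.graph))
    (h₂ : IsVK (G.map (contr K k₀))) : IsVK G := by
  obtain ⟨T₁⟩ := h₁
  obtain ⟨T₂⟩ := h₂
  have g1 : ∀ x y, G.Adj x y → x ∈ K → (inc G K ⊔ C.graph).Adj x y :=
    fun x y e hx => Or.inl ⟨e, Or.inl hx⟩
  have g2 : ∀ x y, G.Adj x y → x ∉ K → y ∉ K → (G.map (contr K k₀)).Adj x y := by
    intro x y e hx hy
    exact ⟨e.ne, x, y, e, contr_of_notMem hx, contr_of_notMem hy⟩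
  have g3 : ∀ x y, G.Adj x y → x ∈ K → y ∉ K → (G.map (contr K k₀)).Adj k₀ y := by
    intro x y e hx hy
    exact ⟨fun h => hy (h ▸ hk), x, y, e, contr_of_mem hx, contr_of_notMem hy⟩
  have hcK : ∀ l, C.c l ∉ K := fun l => Set.disjoint_left.1 hCK (C.c_mem_verts l)
  have hle : C.graph ≤ G.map (contr K k₀) := by
    rintro a b ⟨i, ⟨rfl, rfl⟩ | ⟨rfl, rfl⟩⟩
    · exact g2 _ _ (C.adj i) (hcK _) (hcK _)
    · exact g2 _ _ (C.adj i).symm (hcK _) (hcK _)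
  set C₁ := C.transfer (inc G K ⊔ C.graph) le_sup_right with hC₁
  set C₂ := C.transfer (G.map (contr K k₀)) hle with hC₂
  have hk1 : k₀ ∉ C.verts := fun h => Set.disjoint_left.1 hCK h hk
  have o1 : 2 * (T₁.cs C₁.c k₀ C₁.n - T₁.tri C₁ 0 1 2) = 2 := by
    have h4 : (4 : ZMod 4) = 0 := rfl
    linear_combination T₁.cs_even C₁ hk1 - T₁.tri_odd C₁ - h4
  have o2 : 2 * (T₂.cs C₂.c k₀ C₂.n - T₂.tri C₂ 0 1 2) = 2 := by
    have h4 : (4 : ZMod 4) = 0 := rfl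
    linear_combination T₂.cs_even C₂ hk1 - T₂.tri_odd C₂ - h4
  have key : ∀ x y : ZMod 4, 2 * x = 2 → 2 * y = 2 → x = y ∨ - x = y := by decide
  rcases key _ _ o1 o2 with e | e
  · exact isVK_of_rep_aux hk hK T₁ T₂ C₁ C₂ rfl rfl hCK hbd g1 g2 g3 e
  · refine isVK_of_rep_aux hk hK T₁.neg T₂ C₁ C₂ rfl rfl hCK hbd g1 g2 g3 ?_
    rw [T₁.neg_cs, T₁.neg_tri]
    exact Eq.trans (by ring) e

end Pool.Agent.Lib.Common.Pl
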