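import Pool.Agent.Lib.Common.Planar.Cyc

/-! Replacement lemma, part A: gluing two van Kampen cochains along compatible gauge data. -/

namespace Pool.Agent.Lib.Common.Pl

open SimpleGraph

variable {V : Type} {G G₁ G₂ : SimpleGraph V}

/-- Reversing the orientation of a van Kampen cochain. -/
def VK.neg (T : VK G) : VK G where
  a := T.a
  θ u x y := - T.θ u x y
  a_anti := T.a_anti
  θ_anti u x y h hx hy := by rw [T.θ_anti u x y h hx hy]
  parity u x y h hx hy := by
    have h4 : (4 : ZMod 4) = 0 := rfl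
    linear_combination T.parity u x y h hx hy - T.θ u x y * h4
  sq x y u v h h' a b c d := by linear_combination - T.sq x y u v h h' a b c d

open Classical in
/-- Direction function of the glued cochain. -/
noncomputable def repA (K : Set V) (k : V) (T₁ : VK G₁) (T₂ : VK G₂) (u x : V) : ZMod 4 :=
  if u ∈ K then (if x ∈ K then T₁.a u x else T₂.a k x)
  else (if x ∈ K then T₂.a u k else T₂.a u x)

open Classical in
/-- Angle function of the glued cochain. -/
noncomputable def repT (K : Set V) (k : V) (T₁ : VK G₁) (T₂ : VK G₂) (t h s : V → V → ZMod 4)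
    (u x y : V) : ZMod 4 :=
  if u ∈ K then
    (if x ∈ K then (if y ∈ K then T₁.θ u x y + t x y else T₁.θ u x y + h u y + s x y)
      else (if y ∈ K then T₁.θ u x y - h u x - s y x else T₂.θ k x y))
  else
    (if x ∈ K then (if y ∈ K then 0 else T₂.θ u k y)
      else (if y ∈ K then T₂.θ u x k else T₂.θ u x y))

theorem isVK_of_gauge {K : Set V} {k : V} (hk : k ∈ K) (T₁ : VK G₁) (T₂ : VK G₂)
    (t h s : V → V → ZMod 4)
    (g1 : ∀ x y, G.Adj x y → x ∈ K → G₁.Adj x y)
    (g2 : ∀ x y, G.Adj x y → x ∉ K → y ∉ K → G₂.Adj x y)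
    (g3 : ∀ x y, G.Adj x y → x ∈ K → y ∉ K → G₂.Adj k y)
    (ht : ∀ x y, G.Adj x y → x ∈ K → y ∈ K → t y x = - t x y)
    (ht2 : ∀ x y, G.Adj x y → x ∈ K → y ∈ K → 2 * t x y = 0)
    (hs2 : ∀ x y, G.Adj x y → x ∈ K → y ∉ K → 2 * s x y = 0)
    (hA : ∀ x y w c, G.Adj x y → x ∈ K → y ∈ K → G.Adj w c → w ∈ K → c ∉ K →
      T₁.θ c x y + t x y + h y c - h x c = 0)
    (hB : ∀ u w c, u ∈ K → G.Adj w c → w ∈ K → c ∉ K → 2 * (T₁.a u c + h u c) = 2 * T₂.a k c)
    (hC : ∀ w c w' c', G.Adj w c → w ∈ K → c ∉ K → G.Adj w' c' → w' ∈ K → c' ∉ K → c ≠ c' →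
      T₁.θ c' w c - T₁.θ c w' c' + h w' c - h w c' + s w c - s w' c' + T₂.θ c k c'
        - T₂.θ c' k c = 0) : IsVK G := by
  have h4 : (4 : ZMod 4) = 0 := rfl
  have hne : ∀ x, x ∉ K → x ≠ k := fun x hx e => hx (e ▸ hk)
  refine ⟨⟨repA K k T₁ T₂, repT K k T₁ T₂ t h s, ?_, ?_, ?_, ?_⟩⟩
  · intro u x hux
    by_cases hu : u ∈ K <;> by_cases hx : x ∈ K <;> simp only [repA, hu, hx, if_true, if_false]
    · exact T₁.a_anti u x hux
    · exact T₂.a_anti k x (hne x hx).symm
    · exact T₂.a_anti u k (hne u hu)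
    · exact T₂.a_anti u x hux
  · intro u x y hxy hux huy
    by_cases hu : u ∈ K <;> by_cases hx : x ∈ K <;> by_cases hy : y ∈ K <;>
      simp only [repT, hu, hx, hy, if_true, if_false]
    · linear_combination T₁.θ_anti u x y (g1 x y hxy hx) hux huy + ht x y hxy hx hy
    · linear_combination T₁.θ_anti u x y (g1 x y hxy hx) hux huy
    · linear_combination T₁.θ_anti u x y (g1 y x hxy.symm hy).symm hux huy
    · exact T₂.θ_anti k x y (g2 x y hxy hx hy) (hne x hx).symm (hne y hy).symm
    · simp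
    · exact T₂.θ_anti u k y (g3 x y hxy hx hy) (hne u hu) huy
    · exact T₂.θ_anti u x k (g3 y x hxy.symm hy hx).symm hux (hne u hu)
    · exact T₂.θ_anti u x y (g2 x y hxy hx hy) hux huy
  · intro u x y hxy hux huy
    by_cases hu : u ∈ K <;> by_cases hx : x ∈ K <;> by_cases hy : y ∈ K <;>
      simp only [repT, repA, hu, hx, hy, if_true, if_false]
    · linear_combination T₁.parity u x y (g1 x y hxy hx) hux huy + ht2 x y hxy hx hy
    · linear_combination T₁.parity u x y (g1 x y hxy hx) hux huy + hs2 x y hxy hx hy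
        + hB u x y hu hxy hx hy
    · linear_combination T₁.parity u x y (g1 y x hxy.symm hy).symm hux huy
        - hs2 y x hxy.symm hy hx - hB u y x hu hxy.symm hy hx
    · exact T₂.parity k x y (g2 x y hxy hx hy) (hne x hx).symm (hne y hy).symm
    · simp
    · exact T₂.parity u k y (g3 x y hxy hx hy) (hne u hu) huy
    · exact T₂.parity u x k (g3 y x hxy.symm hy hx).symm hux (hne u hu)
    · exact T₂.parity u x y (g2 x y hxy hx hy) hux huy
  · intro x y u v hxy huv hux huy hvx hvy
    by_cases hx : x ∈ K <;> by_cases hy : y ∈ K <;> by_cases hu : u ∈ K <;> by_cases hv : v ∈ K <;>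
      simp only [repT, hu, hx, hy, hv, if_true, if_false]
    · linear_combination T₁.sq x y u v (g1 x y hxy hx) (g1 u v huv hu) hux huy hvx hvy
    · linear_combination T₁.sq x y u v (g1 x y hxy hx) (g1 u v huv hu) hux huy hvx hvy
        + hA x y u v hxy hx hy huv hu hv
    · linear_combination T₁.sq x y u v (g1 x y hxy hx) (g1 v u huv.symm hv).symm hux huy hvx hvy
        - hA x y v u hxy hx hy huv.symm hv hu
    · ring
    · linear_combination T₁.sq x y u v (g1 x y hxy hx) (g1 u v huv hu) hux huy hvx hvy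
        - hA u v x y huv hu hv hxy hx hy
    · linear_combination T₁.sq x y u v (g1 x y hxy hx) (g1 u v huv hu) hux huy hvx hvy
        + hC x y u v hxy hx hy huv hu hv hvy.symm
    · linear_combination T₁.sq x y u v (g1 x y hxy hx) (g1 v u huv.symm hv).symm hux huy hvx hvy
        - hC x y v u hxy hx hy huv.symm hv hu huy.symm
        + T₁.θ_anti y u v (g1 v u huv.symm hv).symm huy.symm hvy.symm * (-1)
        + T₂.θ_anti y k u (g3 v u huv.symm hv hu) (hne y hy) huy.symm
    · exact T₂.sq k y u v (g3 x y hxy hx hy) (g2 u v huv hu hv) (hne u hu) huy (hne v hv) hvy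
    · linear_combination T₁.sq x y u v (g1 y x hxy.symm hy).symm (g1 u v huv hu) hux huy hvx hvy
        + hA u v y x huv hu hv hxy.symm hy hx
    · linear_combination T₁.sq x y u v (g1 y x hxy.symm hy).symm (g1 u v huv hu) hux huy hvx hvy
        - hC y x u v hxy.symm hy hx huv hu hv hvx.symm
        + T₁.θ_anti v x y (g1 y x hxy.symm hy).symm hvx hvy
        - T₂.θ_anti v k x (g3 y x hxy.symm hy hx) (hne v hv) hvx
    · linear_combination
        T₁.sq x y u v (g1 y x hxy.symm hy).symm (g1 v u huv.symm hv).symm hux huy hvx hvy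
        + hC y x v u hxy.symm hy hx huv.symm hv hu hux.symm
        - T₁.θ_anti u x y (g1 y x hxy.symm hy).symm hux huy
        + T₁.θ_anti x u v (g1 v u huv.symm hv).symm hux.symm hvx.symm
        + T₂.θ_anti u k x (g3 y x hxy.symm hy hx) (hne u hu) hux
        - T₂.θ_anti x k u (g3 v u huv.symm hv hu) (hne x hx) hux.symm
    · exact T₂.sq x k u v (g3 y x hxy.symm hy hx).symm (g2 u v huv hu hv) hux (hne u hu) hvx
        (hne v hv)
    · ring
    · exact T₂.sq x y k v (g2 x y hxy hx hy) (g3 u v huv hu hv) (hne x hx).symm (hne y hy).symm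
        hvx hvy
    · exact T₂.sq x y u k (g2 x y hxy hx hy) (g3 v u huv.symm hv hu).symm hux huy
        (hne x hx).symm (hne y hy).symm
    · exact T₂.sq x y u v (g2 x y hxy hx hy) (g2 u v huv hu hv) hux huy hvx hvy

end Pool.Agent.Lib.Common.Pl
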