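import Pool.Agent.Lib.Common.Planar.Maximal

/-! Schnyder realizers of maximal planar graphs. -/

namespace Pool.Agent.Lib.Common.Pl

open SimpleGraph

variable {V : Type} [Finite V] {G : SimpleGraph V} {S : Set V}

omit [Finite V] in
private theorem sch_k5 {A B C D E : Set V} (cA : ConnSet G A) (cB : ConnSet G B)
    (cC : ConnSet G C) (cD : ConnSet G D) (cE : ConnSet G E)
    (dAB : Disjoint A B) (dAC : Disjoint A C) (dAD : Disjoint A D) (dAE : Disjoint A E)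
    (dBC : Disjoint B C) (dBD : Disjoint B D) (dBE : Disjoint B E) (dCD : Disjoint C D)
    (dCE : Disjoint C E) (dDE : Disjoint D E)
    (sAB : SAdj G A B) (sAC : SAdj G A C) (sAD : SAdj G A D) (sAE : SAdj G A E)
    (sBC : SAdj G B C) (sBD : SAdj G B D) (sBE : SAdj G B E) (sCD : SAdj G C D)
    (sCE : SAdj G C E) (sDE : SAdj G D E) : ¬ Planar G := by
  refine not_planar_of_K5 ![A, B, C, D, E] (fun x => ?_) (fun x y h => ?_) (fun x y h => ?_)
  · fin_cases x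
    exacts [cA, cB, cC, cD, cE]
  · fin_cases x <;> fin_cases y <;> first | exact absurd h (by decide) | skip
    exacts [dAB, dAC, dAD, dAE, dBC, dBD, dBE, dCD, dCE, dDE]
  · fin_cases x <;> fin_cases y <;> first | exact absurd h (by decide) | skip
    exacts [sAB, sAC, sAD, sAE, sBC, sBD, sBE, sCD, sCE, sDE]

omit [Finite V] in
private theorem sch_adj_pred (C : Cyc G) {j : ℕ} (hj : 0 < j) :
    G.Adj (C.c (j - 1)) (C.c j) := by
  have := C.adj (j - 1)
  rwa [Nat.sub_add_cancel hj] at this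

omit [Finite V] in
private theorem sch_adj_wrap (C : Cyc G) (i : ℕ) : G.Adj (C.c i) (C.c (i + C.n - 1)) := by
  have := sch_adj_pred C (j := i + C.n) (by have := C.n_pos; omega)
  rw [C.per] at this
  exact this.symm

omit [Finite V] in
private theorem sch_disj_single (C : Cyc G) {a : V} (ha : a ∉ C.verts) (i j : ℕ) :
    Disjoint {a} (C.arc i j) :=
  Set.disjoint_singleton_left.2 fun h => ha (C.arc_subset_verts _ _ h)

omit [Finite V] in
/-- A wheel with two crossing chords is not planar. -/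
private theorem sch_k5_cross (C : Cyc G) {a : V} (ha : a ∉ C.verts)
    (hN : ∀ i, G.Adj a (C.c i)) {i j k l : ℕ} (hij : i < j) (hjk : j < k) (hkl : k < l)
    (hl : l < i + C.n) (h1 : G.Adj (C.c i) (C.c k)) (h2 : G.Adj (C.c j) (C.c l)) :
    ¬ Planar G :=
  sch_k5 (A := {a}) (B := C.arc i (j - 1)) (C := C.arc j (k - 1)) (D := C.arc k (l - 1))
    (E := C.arc l (i + C.n - 1)) (connSet_singleton G a) (C.connSet_arc (by omega))
    (C.connSet_arc (by omega)) (C.connSet_arc (by omega)) (C.connSet_arc (by omega))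
    (sch_disj_single C ha _ _) (sch_disj_single C ha _ _) (sch_disj_single C ha _ _)
    (sch_disj_single C ha _ _) (C.disjoint_arc (by omega) (by omega))
    (C.disjoint_arc (by omega) (by omega)) (C.disjoint_arc (by omega) (by omega))
    (C.disjoint_arc (by omega) (by omega)) (C.disjoint_arc (by omega) (by omega))
    (C.disjoint_arc (by omega) (by omega))
    ⟨a, rfl, _, C.c_mem_arc le_rfl (by omega), hN i⟩
    ⟨a, rfl, _, C.c_mem_arc le_rfl (by omega), hN j⟩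
    ⟨a, rfl, _, C.c_mem_arc le_rfl (by omega), hN k⟩
    ⟨a, rfl, _, C.c_mem_arc le_rfl (by omega), hN l⟩
    ⟨_, C.c_mem_arc (by omega) le_rfl, _, C.c_mem_arc le_rfl (by omega),
      sch_adj_pred C (by omega)⟩
    ⟨_, C.c_mem_arc le_rfl (by omega), _, C.c_mem_arc le_rfl (by omega), h1⟩
    ⟨_, C.c_mem_arc le_rfl (by omega), _, C.c_mem_arc (by omega) le_rfl, sch_adj_wrap C i⟩
    ⟨_, C.c_mem_arc (by omega) le_rfl, _, C.c_mem_arc le_rfl (by omega),
      sch_adj_pred C (by omega)⟩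
    ⟨_, C.c_mem_arc le_rfl (by omega), _, C.c_mem_arc le_rfl (by omega), h2⟩
    ⟨_, C.c_mem_arc (by omega) le_rfl, _, C.c_mem_arc le_rfl (by omega),
      sch_adj_pred C (by omega)⟩

omit [Finite V] in
/-- A wheel together with a connected set joined to the hub and to three rim vertices. -/
private theorem sch_k5_three (C : Cyc G) {a : V} {D : Set V} (ha : a ∉ C.verts)
    (hN : ∀ i, G.Adj a (C.c i)) (hD : ConnSet G D) (haD : a ∉ D) (hDC : Disjoint D C.verts)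
    (hadj : SAdj G {a} D) {i j k : ℕ} (hij : i < j) (hjk : j < k) (hk : k < i + C.n)
    (h1 : ∃ d ∈ D, G.Adj d (C.c i)) (h2 : ∃ d ∈ D, G.Adj d (C.c j))
    (h3 : ∃ d ∈ D, G.Adj d (C.c k)) : ¬ Planar G := by
  obtain ⟨d1, hd1, h1⟩ := h1
  obtain ⟨d2, hd2, h2⟩ := h2
  obtain ⟨d3, hd3, h3⟩ := h3
  exact sch_k5 (A := {a}) (B := D) (C := C.arc i (j - 1)) (D := C.arc j (k - 1))
    (E := C.arc k (i + C.n - 1)) (connSet_singleton G a) hD (C.connSet_arc (by omega))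
    (C.connSet_arc (by omega)) (C.connSet_arc (by omega))
    (Set.disjoint_singleton_left.2 haD) (sch_disj_single C ha _ _) (sch_disj_single C ha _ _)
    (sch_disj_single C ha _ _) (hDC.mono_right (C.arc_subset_verts _ _))
    (hDC.mono_right (C.arc_subset_verts _ _)) (hDC.mono_right (C.arc_subset_verts _ _))
    (C.disjoint_arc (by omega) (by omega)) (C.disjoint_arc (by omega) (by omega))
    (C.disjoint_arc (by omega) (by omega)) hadj
    ⟨a, rfl, _, C.c_mem_arc le_rfl (by omega), hN i⟩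
    ⟨a, rfl, _, C.c_mem_arc le_rfl (by omega), hN j⟩
    ⟨a, rfl, _, C.c_mem_arc le_rfl (by omega), hN k⟩
    ⟨_, hd1, _, C.c_mem_arc le_rfl (by omega), h1⟩
    ⟨_, hd2, _, C.c_mem_arc le_rfl (by omega), h2⟩
    ⟨_, hd3, _, C.c_mem_arc le_rfl (by omega), h3⟩
    ⟨_, C.c_mem_arc (by omega) le_rfl, _, C.c_mem_arc le_rfl (by omega),
      sch_adj_pred C (by omega)⟩
    ⟨_, C.c_mem_arc le_rfl (by omega), _, C.c_mem_arc (by omega) le_rfl, sch_adj_wrap C i⟩
    ⟨_, C.c_mem_arc (by omega) le_rfl, _, C.c_mem_arc le_rfl (by omega),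
      sch_adj_pred C (by omega)⟩

omit [Finite V] in
private theorem sch_cyc (q : ℕ → V) (m : ℕ) (hm : 2 ≤ m)
    (hinj : ∀ i j, i ≤ m → j ≤ m → q i = q j → i = j)
    (hadj : ∀ i < m, G.Adj (q i) (q (i + 1))) (hlast : G.Adj (q m) (q 0)) :
    ∃ C : Cyc G, C.n = m + 1 ∧ (∀ i ≤ m, C.c i = q i) ∧ ∀ i, ∃ j ≤ m, C.c i = q j := by
  obtain ⟨C, hn, hc⟩ := exists_cyc_of_seq (G := G) q (m + 1) (by omega)
    (fun i hi => hadj i (by omega)) hlast fun i j hi hj => hinj i j (by omega) (by omega)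
  refine ⟨C, hn, fun i hi => hc i (by omega), fun i => ?_⟩
  obtain ⟨j, -, hj, e⟩ := C.exists_pos (C.c_mem_verts i) 0
  exact ⟨j, by omega, by rw [← e, hc j (by omega)]⟩

omit [Finite V] in
/-- Some inner vertex of the link has no chord. -/
private theorem sch_chordless (h : Planar G) {a : V} (q : ℕ → V) (m : ℕ) (hm : 2 ≤ m)
    (hinj : ∀ i j, i ≤ m → j ≤ m → q i = q j → i = j)
    (hadj : ∀ i < m, G.Adj (q i) (q (i + 1))) (hlast : G.Adj (q m) (q 0))
    (hN : ∀ i ≤ m, G.Adj a (q i)) :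
    ∃ i, i + 2 ≤ m ∧ ∀ l ≤ m, G.Adj (q (i + 1)) (q l) → l = i ∨ l = i + 2 := by
  classical
  obtain ⟨C, hn, hc, hc'⟩ := sch_cyc q m hm hinj hadj hlast
  have hN' : ∀ i, G.Adj a (C.c i) := fun i => by
    obtain ⟨j, hj, e⟩ := hc' i
    rw [e]; exact hN j hj
  have ha : a ∉ C.verts := by
    rintro ⟨i, e⟩
    exact (hN' i).ne e.symm
  have hex : ∃ d, ∃ i, 2 ≤ d ∧ i + d ≤ m ∧ G.Adj (q i) (q (i + d)) :=
    ⟨m, 0, hm, by omega, by simpa using hlast.symm⟩
  obtain ⟨i, hd, hi, hch⟩ := Nat.find_spec hex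
  have hmin : ∀ d' i', 2 ≤ d' → i' + d' ≤ m → G.Adj (q i') (q (i' + d')) → Nat.find hex ≤ d' :=
    fun d' i' h1 h2 h3 => Nat.find_min' hex ⟨i', h1, h2, h3⟩
  generalize Nat.find hex = d at *
  refine ⟨i, by omega, fun l hl hadj' => ?_⟩
  by_contra hne
  have hl1 : l ≠ i + 1 := by
    rintro rfl
    exact hadj'.ne rfl
  rcases lt_or_ge l i with h1 | h1
  · refine sch_k5_cross C ha hN' (i := i) (j := i + 1) (k := i + d) (l := l + C.n) (by omega)
      (by omega) (by omega) (by omega) ?_ ?_ h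
    · rw [hc _ (by omega), hc _ (by omega)]; exact hch
    · rw [C.per, hc _ (by omega), hc _ (by omega)]; exact hadj'
  rcases le_or_gt l (i + d) with h2 | h2
  · have := hmin (l - (i + 1)) (i + 1) (by omega) (by omega)
      (by rw [show i + 1 + (l - (i + 1)) = l by omega]; exact hadj')
    omega
  · refine sch_k5_cross C ha hN' (i := i) (j := i + 1) (k := i + d) (l := l) (by omega)
      (by omega) (by omega) (by omega) ?_ ?_ h
    · rw [hc _ (by omega), hc _ (by omega)]; exact hch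
    · rw [hc _ (by omega), hc _ (by omega)]; exact hadj'

/-- The link of `x`, cut open at `a`. -/
private theorem sch_link (h : MaxOn G S) (h4 : 4 ≤ S.ncard) {a x b c : V} (hx : x ∈ S)
    (hxa : G.Adj x a) (hcommon : ∀ z, G.Adj a z → G.Adj x z → z = b ∨ z = c) :
    ∃ (p : ℕ → V) (s : ℕ), 1 ≤ s ∧ p 0 = b ∧ p s = c ∧
      (∀ i j, i ≤ s → j ≤ s → p i = p j → i = j) ∧ (∀ i < s, G.Adj (p i) (p (i + 1))) ∧
      (∀ z, G.Adj x z ↔ z = a ∨ ∃ i ≤ s, p i = z) ∧ ∀ i ≤ s, p i ≠ a := by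
  obtain ⟨C0, hC0⟩ := h.exists_link h4 hx
  have ha0 : a ∈ C0.verts := by rw [hC0]; exact hxa
  obtain ⟨t, ht⟩ := ha0
  obtain ⟨C, hC, hCa⟩ : ∃ C : Cyc G, C.verts = G.neighborSet x ∧ C.c 0 = a :=
    ⟨C0.rot t, by rw [Cyc.rot_verts, hC0], ht⟩
  have h3 := C.three_le
  have hxc : ∀ i, G.Adj x (C.c i) := fun i => by
    have := C.c_mem_verts i
    rwa [hC] at this
  have hz : ∀ z, G.Adj x z → z = a ∨ ∃ i, 1 ≤ i ∧ i < C.n ∧ C.c i = z := by
    intro z hz
    have : z ∈ C.verts := by rw [hC]; exact hz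
    obtain ⟨j, -, hj, rfl⟩ := C.exists_pos this 0
    rcases Nat.eq_zero_or_pos j with rfl | hj0
    · exact Or.inl hCa
    · exact Or.inr ⟨j, hj0, by omega, rfl⟩
  have hne : ∀ i, 1 ≤ i → i < C.n → C.c i ≠ a := fun i h1 h2 e => by
    have := C.inj i 0 h2 (by omega) (e.trans hCa.symm)
    omega
  have e1 := hcommon (C.c 1) (hCa ▸ C.adj 0) (hxc 1)
  have e2 := hcommon (C.c (C.n - 1)) (by simpa [hCa] using sch_adj_wrap C 0) (hxc _)
  have e3 : C.c 1 ≠ C.c (C.n - 1) := fun e => by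
    have := C.inj _ _ (by omega) (by omega) e
    omega
  have e4 : (C.c 1 = b ∧ C.c (C.n - 1) = c) ∨ (C.c 1 = c ∧ C.c (C.n - 1) = b) := by
    rcases e1 with e1 | e1 <;> rcases e2 with e2 | e2
    · exact absurd (e1.trans e2.symm) e3
    · exact Or.inl ⟨e1, e2⟩
    · exact Or.inr ⟨e1, e2⟩
    · exact absurd (e1.trans e2.symm) e3
  rcases e4 with ⟨e1, e2⟩ | ⟨e1, e2⟩
  · refine ⟨fun k => C.c (k + 1), C.n - 2, by omega, e1, ?_, fun i j hi hj e => ?_,
      fun i _ => C.adj _, fun z => ⟨fun hxz => ?_, ?_⟩, fun i hi => hne _ (by omega) (by omega)⟩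
    · show C.c (C.n - 2 + 1) = c
      rw [← e2]; congr 1; omega
    · have := C.inj _ _ (by omega) (by omega) e
      omega
    · rcases hz z hxz with e | ⟨i, h1, h2, e⟩
      · exact Or.inl e
      · exact Or.inr ⟨i - 1, by omega, by
          show C.c (i - 1 + 1) = z
          rw [← e]; congr 1; omega⟩
    · rintro (rfl | ⟨i, -, rfl⟩)
      exacts [hxa, hxc _]
  · refine ⟨fun k => C.c (C.n - 1 - k), C.n - 2, by omega, e2, ?_, fun i j hi hj e => ?_,
      fun i hi => ?_, fun z => ⟨fun hxz => ?_, ?_⟩, fun i hi => hne _ (by omega) (by omega)⟩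
    · show C.c (C.n - 1 - (C.n - 2)) = c
      rw [← e1]; congr 1; omega
    · have := C.inj _ _ (by omega) (by omega) e
      omega
    · exact (sch_adj_pred C (j := C.n - 1 - i) (by omega)).symm
    · rcases hz z hxz with e | ⟨i, h1, h2, e⟩
      · exact Or.inl e
      · exact Or.inr ⟨C.n - 1 - i, by omega, by
          show C.c (C.n - 1 - (C.n - 1 - i)) = z
          rw [← e]; congr 1; omega⟩
    · rintro (rfl | ⟨i, -, rfl⟩)
      exacts [hxa, hxc _]

omit [Finite V] in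
private theorem sch_adj {a x u v : V} (hax : a ≠ x) :
    (G.map (contr {a, x} a)).Adj u v ↔ u ≠ v ∧ u ≠ x ∧ v ≠ x ∧
      (G.Adj u v ∨ (u = a ∧ G.Adj x v) ∨ (v = a ∧ G.Adj u x)) := by
  have hx : contr {a, x} a x = a := contr_of_mem (by simp)
  have hz : ∀ z, z ≠ x → contr {a, x} a z = z := fun z hz => by
    by_cases h : z = a
    · rw [h]; exact contr_of_mem (by simp)
    · exact contr_of_notMem (by simp [h, hz])
  rw [map_adj']
  constructor
  · rintro ⟨hne, u', v', huv, rfl, rfl⟩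
    by_cases hu : u' = x
    · subst hu
      rw [hx, hz v' huv.ne'] at hne ⊢
      exact ⟨hne, hax, huv.ne', Or.inr (Or.inl ⟨rfl, huv⟩)⟩
    by_cases hv : v' = x
    · subst hv
      rw [hx, hz u' hu] at hne ⊢
      exact ⟨hne, hu, hax, Or.inr (Or.inr ⟨rfl, huv⟩)⟩
    rw [hz u' hu, hz v' hv] at hne ⊢
    exact ⟨hne, hu, hv, Or.inl huv⟩
  · rintro ⟨hne, hu, hv, h | ⟨rfl, h⟩ | ⟨rfl, h⟩⟩
    · exact ⟨hne, u, v, h, hz u hu, hz v hv⟩
    · exact ⟨hne, x, v, h, hx, hz v hv⟩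
    · exact ⟨hne, u, x, h, hz u hu, hx⟩

private theorem sch_sort {P : ℕ → Prop} {a b c : ℕ} (ha : P a) (hb : P b) (hc : P c)
    (hab : a ≠ b) (hac : a ≠ c) (hbc : b ≠ c) :
    ∃ i j k, i < j ∧ j < k ∧ P i ∧ P j ∧ P k := by
  rcases lt_or_gt_of_ne hab with h1 | h1 <;> rcases lt_or_gt_of_ne hac with h2 | h2 <;>
    rcases lt_or_gt_of_ne hbc with h3 | h3 <;>
    first
      | exact ⟨a, b, c, by omega, by omega, ha, hb, hc⟩
      | exact ⟨a, c, b, by omega, by omega, ha, hc, hb⟩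
      | exact ⟨b, a, c, by omega, by omega, hb, ha, hc⟩
      | exact ⟨b, c, a, by omega, by omega, hb, hc, ha⟩
      | exact ⟨c, a, b, by omega, by omega, hc, ha, hb⟩
      | exact ⟨c, b, a, by omega, by omega, hc, hb, ha⟩

omit [Finite V] in
/-- In a three-connected graph a set that misses `a` and its neighbours has three neighbours. -/
private theorem sch_three (h3 : ThreeConnOn G S) {D : Set V} {a w t : V} (ha : a ∈ S)
    (hw : w ∈ S) (hwD : w ∈ D) (haD : a ∉ D) (hab : a ∉ bd G D) (hta : t ≠ a) (htw : t ≠ w) :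
    ∃ b ∈ bd G D, ∃ c ∈ bd G D, ∃ e ∈ bd G D, b ≠ c ∧ b ≠ e ∧ c ≠ e := by
  have key : ∀ b c, b ≠ a → b ≠ w → c ≠ a → c ≠ w → ∃ e ∈ bd G D, e ≠ b ∧ e ≠ c := by
    intro b c h1 h2 h3' h4
    have hr := (h3 b c).rIn (u := w) (v := a) ⟨hw, by simp [h2.symm, h4.symm]⟩
      ⟨ha, by simp [h1.symm, h3'.symm]⟩
    obtain ⟨d, e, hd, hde, he, heD⟩ := hr.exists_exit hwD haD
    refine ⟨e, ⟨heD, d, hd.right_mem.2, hde.symm⟩, ?_⟩
    simpa [not_or] using he.2
  have hne : ∀ e ∈ bd G D, e ≠ a ∧ e ≠ w := fun e he =>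
    ⟨fun k => hab (k ▸ he), fun k => he.1 (k ▸ hwD)⟩
  obtain ⟨b, hb, -⟩ := key t t hta htw hta htw
  obtain ⟨c, hc, hcb, -⟩ := key b b (hne b hb).1 (hne b hb).2 (hne b hb).1 (hne b hb).2
  obtain ⟨e, he, heb, hec⟩ := key b c (hne b hb).1 (hne b hb).2 (hne c hc).1 (hne c hc).2
  exact ⟨b, hb, c, hc, e, he, hcb.symm, heb.symm, hec.symm⟩

/-- Contracting an edge that lies in exactly two triangles preserves maximality. -/
private theorem sch_max (h : MaxOn G S) (h4 : 4 ≤ S.ncard) {a x : V} (hax : G.Adj a x)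
    (q : ℕ → V) (m : ℕ) (hm : 1 ≤ m) (hinj : ∀ i j, i ≤ m → j ≤ m → q i = q j → i = j)
    (hadj : ∀ i < m, G.Adj (q i) (q (i + 1))) (hlast : G.Adj (q m) (q 0)) {i j : ℕ}
    (hij : i < j) (hj : j ≤ m) (hqa : ∀ k ≤ m, q k ≠ a) (hqx : ∀ k ≤ m, q k ≠ x)
    (hX : ∀ z, G.Adj x z → z = a ∨ ∃ k, i ≤ k ∧ k ≤ j ∧ q k = z)
    (hA : ∀ z, G.Adj a z → z = x ∨ ∃ k ≤ m, (k ≤ i ∨ j ≤ k) ∧ q k = z)
    (hall : ∀ k ≤ m, G.Adj a (q k) ∨ G.Adj x (q k)) :
    MaxOn (G.map (contr {a, x} a)) (S \ {x}) := by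
  have ha : a ∈ S := h.2.1 hax.mem_support_left
  have h3 := h.threeConnOn h4
  have hall' : ∀ k ≤ m, (G.map (contr {a, x} a)).Adj a (q k) := fun k hk =>
    (sch_adj hax.ne).2 ⟨(hqa k hk).symm, hax.ne, hqx k hk, by
      rcases hall k hk with h | h
      exacts [Or.inl h, Or.inr (Or.inl ⟨rfl, h⟩)]⟩
  have hlift : ∀ u v, G.Adj u v → u ≠ x → v ≠ x → (G.map (contr {a, x} a)).Adj u v :=
    fun u v huv hu hv => (sch_adj hax.ne).2 ⟨huv.ne, hu, hv, Or.inl huv⟩
  have three : ∀ w ∈ S, w ≠ a → w ≠ x → (∀ k ≤ m, q k ≠ w) →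
      ∃ D : Set V, w ∈ D ∧ ConnSet G D ∧ a ∉ D ∧ x ∉ D ∧ (∀ k ≤ m, q k ∉ D) ∧
        ∃ i j k, i < j ∧ j < k ∧ (i ≤ m ∧ ∃ d ∈ D, G.Adj d (q i)) ∧
          (j ≤ m ∧ ∃ d ∈ D, G.Adj d (q j)) ∧ (k ≤ m ∧ ∃ d ∈ D, G.Adj d (q k)) := by
    intro w hw hwa hwx hwq
    let X : Set V := {z | z ≠ a ∧ z ≠ x ∧ ∀ k ≤ m, q k ≠ z}
    have hwX : w ∈ X := ⟨hwa, hwx, hwq⟩
    have hsub : comp G X w ⊆ X := comp_subset
    have haD : a ∉ comp G X w := fun k => (hsub k).1 rfl
    have hab : a ∉ bd G (comp G X w) := by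
      rintro ⟨-, d, hd, had⟩
      rcases hA d had with e | ⟨k, hk, -, e⟩
      exacts [(hsub hd).2.1 e, (hsub hd).2.2 k hk e]
    have hxb : x ∉ bd G (comp G X w) := by
      rintro ⟨-, d, hd, had⟩
      rcases hX d had with e | ⟨k, -, hk, e⟩
      exacts [(hsub hd).1 e, (hsub hd).2.2 k (by omega) e]
    have hbd : ∀ e ∈ bd G (comp G X w), ∃ k, (k ≤ m ∧ ∃ d ∈ comp G X w, G.Adj d (q k)) ∧
        q k = e := by
      intro e he
      have h1 : e ∉ X := bd_comp_subset he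
      by_contra hc
      refine h1 ⟨fun k => hab (k ▸ he), fun k => hxb (k ▸ he), fun k hk e' => hc ⟨k, ⟨hk, ?_⟩, e'⟩⟩
      obtain ⟨-, d, hd, hed⟩ := he
      exact ⟨d, hd, e' ▸ hed.symm⟩
    obtain ⟨b, hb, c, hc, e, he, hbc, hbe, hce⟩ := sch_three h3 (t := q 0) ha hw
      (mem_comp_self hwX) haD hab (hqa 0 (by omega)) (hwq 0 (by omega))
    obtain ⟨k1, p1, rfl⟩ := hbd b hb
    obtain ⟨k2, p2, rfl⟩ := hbd c hc
    obtain ⟨k3, p3, rfl⟩ := hbd e he
    exact ⟨comp G X w, mem_comp_self hwX, connSet_comp hwX, haD, fun k => (hsub k).2.1 rfl,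
      fun k hk e => (hsub e).2.2 k hk rfl,
      sch_sort (P := fun k => k ≤ m ∧ ∃ d ∈ comp G X w, G.Adj d (q k)) p1 p2 p3
        (fun e => hbc (by rw [e])) (fun e => hbe (by rw [e])) (fun e => hce (by rw [e]))⟩
  have hub : ∀ w ∈ S \ {x}, a ≠ w → ¬ (G.map (contr {a, x} a)).Adj a w →
      ¬ Planar (G.map (contr {a, x} a) ⊔ edge a w) := by
    intro w hw haw hn
    obtain ⟨D, hwD, hD, haD, hxD, hqD, k1, k2, k3, h12, h23, ⟨hk1, d1, hd1, e1⟩,
      ⟨hk2, d2, hd2, e2⟩, ⟨hk3, d3, hd3, e3⟩⟩ :=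
      three w hw.1 haw.symm hw.2 fun k hk e => hn (e ▸ hall' k hk)
    have hne : ∀ d ∈ D, d ≠ x := fun d hd e => hxD (e ▸ hd)
    obtain ⟨C, hn', hc, hc'⟩ := sch_cyc (G := G.map (contr {a, x} a) ⊔ edge a w) q m (by omega)
      hinj (fun k hk => Or.inl (hlift _ _ (hadj k hk) (hqx _ (by omega)) (hqx _ (by omega))))
      (Or.inl (hlift _ _ hlast (hqx _ le_rfl) (hqx _ (by omega))))
    refine sch_k5_three C (a := a) (D := D) ?_ ?_ ?_ haD ?_ ?_ h12 h23 (by omega) ?_ ?_ ?_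
    · rintro ⟨k, e⟩
      obtain ⟨l, hl, e'⟩ := hc' k
      exact hqa l hl (e'.symm.trans e)
    · intro k
      obtain ⟨l, hl, e'⟩ := hc' k
      rw [e']
      exact Or.inl (hall' l hl)
    · exact hD.mono' fun u v hu hv huv => Or.inl (hlift u v huv (hne u hu) (hne v hv))
    · rw [Set.disjoint_right]
      rintro _ ⟨k, rfl⟩
      obtain ⟨l, hl, e'⟩ := hc' k
      rw [e']
      exact hqD l hl
    · exact ⟨a, rfl, w, hwD, Or.inr ((edge_adj ..).2 ⟨Or.inl ⟨rfl, rfl⟩, haw⟩)⟩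
    · exact ⟨d1, hd1, by rw [hc _ hk1]; exact Or.inl (hlift _ _ e1 (hne _ hd1) (hqx _ hk1))⟩
    · exact ⟨d2, hd2, by rw [hc _ hk2]; exact Or.inl (hlift _ _ e2 (hne _ hd2) (hqx _ hk2))⟩
    · exact ⟨d3, hd3, by rw [hc _ hk3]; exact Or.inl (hlift _ _ e3 (hne _ hd3) (hqx _ hk3))⟩
  refine ⟨h.1.map_contr (connSet_pair hax) (by simp), ?_, fun u hu v hv huv hn => ?_⟩
  · rintro u ⟨v, huv⟩
    obtain ⟨-, hu, -, h' | ⟨rfl, h'⟩ | ⟨-, h'⟩⟩ := (sch_adj hax.ne).1 huv
    · exact ⟨h.2.1 h'.mem_support_left, hu⟩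
    · exact ⟨ha, hu⟩
    · exact ⟨h.2.1 h'.mem_support_left, hu⟩
  by_cases hua : u = a
  · subst hua
    exact hub v hv huv hn
  by_cases hva : v = a
  · subst hva
    rw [edge_comm]
    exact hub u hu huv.symm fun k => hn k.symm
  have hux : u ≠ x := hu.2
  have hvx : v ≠ x := hv.2
  have hn' : ¬ G.Adj u v := fun k => hn (hlift u v k hux hvx)
  have hm2 : 2 ≤ m := by
    by_contra hc
    obtain rfl : m = 1 := by omega
    have key : ∀ w ∈ S \ {x}, w ≠ a → w = q 0 ∨ w = q 1 := by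
      intro w hw hwa
      by_contra hc'
      obtain ⟨D, -, -, -, -, -, k1, k2, k3, h12, h23, -, -, hk3, -⟩ :=
        three w hw.1 hwa hw.2 fun k hk e => hc' (by
          rcases Nat.le_one_iff_eq_zero_or_eq_one.1 hk with rfl | rfl
          exacts [Or.inl e.symm, Or.inr e.symm])
      omega
    rcases key u hu hua with rfl | rfl <;> rcases key v hv hva with e | e
    · exact huv e.symm
    · exact hn' (e ▸ hlast.symm)
    · exact hn' (e ▸ hlast)
    · exact huv e.symm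
  intro hpl
  refine h.2.2 u hu.1 v hv.1 huv hn' ?_
  obtain ⟨C, hn', hc, hc'⟩ := sch_cyc (G := G ⊔ edge u v) q m hm2 hinj
    (fun k hk => Or.inl (hadj k hk)) (Or.inl hlast)
  have hedge : ∀ y z, (edge u v).Adj y z → y = u ∨ y = v := fun y z hyz => by
    rcases ((edge_adj ..).1 hyz).1 with e | e
    exacts [Or.inl e.1, Or.inr e.1]
  refine planar_of_split_cyc (x := a) (y := x) (Or.inl hax) (hpl.mono ?_) C ?_ ?_ hij
    (by omega) ?_ ?_
  · intro y z hyz
    obtain ⟨h1, h2, h3', h' | ⟨rfl, h'⟩ | ⟨rfl, h'⟩⟩ := (sch_adj hax.ne).1 hyz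
    · rcases h' with h' | h'
      exacts [Or.inl (hlift _ _ h' h2 h3'), Or.inr h']
    · rcases h' with h' | h'
      · exact Or.inl ((sch_adj hax.ne).2 ⟨h1, h2, h3', Or.inr (Or.inl ⟨rfl, h'⟩)⟩)
      · rcases hedge _ _ h' with e | e
        exacts [absurd e.symm hux, absurd e.symm hvx]
    · rcases h' with h' | h'
      · exact Or.inl ((sch_adj hax.ne).2 ⟨h1, h2, h3', Or.inr (Or.inr ⟨rfl, h'⟩)⟩)
      · rcases hedge _ _ h'.symm with e | e
        exacts [absurd e.symm hux, absurd e.symm hvx]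
  · rintro ⟨k, e⟩
    obtain ⟨l, hl, e'⟩ := hc' k
    exact hqa l hl (e'.symm.trans e)
  · rintro ⟨k, e⟩
    obtain ⟨l, hl, e'⟩ := hc' k
    exact hqx l hl (e'.symm.trans e)
  · rintro b (hb | hb) hba
    · rcases hX b hb with e | ⟨k, h1, h2, rfl⟩
      · exact absurd e hba
      · rw [← hc k (by omega)]
        exact C.c_mem_arc h1 h2
    · rcases hedge _ _ hb with e | e
      exacts [absurd e.symm hux, absurd e.symm hvx]
  · rintro b (hb | hb) hbx
    · rcases hA b hb with e | ⟨k, hk, h1 | h1, rfl⟩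
      · exact absurd e hbx
      · rw [← hc k hk, ← C.per]
        exact C.c_mem_arc (by omega) (by omega)
      · rw [← hc k hk]
        exact C.c_mem_arc h1 (by omega)
    · rcases hedge _ _ hb with e | e
      exacts [absurd e.symm hua, absurd e.symm hva]

omit [Finite V] in
/-- Inserting the contracted vertex into the three orders. -/
private theorem sch_insert (hS : G.support ⊆ S) {a x : V} (hax : G.Adj a x)
    (q : ℕ → V) (m : ℕ) (hinj : ∀ i j, i ≤ m → j ≤ m → q i = q j → i = j) {i j : ℕ}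
    (hij : i < j) (hj : j ≤ m) (hqa : ∀ k ≤ m, q k ≠ a) (hqx : ∀ k ≤ m, q k ≠ x)
    (hX : ∀ z, G.Adj x z → z = a ∨ ∃ k, i ≤ k ∧ k ≤ j ∧ q k = z)
    (hA : ∀ z, G.Adj a z → z = x ∨ ∃ k ≤ m, (k ≤ i ∨ j ≤ k) ∧ q k = z)
    (hall : ∀ k ≤ m, G.Adj a (q k) ∨ G.Adj x (q k)) (r : Fin 3 → V → ℕ)
    (hr : Realizer (G.map (contr {a, x} a)) (S \ {x}) r)
    (h0 : ∀ z ∈ S \ {x}, z ≠ a → r 0 z < r 0 a)
    (h12 : ∀ z ∈ S \ {x}, z ≠ a → r 1 a < r 1 z ∧ r 2 a < r 2 z)
    (hmono : ∀ k < m, r 1 (q (k + 1)) < r 1 (q k) ∧ r 2 (q k) < r 2 (q (k + 1))) :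
    ∃ r' : Fin 3 → V → ℕ, Realizer G S r' ∧ (∀ z ∈ S, z ≠ a → r' 0 z < r' 0 a) ∧
      (∀ z ∈ S, z ≠ a → r' 1 a < r' 1 z ∧ r' 2 a < r' 2 z) ∧
      (∀ k < m, r' 1 (q (k + 1)) < r' 1 (q k) ∧ r' 2 (q k) < r' 2 (q (k + 1))) ∧
      (r' 1 x < r' 1 (q i) ∧ r' 2 (q i) < r' 2 x) ∧
      (r' 1 (q j) < r' 1 x ∧ r' 2 x < r' 2 (q j)) := by
  classical
  have hmono' : ∀ k l, k ≤ l → l ≤ m →
      r 1 (q l) + (l - k) ≤ r 1 (q k) ∧ r 2 (q k) + (l - k) ≤ r 2 (q l) := by
    intro k l hkl hl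
    induction l, hkl using Nat.le_induction with
    | base => simp
    | succ l hkl ih =>
      have := ih (by omega)
      have := hmono l (by omega)
      omega
  have hqS : ∀ k ≤ m, q k ∈ S \ {x} := fun k hk =>
    ⟨hS (by rcases hall k hk with h | h <;> exact h.mem_support_right), hqx k hk⟩
  obtain ⟨r', hz, hx0, hx1, hx2⟩ : ∃ r' : Fin 3 → V → ℕ,
      (∀ t z, z ≠ x → r' t z = 2 * r t z + 1) ∧ r' 0 x = 2 * r 0 a ∧
        r' 1 x = 2 * r 1 (q j) + 2 ∧ r' 2 x = 2 * r 2 (q i) + 2 :=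
    ⟨fun t z => if z = x then ![2 * r 0 a, 2 * r 1 (q j) + 2, 2 * r 2 (q i) + 2] t
      else 2 * r t z + 1, fun t z hz => if_neg hz, by simp, by simp, by simp⟩
  have hev : ∀ t, ∃ n, r' t x = 2 * n := fun t => by
    fin_cases t
    exacts [⟨_, hx0⟩, ⟨r 1 (q j) + 1, hx1⟩, ⟨r 2 (q i) + 1, hx2⟩]
  have hi : i ≤ m := by omega
  have hai := h12 _ (hqS i hi) (hqa i hi)
  have haj := h12 _ (hqS j hj) (hqa j hj)
  have hmij := hmono' i j hij.le hj
  have k0 : ∀ z ∈ S, z ≠ a → r' 0 z < r' 0 a := by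
    intro z hzS hza
    rw [hz 0 a hax.ne]
    by_cases hzx : z = x
    · rw [hzx, hx0]; omega
    · have := h0 z ⟨hzS, hzx⟩ hza
      rw [hz 0 z hzx]; omega
  have k0' : ∀ z ∈ S, z ≠ a → z ≠ x → r' 0 z < r' 0 x := by
    intro z hzS hza hzx
    have := h0 z ⟨hzS, hzx⟩ hza
    rw [hz 0 z hzx, hx0]; omega
  have k12 : ∀ z ∈ S, z ≠ a → r' 1 a < r' 1 z ∧ r' 2 a < r' 2 z := by
    intro z hzS hza
    rw [hz 1 a hax.ne, hz 2 a hax.ne]
    by_cases hzx : z = x
    · rw [hzx, hx1, hx2]; omega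
    · have := h12 z ⟨hzS, hzx⟩ hza
      rw [hz 1 z hzx, hz 2 z hzx]; omega
  have kx : ∀ v, G.Adj a v → v ≠ x → ∃ t, r' t a < r' t x ∧ r' t v < r' t x := by
    intro v hv hvx
    have hx12 := k12 x (hS hax.mem_support_right) hax.ne'
    rcases hA v hv with e | ⟨k, hk, h1 | h1, rfl⟩
    · exact absurd e hvx
    · have := hmono' k i h1 hi
      exact ⟨2, hx12.2, by rw [hz 2 _ hvx, hx2]; omega⟩
    · have := hmono' j k h1 hk
      exact ⟨1, hx12.1, by rw [hz 1 _ hvx, hx1]; omega⟩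
  have kz : ∀ z ∈ S, z ≠ a → z ≠ x → ∀ k, i ≤ k → k ≤ j → z ≠ q k →
      ∃ t, r' t x < r' t z ∧ r' t (q k) < r' t z ∧ r' t a < r' t z := by
    intro z hzS hza hzx k h1 h2 hzk
    have hk : k ≤ m := by omega
    have hadj : (G.map (contr {a, x} a)).Adj a (q k) :=
      (sch_adj hax.ne).2 ⟨(hqa k hk).symm, hax.ne, hqx k hk, by
        rcases hall k hk with h | h
        exacts [Or.inl h, Or.inr (Or.inl ⟨rfl, h⟩)]⟩
    obtain ⟨t, ht1, ht2⟩ := hr.2 _ _ z hadj ⟨hzS, hzx⟩ hza hzk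
    have e0 := h0 z ⟨hzS, hzx⟩ hza
    have e1 := hmono' i k h1 hk
    have e2 := hmono' k j h2 hj
    refine ⟨t, ?_, by rw [hz _ _ hzx, hz _ _ (hqx k hk)]; omega,
      by rw [hz _ _ hzx, hz _ _ hax.ne]; omega⟩
    rw [hz _ _ hzx]
    have ht : t = 0 ∨ t = 1 ∨ t = 2 := by omega
    rcases ht with rfl | rfl | rfl
    · omega
    · rw [hx1]; omega
    · rw [hx2]; omega
  have kz' : ∀ z ∈ S, z ≠ a → z ≠ x → ∀ v, G.Adj x v → z ≠ v →
      ∃ t, r' t x < r' t z ∧ r' t v < r' t z := by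
    intro z hzS hza hzx v hv hzv
    rcases hX v hv with rfl | ⟨k, h1, h2, rfl⟩
    · by_cases hzi : z = q i
      · obtain ⟨t, h1, -, h2⟩ := kz z hzS hza hzx j hij.le le_rfl fun e => by
          have := hinj i j hi hj (hzi.symm.trans e)
          omega
        exact ⟨t, h1, h2⟩
      · obtain ⟨t, h1, -, h2⟩ := kz z hzS hza hzx i le_rfl hij.le hzi
        exact ⟨t, h1, h2⟩
    · obtain ⟨t, h1, h2, -⟩ := kz z hzS hza hzx k h1 h2 hzv
      exact ⟨t, h1, h2⟩
  refine ⟨r', ⟨fun t y hy z hz' e => ?_, fun u v z huv hzS hzu hzv => ?_⟩, k0, k12,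
    fun k hk => ?_, ?_, ?_⟩
  · obtain ⟨n, hn⟩ := hev t
    by_cases hyx : y = x <;> by_cases hzx : z = x
    · rw [hyx, hzx]
    · rw [hyx, hn, hz t z hzx] at e; omega
    · rw [hzx, hn, hz t y hyx] at e; omega
    · rw [hz t y hyx, hz t z hzx] at e
      exact hr.1 t ⟨hy, hyx⟩ ⟨hz', hzx⟩ (by omega)
  · have huS := hS huv.mem_support_left
    have hvS := hS huv.mem_support_right
    by_cases hza : z = a
    · subst hza
      exact ⟨0, k0 u huS hzu.symm, k0 v hvS hzv.symm⟩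
    by_cases hzx : z = x
    · subst hzx
      by_cases hua : u = a
      · subst hua
        exact kx v huv hzv.symm
      by_cases hva : v = a
      · subst hva
        obtain ⟨t, h1, h2⟩ := kx u huv.symm hzu.symm
        exact ⟨t, h2, h1⟩
      exact ⟨0, k0' u huS hua hzu.symm, k0' v hvS hva hzv.symm⟩
    by_cases hux : u = x
    · subst hux
      exact kz' z hzS hza hzx v huv hzv
    by_cases hvx : v = x
    · subst hvx
      obtain ⟨t, h1, h2⟩ := kz' z hzS hza hzx u huv.symm hzu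
      exact ⟨t, h2, h1⟩
    obtain ⟨t, h1, h2⟩ := hr.2 u v z ((sch_adj hax.ne).2 ⟨huv.ne, hux, hvx, Or.inl huv⟩)
      ⟨hzS, hzx⟩ hzu hzv
    exact ⟨t, by rw [hz _ _ hux, hz _ _ hzx]; omega, by rw [hz _ _ hvx, hz _ _ hzx]; omega⟩
  · have := hmono k hk
    rw [hz _ _ (hqx k hk.le), hz _ _ (hqx (k + 1) hk), hz _ _ (hqx k hk.le),
      hz _ _ (hqx (k + 1) hk)]
    omega
  · rw [hz _ _ (hqx i hi), hz _ _ (hqx i hi), hx1, hx2]; omega
  · rw [hz _ _ (hqx j hj), hz _ _ (hqx j hj), hx1, hx2]; omega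

/-- The triangle. -/
private theorem sch_base (h : MaxOn G S) {a b c : V} (ha : a ∈ S) (hbc : b ≠ c)
    (hN : ∀ z, G.Adj a z ↔ z = b ∨ z = c) :
    ∃ r : Fin 3 → V → ℕ, Realizer G S r ∧ (∀ z ∈ S, z ≠ a → r 0 z < r 0 a) ∧
      (∀ z ∈ S, z ≠ a → r 1 a < r 1 z ∧ r 2 a < r 2 z) ∧ r 1 c < r 1 b ∧ r 2 b < r 2 c := by
  classical
  have hab : a ≠ b := ((hN b).2 (Or.inl rfl)).ne
  have hac : a ≠ c := ((hN c).2 (Or.inr rfl)).ne
  have h4 : S.ncard ≤ 4 := by
    by_contra hc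
    obtain ⟨C, hC⟩ := h.exists_link (by omega) ha
    have h1 : G.neighborSet a = {b, c} := Set.ext fun z => hN z
    have h2 := C.ncard_verts
    rw [hC, h1, Set.ncard_pair hbc] at h2
    have := C.three_le
    omega
  have hS : ∀ z ∈ S, z = a ∨ z = b ∨ z = c := fun z hz => by
    by_cases hza : z = a
    · exact Or.inl hza
    · exact Or.inr ((hN z).1 (h.adj_of_ncard_le h4 ha hz (Ne.symm hza)))
  obtain ⟨r, a0, a1, a2, b0, b1, b2, c0, c1, c2⟩ : ∃ r : Fin 3 → V → ℕ,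
      r 0 a = 2 ∧ r 1 a = 0 ∧ r 2 a = 0 ∧ r 0 b = 0 ∧ r 1 b = 2 ∧ r 2 b = 1 ∧
        r 0 c = 1 ∧ r 1 c = 1 ∧ r 2 c = 2 :=
    ⟨fun t z => if z = a then ![2, 0, 0] t else if z = b then ![0, 2, 1] t else ![1, 1, 2] t,
      by simp [hab.symm, hac.symm, hbc.symm]⟩
  refine ⟨r, ⟨fun t y hy z hz e => ?_, fun u v z huv hz hzu hzv => ?_⟩, fun z hz hza => ?_,
    fun z hz hza => ?_, by omega, by omega⟩
  · have ht : t = 0 ∨ t = 1 ∨ t = 2 := by omega
    rcases ht with rfl | rfl | rfl <;> rcases hS y hy with rfl | rfl | rfl <;>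
      rcases hS z hz with rfl | rfl | rfl <;> first | rfl | omega
  · have hu := hS u (h.2.1 huv.mem_support_left)
    have hv := hS v (h.2.1 huv.mem_support_right)
    rcases hS z hz with rfl | rfl | rfl
    · refine ⟨0, ?_, ?_⟩
      · rcases hu with rfl | rfl | rfl <;> first | exact absurd rfl hzu | omega
      · rcases hv with rfl | rfl | rfl <;> first | exact absurd rfl hzv | omega
    · refine ⟨1, ?_, ?_⟩
      · rcases hu with rfl | rfl | rfl <;> first | exact absurd rfl hzu | omega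
      · rcases hv with rfl | rfl | rfl <;> first | exact absurd rfl hzv | omega
    · refine ⟨2, ?_, ?_⟩
      · rcases hu with rfl | rfl | rfl <;> first | exact absurd rfl hzu | omega
      · rcases hv with rfl | rfl | rfl <;> first | exact absurd rfl hzv | omega
  · rcases hS z hz with rfl | rfl | rfl <;> first | exact absurd rfl hza | omega
  · rcases hS z hz with rfl | rfl | rfl <;> first | exact absurd rfl hza | omega

/-- Schnyder's induction: `q 0, …, q m` lists the neighbours of `a` along its link. -/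
theorem MaxOn.exists_realizer_aux (h : MaxOn G S) {a : V} (ha : a ∈ S) (q : ℕ → V) (m : ℕ)
    (hm : 1 ≤ m) (hinj : ∀ i j, i ≤ m → j ≤ m → q i = q j → i = j)
    (hadj : ∀ i < m, G.Adj (q i) (q (i + 1))) (hlast : G.Adj (q m) (q 0))
    (hN : G.neighborSet a = q '' Set.Iic m) :
    ∃ r : Fin 3 → V → ℕ, Realizer G S r ∧ (∀ z ∈ S, z ≠ a → r 0 z < r 0 a) ∧
      (∀ z ∈ S, z ≠ a → r 1 a < r 1 z ∧ r 2 a < r 2 z) ∧
      ∀ i < m, r 1 (q (i + 1)) < r 1 (q i) ∧ r 2 (q i) < r 2 (q (i + 1)) := by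
  classical
  induction hn : S.ncard using Nat.strong_induction_on generalizing G S q m with
  | _ n ih =>
  have hNa : ∀ z, G.Adj a z ↔ ∃ i ≤ m, q i = z := fun z => Set.ext_iff.1 hN z
  have haq : ∀ i ≤ m, G.Adj a (q i) := fun i hi => (hNa _).2 ⟨i, hi, rfl⟩
  by_cases hm1 : m = 1
  · subst hm1
    obtain ⟨r, h1, h2, h3, h4⟩ := sch_base h (b := q 0) (c := q 1) ha hlast.ne' fun z => by
      rw [hNa]
      constructor
      · rintro ⟨i, hi, rfl⟩
        rcases Nat.le_one_iff_eq_zero_or_eq_one.1 hi with rfl | rfl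
        exacts [Or.inl rfl, Or.inr rfl]
      · rintro (rfl | rfl)
        exacts [⟨0, by omega, rfl⟩, ⟨1, le_rfl, rfl⟩]
    refine ⟨r, h1, h2, h3, fun i hi => ?_⟩
    obtain rfl : i = 0 := by omega
    exact h4
  have hm2 : 2 ≤ m := by omega
  have h4 : 4 ≤ S.ncard := by
    have h1 : insert a (G.neighborSet a) ⊆ S := by
      rintro z (rfl | hz)
      exacts [ha, h.2.1 (Adj.mem_support_right hz)]
    have h2 := Set.ncard_le_ncard h1
    rw [Set.ncard_insert_of_notMem (by simp), hN,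
      Set.InjOn.ncard_image (s := Set.Iic m) (fun i hi j hj e => hinj i j hi hj e)] at h2
    simp only [Set.ncard_Iic_nat] at h2
    omega
  obtain ⟨i, hi, hch⟩ := sch_chordless h.1 q m hm2 hinj hadj hlast haq
  have hax := haq (i + 1) (by omega)
  have hxS : q (i + 1) ∈ S := h.2.1 hax.mem_support_right
  have hcommon : ∀ z, G.Adj a z → G.Adj (q (i + 1)) z → z = q i ∨ z = q (i + 2) := by
    intro z h1 h2
    obtain ⟨l, hl, rfl⟩ := (hNa z).1 h1
    rcases hch l hl h2 with rfl | rfl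
    exacts [Or.inl rfl, Or.inr rfl]
  obtain ⟨p, s, hs, hp0, hps, hpinj, hpadj, hpN, hpa⟩ := sch_link h h4 hxS hax.symm hcommon
  have hxp : ∀ t ≤ s, G.Adj (q (i + 1)) (p t) := fun t ht => (hpN _).2 (Or.inr ⟨t, ht, rfl⟩)
  have hpq : ∀ t, 0 < t → t < s → ∀ l ≤ m, p t ≠ q l := by
    intro t h1 h2 l hl e
    rcases hcommon (p t) (e ▸ haq l hl) (hxp t h2.le) with e' | e'
    · have := hpinj t 0 h2.le (by omega) (e'.trans hp0.symm)
      omega
    · have := hpinj t s h2.le le_rfl (e'.trans hps.symm)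
      omega
  obtain ⟨q', hA, hB, hC⟩ : ∃ q' : ℕ → V, (∀ k ≤ i, q' k = q k) ∧
      (∀ k, i ≤ k → k ≤ i + s → q' k = p (k - i)) ∧ ∀ k, i + s ≤ k → q' k = q (k + 2 - s) := by
    refine ⟨fun k => if k ≤ i then q k else if k ≤ i + s then p (k - i) else q (k + 2 - s),
      fun k hk => if_pos hk, fun k h1 h2 => ?_, fun k hk => ?_⟩
    · by_cases h3 : k ≤ i
      · obtain rfl : k = i := by omega
        simp [hp0]
      · simp only [if_neg h3, if_pos h2]
    · have h3 : ¬ k ≤ i := by omega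
      by_cases h4 : k ≤ i + s
      · obtain rfl : k = i + s := by omega
        simp only [if_neg h3, if_pos h4, Nat.add_sub_cancel_left, hps]
        congr 1
        omega
      · simp only [if_neg h3, if_neg h4]
  have hcl : ∀ k, (k ≤ i ∧ q' k = q k) ∨ (i < k ∧ k < i + s ∧ q' k = p (k - i)) ∨
      (i + s ≤ k ∧ q' k = q (k + 2 - s)) := by
    intro k
    rcases le_or_gt k i with h1 | h1
    · exact Or.inl ⟨h1, hA k h1⟩
    rcases lt_or_ge k (i + s) with h2 | h2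
    · exact Or.inr (Or.inl ⟨h1, h2, hB k h1.le h2.le⟩)
    · exact Or.inr (Or.inr ⟨h2, hC k h2⟩)
  have hinj' : ∀ k l, k ≤ m + s - 2 → l ≤ m + s - 2 → q' k = q' l → k = l := by
    intro k l hk hl e
    rcases hcl k with ⟨h1, e1⟩ | ⟨h1, h1', e1⟩ | ⟨h1, e1⟩ <;>
      rcases hcl l with ⟨h2, e2⟩ | ⟨h2, h2', e2⟩ | ⟨h2, e2⟩ <;> rw [e1, e2] at e
    · exact hinj _ _ (by omega) (by omega) e
    · exact absurd e.symm (hpq _ (by omega) (by omega) _ (by omega))
    · have := hinj _ _ (by omega) (by omega) e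
      omega
    · exact absurd e (hpq _ (by omega) (by omega) _ (by omega))
    · have := hpinj _ _ (by omega) (by omega) e
      omega
    · exact absurd e (hpq _ (by omega) (by omega) _ (by omega))
    · have := hinj _ _ (by omega) (by omega) e
      omega
    · exact absurd e.symm (hpq _ (by omega) (by omega) _ (by omega))
    · have := hinj _ _ (by omega) (by omega) e
      omega
  have hadj' : ∀ k < m + s - 2, G.Adj (q' k) (q' (k + 1)) := by
    intro k hk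
    rcases lt_or_ge k i with h1 | h1
    · rw [hA k h1.le, hA (k + 1) h1]
      exact hadj k (by omega)
    rcases lt_or_ge k (i + s) with h2 | h2
    · rw [hB k h1 h2.le, hB (k + 1) (by omega) h2, show k + 1 - i = k - i + 1 by omega]
      exact hpadj _ (by omega)
    · rw [hC k h2, hC (k + 1) (by omega), show k + 1 + 2 - s = k + 2 - s + 1 by omega]
      exact hadj _ (by omega)
  have hlast' : G.Adj (q' (m + s - 2)) (q' 0) := by
    rw [hA 0 (by omega), hC _ (by omega), show m + s - 2 + 2 - s = m by omega]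
    exact hlast
  have hall : ∀ k ≤ m + s - 2, G.Adj a (q' k) ∨ G.Adj (q (i + 1)) (q' k) := by
    intro k hk
    rcases hcl k with ⟨h1, e1⟩ | ⟨h1, h1', e1⟩ | ⟨h1, e1⟩ <;> rw [e1]
    exacts [Or.inl (haq _ (by omega)), Or.inr (hxp _ (by omega)), Or.inl (haq _ (by omega))]
  have hqa : ∀ k ≤ m + s - 2, q' k ≠ a := by
    intro k hk
    rcases hcl k with ⟨h1, e1⟩ | ⟨h1, h1', e1⟩ | ⟨h1, e1⟩ <;> rw [e1]
    exacts [(haq _ (by omega)).ne', hpa _ (by omega), (haq _ (by omega)).ne']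
  have hqx : ∀ k ≤ m + s - 2, q' k ≠ q (i + 1) := by
    intro k hk
    rcases hcl k with ⟨h1, e1⟩ | ⟨h1, h1', e1⟩ | ⟨h1, e1⟩ <;> rw [e1]
    · intro e
      have := hinj _ _ (by omega) (by omega) e
      omega
    · exact (hxp _ (by omega)).ne'
    · intro e
      have := hinj _ _ (by omega) (by omega) e
      omega
  have hX : ∀ z, G.Adj (q (i + 1)) z → z = a ∨ ∃ k, i ≤ k ∧ k ≤ i + s ∧ q' k = z := by
    intro z hz
    rcases (hpN z).1 hz with e | ⟨t, ht, rfl⟩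
    · exact Or.inl e
    · exact Or.inr ⟨i + t, by omega, by omega, by
        rw [hB _ (by omega) (by omega), Nat.add_sub_cancel_left]⟩
  have hA' : ∀ z, G.Adj a z → z = q (i + 1) ∨
      ∃ k ≤ m + s - 2, (k ≤ i ∨ i + s ≤ k) ∧ q' k = z := by
    intro z hz
    obtain ⟨l, hl, rfl⟩ := (hNa z).1 hz
    rcases lt_trichotomy l (i + 1) with h1 | rfl | h1
    · exact Or.inr ⟨l, by omega, Or.inl (by omega), hA l (by omega)⟩
    · exact Or.inl rfl
    · exact Or.inr ⟨l + s - 2, by omega, Or.inr (by omega), by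
        rw [hC _ (by omega), show l + s - 2 + 2 - s = l by omega]⟩
  have hmax := sch_max h h4 hax q' (m + s - 2) (by omega) hinj' hadj' hlast' (i := i)
    (j := i + s) (by omega) (by omega) hqa hqx hX hA' hall
  have hlift : ∀ u v, G.Adj u v → u ≠ q (i + 1) → v ≠ q (i + 1) →
      (G.map (contr {a, q (i + 1)} a)).Adj u v :=
    fun u v huv hu hv => (sch_adj hax.ne).2 ⟨huv.ne, hu, hv, Or.inl huv⟩
  obtain ⟨r, hr, h0, h12, hmono⟩ := ih (S \ {q (i + 1)}).ncard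
    (hn ▸ Set.ncard_sdiff_singleton_lt_of_mem hxS) hmax ⟨ha, hax.ne⟩ q' (m + s - 2) (by omega)
    hinj' (fun k hk => hlift _ _ (hadj' k hk) (hqx _ (by omega)) (hqx _ (by omega)))
    (hlift _ _ hlast' (hqx _ le_rfl) (hqx _ (by omega)))
    (by
      ext z
      rw [mem_neighborSet, sch_adj hax.ne]
      constructor
      · rintro ⟨h1, -, h2, h3 | ⟨-, h3⟩ | ⟨h3, -⟩⟩
        · rcases hA' z h3 with e | ⟨k, hk, -, e⟩
          exacts [absurd e h2, ⟨k, hk, e⟩]
        · rcases hX z h3 with e | ⟨k, -, hk, e⟩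
          exacts [absurd e.symm h1, ⟨k, show k ≤ m + s - 2 by omega, e⟩]
        · exact absurd h3.symm h1
      · rintro ⟨k, hk, rfl⟩
        refine ⟨(hqa k hk).symm, hax.ne, hqx k hk, ?_⟩
        rcases hall k hk with h | h
        exacts [Or.inl h, Or.inr (Or.inl ⟨rfl, h⟩)]) rfl
  obtain ⟨r', k1, k2, k3, k4, k5, k6⟩ := sch_insert h.2.1 hax q' (m + s - 2) hinj' (i := i)
    (j := i + s) (by omega) (by omega) hqa hqx hX hA' hall r hr h0 h12 hmono
  refine ⟨r', k1, k2, k3, fun k hk => ?_⟩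
  rcases lt_trichotomy k i with h1 | rfl | h1
  · rw [← hA k h1.le, ← hA (k + 1) h1]
    exact k4 k (by omega)
  · rwa [hA k le_rfl] at k5
  rcases eq_or_lt_of_le (show i + 1 ≤ k from h1) with rfl | h2
  · rwa [hC _ le_rfl, show i + s + 2 - s = i + 1 + 1 by omega] at k6
  · have := k4 (k + s - 2) (by omega)
    rwa [hC _ (by omega), hC _ (by omega), show k + s - 2 + 1 + 2 - s = k + 1 by omega,
      show k + s - 2 + 2 - s = k by omega] at this

theorem MaxOn.exists_realizer (h : MaxOn G S) (h3 : 3 ≤ S.ncard) :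
    ∃ r : Fin 3 → V → ℕ, Realizer G S r ∧
      ∀ y ∈ S, ∀ z ∈ S, y ≠ z → ∃ i, r i z < r i y := by
  classical
  suffices H : (∃ r : Fin 3 → V → ℕ, Realizer G S r) ∧ ∀ z ∈ S, ∀ y, ∃ w, G.Adj z w ∧ y ≠ w by
    obtain ⟨⟨r, hr⟩, hdeg⟩ := H
    refine ⟨r, hr, fun y hy z hz hyz => ?_⟩
    obtain ⟨w, hw, hyw⟩ := hdeg z hz y
    obtain ⟨i, hi, -⟩ := hr.2 z w y hw hy hyz hyw
    exact ⟨i, hi⟩
  have two : ∀ z ∈ S, ∃ b c, b ≠ c ∧ G.Adj z b ∧ G.Adj z c := by
    intro z hz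
    by_cases h4 : 4 ≤ S.ncard
    · obtain ⟨C, hC⟩ := h.exists_link h4 hz
      refine ⟨C.c 0, C.c 1, (C.adj 0).ne, ?_, ?_⟩
      · have := C.c_mem_verts 0
        rwa [hC] at this
      · have := C.c_mem_verts 1
        rwa [hC] at this
    · have h1 : 1 < (S \ {z}).ncard := by
        rw [Set.ncard_sdiff_singleton_of_mem hz]; omega
      obtain ⟨b, hb, c, hc, hbc⟩ := (Set.one_lt_ncard (Set.toFinite _)).1 h1
      exact ⟨b, c, hbc, h.adj_of_ncard_le (by omega) hz hb.1 (Ne.symm hb.2),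
        h.adj_of_ncard_le (by omega) hz hc.1 (Ne.symm hc.2)⟩
  constructor
  · obtain ⟨a, ha⟩ : S.Nonempty := Set.nonempty_of_ncard_ne_zero (by omega)
    by_cases h4 : 4 ≤ S.ncard
    · obtain ⟨C, hC⟩ := h.exists_link h4 ha
      have := C.three_le
      obtain ⟨r, hr, -⟩ := h.exists_realizer_aux ha C.c (C.n - 1) (by omega)
        (fun i j hi hj => C.inj i j (by omega) (by omega)) (fun i _ => C.adj i)
        (by simpa using (sch_adj_wrap C 0).symm)
        (by rw [← hC, C.verts_eq_arc 0, Cyc.arc]; congr 1; ext k; simp)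
      exact ⟨r, hr⟩
    · obtain ⟨b, c, hbc, hb, hc⟩ := two a ha
      obtain ⟨r, hr, -⟩ := sch_base h ha hbc fun z => ⟨fun hz => by
        by_contra hne
        rw [not_or] at hne
        have h1 : ({a, b, c, z} : Set V) ⊆ S := by
          rintro w (rfl | rfl | rfl | rfl)
          exacts [ha, h.2.1 hb.mem_support_right, h.2.1 hc.mem_support_right,
            h.2.1 hz.mem_support_right]
        have h2 := Set.ncard_le_ncard h1
        rw [Set.ncard_insert_of_notMem (by simp [hb.ne, hc.ne, hz.ne]),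
          Set.ncard_insert_of_notMem (by simp [hbc, Ne.symm hne.1]),
          Set.ncard_pair (Ne.symm hne.2)] at h2
        omega, by rintro (rfl | rfl); exacts [hb, hc]⟩
      exact ⟨r, hr⟩
  · intro z hz y
    obtain ⟨b, c, hbc, hb, hc⟩ := two z hz
    by_cases hy : y = b
    · exact ⟨c, hc, hy ▸ hbc⟩
    · exact ⟨b, hb, hy⟩

end Pool.Agent.Lib.Common.Pl
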