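import Pool.Agent.Lib.Common.Planar.Menger

/-! From many rows crossed in order by many columns to a grid minor. -/

namespace Pool.Agent.Lib.Common.Pl

open SimpleGraph

/-- `h` disjoint paths (rows) and `d` disjoint connected sets (columns); every column meets every
row, and along every row the columns appear in order. -/
def Seg {V : Type} (G : SimpleGraph V) (h d : ℕ) : Prop :=
  ∃ (s t : Fin h → V) (p : ∀ i, G.Walk (s i) (t i)) (Q : Fin d → Set V),
    (∀ i, (p i).IsPath) ∧ (∀ i j, i ≠ j → ∀ x ∈ (p i).support, x ∉ (p j).support) ∧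
    (∀ n, ConnSet G (Q n)) ∧ (∀ n n', n ≠ n' → Disjoint (Q n) (Q n')) ∧
    (∀ n i, ∃ x ∈ (p i).support, x ∈ Q n) ∧
    ∀ i n n', n < n' → ∀ a ≤ (p i).length, ∀ b ≤ (p i).length,
      (p i).getVert a ∈ Q n → (p i).getVert b ∈ Q n' → a < b

/-- Cells `C i m` in rows `i` and columns `m < N`, with enlarged cells `E i m` realizing the
edges of the pattern `Γ` in every column. -/
structure Cells {V : Type} (G : SimpleGraph V) {ι : Type} (Γ : SimpleGraph ι) (N : ℕ) where
  C : ι → ℕ → Set V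
  E : ι → ℕ → Set V
  D : ℕ → Set V
  connC : ∀ i m, m < N → ConnSet G (C i m)
  connE : ∀ i m, m < N → ConnSet G (E i m)
  subE : ∀ i m, m < N → C i m ⊆ E i m
  subD : ∀ i m, m < N → E i m ⊆ C i m ∪ D m
  disjC : ∀ i m j m' v, m < N → m' < N → v ∈ C i m → v ∈ C j m' → i = j ∧ m = m'
  disjD : ∀ m m' v, m < N → m' < N → v ∈ D m → v ∈ D m' → m = m'
  disjCD : ∀ i m m' v, m < N → m' < N → v ∈ C i m → v ∉ D m'
  hor : ∀ i m, m + 1 < N → SAdj G (C i m) (C i (m + 1))
  ver : ∀ i j m, m < N → Γ.Adj i j → SAdj G (E i m) (C j m)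

section

variable {V : Type} {G : SimpleGraph V}

theorem connSet_chain (C : ℕ → Set V) (lo n : ℕ)
    (hC : ∀ m, lo ≤ m → m ≤ lo + n → ConnSet G (C m))
    (hadj : ∀ m, lo ≤ m → m + 1 ≤ lo + n → SAdj G (C m) (C (m + 1))) :
    ConnSet G {v | ∃ m, lo ≤ m ∧ m ≤ lo + n ∧ v ∈ C m} := by
  induction n with
  | zero =>
    have : {v | ∃ m, lo ≤ m ∧ m ≤ lo + 0 ∧ v ∈ C m} = C lo := by
      ext v
      constructor
      · rintro ⟨m, h1, h2, h3⟩
        obtain rfl : m = lo := by omega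
        exact h3
      · exact fun h => ⟨lo, le_rfl, le_rfl, h⟩
    rw [this]
    exact hC lo le_rfl (by omega)
  | succ n ih =>
    have h1 := ih (fun m h1 h2 => hC m h1 (by omega)) (fun m h1 h2 => hadj m h1 (by omega))
    have h2 := hC (lo + n + 1) (by omega) (by omega)
    have h3 : SAdj G {v | ∃ m, lo ≤ m ∧ m ≤ lo + n ∧ v ∈ C m} (C (lo + n + 1)) :=
      (hadj (lo + n) (by omega) (by omega)).mono
        (fun v hv => ⟨lo + n, by omega, le_rfl, hv⟩) le_rfl
    have : {v | ∃ m, lo ≤ m ∧ m ≤ lo + (n + 1) ∧ v ∈ C m} =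
        {v | ∃ m, lo ≤ m ∧ m ≤ lo + n ∧ v ∈ C m} ∪ C (lo + n + 1) := by
      ext v
      constructor
      · rintro ⟨m, k1, k2, k3⟩
        by_cases hm : m ≤ lo + n
        · exact Or.inl ⟨m, k1, hm, k3⟩
        · obtain rfl : m = lo + n + 1 := by omega
          exact Or.inr k3
      · rintro (⟨m, k1, k2, k3⟩ | h)
        · exact ⟨m, k1, by omega, k3⟩
        · exact ⟨lo + n + 1, by omega, by omega, h⟩
    rw [this]
    exact h1.union_of_sAdj h2 h3

variable {ι : Type} {Γ : SimpleGraph ι} {N : ℕ}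

/-- In a planar graph, a pattern seen in three columns has no vertex with three neighbours. -/
theorem Cells.not_planar (K : Cells G Γ N) (hN : 3 ≤ N) (i₀ : ι) (j : Fin 3 → ι)
    (hj : Function.Injective j) (hadj : ∀ k, Γ.Adj i₀ (j k)) : ¬ Planar G := by
  refine not_planar_of_K33 (fun k => {v | ∃ m, 0 ≤ m ∧ m ≤ 0 + 2 ∧ v ∈ K.C (j k) m})
    (fun m => K.E i₀ m) (fun k => ?_) (fun m => K.connE _ _ (by omega)) ?_ ?_ ?_ ?_
  · exact connSet_chain _ 0 2 (fun m _ h => K.connC _ _ (by omega))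
      fun m _ h => K.hor _ _ (by omega)
  · intro x y hxy
    rw [Set.disjoint_left]
    rintro v ⟨m, -, h1, h2⟩ ⟨m', -, h3, h4⟩
    exact hxy.ne (hj (K.disjC _ _ _ _ v (by omega) (by omega) h2 h4).1)
  · intro x y hxy
    rw [Set.disjoint_left]
    intro v h1 h2
    have hx : (x : ℕ) < N := by omega
    have hy : (y : ℕ) < N := by omega
    have hne : (x : ℕ) ≠ y := fun e => hxy.ne (Fin.ext e)
    rcases K.subD _ _ hx h1 with h1 | h1 <;> rcases K.subD _ _ hy h2 with h2 | h2
    · exact hne (K.disjC _ _ _ _ v hx hy h1 h2).2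
    · exact K.disjCD _ _ _ v hx hy h1 h2
    · exact K.disjCD _ _ _ v hy hx h2 h1
    · exact hne (K.disjD _ _ v hx hy h1 h2)
  · intro x y
    rw [Set.disjoint_left]
    rintro v ⟨m, -, h1, h2⟩ h3
    have hy : (y : ℕ) < N := by omega
    rcases K.subD _ _ hy h3 with h3 | h3
    · exact (hadj x).ne (K.disjC _ _ _ _ v hy (by omega) h3 h2).1
    · exact K.disjCD _ _ _ v (by omega) hy h2 h3
  · intro x y
    have hy : (y : ℕ) < N := by omega
    exact (K.ver _ _ _ hy (hadj x)).symm.mono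
      (fun v hv => ⟨y, Nat.zero_le _, by omega, hv⟩) le_rfl

/-- A path on `r` vertices in the pattern, seen in `r * r` columns, gives a grid minor. -/
theorem Cells.grid (K : Cells G Γ N) (r : ℕ) (hN : r * r ≤ N) (ρ : ℕ → ι)
    (hρ : ∀ a < r, ∀ b < r, ρ a = ρ b → a = b)
    (hadj : ∀ a, a + 1 < r → Γ.Adj (ρ a) (ρ (a + 1))) : Grid G r := by
  have hlt : ∀ c < r, ∀ m, m < c * r + r → m < N := by
    intro c hc m hm
    have : c * r + r ≤ r * r := by
      have := Nat.mul_le_mul_right r (show c + 1 ≤ r from hc)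
      rwa [Nat.add_mul, Nat.one_mul] at this
    omega
  have hblock : ∀ c c' m, c * r ≤ m → m < c * r + r → c' * r ≤ m → m < c' * r + r → c = c' := by
    intro c c' m h1 h2 h3 h4
    by_contra hne
    rcases Nat.lt_or_gt_of_ne hne with h | h
    · have := Nat.mul_le_mul_right r (show c + 1 ≤ c' from h)
      rw [Nat.add_mul, Nat.one_mul] at this
      omega
    · have := Nat.mul_le_mul_right r (show c' + 1 ≤ c from h)
      rw [Nat.add_mul, Nat.one_mul] at this
      omega
  refine ⟨fun a c => {v | ∃ m, c * r ≤ m ∧ m ≤ c * r + (r - 1) ∧ v ∈ K.C (ρ a) m} ∪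
    K.E (ρ a) (c * r + a), ?_, ?_, ?_, ?_⟩
  · intro a ha c hc
    refine ConnSet.union (connSet_chain _ _ _ (fun m _ h => K.connC _ _ (hlt c hc _ (by omega)))
      fun m _ h => K.hor _ _ (hlt c hc _ (by omega))) (K.connE _ _ (hlt c hc _ (by omega))) ?_
    obtain ⟨z, hz⟩ := (K.connC (ρ a) (c * r + a) (hlt c hc _ (by omega))).1
    exact ⟨z, ⟨c * r + a, by omega, by omega, hz⟩, K.subE _ _ (hlt c hc _ (by omega)) hz⟩
  · intro a ha c hc a' ha' c' hc' hne
    have key : ∀ a < r, ∀ c < r, ∀ v,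
        v ∈ {v | ∃ m, c * r ≤ m ∧ m ≤ c * r + (r - 1) ∧ v ∈ K.C (ρ a) m} ∪
          K.E (ρ a) (c * r + a) →
        (∃ m, c * r ≤ m ∧ m < c * r + r ∧ v ∈ K.C (ρ a) m) ∨ v ∈ K.D (c * r + a) := by
      rintro a ha c hc v (⟨m, h1, h2, h3⟩ | h)
      · exact Or.inl ⟨m, h1, by omega, h3⟩
      · rcases K.subD _ _ (hlt c hc _ (by omega)) h with h | h
        · exact Or.inl ⟨_, by omega, by omega, h⟩
        · exact Or.inr h
    rw [Set.disjoint_left]
    intro v h1 h2
    rcases key a ha c hc v h1 with ⟨m, k1, k2, k3⟩ | k <;>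
      rcases key a' ha' c' hc' v h2 with ⟨m', l1, l2, l3⟩ | l
    · obtain ⟨e1, rfl⟩ := K.disjC _ _ _ _ v (hlt c hc _ k2) (hlt c' hc' _ l2) k3 l3
      exact hne (by rw [hρ a ha a' ha' e1, hblock c c' m k1 k2 l1 l2])
    · exact K.disjCD _ _ _ v (hlt c hc _ k2) (hlt c' hc' _ (by omega)) k3 l
    · exact K.disjCD _ _ _ v (hlt c' hc' _ l2) (hlt c hc _ (by omega)) l3 k
    · have e := K.disjD _ _ v (hlt c hc _ (by omega)) (hlt c' hc' _ (by omega)) k l
      obtain rfl : c = c' := hblock c c' (c * r + a) (by omega) (by omega) (by omega) (by omega)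
      exact hne (by rw [show a = a' by omega])
  · intro a c ha hc
    exact (K.ver _ _ (c * r + a) (hlt c hc _ (by omega)) (hadj a ha)).mono
      Set.subset_union_right fun v hv => Or.inl ⟨_, by omega, by omega, hv⟩
  · intro a c ha hc
    have e : (c + 1) * r = c * r + (r - 1) + 1 := by
      rw [Nat.add_mul, Nat.one_mul]
      omega
    refine (K.hor (ρ a) (c * r + (r - 1)) (hlt (c + 1) hc _ (by omega))).mono
      (fun v hv => Or.inl ⟨_, by omega, le_rfl, hv⟩) fun v hv => Or.inl ⟨_, ?_, ?_, hv⟩ <;> omega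

/-- A large connected graph of maximum degree at most two has a long path. -/
theorem exists_long_path [Fintype ι] (r : ℕ) (hcard : 3 ^ r < Fintype.card ι)
    (hconn : Γ.Preconnected)
    (hdeg : ∀ (i₀ : ι) (j : Fin 3 → ι), Function.Injective j → ¬ ∀ k, Γ.Adj i₀ (j k)) :
    ∃ ρ : ℕ → ι, (∀ a < r, ∀ b < r, ρ a = ρ b → a = b) ∧
      ∀ a, a + 1 < r → Γ.Adj (ρ a) (ρ (a + 1)) := by
  classical
  have hne : Nonempty ι := Fintype.card_pos_iff.1 (lt_of_le_of_lt (Nat.zero_le _) hcard)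
  obtain ⟨v₀⟩ := hne
  have hdeg' : ∀ i, (Γ.neighborFinset i).card ≤ 2 := by
    intro i
    by_contra hcon
    have h3 : 3 ≤ (Γ.neighborFinset i).card := by omega
    obtain ⟨s, hs, hs3⟩ := Finset.exists_subset_card_eq h3
    let e := (Finset.equivFinOfCardEq hs3).symm
    refine hdeg i (fun k => (e k : ι)) (fun a b hab => e.injective (Subtype.ext hab)) fun k => ?_
    exact (Γ.mem_neighborFinset _ _).1 (hs (e k).2)
  have hball : ∀ k, (Finset.univ.filter fun w => Γ.dist v₀ w ≤ k).card ≤ 3 ^ k := by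
    intro k
    induction k with
    | zero =>
      refine le_trans (Finset.card_le_card (t := {v₀}) fun w hw => ?_) (by simp)
      have h0 : Γ.dist v₀ w = 0 := by simpa using hw
      rw [Finset.mem_singleton]
      exact (((hconn v₀ w).dist_eq_zero_iff).1 h0).symm
    | succ k ih =>
      have hsub : (Finset.univ.filter fun w => Γ.dist v₀ w ≤ k + 1) ⊆
          (Finset.univ.filter fun w => Γ.dist v₀ w ≤ k).biUnion
            fun u => insert u (Γ.neighborFinset u) := by
        intro w hw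
        have hw' : Γ.dist v₀ w ≤ k + 1 := by simpa using hw
        rw [Finset.mem_biUnion]
        by_cases hk : Γ.dist v₀ w ≤ k
        · exact ⟨w, by simpa using hk, Finset.mem_insert_self _ _⟩
        · obtain ⟨p, hp⟩ := (hconn v₀ w).exists_walk_length_eq_dist
          have hlen : p.length = k + 1 := by omega
          refine ⟨p.getVert k, ?_, Finset.mem_insert_of_mem ?_⟩
          · have := Γ.dist_le (p.take k)
            rw [Walk.take_length] at this
            simp only [Finset.mem_filter, Finset.mem_univ, true_and]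
            exact this.trans (min_le_left _ _)
          · have := p.adj_getVert_succ (i := k) (by omega)
            rw [← hlen, Walk.getVert_length] at this
            exact (Γ.mem_neighborFinset _ _).2 this
      refine (Finset.card_le_card hsub).trans (Finset.card_biUnion_le.trans ?_)
      refine (Finset.sum_le_card_nsmul _ _ 3 fun u _ => ?_).trans ?_
      · exact (Finset.card_insert_le _ _).trans (by have := hdeg' u; omega)
      · rw [smul_eq_mul, pow_succ]
        exact Nat.mul_le_mul_right _ ih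
  have hfar : ∃ w, r < Γ.dist v₀ w := by
    by_contra hcon
    push Not at hcon
    have := hball r
    rw [Finset.filter_true_of_mem fun w _ => hcon w, Finset.card_univ] at this
    omega
  obtain ⟨w, hw⟩ := hfar
  obtain ⟨p, hp⟩ := (hconn v₀ w).exists_walk_length_eq_dist
  have hpath := p.isPath_of_length_eq_dist hp
  refine ⟨p.getVert, fun a ha b hb hab => ?_, fun a ha => p.adj_getVert_succ (by omega)⟩
  exact hpath.getVert_injOn (by simp only [Set.mem_ofPred_eq]; omega)
    (by simp only [Set.mem_ofPred_eq]; omega) hab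

/-- The pattern of a column: rows joined inside the column by a walk avoiding all rows in its
interior. -/
def pattern (G : SimpleGraph V) (R : ι → Set V) (Q : Set V) : SimpleGraph ι where
  Adj i j := i ≠ j ∧ ∃ x ∈ R i, ∃ y ∈ R j, x ∈ Q ∧ y ∈ Q ∧
    RIn G ((Q \ ⋃ k, R k) ∪ {x, y}) x y
  symm := ⟨fun _ _ ⟨h, x, hx, y, hy, h1, h2, h3⟩ =>
    ⟨h.symm, y, hy, x, hx, h2, h1, by rw [Set.pair_comm]; exact h3.symm⟩⟩
  loopless := ⟨fun _ h => h.1 rfl⟩

theorem pattern_preconnected (R : ι → Set V) (Q : Set V)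
    (hR : ∀ i j v, v ∈ R i → v ∈ R j → i = j) (hQ : ConnSet G Q)
    (hmeet : ∀ i, ∃ x ∈ R i, x ∈ Q) : (pattern G R Q).Preconnected := by
  intro i j
  obtain ⟨x, hx, hxQ⟩ := hmeet i
  obtain ⟨y, hy, hyQ⟩ := hmeet j
  have := (hQ.rIn hxQ hyQ).induction
    (P := fun v => ∃ k, ∃ z ∈ R k, z ∈ Q ∧ (pattern G R Q).Reachable i k ∧
      RIn G (insert z (Q \ ⋃ k, R k)) z v)
    ⟨i, x, hx, hxQ, Reachable.refl _, RIn.refl (Set.mem_insert _ _)⟩ ?_
  · obtain ⟨k, z, hz, -, hr, hin⟩ := this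
    rcases hin.right_mem with rfl | h
    · rwa [hR j k _ hy hz]
    · exact (h.2 (Set.mem_iUnion.2 ⟨j, hy⟩)).elim
  · rintro a b - hb hab ⟨k, z, hz, hzQ, hr, hin⟩
    by_cases hbR : b ∈ ⋃ k, R k
    · obtain ⟨k', hk'⟩ := Set.mem_iUnion.1 hbR
      refine ⟨k', b, hk', hb, ?_, RIn.refl (Set.mem_insert _ _)⟩
      by_cases hkk : k = k'
      · exact hkk ▸ hr
      · refine hr.trans (Adj.reachable ⟨hkk, z, hz, b, hk', hzQ, hb, ?_⟩)
        refine (hin.mono ?_).tail hab (Or.inr (by simp))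
        rintro v (rfl | hv)
        · exact Or.inr (by simp)
        · exact Or.inl hv
    · exact ⟨k, z, hz, hzQ, hr, hin.tail hab (Or.inr ⟨hb, hbR⟩)⟩

/-- The part of `T ∪ D` reachable from `T`. -/
def grow (G : SimpleGraph V) (T D : Set V) : Set V := {v | ∃ z ∈ T, RIn G (T ∪ D) z v}

theorem subset_grow (T D : Set V) : T ⊆ grow G T D :=
  fun v hv => ⟨v, hv, RIn.refl (Or.inl hv)⟩

theorem grow_subset (T D : Set V) : grow G T D ⊆ T ∪ D :=
  fun _ ⟨_, _, h⟩ => h.right_mem

theorem connSet_grow {T : Set V} (D : Set V) (hT : ConnSet G T) : ConnSet G (grow G T D) := by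
  obtain ⟨z, hz⟩ := hT.1
  have : grow G T D = comp G (T ∪ D) z := by
    ext v
    constructor
    · rintro ⟨y, hy, h⟩
      exact ((hT.rIn hz hy).mono Set.subset_union_left).trans h
    · exact fun h => ⟨z, hz, h⟩
  rw [this]
  exact connSet_comp (Or.inl hz)

theorem sAdj_grow {T T' D : Set V} {x y : V} (hx : x ∈ T) (hy : y ∈ T') (hxy : x ≠ y)
    (h : RIn G (D ∪ {x, y}) x y) : SAdj G (grow G T D) T' := by
  obtain ⟨a, b, h1, h2, -, h4⟩ := h.exists_exit (A := {y}ᶜ) hxy (by simp)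
  obtain rfl : b = y := by simpa using h4
  refine ⟨a, ⟨x, hx, h1.mono ?_⟩, b, hy, h2⟩
  rintro v ⟨hv | hv | hv, hv'⟩
  · exact Or.inr hv
  · exact Or.inl (hv ▸ hx)
  · exact (hv' hv).elim

theorem connSet_getVert {s t : V} (p : G.Walk s t) {a b : ℕ} (hab : a < b) (hb : b ≤ p.length) :
    ConnSet G {v | ∃ k, a ≤ k ∧ k < b ∧ p.getVert k = v} := by
  have := connSet_chain (G := G) (fun k => {p.getVert k}) a (b - a - 1)
    (fun m _ _ => connSet_singleton _ _)
    fun m _ h => ⟨_, rfl, _, rfl, p.adj_getVert_succ (by omega)⟩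
  have e : {v | ∃ k, a ≤ k ∧ k < b ∧ p.getVert k = v} =
      {v | ∃ m, a ≤ m ∧ m ≤ a + (b - a - 1) ∧ v ∈ ({p.getVert m} : Set V)} := by
    ext v
    constructor
    · rintro ⟨k, h1, h2, rfl⟩
      exact ⟨k, h1, by omega, rfl⟩
    · rintro ⟨k, h1, h2, h3⟩
      exact ⟨k, h1, by omega, Eq.symm h3⟩
  rw [e]
  exact this

/-- Rows crossed in order by `N + 1` columns with the same pattern give cells. -/
theorem exists_cells (s t : ι → V) (p : ∀ i, G.Walk (s i) (t i)) (Q : ℕ → Set V)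
    (hpath : ∀ i, (p i).IsPath)
    (hdisj : ∀ i j, i ≠ j → ∀ x ∈ (p i).support, x ∉ (p j).support)
    (hQ : ∀ n ≤ N, ∀ n' ≤ N, n ≠ n' → Disjoint (Q n) (Q n'))
    (hmeet : ∀ n ≤ N, ∀ i, ∃ x ∈ (p i).support, x ∈ Q n)
    (hord : ∀ i n n', n < n' → n' ≤ N → ∀ a ≤ (p i).length, ∀ b ≤ (p i).length,
      (p i).getVert a ∈ Q n → (p i).getVert b ∈ Q n' → a < b)
    (hΓ : ∀ n ≤ N, pattern G (fun i => {x | x ∈ (p i).support}) (Q n) = Γ) :
    Nonempty (Cells G Γ N) := by
  classical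
  have hex : ∀ i n, ∃ a, n ≤ N → a ≤ (p i).length ∧ (p i).getVert a ∈ Q n ∧
      ∀ b ≤ (p i).length, (p i).getVert b ∈ Q n → a ≤ b := by
    intro i n
    by_cases hn : n ≤ N
    · have h1 : ∃ a, a ≤ (p i).length ∧ (p i).getVert a ∈ Q n := by
        obtain ⟨x, hx, hxQ⟩ := hmeet n hn i
        obtain ⟨a, rfl, ha⟩ := Walk.mem_support_iff_exists_getVert.1 hx
        exact ⟨a, ha, hxQ⟩
      exact ⟨Nat.find h1, fun _ => ⟨(Nat.find_spec h1).1, (Nat.find_spec h1).2,
        fun b hb hbQ => Nat.find_min' h1 ⟨hb, hbQ⟩⟩⟩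
    · exact ⟨0, fun h => (hn h).elim⟩
  choose f hf using hex
  have hmono : ∀ i n n', n < n' → n' ≤ N → f i n < f i n' := fun i n n' h h' =>
    hord i n n' h h' _ (hf i n (by omega)).1 _ (hf i n' h').1 (hf i n (by omega)).2.1
      (hf i n' h').2.1
  let C : ι → ℕ → Set V := fun i m => {v | ∃ k, f i m ≤ k ∧ k < f i (m + 1) ∧ (p i).getVert k = v}
  let D : ℕ → Set V := fun m => Q m \ ⋃ k, {x | x ∈ (p k).support}
  have hCsup : ∀ i m v, v ∈ C i m → v ∈ (p i).support := by
    rintro i m v ⟨k, -, -, rfl⟩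
    exact (p i).getVert_mem_support k
  have hconnC : ∀ i m, m < N → ConnSet G (C i m) := fun i m hm =>
    connSet_getVert (p i) (hmono i m (m + 1) (by omega) hm) (hf i (m + 1) hm).1
  have hmemC : ∀ i m, m < N → ∀ x ∈ (p i).support, x ∈ Q m → x ∈ C i m := by
    intro i m hm x hx hxQ
    obtain ⟨a, rfl, ha⟩ := Walk.mem_support_iff_exists_getVert.1 hx
    exact ⟨a, (hf i m hm.le).2.2 a ha hxQ,
      hord i m (m + 1) (by omega) hm _ ha _ (hf i (m + 1) hm).1 hxQ (hf i (m + 1) hm).2.1, rfl⟩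
  refine ⟨⟨C, fun i m => grow G (C i m) (D m), D, hconnC,
    fun i m hm => connSet_grow _ (hconnC i m hm), fun i m _ => subset_grow _ _,
    fun i m _ => grow_subset _ _, ?_, ?_, ?_, ?_, ?_⟩⟩
  · intro i m j m' v hm hm' h1 h2
    obtain rfl : i = j := by
      by_contra hij
      exact hdisj i j hij v (hCsup _ _ _ h1) (hCsup _ _ _ h2)
    refine ⟨rfl, ?_⟩
    obtain ⟨k, k1, k2, k3⟩ := h1
    obtain ⟨l, l1, l2, l3⟩ := h2
    have e1 := (hf i (m + 1) hm).1
    have e2 := (hf i (m' + 1) hm').1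
    obtain rfl : k = l := (hpath i).getVert_injOn (by simp only [Set.mem_ofPred_eq]; omega)
      (by simp only [Set.mem_ofPred_eq]; omega) (k3.trans l3.symm)
    by_contra hne
    rcases Nat.lt_or_gt_of_ne hne with h | h
    · rcases Nat.lt_or_eq_of_le (show m + 1 ≤ m' from h) with h | h
      · have := hmono i (m + 1) m' h hm'.le
        omega
      · rw [h] at k2
        omega
    · rcases Nat.lt_or_eq_of_le (show m' + 1 ≤ m from h) with h | h
      · have := hmono i (m' + 1) m h hm.le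
        omega
      · rw [h] at l2
        omega
  · intro m m' v hm hm' h1 h2
    by_contra hne
    exact Set.disjoint_left.1 (hQ m hm.le m' hm'.le hne) h1.1 h2.1
  · intro i m m' v _ _ h1 h2
    exact h2.2 (Set.mem_iUnion.2 ⟨i, hCsup _ _ _ h1⟩)
  · intro i m hm
    have e1 := hmono i m (m + 1) (by omega) (by omega)
    have e2 := hmono i (m + 1) (m + 1 + 1) (by omega) hm
    have e3 := (hf i (m + 1) hm.le).1
    refine ⟨(p i).getVert (f i (m + 1) - 1), ⟨_, by omega, by omega, rfl⟩,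
      (p i).getVert (f i (m + 1)), ⟨_, le_rfl, e2, rfl⟩, ?_⟩
    have := (p i).adj_getVert_succ (i := f i (m + 1) - 1) (by omega)
    rwa [show f i (m + 1) - 1 + 1 = f i (m + 1) by omega] at this
  · intro i j m hm hij
    rw [← hΓ m hm.le] at hij
    obtain ⟨hne, x, hx, y, hy, hxQ, hyQ, hin⟩ := hij
    exact sAdj_grow (hmemC i m hm x hx hxQ) (hmemC j m hm y hy hyQ)
      (fun e => hdisj i j hne x hx (e ▸ hy)) hin

end

theorem grid_of_seg (r : ℕ) : ∃ h d : ℕ, ∀ (V : Type) [Finite V] (G : SimpleGraph V),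
    Planar G → Seg G h d → Grid G r := by
  classical
  have : Fintype (SimpleGraph (Fin (3 ^ r + 1))) := Fintype.ofFinite _
  refine ⟨3 ^ r + 1, Fintype.card (SimpleGraph (Fin (3 ^ r + 1))) * (r * r + 3) + 1, ?_⟩
  rintro V _ G hG ⟨s, t, p, Q, hpath, hdisj, hconn, hQ, hmeet, hord⟩
  obtain ⟨Γ, hΓ⟩ := Fintype.exists_lt_card_fiber_of_mul_lt_card
    (fun n => pattern G (fun i => {x | x ∈ (p i).support}) (Q n)) (n := r * r + 3)
    (by rw [Fintype.card_fin]; omega)
  let e := Finset.orderEmbOfCardLe _ (show r * r + 3 + 1 ≤ _ from hΓ)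
  have he : ∀ k, pattern G (fun i => {x | x ∈ (p i).support}) (Q (e k)) = Γ := fun k =>
    (Finset.mem_filter.1 (Finset.orderEmbOfCardLe_mem _ (show r * r + 3 + 1 ≤ _ from hΓ) k)).2
  let c : ℕ → Fin (r * r + 3 + 1) := fun n => ⟨min n (r * r + 3), by omega⟩
  have hc : ∀ n n', n < n' → n' ≤ r * r + 3 → e (c n) < e (c n') := fun n n' h h' =>
    e.strictMono (show min n (r * r + 3) < min n' (r * r + 3) by omega)
  obtain ⟨K⟩ := exists_cells (N := r * r + 3) (Γ := Γ) s t p (fun n => Q (e (c n))) hpath hdisj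
    (fun n hn n' hn' hne => hQ _ _ (by
      rcases Nat.lt_or_gt_of_ne hne with h | h
      exacts [(hc n n' h hn').ne, (hc n' n h hn).ne']))
    (fun n _ i => hmeet _ i) (fun i n n' h h' => hord i _ _ (hc n n' h h')) fun n _ => he _
  have hpre : Γ.Preconnected := by
    rw [← he (c 0)]
    refine pattern_preconnected _ _ (fun i j v hi hj => ?_) (hconn _) fun i => hmeet _ i
    by_contra hij
    exact hdisj i j hij v hi hj
  obtain ⟨ρ, h1, h2⟩ := exists_long_path r (by rw [Fintype.card_fin]; omega) hpre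
    fun i₀ j hj hadj => K.not_planar (by omega) i₀ j hj hadj hG
  exact K.grid r (by omega) ρ h1 h2

end Pool.Agent.Lib.Common.Pl
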