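import Pool.Agent.Lib.Common.Planar.VK

/-! Gluing van Kampen cochains: sums along a vertex or an edge, vertex splitting. -/

namespace Pool.Agent.Lib.Common.Pl

open SimpleGraph

variable {V : Type} {G G₁ G₂ : SimpleGraph V}

/-- It is enough to give a cochain on the support. -/
theorem isVK_of (a : V → V → ZMod 4) (θ : V → V → V → ZMod 4)
    (ha : ∀ u ∈ G.support, ∀ x ∈ G.support, u ≠ x → 2 * a x u = 2 * a u x + 2)
    (h1 : ∀ u ∈ G.support, ∀ x y, G.Adj x y → u ≠ x → u ≠ y → θ u y x = - θ u x y)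
    (h2 : ∀ u ∈ G.support, ∀ x y, G.Adj x y → u ≠ x → u ≠ y →
      2 * θ u x y = 2 * (a u y - a u x))
    (h3 : ∀ x y u v, G.Adj x y → G.Adj u v → u ≠ x → u ≠ y → v ≠ x → v ≠ y →
      θ u x y + θ y u v - θ v x y - θ x u v = 0) : IsVK G := by
  classical
  have h4 : (4 : ZMod 4) = 0 := rfl
  let a' : V → V → ZMod 4 := fun u x =>
    if u ∈ G.support ∧ x ∈ G.support then a u x else if WellOrderingRel u x then 0 else 1
  refine ⟨⟨a', fun u x y => if u ∈ G.support then θ u x y else a' u y - a' u x, ?_, ?_, ?_, ?_⟩⟩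
  · intro u x hux
    by_cases h : u ∈ G.support ∧ x ∈ G.support
    · simp only [a', if_pos h, if_pos h.symm]
      exact ha u h.1 x h.2 hux
    · have h' : ¬ (x ∈ G.support ∧ u ∈ G.support) := fun k => h k.symm
      simp only [a', if_neg h, if_neg h']
      rcases trichotomous_of WellOrderingRel u x with k | k | k
      · rw [if_pos k, if_neg (asymm_of WellOrderingRel k)]
        ring
      · exact absurd k hux
      · rw [if_pos k, if_neg (asymm_of WellOrderingRel k)]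
        linear_combination (-1) * h4
  · intro u x y hxy hx hy
    by_cases h : u ∈ G.support
    · simp only [if_pos h]
      exact h1 u h x y hxy hx hy
    · simp only [if_neg h]
      ring
  · intro u x y hxy hx hy
    by_cases h : u ∈ G.support
    · simp only [if_pos h, a', if_pos (And.intro h hxy.mem_support_left),
        if_pos (And.intro h hxy.mem_support_right)]
      exact h2 u h x y hxy hx hy
    · simp only [if_neg h]
  · intro x y u v hxy huv k1 k2 k3 k4
    simp only [if_pos hxy.mem_support_left, if_pos hxy.mem_support_right,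
      if_pos huv.mem_support_left, if_pos huv.mem_support_right]
    exact h3 x y u v hxy huv k1 k2 k3 k4

/-- Gluing two partial cochains. -/
theorem isVK_glue (a : V → V → ZMod 4) (Θ₁ Θ₂ : V → V → V → ZMod 4) (S : Set V)
    (hS₁ : G₁.support ⊆ S) (hS₂ : G₂.support ⊆ S)
    (ha : ∀ u ∈ S, ∀ x ∈ S, u ≠ x → 2 * a x u = 2 * a u x + 2)
    (an₁ : ∀ u ∈ S, ∀ x y, G₁.Adj x y → u ≠ x → u ≠ y → Θ₁ u y x = - Θ₁ u x y)
    (an₂ : ∀ u ∈ S, ∀ x y, G₂.Adj x y → u ≠ x → u ≠ y → Θ₂ u y x = - Θ₂ u x y)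
    (pa₁ : ∀ u ∈ S, ∀ x y, G₁.Adj x y → u ≠ x → u ≠ y → 2 * Θ₁ u x y = 2 * (a u y - a u x))
    (pa₂ : ∀ u ∈ S, ∀ x y, G₂.Adj x y → u ≠ x → u ≠ y → 2 * Θ₂ u x y = 2 * (a u y - a u x))
    (hag : ∀ u ∈ S, ∀ x y, G₁.Adj x y → G₂.Adj x y → u ≠ x → u ≠ y → Θ₁ u x y = Θ₂ u x y)
    (s₁₁ : ∀ x y u v, G₁.Adj x y → G₁.Adj u v → u ≠ x → u ≠ y → v ≠ x → v ≠ y →
      Θ₁ u x y + Θ₁ y u v - Θ₁ v x y - Θ₁ x u v = 0)
    (s₂₂ : ∀ x y u v, G₂.Adj x y → G₂.Adj u v → u ≠ x → u ≠ y → v ≠ x → v ≠ y →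
      Θ₂ u x y + Θ₂ y u v - Θ₂ v x y - Θ₂ x u v = 0)
    (s₁₂ : ∀ x y u v, G₁.Adj x y → G₂.Adj u v → u ≠ x → u ≠ y → v ≠ x → v ≠ y →
      Θ₁ u x y + Θ₂ y u v - Θ₁ v x y - Θ₂ x u v = 0) : IsVK (G₁ ⊔ G₂) := by
  classical
  have hS : (G₁ ⊔ G₂).support ⊆ S := by
    rintro u ⟨v, h | h⟩
    exacts [hS₁ h.mem_support_left, hS₂ h.mem_support_left]
  let θ : V → V → V → ZMod 4 := fun u x y => if G₁.Adj x y then Θ₁ u x y else Θ₂ u x y
  have e₁ : ∀ u x y, G₁.Adj x y → θ u x y = Θ₁ u x y := fun u x y h => if_pos h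
  have e₂ : ∀ u ∈ S, ∀ x y, G₂.Adj x y → u ≠ x → u ≠ y → θ u x y = Θ₂ u x y := by
    intro u hu x y h hx hy
    by_cases k : G₁.Adj x y
    · rw [e₁ u x y k, hag u hu x y k h hx hy]
    · exact if_neg k
  refine isVK_of a θ (fun u hu x hx => ha u (hS hu) x (hS hx)) ?_ ?_ ?_
  · rintro u hu x y (h | h) hx hy
    · rw [e₁ u x y h, e₁ u y x h.symm]
      exact an₁ u (hS hu) x y h hx hy
    · rw [e₂ u (hS hu) x y h hx hy, e₂ u (hS hu) y x h.symm hy hx]
      exact an₂ u (hS hu) x y h hx hy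
  · rintro u hu x y (h | h) hx hy
    · rw [e₁ u x y h]
      exact pa₁ u (hS hu) x y h hx hy
    · rw [e₂ u (hS hu) x y h hx hy]
      exact pa₂ u (hS hu) x y h hx hy
  · intro x y u v hxy huv k1 k2 k3 k4
    have mx := hS hxy.mem_support_left
    have my := hS hxy.mem_support_right
    have mu := hS huv.mem_support_left
    have mv := hS huv.mem_support_right
    rcases hxy with h | h <;> rcases huv with h' | h'
    · rw [e₁ u x y h, e₁ v x y h, e₁ y u v h', e₁ x u v h']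
      exact s₁₁ x y u v h h' k1 k2 k3 k4
    · rw [e₁ u x y h, e₁ v x y h, e₂ y my u v h' k2.symm k4.symm, e₂ x mx u v h' k1.symm k3.symm]
      exact s₁₂ x y u v h h' k1 k2 k3 k4
    · rw [e₂ u mu x y h k1 k2, e₂ v mv x y h k3 k4, e₁ y u v h', e₁ x u v h']
      linear_combination (-1) * s₁₂ u v x y h' h k1.symm k3.symm k2.symm k4.symm
    · rw [e₂ u mu x y h k1 k2, e₂ v mv x y h k3 k4, e₂ y my u v h' k2.symm k4.symm,
        e₂ x mx u v h' k1.symm k3.symm]
      exact s₂₂ x y u v h h' k1 k2 k3 k4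

theorem IsVK.sup_one (h₁ : IsVK G₁) (h₂ : IsVK G₂) (a : V)
    (h : G₁.support ∩ G₂.support ⊆ {a}) : IsVK (G₁ ⊔ G₂) := by
  classical
  obtain ⟨T₁⟩ := h₁
  obtain ⟨T₂⟩ := h₂
  have h4 : (4 : ZMod 4) = 0 := rfl
  obtain ⟨A, hA⟩ : ∃ A : Set V, ∀ u, u ∈ A ↔ u ∈ G₁.support ∧ u ≠ a :=
    ⟨{u | u ∈ G₁.support ∧ u ≠ a}, fun _ => Iff.rfl⟩
  obtain ⟨B, hB⟩ : ∃ B : Set V, ∀ u, u ∈ B ↔ u ∈ G₂.support ∧ u ≠ a :=
    ⟨{u | u ∈ G₂.support ∧ u ≠ a}, fun _ => Iff.rfl⟩
  have nB : ∀ u ∈ G₁.support, u ∉ B := fun u hu hb =>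
    ((hB u).1 hb).2 (h ⟨hu, ((hB u).1 hb).1⟩)
  have nA : ∀ u ∈ G₂.support, u ∉ A := fun u hu hb =>
    ((hA u).1 hb).2 (h ⟨((hA u).1 hb).1, hu⟩)
  have aA : a ∉ A := fun k => ((hA a).1 k).2 rfl
  have aB : a ∉ B := fun k => ((hB a).1 k).2 rfl
  have AB : ∀ u ∈ A, u ∉ B := fun u hu => nB u ((hA u).1 hu).1
  have c₁ : ∀ u ∈ G₁.support, u = a ∨ u ∈ A := fun u hu => by
    by_cases k : u = a
    exacts [Or.inl k, Or.inr ((hA u).2 ⟨hu, k⟩)]
  have c₂ : ∀ u ∈ G₂.support, u = a ∨ u ∈ B := fun u hu => by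
    by_cases k : u = a
    exacts [Or.inl k, Or.inr ((hB u).2 ⟨hu, k⟩)]
  have neA : ∀ u ∈ A, a ≠ u := fun u hu k => aA (k ▸ hu)
  have neB : ∀ u ∈ B, a ≠ u := fun u hu k => aB (k ▸ hu)
  obtain ⟨α, α₁, α₂, α₃, α₄⟩ : ∃ α : V → V → ZMod 4,
      (∀ u w, u ∉ B → w ∉ B → α u w = T₁.a u w) ∧
      (∀ u w, u ∉ A → w ∉ A → u ∈ B ∨ w ∈ B → α u w = T₂.a u w) ∧
      (∀ u ∈ A, ∀ w ∈ B, α u w = T₁.a u a + T₂.a a w) ∧
      (∀ u ∈ A, ∀ w ∈ B, α w u = T₁.a u a + T₂.a a w + 1) := by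
    refine ⟨fun u w => if u ∈ A ∧ w ∈ B then T₁.a u a + T₂.a a w
      else if u ∈ B ∧ w ∈ A then T₁.a w a + T₂.a a u + 1
      else if u ∈ B ∨ w ∈ B then T₂.a u w else T₁.a u w, ?_, ?_, ?_, ?_⟩
    · intro u w hu hw
      simp [hu, hw]
    · intro u w hu hw k
      simp only [hu, hw, false_and, and_false, if_false, if_pos k]
    · intro u hu w hw
      simp [hu, hw]
    · intro u hu w hw
      simp [hu, hw, AB u hu]
  obtain ⟨φ₁, φ₁a, φ₁b, φ₁c⟩ : ∃ φ : V → V → ZMod 4, (∀ y, φ a y = T₁.a a y + 1) ∧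
      (∀ x, a ≠ x → φ x a = - (T₁.a a x + 1)) ∧
      (∀ x y, a ≠ x → a ≠ y → φ x y = T₁.θ a x y) := by
    refine ⟨fun x y => if a = x then T₁.a a y + 1 else if a = y then - (T₁.a a x + 1)
      else T₁.θ a x y, ?_, ?_, ?_⟩
    · intro y
      simp
    · intro x hx
      simp [hx]
    · intro x y hx hy
      simp [hx, hy]
  obtain ⟨φ₂, φ₂a, φ₂b, φ₂c⟩ : ∃ φ : V → V → ZMod 4, (∀ y, φ a y = T₂.a a y) ∧
      (∀ x, a ≠ x → φ x a = - T₂.a a x) ∧
      (∀ x y, a ≠ x → a ≠ y → φ x y = T₂.θ a x y) := by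
    refine ⟨fun x y => if a = x then T₂.a a y else if a = y then - T₂.a a x
      else T₂.θ a x y, ?_, ?_, ?_⟩
    · intro y
      simp
    · intro x hx
      simp [hx]
    · intro x y hx hy
      simp [hx, hy]
  refine isVK_glue α (fun u x y => if u ∈ B then φ₁ x y else T₁.θ u x y)
    (fun u x y => if u ∈ A then φ₂ x y else T₂.θ u x y) {u | u = a ∨ u ∈ A ∨ u ∈ B}
    (fun u hu => (c₁ u hu).imp_right Or.inl) (fun u hu => (c₂ u hu).imp_right Or.inr)
    ?_ ?_ ?_ ?_ ?_ ?_ ?_ ?_ ?_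
  · rintro u (rfl | hu | hu) x (rfl | hx | hx) hux
    · exact absurd rfl hux
    · rw [α₁ _ _ aB (AB x hx), α₁ _ _ (AB x hx) aB]
      exact T₁.a_anti _ _ hux
    · rw [α₂ _ _ aA (fun k => AB x k hx) (Or.inr hx), α₂ _ _ (fun k => AB x k hx) aA (Or.inl hx)]
      exact T₂.a_anti _ _ hux
    · rw [α₁ _ _ aB (AB u hu), α₁ _ _ (AB u hu) aB]
      exact T₁.a_anti _ _ hux
    · rw [α₁ _ _ (AB x hx) (AB u hu), α₁ _ _ (AB u hu) (AB x hx)]
      exact T₁.a_anti _ _ hux
    · rw [α₃ u hu x hx, α₄ u hu x hx]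
      ring
    · rw [α₂ _ _ aA (fun k => AB u k hu) (Or.inr hu), α₂ _ _ (fun k => AB u k hu) aA (Or.inl hu)]
      exact T₂.a_anti _ _ hux
    · rw [α₃ x hx u hu, α₄ x hx u hu]
      linear_combination (-1) * h4
    · rw [α₂ _ _ (fun k => AB x k hx) (fun k => AB u k hu) (Or.inr hu),
        α₂ _ _ (fun k => AB u k hu) (fun k => AB x k hx) (Or.inl hu)]
      exact T₂.a_anti _ _ hux
  · intro u _ x y hxy hx hy
    by_cases hu : u ∈ B
    · simp only [if_pos hu]
      by_cases k : a = x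
      · subst k
        rw [φ₁a, φ₁b y hxy.ne]
      · by_cases k' : a = y
        · subst k'
          rw [φ₁a, φ₁b x k, neg_neg]
        · rw [φ₁c x y k k', φ₁c y x k' k]
          exact T₁.θ_anti a x y hxy k k'
    · simp only [if_neg hu]
      exact T₁.θ_anti u x y hxy hx hy
  · intro u _ x y hxy hx hy
    by_cases hu : u ∈ A
    · simp only [if_pos hu]
      by_cases k : a = x
      · subst k
        rw [φ₂a, φ₂b y hxy.ne]
      · by_cases k' : a = y
        · subst k'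
          rw [φ₂a, φ₂b x k, neg_neg]
        · rw [φ₂c x y k k', φ₂c y x k' k]
          exact T₂.θ_anti a x y hxy k k'
    · simp only [if_neg hu]
      exact T₂.θ_anti u x y hxy hx hy
  · intro u _ x y hxy hx hy
    by_cases hu : u ∈ B
    · simp only [if_pos hu]
      have uA : u ∉ A := fun k => AB u k hu
      rcases c₁ x hxy.mem_support_left with rfl | mx <;>
        rcases c₁ y hxy.mem_support_right with rfl | my
      · exact absurd rfl hxy.ne
      · rw [φ₁a, α₄ y my u hu, α₂ _ _ uA aA (Or.inl hu)]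
        linear_combination (-1) * T₁.a_anti _ _ hxy.ne + T₂.a_anti _ _ (neB u hu)
      · rw [φ₁b x hxy.ne', α₄ x mx u hu, α₂ _ _ uA aA (Or.inl hu)]
        linear_combination T₁.a_anti _ _ hxy.ne' - T₂.a_anti _ _ (neB u hu)
      · rw [φ₁c x y (neA x mx) (neA y my), α₄ x mx u hu, α₄ y my u hu]
        linear_combination T₁.parity a x y hxy (neA x mx) (neA y my) +
          T₁.a_anti _ _ (neA x mx) - T₁.a_anti _ _ (neA y my)
    · simp only [if_neg hu]
      rw [α₁ _ _ hu (nB x hxy.mem_support_left), α₁ _ _ hu (nB y hxy.mem_support_right)]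
      exact T₁.parity u x y hxy hx hy
  · intro u hS x y hxy hx hy
    by_cases hu : u ∈ A
    · simp only [if_pos hu]
      rcases c₂ x hxy.mem_support_left with rfl | mx <;>
        rcases c₂ y hxy.mem_support_right with rfl | my
      · exact absurd rfl hxy.ne
      · rw [φ₂a, α₃ u hu y my, α₁ _ _ (AB u hu) aB]
        ring
      · rw [φ₂b x hxy.ne', α₃ u hu x mx, α₁ _ _ (AB u hu) aB]
        ring
      · rw [φ₂c x y (neB x mx) (neB y my), α₃ u hu x mx, α₃ u hu y my]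
        linear_combination T₂.parity a x y hxy (neB x mx) (neB y my)
    · simp only [if_neg hu]
      have kx : u ∈ B ∨ x ∈ B := by
        rcases hS with rfl | k | k
        · exact Or.inr ((c₂ x hxy.mem_support_left).resolve_left hx.symm)
        · exact absurd k hu
        · exact Or.inl k
      have ky : u ∈ B ∨ y ∈ B := by
        rcases hS with rfl | k | k
        · exact Or.inr ((c₂ y hxy.mem_support_right).resolve_left hy.symm)
        · exact absurd k hu
        · exact Or.inl k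
      rw [α₂ _ _ hu (nA x hxy.mem_support_left) kx, α₂ _ _ hu (nA y hxy.mem_support_right) ky]
      exact T₂.parity u x y hxy hx hy
  · intro u _ x y k₁ k₂ _ _
    exact absurd ((h ⟨k₁.mem_support_left, k₂.mem_support_left⟩).trans
      (h ⟨k₁.mem_support_right, k₂.mem_support_right⟩).symm) k₁.ne
  · intro x y u v hxy huv k1 k2 k3 k4
    simp only [if_neg (nB x hxy.mem_support_left), if_neg (nB y hxy.mem_support_right),
      if_neg (nB u huv.mem_support_left), if_neg (nB v huv.mem_support_right)]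
    exact T₁.sq x y u v hxy huv k1 k2 k3 k4
  · intro x y u v hxy huv k1 k2 k3 k4
    simp only [if_neg (nA x hxy.mem_support_left), if_neg (nA y hxy.mem_support_right),
      if_neg (nA u huv.mem_support_left), if_neg (nA v huv.mem_support_right)]
    exact T₂.sq x y u v hxy huv k1 k2 k3 k4
  · intro x y u v hxy huv k1 k2 k3 k4
    have e₁ : ∀ w ∈ G₂.support, w ≠ x → w ≠ y →
        (if w ∈ B then φ₁ x y else T₁.θ w x y) = φ₁ x y := by
      intro w hw j1 j2
      rcases c₂ w hw with rfl | k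
      · rw [if_neg aB, φ₁c x y j1 j2]
      · exact if_pos k
    have e₂ : ∀ w ∈ G₁.support, w ≠ u → w ≠ v →
        (if w ∈ A then φ₂ u v else T₂.θ w u v) = φ₂ u v := by
      intro w hw j1 j2
      rcases c₁ w hw with rfl | k
      · rw [if_neg aA, φ₂c u v j1 j2]
      · exact if_pos k
    simp only [e₁ u huv.mem_support_left k1 k2, e₁ v huv.mem_support_right k3 k4,
      e₂ x hxy.mem_support_left k1.symm k3.symm, e₂ y hxy.mem_support_right k2.symm k4.symm]
    ring

/-- Gauge change by a symmetric function on pairs of vertices. -/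
def VK.gaugeG (T : VK G) (g : V → V → ZMod 4) (hg : ∀ u x, g u x = g x u) : VK G where
  a u x := T.a u x + g u x
  θ u x y := T.θ u x y + g u y - g u x
  a_anti u x h := by
    rw [hg x u]
    linear_combination T.a_anti u x h
  θ_anti u x y h hx hy := by
    rw [T.θ_anti u x y h hx hy]
    ring
  parity u x y h hx hy := by linear_combination T.parity u x y h hx hy
  sq x y u v h h' k1 k2 k3 k4 := by
    rw [hg y u, hg y v, hg x u, hg x v]
    linear_combination T.sq x y u v h h' k1 k2 k3 k4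

/-- Gauge change by an even function on edges. -/
def VK.gaugeT (T : VK G) (t : V → V → ZMod 4) (ht : ∀ x y, G.Adj x y → t y x = - t x y)
    (ht' : ∀ x y, G.Adj x y → 2 * t x y = 0) : VK G where
  a := T.a
  θ u x y := T.θ u x y + t x y
  a_anti := T.a_anti
  θ_anti u x y h hx hy := by
    rw [T.θ_anti u x y h hx hy, ht x y h]
    ring
  parity u x y h hx hy := by linear_combination T.parity u x y h hx hy + ht' x y h
  sq x y u v h h' k1 k2 k3 k4 := by linear_combination T.sq x y u v h h' k1 k2 k3 k4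

/-- Normal form at a vertex. -/
theorem IsVK.normal_one (h : IsVK G) (a : V) (c : ZMod 4) :
    ∃ T : VK G, (∀ w, T.a a w = c) ∧ ∀ x y, G.Adj x y → a ≠ x → a ≠ y → T.θ a x y = 0 := by
  classical
  obtain ⟨T₀⟩ := h
  obtain ⟨T, hT⟩ : ∃ T : VK G, ∀ w, T.a a w = c := by
    refine ⟨T₀.gaugeG (fun u x => if u = a then c - T₀.a a x else if x = a then c - T₀.a a u
      else 0) ?_, fun w => ?_⟩
    · intro u x
      by_cases hu : u = a <;> by_cases hx : x = a <;> simp [hu, hx]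
    · simp [VK.gaugeG]
  refine ⟨T.gaugeT (fun x y => if a ≠ x ∧ a ≠ y then - T.θ a x y else 0) ?_ ?_, hT, ?_⟩
  · intro x y hxy
    by_cases k : a ≠ x ∧ a ≠ y
    · rw [if_pos k, if_pos k.symm, T.θ_anti a x y hxy k.1 k.2]
    · rw [if_neg k, if_neg fun j => k j.symm, neg_zero]
  · intro x y hxy
    by_cases k : a ≠ x ∧ a ≠ y
    · rw [if_pos k]
      have := T.parity a x y hxy k.1 k.2
      rw [hT, hT] at this
      linear_combination (-1) * this
    · rw [if_neg k, mul_zero]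
  · intro x y _ hx hy
    simp [VK.gaugeT, hx, hy]

/-- Normal form along an edge. -/
theorem IsVK.normal_two (h : IsVK G) {a b : V} (hab : G.Adj a b) (c : ZMod 4) :
    ∃ T : VK G, (∀ w, T.a a w = c) ∧ (∀ w, b ≠ w → 2 * T.a b w = 2 * c + 2) ∧
      (∀ x y, G.Adj x y → a ≠ x → a ≠ y → T.θ a x y = 0) ∧
      (∀ x y, G.Adj x y → b ≠ x → b ≠ y → T.θ b x y = 0) ∧
      ∀ w, w ≠ a → w ≠ b → T.θ w a b = 1 := by
  classical
  have h4 : (4 : ZMod 4) = 0 := rfl
  obtain ⟨T₀, h1, h2⟩ := h.normal_one a c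
  obtain ⟨T, k1, k2, k3⟩ : ∃ T : VK G, (∀ w, T.a a w = c) ∧
      (∀ x y, G.Adj x y → a ≠ x → a ≠ y → T.θ a x y = 0) ∧
      ∀ w, w ≠ a → w ≠ b → T.θ w a b = 1 := by
    refine ⟨T₀.gaugeG (fun u x => if u = a ∨ x = a then 0 else if u = b then 1 - T₀.θ x a b
      else if x = b then 1 - T₀.θ u a b else 0) ?_, fun w => ?_, fun x y hxy hx hy => ?_,
      fun w hw hw' => ?_⟩
    · intro u x
      by_cases hu : u = a
      · simp [hu]
      · by_cases hx : x = a
        · simp [hx]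
        · by_cases hu' : u = b <;> by_cases hx' : x = b <;> simp [hu, hx, hu', hx']
    · simp [VK.gaugeG, h1]
    · simp [VK.gaugeG, h2 x y hxy hx hy]
    · simp [VK.gaugeG, hw, hw', hab.ne']
  have k4 : ∀ w, b ≠ w → 2 * T.a b w = 2 * c + 2 := by
    intro w hw
    by_cases hw' : w = a
    · rw [hw', T.a_anti a b hab.ne, k1]
    · have j1 := T.parity w a b hab hw' hw.symm
      have j2 := T.a_anti b w hw
      have j3 := T.a_anti a w (Ne.symm hw')
      rw [k3 w hw' hw.symm] at j1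
      rw [k1] at j3
      linear_combination (-1) * j1 - j2 + j3
  refine ⟨T.gaugeT (fun x y => if (a = x ∨ a = y) ∧ b ≠ x ∧ b ≠ y then - T.θ b x y else 0) ?_ ?_,
    k1, k4, ?_, ?_, ?_⟩
  · intro x y hxy
    by_cases k : (a = x ∨ a = y) ∧ b ≠ x ∧ b ≠ y
    · rw [if_pos k, if_pos ⟨k.1.symm, k.2.symm⟩, T.θ_anti b x y hxy k.2.1 k.2.2]
    · rw [if_neg k, if_neg fun j => k ⟨j.1.symm, j.2.symm⟩, neg_zero]
  · intro x y hxy
    by_cases k : (a = x ∨ a = y) ∧ b ≠ x ∧ b ≠ y
    · rw [if_pos k]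
      linear_combination (-1) * T.parity b x y hxy k.2.1 k.2.2 - k4 y k.2.2 + k4 x k.2.1
    · rw [if_neg k, mul_zero]
  · intro x y hxy hx hy
    simp [VK.gaugeT, hx, hy, k2 x y hxy hx hy]
  · intro x y hxy hx hy
    by_cases k : a = x ∨ a = y
    · simp [VK.gaugeT, k, hx, hy]
    · have j := not_or.1 k
      have j1 := T.sq a b x y hab hxy (Ne.symm j.1) hx.symm (Ne.symm j.2) hy.symm
      rw [k3 x (Ne.symm j.1) hx.symm, k3 y (Ne.symm j.2) hy.symm, k2 x y hxy j.1 j.2] at j1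
      simp only [VK.gaugeT, k, false_and, if_false]
      linear_combination j1
  · intro w hw hw'
    simp [VK.gaugeT, k3 w hw hw']

theorem IsVK.sup_two (h₁ : IsVK G₁) (h₂ : IsVK G₂) {a b : V} (hab₁ : G₁.Adj a b)
    (hab₂ : G₂.Adj a b) (h : G₁.support ∩ G₂.support ⊆ {a, b}) : IsVK (G₁ ⊔ G₂) := by
  classical
  obtain ⟨T₁⟩ := h₁
  obtain ⟨T₂, n1, n2, n3, n4, n5⟩ := h₂.normal_two hab₂ (T₁.a a b)
  have h4 : (4 : ZMod 4) = 0 := rfl
  have hab : a ≠ b := hab₁.ne
  obtain ⟨A, hA⟩ : ∃ A : Set V, ∀ u, u ∈ A ↔ u ∈ G₁.support ∧ a ≠ u ∧ b ≠ u :=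
    ⟨{u | u ∈ G₁.support ∧ a ≠ u ∧ b ≠ u}, fun _ => Iff.rfl⟩
  obtain ⟨B, hB⟩ : ∃ B : Set V, ∀ u, u ∈ B ↔ u ∈ G₂.support ∧ a ≠ u ∧ b ≠ u :=
    ⟨{u | u ∈ G₂.support ∧ a ≠ u ∧ b ≠ u}, fun _ => Iff.rfl⟩
  have nB : ∀ u ∈ G₁.support, u ∉ B := fun u hu hb => by
    rcases h ⟨hu, ((hB u).1 hb).1⟩ with k | k
    exacts [((hB u).1 hb).2.1 k.symm, ((hB u).1 hb).2.2 k.symm]
  have nA : ∀ u ∈ G₂.support, u ∉ A := fun u hu hb => by
    rcases h ⟨((hA u).1 hb).1, hu⟩ with k | k
    exacts [((hA u).1 hb).2.1 k.symm, ((hA u).1 hb).2.2 k.symm]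
  have aA : a ∉ A := fun k => ((hA a).1 k).2.1 rfl
  have aB : a ∉ B := fun k => ((hB a).1 k).2.1 rfl
  have bA : b ∉ A := fun k => ((hA b).1 k).2.2 rfl
  have bB : b ∉ B := fun k => ((hB b).1 k).2.2 rfl
  have AB : ∀ u ∈ A, u ∉ B := fun u hu => nB u ((hA u).1 hu).1
  have BA : ∀ u ∈ B, u ∉ A := fun u hu k => AB u k hu
  have c₁ : ∀ u ∈ G₁.support, a = u ∨ b = u ∨ u ∈ A := fun u hu => by
    by_cases k : a = u
    · exact Or.inl k
    · by_cases k' : b = u
      exacts [Or.inr (Or.inl k'), Or.inr (Or.inr ((hA u).2 ⟨hu, k, k'⟩))]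
  have c₂ : ∀ u ∈ G₂.support, a = u ∨ b = u ∨ u ∈ B := fun u hu => by
    by_cases k : a = u
    · exact Or.inl k
    · by_cases k' : b = u
      exacts [Or.inr (Or.inl k'), Or.inr (Or.inr ((hB u).2 ⟨hu, k, k'⟩))]
  have aA' : ∀ u ∈ A, a ≠ u := fun u hu => ((hA u).1 hu).2.1
  have bA' : ∀ u ∈ A, b ≠ u := fun u hu => ((hA u).1 hu).2.2
  have aB' : ∀ u ∈ B, a ≠ u := fun u hu => ((hB u).1 hu).2.1
  have bB' : ∀ u ∈ B, b ≠ u := fun u hu => ((hB u).1 hu).2.2
  obtain ⟨α, α₁, α₂, α₃, α₄⟩ : ∃ α : V → V → ZMod 4,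
      (∀ u w, u ∉ B → w ∉ B → α u w = T₁.a u w) ∧
      (∀ u w, u ∉ A → w ∉ A → u ∈ B ∨ w ∈ B → α u w = T₂.a u w) ∧
      (∀ u ∈ A, ∀ w ∈ B, α u w = T₁.a u a) ∧ (∀ u ∈ A, ∀ w ∈ B, α w u = T₁.a a u) := by
    refine ⟨fun u w => if u ∈ A ∧ w ∈ B then T₁.a u a else if u ∈ B ∧ w ∈ A then T₁.a a w
      else if u ∈ B ∨ w ∈ B then T₂.a u w else T₁.a u w, ?_, ?_, ?_, ?_⟩
    · intro u w hu hw
      simp [hu, hw]
    · intro u w hu hw k
      simp only [hu, hw, false_and, and_false, if_false, if_pos k]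
    · intro u hu w hw
      simp [hu, hw]
    · intro u hu w hw
      simp [hu, hw, AB u hu]
  obtain ⟨ψ, ψb, ψc⟩ : ∃ ψ : V → ZMod 4, ψ b = 1 ∧
      ∀ y, b ≠ y → ψ y = T₁.θ b a y - T₁.θ y a b := by
    refine ⟨fun y => if b = y then 1 else T₁.θ b a y - T₁.θ y a b, ?_, ?_⟩
    · simp
    · intro y hy
      simp [hy]
  obtain ⟨φ, φa, φb, φc⟩ : ∃ φ : V → V → ZMod 4, (∀ y, φ a y = ψ y) ∧
      (∀ x, a ≠ x → φ x a = - ψ x) ∧ (∀ x y, a ≠ x → a ≠ y → φ x y = T₁.θ a x y) := by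
    refine ⟨fun x y => if a = x then ψ y else if a = y then - ψ x else T₁.θ a x y, ?_, ?_, ?_⟩
    · intro y
      simp
    · intro x hx
      simp [hx]
    · intro x y hx hy
      simp [hx, hy]
  obtain ⟨χ, χb, χc⟩ : ∃ χ : V → V → ZMod 4, (∀ u, χ u b = T₁.θ u a b) ∧
      ∀ u y, b ≠ y → χ u y = 0 := by
    refine ⟨fun u y => if b = y then T₁.θ u a b else 0, ?_, ?_⟩
    · simp
    · intro u y hy
      simp [hy]
  have pψ : ∀ y, G₁.Adj a y → ∀ w ∈ B, 2 * ψ y = 2 * (α w y - α w a) := by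
    intro y hy w hw
    rw [α₂ w a (BA w hw) aA (Or.inl hw)]
    have j1 := T₂.a_anti a w (aB' w hw)
    rw [n1] at j1
    rcases c₁ y hy.mem_support_right with k | rfl | my
    · exact absurd k hy.ne
    · rw [ψb, α₂ w _ (BA w hw) bA (Or.inl hw)]
      linear_combination j1 - T₂.a_anti _ w (bB' w hw) - n2 w (bB' w hw)
    · rw [ψc y (bA' y my), α₄ y my w hw]
      linear_combination T₁.parity b a y hy hab.symm (bA' y my) -
        T₁.parity y a b hab₁ (aA' y my).symm (bA' y my).symm + j1 - T₁.a_anti a b hab -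
        T₁.a_anti b y (bA' y my) + T₁.a_anti a y (aA' y my)
  have pχ : ∀ u ∈ A, ∀ y ∈ G₂.support, 2 * χ u y = 2 * (α u y - T₁.a u a) := by
    intro u hu y hy
    rcases c₂ y hy with rfl | rfl | my
    · rw [χc u _ hab.symm, α₁ _ _ (AB u hu) aB]
      ring
    · rw [χb, α₁ _ _ (AB u hu) bB]
      exact T₁.parity u a _ hab₁ (aA' u hu).symm (bA' u hu).symm
    · rw [χc u y (bB' y my), α₃ u hu y my]
      ring
  have α₅ : ∀ u, u ∉ A → ∀ w, w ∉ A → (a = u ∨ b = u ∨ u ∈ B) → (a = w ∨ b = w ∨ w ∈ B) →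
      u ≠ w → 2 * α u w = 2 * T₂.a u w := by
    intro u hu w hw j1 j2 j3
    by_cases k : u ∈ B ∨ w ∈ B
    · rw [α₂ u w hu hw k]
    · have k' := not_or.1 k
      rw [α₁ u w k'.1 k'.2]
      rcases j1 with rfl | rfl | j1
      · rcases j2 with rfl | rfl | j2
        · exact absurd rfl j3
        · rw [n1]
        · exact absurd j2 k'.2
      · rcases j2 with rfl | rfl | j2
        · rw [n2 _ j3, T₁.a_anti _ _ hab]
        · exact absurd rfl j3
        · exact absurd j2 k'.2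
      · exact absurd j1 k'.1
  refine isVK_glue α (fun u x y => if u ∈ B then φ x y else T₁.θ u x y)
    (fun u x y => if u ∈ A then χ u y - χ u x else T₂.θ u x y)
    {u | u ∈ A ∨ a = u ∨ b = u ∨ u ∈ B}
    (fun u hu => by rcases c₁ u hu with k | k | k <;> simp [k])
    (fun u hu => Or.inr (c₂ u hu)) ?_ ?_ ?_ ?_ ?_ ?_ ?_ ?_ ?_
  · intro u hu x hx hux
    by_cases uB : u ∈ B
    · by_cases xA : x ∈ A
      · rw [α₃ x xA u uB, α₄ x xA u uB]
        exact T₁.a_anti a x (aA' x xA)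
      · rw [α₂ _ _ xA (BA u uB) (Or.inr uB), α₂ _ _ (BA u uB) xA (Or.inl uB)]
        exact T₂.a_anti _ _ hux
    · by_cases xB : x ∈ B
      · by_cases uA : u ∈ A
        · rw [α₃ u uA x xB, α₄ u uA x xB]
          exact T₁.a_anti u a (aA' u uA).symm
        · rw [α₂ _ _ uA (BA x xB) (Or.inr xB), α₂ _ _ (BA x xB) uA (Or.inl xB)]
          exact T₂.a_anti _ _ hux
      · rw [α₁ _ _ uB xB, α₁ _ _ xB uB]
        exact T₁.a_anti _ _ hux
  · intro u _ x y hxy hx hy
    by_cases hu : u ∈ B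
    · simp only [if_pos hu]
      by_cases k : a = x
      · subst k
        rw [φa, φb y hxy.ne]
      · by_cases k' : a = y
        · subst k'
          rw [φa, φb x k, neg_neg]
        · rw [φc x y k k', φc y x k' k]
          exact T₁.θ_anti a x y hxy k k'
    · simp only [if_neg hu]
      exact T₁.θ_anti u x y hxy hx hy
  · intro u _ x y hxy hx hy
    by_cases hu : u ∈ A
    · simp only [if_pos hu]
      ring
    · simp only [if_neg hu]
      exact T₂.θ_anti u x y hxy hx hy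
  · intro u _ x y hxy hx hy
    by_cases hu : u ∈ B
    · simp only [if_pos hu]
      by_cases k : a = x
      · subst k
        rw [φa]
        exact pψ y hxy u hu
      · by_cases k' : a = y
        · subst k'
          rw [φb x k]
          linear_combination (-1) * pψ x hxy.symm u hu
        · have e : ∀ z ∈ G₁.support, a ≠ z → 2 * α u z = 2 * T₁.a a z := by
            intro z hz hz'
            rcases c₁ z hz with j | rfl | j
            · exact absurd j hz'
            · rw [α₂ u _ (BA u hu) bA (Or.inl hu)]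
              linear_combination T₂.a_anti _ u (bB' u hu) + n2 u (bB' u hu) + h4
            · rw [α₄ z j u hu]
          rw [φc x y k k']
          linear_combination T₁.parity a x y hxy k k' + e x hxy.mem_support_left k -
            e y hxy.mem_support_right k'
    · simp only [if_neg hu]
      rw [α₁ _ _ hu (nB x hxy.mem_support_left), α₁ _ _ hu (nB y hxy.mem_support_right)]
      exact T₁.parity u x y hxy hx hy
  · intro u hS x y hxy hx hy
    by_cases hu : u ∈ A
    · simp only [if_pos hu]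
      linear_combination pχ u hu y hxy.mem_support_right - pχ u hu x hxy.mem_support_left
    · simp only [if_neg hu]
      have hS' : a = u ∨ b = u ∨ u ∈ B := Or.resolve_left hS hu
      linear_combination T₂.parity u x y hxy hx hy +
        α₅ u hu x (nA x hxy.mem_support_left) hS' (c₂ x hxy.mem_support_left) hx -
        α₅ u hu y (nA y hxy.mem_support_right) hS' (c₂ y hxy.mem_support_right) hy
  · intro u hS x y k₁ k₂ hx hy
    have jx := h ⟨k₁.mem_support_left, k₂.mem_support_left⟩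
    have jy := h ⟨k₁.mem_support_right, k₂.mem_support_right⟩
    have key : u ≠ a → u ≠ b → (if u ∈ B then φ a b else T₁.θ u a b) =
        (if u ∈ A then χ u b - χ u a else T₂.θ u a b) ∧ (if u ∈ B then φ b a else T₁.θ u b a) =
        (if u ∈ A then χ u a - χ u b else T₂.θ u b a) := by
      intro ha hb
      rcases hS with k | k | k | k
      · rw [if_neg (AB u k), if_pos k, if_neg (AB u k), if_pos k, χb, χc u a hab.symm,
          T₁.θ_anti u a b hab₁ ha hb]
        simp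
      · exact absurd k.symm ha
      · exact absurd k.symm hb
      · rw [if_pos k, if_neg (BA u k), if_pos k, if_neg (BA u k), φa, φb b hab, ψb,
          T₂.θ_anti u a b hab₂ ha hb, n5 u ha hb]
        simp
    rcases jx with rfl | rfl <;> rcases jy with rfl | rfl
    · exact absurd rfl k₁.ne
    · exact (key hx hy).1
    · exact (key hy hx).2
    · exact absurd rfl k₁.ne
  · intro x y u v hxy huv k1 k2 k3 k4
    simp only [if_neg (nB x hxy.mem_support_left), if_neg (nB y hxy.mem_support_right),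
      if_neg (nB u huv.mem_support_left), if_neg (nB v huv.mem_support_right)]
    exact T₁.sq x y u v hxy huv k1 k2 k3 k4
  · intro x y u v hxy huv k1 k2 k3 k4
    simp only [if_neg (nA x hxy.mem_support_left), if_neg (nA y hxy.mem_support_right),
      if_neg (nA u huv.mem_support_left), if_neg (nA v huv.mem_support_right)]
    exact T₂.sq x y u v hxy huv k1 k2 k3 k4
  · intro x y u v hxy huv k1 k2 k3 k4
    have e₂ : ∀ w ∈ G₁.support, w ≠ u → w ≠ v →
        (if w ∈ A then χ w v - χ w u else T₂.θ w u v) = χ w v - χ w u ∨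
        (a = w ∧ (if w ∈ A then χ w v - χ w u else T₂.θ w u v) = 0) := by
      intro w hw j1 j2
      rcases c₁ w hw with rfl | rfl | k
      · exact Or.inr ⟨rfl, by rw [if_neg aA, n3 u v huv j1 j2]⟩
      · exact Or.inl (by rw [if_neg bA, n4 u v huv j1 j2, χc _ _ j1, χc _ _ j2, sub_zero])
      · exact Or.inl (if_pos k)
    have e₁ : ∀ w ∈ G₂.support, w ≠ x → w ≠ y → b ≠ w →
        (if w ∈ B then φ x y else T₁.θ w x y) = φ x y := by
      intro w hw j1 j2 j3
      rcases c₂ w hw with rfl | k | k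
      · rw [if_neg aB, φc x y j1 j2]
      · exact absurd k j3
      · exact if_pos k
    have key : b ≠ x → b ≠ y → T₁.θ b x y - φ x y = (if a = y then 0 else T₁.θ y a b) -
        (if a = x then 0 else T₁.θ x a b) := by
      intro j1 j2
      by_cases k : a = x
      · subst k
        rw [φa, ψc y j2, if_neg hxy.ne, if_pos rfl]
        ring
      · by_cases k' : a = y
        · subst k'
          rw [φb x k, ψc x j1, if_neg k, if_pos rfl, T₁.θ_anti b x _ hxy j1 j2]
          ring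
        · rw [φc x y k k', if_neg k, if_neg k']
          linear_combination T₁.sq a b x y hab₁ hxy (Ne.symm k) j1.symm (Ne.symm k') j2.symm
    have mx := hxy.mem_support_left
    have my := hxy.mem_support_right
    have mu := huv.mem_support_left
    have mv := huv.mem_support_right
    by_cases hu : b = u
    · subst hu
      have e₃ : ∀ w ∈ G₁.support, w ≠ b → w ≠ v →
          (if w ∈ A then χ w v - χ w b else T₂.θ w b v) = - if a = w then 0 else T₁.θ w a b := by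
        intro w hw j1 j2
        rcases c₁ w hw with rfl | k | k
        · rw [if_neg aA, if_pos rfl, n3 _ v huv j1 j2, neg_zero]
        · exact absurd k.symm j1
        · rw [if_pos k, if_neg (aA' w k), χb, χc w v huv.ne, zero_sub]
      simp only [if_neg bB, e₁ v mv k3 k4 huv.ne, e₃ x mx k1.symm k3.symm, e₃ y my k2.symm k4.symm]
      linear_combination key k1 k2
    · by_cases hv : b = v
      · subst hv
        have e₃ : ∀ w ∈ G₁.support, w ≠ u → w ≠ b →
            (if w ∈ A then χ w b - χ w u else T₂.θ w u b) = if a = w then 0 else T₁.θ w a b := by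
          intro w hw j1 j2
          rcases c₁ w hw with rfl | k | k
          · rw [if_neg aA, if_pos rfl, n3 u _ huv j1 j2]
          · exact absurd k.symm j2
          · rw [if_pos k, if_neg (aA' w k), χb, χc w u hu, sub_zero]
        simp only [if_neg bB, e₁ u mu k1 k2 hu, e₃ x mx k1.symm k3.symm, e₃ y my k2.symm k4.symm]
        linear_combination (-1) * key k3 k4
      · have e₃ : ∀ w ∈ G₁.support, w ≠ u → w ≠ v →
            (if w ∈ A then χ w v - χ w u else T₂.θ w u v) = 0 := by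
          intro w hw j1 j2
          rcases e₂ w hw j1 j2 with k | k
          · rw [k, χc w u hu, χc w v hv, sub_zero]
          · exact k.2
        simp only [e₁ u mu k1 k2 hu, e₁ v mv k3 k4 hv, e₃ x mx k1.symm k3.symm,
          e₃ y my k2.symm k4.symm]
        ring

theorem exists_consistent (X Y : Set V) (f : V → V → ZMod 4) (r : V → ZMod 4)
    (hc : ∀ t ∈ Y, ∀ s ∈ X, ∀ s' ∈ X, s ≠ t → s' ≠ t → f s t = f s' t)
    (hp : ∀ t ∈ Y, ∀ s ∈ X, s ≠ t → 2 * f s t = 2 * r t) :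
    ∃ p : V → ZMod 4, (∀ t ∈ Y, 2 * p t = 2 * r t) ∧ ∀ t ∈ Y, ∀ s ∈ X, s ≠ t → p t = f s t := by
  have : ∀ t, ∃ z : ZMod 4, t ∈ Y → 2 * z = 2 * r t ∧ ∀ s ∈ X, s ≠ t → z = f s t := by
    intro t
    by_cases k : ∃ s ∈ X, s ≠ t
    · obtain ⟨s, hs, hst⟩ := k
      exact ⟨f s t, fun ht => ⟨hp t ht s hs hst, fun s' hs' h' => hc t ht s hs s' hs' hst h'⟩⟩
    · exact ⟨r t, fun _ => ⟨rfl, fun s hs h' => absurd ⟨s, hs, h'⟩ k⟩⟩
  choose p hp using this
  exact ⟨p, fun t ht => (hp t ht).1, fun t ht => (hp t ht).2⟩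

theorem exists_qp (X Y : Set V) (κ : V → V → ZMod 4) (r : V → ZMod 4)
    (hp : ∀ s ∈ X, ∀ t ∈ Y, s ≠ t → 2 * κ s t = 2 * (1 + r s + r t))
    (hr : ∀ s ∈ X, ∀ s' ∈ X, ∀ t ∈ Y, ∀ t' ∈ Y, s ≠ s' → t ≠ t' → s ≠ t → s ≠ t' → s' ≠ t →
      s' ≠ t' → κ s t - κ s' t = κ s t' - κ s' t')
    (hc : ∀ a ∈ X, a ∈ Y → ∀ b ∈ X, b ∈ Y → ∀ c ∈ X, c ∈ Y → a = b ∨ a = c ∨ b = c) :
    ∃ q p : V → ZMod 4, (∀ s ∈ X, 2 * q s = 2 * (r s + 1)) ∧ (∀ t ∈ Y, 2 * p t = 2 * r t) ∧
      ∀ s ∈ X, ∀ t ∈ Y, s ≠ t → q s + κ s t - p t = 0 := by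
  have h4 : (4 : ZMod 4) = 0 := rfl
  by_cases h1 : ∃ s₀ ∈ X, s₀ ∉ Y
  · obtain ⟨s₀, hs₀, hs₀'⟩ := h1
    have ne : ∀ t ∈ Y, s₀ ≠ t := fun t ht k => hs₀' (k ▸ ht)
    obtain ⟨q, hq, hq'⟩ := exists_consistent Y X (fun t s => r s₀ + 1 + κ s₀ t - κ s t)
      (fun s => r s + 1) (by
        intro s hs t ht t' ht' k k'
        by_cases e : s₀ = s
        · subst e
          ring
        · by_cases e' : t = t'
          · rw [e']
          · linear_combination hr s₀ hs₀ s hs t ht t' ht' e e' (ne t ht) (ne t' ht') k.symm k'.symm)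
      (by
        intro s hs t ht k
        linear_combination hp s₀ hs₀ t ht (ne t ht) - hp s hs t ht k.symm + (r s₀ - r s) * h4)
    refine ⟨q, fun t => r s₀ + 1 + κ s₀ t, hq, fun t ht => ?_, fun s hs t ht k => ?_⟩
    · linear_combination hp s₀ hs₀ t ht (ne t ht) + (r s₀ + 1) * h4
    · rw [hq' s hs t ht k.symm]
      ring
  · by_cases h2 : ∃ t₀ ∈ Y, t₀ ∉ X
    · obtain ⟨t₀, ht₀, ht₀'⟩ := h2
      have ne : ∀ s ∈ X, s ≠ t₀ := fun s hs k => ht₀' (k ▸ hs)
      obtain ⟨p, hq, hq'⟩ := exists_consistent X Y (fun s t => r t₀ - κ s t₀ + κ s t) r (by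
          intro t ht s hs s' hs' k k'
          by_cases e : t = t₀
          · subst e
            ring
          · by_cases e' : s = s'
            · rw [e']
            · linear_combination hr s hs s' hs' t ht t₀ ht₀ e' e k (ne s hs) k' (ne s' hs'))
        (by
          intro t ht s hs k
          linear_combination hp s hs t ht k - hp s hs t₀ ht₀ (ne s hs))
      refine ⟨fun s => r t₀ - κ s t₀, p, fun s hs => ?_, hq, fun s hs t ht k => ?_⟩
      · linear_combination (-1) * hp s hs t₀ ht₀ (ne s hs) - (r s + 1) * h4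
      · rw [hq' t ht s hs k]
        ring
    · push Not at h1 h2
      obtain ⟨p, hq, hq'⟩ := exists_consistent X Y (fun s t => r s + 1 + κ s t) r (by
          intro t ht s hs s' hs' k k'
          rcases hc s hs (h1 s hs) s' hs' (h1 s' hs') t (h2 t ht) ht with e | e | e
          · rw [e]
          · exact absurd e k
          · exact absurd e k')
        (by
          intro t ht s hs k
          linear_combination hp s hs t ht k + (r s + 1) * h4)
      refine ⟨fun s => r s + 1, p, fun s _ => rfl, hq, fun s hs t ht k => ?_⟩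
      rw [hq' t ht s hs k]
      ring

/-- The rectangle relation around a vertex. -/
theorem VK.rect (T : VK G) {x a a' b b' : V} (ha : G.Adj x a) (ha' : G.Adj x a') (hb : G.Adj x b)
    (hb' : G.Adj x b') {A B : Set V} (hd : Disjoint A B) (hA : x ∉ A) (hB : x ∉ B)
    (hP : RIn G A a a') (hQ : RIn G B b b') :
    (T.θ a x b - T.θ b x a) - (T.θ a' x b - T.θ b x a') =
      (T.θ a x b' - T.θ b' x a) - (T.θ a' x b' - T.θ b' x a') := by
  have key : ∀ {C : Set V} {u v w : V} (p : G.Walk u v), (∀ z ∈ p.support, z ∈ C) → x ∉ C →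
      w ∉ C → G.Adj x w → T.θ u x w + T.thW w p - T.θ v x w - T.thW x p = 0 := by
    intro C u v w p hp hx hw hxw
    have := T.thW_sq (Walk.cons hxw Walk.nil) p (by
      intro z hz hz'
      simp only [Walk.support_cons, Walk.support_nil, List.mem_cons, List.not_mem_nil,
        or_false] at hz
      rcases hz with rfl | rfl
      exacts [hx (hp _ hz'), hw (hp _ hz')])
    simpa using this
  have hbA : b ∉ A := fun k => Set.disjoint_left.1 hd k hQ.left_mem
  have hbA' : b' ∉ A := fun k => Set.disjoint_left.1 hd k hQ.right_mem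
  have haB : a ∉ B := Set.disjoint_left.1 hd hP.left_mem
  have haB' : a' ∉ B := Set.disjoint_left.1 hd hP.right_mem
  obtain ⟨P, hP⟩ := hP
  obtain ⟨Q, hQ⟩ := hQ
  linear_combination key P hP hA hbA hb - key P hP hA hbA' hb' - key Q hQ hB haB ha +
    key Q hQ hB haB' ha' - T.thW_sq P Q fun z hz hz' => Set.disjoint_left.1 hd (hP z hz) (hQ z hz')

/-- Vertex splitting. -/
theorem isVK_of_split {x y : V} (hxy : G.Adj x y) (h : IsVK (G.map (contr {x, y} x)))
    (hrect : ∀ a a' b b', G.Adj x a → G.Adj x a' → G.Adj y b → G.Adj y b' →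
      a ≠ y → a' ≠ y → b ≠ x → b' ≠ x → a ≠ a' → b ≠ b' → a ≠ b → a ≠ b' → a' ≠ b → a' ≠ b' →
      ∃ A B : Set V, Disjoint A B ∧ x ∉ A ∧ y ∉ A ∧ x ∉ B ∧ y ∉ B ∧
        RIn G A a a' ∧ RIn G B b b')
    (hcommon : ∀ a b c, G.Adj x a → G.Adj y a → G.Adj x b → G.Adj y b → G.Adj x c → G.Adj y c →
      a = b ∨ a = c ∨ b = c) : IsVK G := by
  classical
  obtain ⟨T⟩ := h
  have h4 : (4 : ZMod 4) = 0 := rfl
  have hne : x ≠ y := hxy.ne
  obtain ⟨π, hπ⟩ : ∃ π, π = contr {x, y} x := ⟨_, rfl⟩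
  rw [← hπ] at T
  have πx : π x = x := hπ ▸ contr_of_mem (by simp)
  have πy : π y = x := hπ ▸ contr_of_mem (by simp)
  have πo : ∀ v, v ≠ x → v ≠ y → π v = v := fun v h1 h2 => hπ ▸ contr_of_notMem (by simp [h1, h2])
  clear hπ
  have πne : ∀ c, c = x ∨ c = y → ∀ u v, u ≠ v → u ≠ c → v ≠ c → π u ≠ π v := by
    have aux : ∀ u v, u ≠ x → u ≠ y → u ≠ v → π u ≠ π v := by
      intro u v ux uy huv
      rw [πo u ux uy]
      by_cases vx : v = x
      · rw [vx, πx]
        exact ux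
      · by_cases vy : v = y
        · rw [vy, πy]
          exact ux
        · rw [πo v vx vy]
          exact huv
    rintro c (rfl | rfl) u v huv k1 k2
    · by_cases k : u = y
      · exact (aux v u k2 (k ▸ huv.symm) huv.symm).symm
      · exact aux u v k1 k huv
    · by_cases k : u = x
      · exact (aux v u (k ▸ huv.symm) k2 huv.symm).symm
      · exact aux u v k k1 huv
  have adjX : ∀ s, G.Adj x s → s ≠ y → (G.map π).Adj x s := by
    intro s hs hs'
    have := map_adj_apply' (f := π) hs (πne y (Or.inr rfl) x s hs.ne hne hs')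
    rwa [πx, πo s hs.ne' hs'] at this
  have adjY : ∀ s, G.Adj y s → s ≠ x → (G.map π).Adj x s := by
    intro s hs hs'
    have := map_adj_apply' (f := π) hs (πne x (Or.inl rfl) y s hs.ne hne.symm hs')
    rwa [πy, πo s hs' hs.ne'] at this
  have himg : ∀ {A : Set V} {a a' : V}, x ∉ A → y ∉ A → RIn G A a a' → RIn (G.map π) A a a' := by
    intro A a a' hx hy hr
    refine hr.mono' le_rfl fun u v hu hv huv => ?_
    have e1 := πo u (fun k => hx (k ▸ hu)) (fun k => hy (k ▸ hu))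
    have e2 := πo v (fun k => hx (k ▸ hv)) (fun k => hy (k ▸ hv))
    have := map_adj_apply' (f := π) huv (by rw [e1, e2]; exact huv.ne)
    rwa [e1, e2] at this
  obtain ⟨q, p, hq, hp, hqp⟩ := exists_qp {s | G.Adj x s ∧ s ≠ y} {t | G.Adj y t ∧ t ≠ x}
    (fun s t => T.θ s x t - T.θ t x s) (T.a x)
    (by
      intro s hs t ht hst
      linear_combination T.parity s x t (adjY t ht.1 ht.2) hs.1.ne' hst -
        T.parity t x s (adjX s hs.1 hs.2) ht.2 hst.symm - T.a_anti s t hst -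
        T.a_anti x s hs.1.ne + T.a_anti x t (Ne.symm ht.2) - (T.a x s + 1) * h4)
    (by
      intro s hs s' hs' t ht t' ht' k1 k2 k3 k4 k5 k6
      obtain ⟨A, B, hd, xA, yA, xB, yB, rA, rB⟩ := hrect s s' t t' hs.1 hs'.1 ht.1 ht'.1 hs.2 hs'.2
        ht.2 ht'.2 k1 k2 k3 k4 k5 k6
      exact T.rect (adjX s hs.1 hs.2) (adjX s' hs'.1 hs'.2) (adjY t ht.1 ht.2)
        (adjY t' ht'.1 ht'.2) hd xA xB (himg xA yA rA) (himg xB yB rB))
    (fun a ha ha' b hb hb' c hc hc' => hcommon a b c ha.1 ha'.1 hb.1 hb'.1 hc.1 hc'.1)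
  clear hrect hcommon himg adjX adjY
  obtain ⟨α, αxy, αyx, αg⟩ : ∃ α : V → V → ZMod 4, α x y = 0 ∧ α y x = 1 ∧
      ∀ c, c = x ∨ c = y → ∀ u v, u ≠ c → v ≠ c → α u v = T.a (π u) (π v) := by
    refine ⟨fun u v => if u = x ∧ v = y then 0 else if u = y ∧ v = x then 1 else T.a (π u) (π v),
      ?_, ?_, ?_⟩
    · simp
    · simp [hne]
    · rintro c (rfl | rfl) u v k1 k2 <;> simp [k1, k2]
  obtain ⟨θ, θ1, θ2, θ3, θ4, θ5, θ6, θg⟩ : ∃ θ : V → V → V → ZMod 4,
      (∀ u, θ u x y = 0) ∧ (∀ u, θ u y x = 0) ∧ (∀ w, w ≠ y → θ y x w = q w) ∧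
      (∀ w, w ≠ x → w ≠ y → θ y w x = - q w) ∧ (∀ w, w ≠ x → θ x y w = p w) ∧
      (∀ w, w ≠ x → w ≠ y → θ x w y = - p w) ∧
      ∀ c, c = x ∨ c = y → ∀ u v w, u ≠ c → v ≠ c → w ≠ c →
        θ u v w = T.θ (π u) (π v) (π w) := by
    refine ⟨fun u v w => if (v = x ∧ w = y) ∨ (v = y ∧ w = x) then 0
      else if u = y ∧ v = x then q w else if u = y ∧ w = x then - q v
      else if u = x ∧ v = y then p w else if u = x ∧ w = y then - p v
      else T.θ (π u) (π v) (π w), ?_, ?_, ?_, ?_, ?_, ?_, ?_⟩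
    · simp
    · simp
    · intro w hw
      simp [hw, hne]
    · intro w hw hw'
      simp [hw, hw']
    · intro w hw
      simp [hw, hne, hne.symm]
    · intro w hw hw'
      simp [hw, hw', hne]
    · rintro c (rfl | rfl) u v w k1 k2 k3 <;> simp [k1, k2, k3]
  have gen : ∀ u v w : V, (∃ c, (c = x ∨ c = y) ∧ u ≠ c ∧ v ≠ c ∧ w ≠ c) ∨
      ((u = x ∨ v = x ∨ w = x) ∧ (u = y ∨ v = y ∨ w = y)) := by
    intro u v w
    by_cases kx : u = x ∨ v = x ∨ w = x
    · by_cases ky : u = y ∨ v = y ∨ w = y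
      · exact Or.inr ⟨kx, ky⟩
      · push Not at ky
        exact Or.inl ⟨y, Or.inr rfl, ky⟩
    · push Not at kx
      exact Or.inl ⟨x, Or.inl rfl, kx⟩
  have anti : ∀ u v w, G.Adj v w → u ≠ v → u ≠ w → θ u w v = - θ u v w := by
    intro u v w hvw k1 k2
    rcases gen u v w with ⟨c, hc, j1, j2, j3⟩ | ⟨rfl | rfl | rfl, rfl | rfl | rfl⟩
    · rw [θg c hc u v w j1 j2 j3, θg c hc u w v j1 j3 j2]
      exact T.θ_anti _ _ _ (map_adj_apply' hvw (πne c hc v w hvw.ne j2 j3))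
        (πne c hc u v k1 j1 j2) (πne c hc u w k2 j1 j3)
    · exact absurd rfl hne
    · rw [θ5 w k2.symm, θ6 w k2.symm hvw.ne']
    · rw [θ5 v k1.symm, θ6 v k1.symm hvw.ne, neg_neg]
    · rw [θ3 w k2.symm, θ4 w hvw.ne' k2.symm]
    · exact absurd rfl hne
    · rw [θ1, θ2, neg_zero]
    · rw [θ3 v k1.symm, θ4 v hvw.ne k1.symm, neg_neg]
    · rw [θ1, θ2, neg_zero]
    · exact absurd rfl hne
  have pq : ∀ w, G.Adj x w → w ≠ y → 2 * q w = 2 * (α y w - α y x) := by
    intro w hw hw'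
    rw [hq w ⟨hw, hw'⟩, αyx, αg x (Or.inl rfl) y w hne.symm hw.ne', πy, πo w hw.ne' hw']
    linear_combination h4
  have pp : ∀ w, G.Adj y w → w ≠ x → 2 * p w = 2 * (α x w - α x y) := by
    intro w hw hw'
    rw [hp w ⟨hw, hw'⟩, αxy, αg y (Or.inr rfl) x w hne hw.ne', πx, πo w hw' hw.ne']
    ring
  have p0 : ∀ u, u ≠ x → u ≠ y → α u x = α u y := by
    intro u k1 k2
    rw [αg y (Or.inr rfl) u x k2 hne, αg x (Or.inl rfl) u y k1 hne.symm, πx, πy]
  have flip1 : ∀ v w u z, G.Adj v w → u ≠ v → u ≠ w → z ≠ v → z ≠ w →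
      θ u w v + θ v u z - θ z w v - θ w u z = 0 → θ u v w + θ w u z - θ z v w - θ v u z = 0 := by
    intro v w u z hvw k1 k2 k3 k4 e
    rw [anti u v w hvw k1 k2, anti z v w hvw k3 k4] at e
    linear_combination (-1) * e
  have sgen : ∀ c, c = x ∨ c = y → ∀ v w u z, G.Adj v w → G.Adj u z → u ≠ v → u ≠ w → z ≠ v →
      z ≠ w → v ≠ c → w ≠ c → u ≠ c → z ≠ c →
      θ u v w + θ w u z - θ z v w - θ v u z = 0 := by
    intro c hc v w u z hvw huz k1 k2 k3 k4 j1 j2 j3 j4
    rw [θg c hc u v w j3 j1 j2, θg c hc w u z j2 j3 j4, θg c hc z v w j4 j1 j2,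
      θg c hc v u z j1 j3 j4]
    exact T.sq _ _ _ _ (map_adj_apply' hvw (πne c hc v w hvw.ne j1 j2))
      (map_adj_apply' huz (πne c hc u z huz.ne j3 j4)) (πne c hc u v k1 j3 j1)
      (πne c hc u w k2 j3 j2) (πne c hc z v k3 j4 j1) (πne c hc z w k4 j4 j2)
  have base1 : ∀ u z, u ≠ x → u ≠ y → z ≠ x → z ≠ y →
      θ u x y + θ y u z - θ z x y - θ x u z = 0 := by
    intro u z k1 k2 k3 k4
    rw [θ1, θ1, θg x (Or.inl rfl) y u z hne.symm k1 k3, θg y (Or.inr rfl) x u z hne k2 k4, πx, πy]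
    ring
  have base2 : ∀ w z, G.Adj x w → G.Adj y z → y ≠ w → z ≠ x → z ≠ w →
      θ y x w + θ w y z - θ z x w - θ x y z = 0 := by
    intro w z hw hz k1 k2 k3
    rw [θ3 w k1.symm, θ5 z k2, θg x (Or.inl rfl) w y z hw.ne' hne.symm k2,
      θg y (Or.inr rfl) z x w hz.ne' hne k1.symm, πx, πy, πo w hw.ne' k1.symm, πo z k2 hz.ne']
    linear_combination hqp w ⟨hw, k1.symm⟩ z ⟨hz, k2⟩ k3.symm
  have key : ∀ w u z, G.Adj x w → G.Adj u z → u ≠ x → u ≠ w → z ≠ x → z ≠ w →
      θ u x w + θ w u z - θ z x w - θ x u z = 0 := by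
    intro w u z hw huz k1 k2 k3 k4
    by_cases j1 : w = y
    · subst j1
      exact base1 u z k1 k2 k3 k4
    · by_cases j2 : u = y
      · subst j2
        exact base2 w z hw huz k2 k3 k4
      · by_cases j3 : z = y
        · subst j3
          have := base2 w u hw huz.symm k4 k1 k2
          rw [anti w u _ huz k2.symm k4.symm, anti x u _ huz k1.symm k3.symm] at this
          linear_combination (-1) * this
        · exact sgen y (Or.inr rfl) x w u z hw huz k1 k2 k3 k4 hne j1 j2 j3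
  refine ⟨⟨α, θ, ?_, anti, ?_, ?_⟩⟩
  · intro u v huv
    rcases gen u v v with ⟨c, hc, j1, j2, -⟩ | ⟨rfl | rfl | rfl, rfl | rfl | rfl⟩
    · rw [αg c hc u v j1 j2, αg c hc v u j2 j1]
      exact T.a_anti _ _ (πne c hc u v huv j1 j2)
    all_goals first
      | exact absurd rfl hne
      | (rw [αxy, αyx]; decide)
  · intro u v w hvw k1 k2
    rcases gen u v w with ⟨c, hc, j1, j2, j3⟩ | ⟨rfl | rfl | rfl, rfl | rfl | rfl⟩
    · rw [θg c hc u v w j1 j2 j3, αg c hc u v j1 j2, αg c hc u w j1 j3]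
      exact T.parity _ _ _ (map_adj_apply' hvw (πne c hc v w hvw.ne j2 j3))
        (πne c hc u v k1 j1 j2) (πne c hc u w k2 j1 j3)
    · exact absurd rfl hne
    · rw [θ5 w k2.symm]
      exact pp w hvw k2.symm
    · rw [θ6 v k1.symm hvw.ne]
      linear_combination (-1) * pp v hvw.symm k1.symm
    · rw [θ3 w k2.symm]
      exact pq w hvw k2.symm
    · exact absurd rfl hne
    · rw [θ1, p0 u k1 k2]
      ring
    · rw [θ4 v hvw.ne k1.symm]
      linear_combination (-1) * pq v hvw.symm k1.symm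
    · rw [θ2, p0 u k2 k1]
      ring
    · exact absurd rfl hne
  · intro v w u z hvw huz k1 k2 k3 k4
    by_cases j1 : v = x
    · subst j1
      exact key w u z hvw huz k1 k2 k3 k4
    · by_cases j2 : w = x
      · subst j2
        exact flip1 v _ u z hvw k1 k2 k3 k4 (key v u z hvw.symm huz k2 k1 k4 k3)
      · by_cases j3 : u = x
        · subst j3
          linear_combination (-1) * key z v w huz hvw k1.symm k3.symm k2.symm k4.symm
        · by_cases j4 : z = x
          · subst j4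
            linear_combination (-1) * flip1 u _ v w huz k1.symm k3.symm k2.symm k4.symm
              (key u v w huz.symm hvw k3.symm k1.symm k4.symm k2.symm)
          · exact sgen x (Or.inl rfl) v w u z hvw huz k1 k2 k3 k4 j1 j2 j3 j4

/-- Vertex splitting along a cycle on which the two neighbourhoods lie on complementary arcs. -/
theorem isVK_of_split_cyc {x y : V} (hxy : G.Adj x y) (h : IsVK (G.map (contr {x, y} x)))
    (C : Cyc G) (hx : x ∉ C.verts) (hy : y ∉ C.verts) {i j : ℕ} (hij : i < j)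
    (hj : j < i + C.n) (hY : ∀ b, G.Adj y b → b ≠ x → b ∈ C.arc i j)
    (hX : ∀ a, G.Adj x a → a ≠ y → a ∈ C.arc j (i + C.n)) : IsVK G := by
  refine isVK_of_split hxy h ?_ ?_
  · intro a a' b b' ha ha' hb hb' k1 k2 k3 k4 _ _ n1 n2 n3 n4
    obtain ⟨s, s1, s2, rfl⟩ := C.mem_arc.1 (hX a ha k1)
    obtain ⟨s', s1', s2', rfl⟩ := C.mem_arc.1 (hX a' ha' k2)
    obtain ⟨t, t1, t2, rfl⟩ := C.mem_arc.1 (hY b hb k3)
    obtain ⟨t', t1', t2', rfl⟩ := C.mem_arc.1 (hY b' hb' k4)
    have key : ∀ {s t : ℕ}, C.c s ≠ C.c t → s ≠ t ∧ s ≠ t + C.n := fun {s t} k =>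
      ⟨fun e => k (by rw [e]), fun e => k (by rw [e, C.per])⟩
    have m1 := key n1
    have m2 := key n2
    have m3 := key n3
    have m4 := key n4
    refine ⟨C.arc (min s s') (max s s'), C.arc (min t t') (max t t'),
      (C.disjoint_arc (by omega) (by omega)).symm, fun k => hx (C.arc_subset_verts _ _ k),
      fun k => hy (C.arc_subset_verts _ _ k), fun k => hx (C.arc_subset_verts _ _ k),
      fun k => hy (C.arc_subset_verts _ _ k), ?_, ?_⟩
    · exact (C.connSet_arc min_le_max).rIn (C.c_mem_arc (by omega) (by omega))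
        (C.c_mem_arc (by omega) (by omega))
    · exact (C.connSet_arc min_le_max).rIn (C.c_mem_arc (by omega) (by omega))
        (C.c_mem_arc (by omega) (by omega))
  · have key : ∀ a, G.Adj x a → G.Adj y a → a = C.c i ∨ a = C.c j := by
      intro a ha ha'
      obtain ⟨s, s1, s2, rfl⟩ := C.mem_arc.1 (hX a ha ha'.ne')
      by_cases e : s = j
      · exact Or.inr (by rw [e])
      · by_cases e' : s = i + C.n
        · exact Or.inl (by rw [e', C.per])
        · exact absurd (hY _ ha' ha.ne') (C.c_notMem_arc (by omega) (by omega))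
    intro a b c ha ha' hb hb' hc hc'
    rcases key a ha ha' with e1 | e1 <;> rcases key b hb hb' with e2 | e2 <;>
      rcases key c hc hc' with e3 | e3 <;> simp [e1, e2, e3]

end Pool.Agent.Lib.Common.Pl
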