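import Pool.Agent.Lib.Common.Planar.Cyc

/-! Van Kampen cochains: sums along walks, pull-back along weak maps, small graphs. -/

namespace Pool.Agent.Lib.Common.Pl

open SimpleGraph

variable {V W : Type} {G : SimpleGraph V}

/-- The angle swept by a walk, as seen from `u`. -/
def VK.thW (T : VK G) (u : V) {x y : V} (p : G.Walk x y) : ZMod 4 :=
  (p.darts.map fun d => T.θ u d.fst d.snd).sum

@[simp] theorem VK.thW_nil (T : VK G) (u x : V) : T.thW u (Walk.nil : G.Walk x x) = 0 := rfl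

@[simp] theorem VK.thW_cons (T : VK G) (u : V) {x y z : V} (h : G.Adj x y) (p : G.Walk y z) :
    T.thW u (Walk.cons h p) = T.θ u x y + T.thW u p := by
  simp [VK.thW]

@[simp] theorem VK.thW_append (T : VK G) (u : V) {x y z : V} (p : G.Walk x y) (q : G.Walk y z) :
    T.thW u (p.append q) = T.thW u p + T.thW u q := by
  simp [VK.thW]

theorem VK.thW_reverse (T : VK G) {u x y : V} (p : G.Walk x y) (hu : u ∉ p.support) :
    T.thW u p.reverse = - T.thW u p := by
  induction p with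
  | nil => simp
  | cons h p ih =>
    simp only [Walk.support_cons, List.mem_cons, not_or] at hu
    have h1 := T.θ_anti u _ _ h hu.1 (fun e => hu.2 (e ▸ p.start_mem_support))
    simp only [Walk.reverse_cons, VK.thW_append, VK.thW_cons, VK.thW_nil, ih hu.2, h1]
    ring

theorem VK.thW_parity (T : VK G) {u x y : V} (p : G.Walk x y) (hu : u ∉ p.support) :
    2 * T.thW u p = 2 * (T.a u y - T.a u x) := by
  induction p with
  | nil => simp
  | cons h p ih =>
    simp only [Walk.support_cons, List.mem_cons, not_or] at hu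
    have h1 := T.parity u _ _ h hu.1 (fun e => hu.2 (e ▸ p.start_mem_support))
    rw [VK.thW_cons]
    linear_combination h1 + ih hu.2

theorem VK.edge_sq (T : VK G) {x y u v : V} (h : G.Adj x y) (q : G.Walk u v)
    (hx : x ∉ q.support) (hy : y ∉ q.support) :
    T.θ u x y + T.thW y q - T.θ v x y - T.thW x q = 0 := by
  induction q with
  | nil => simp
  | cons h' q ih =>
    simp only [Walk.support_cons, List.mem_cons, not_or] at hx hy
    have h1 := T.sq x y _ _ h h' (Ne.symm hx.1) (Ne.symm hy.1)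
      (fun e => hx.2 (e ▸ q.start_mem_support)) (fun e => hy.2 (e ▸ q.start_mem_support))
    rw [VK.thW_cons, VK.thW_cons]
    linear_combination h1 + ih hx.2 hy.2

/-- The square relation for two disjoint walks. -/
theorem VK.thW_sq (T : VK G) {x y u v : V} (p : G.Walk x y) (q : G.Walk u v)
    (h : ∀ z ∈ p.support, z ∉ q.support) :
    T.thW u p + T.thW y q - T.thW v p - T.thW x q = 0 := by
  induction p with
  | nil => simp
  | cons h' p ih =>
    simp only [Walk.support_cons, List.mem_cons, forall_eq_or_imp] at h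
    have h1 := T.edge_sq h' q h.1 (h.2 _ p.start_mem_support)
    rw [VK.thW_cons, VK.thW_cons]
    linear_combination h1 + ih h.2

theorem IsVK.mono {G' : SimpleGraph V} (h : IsVK G) (hG : G' ≤ G) : IsVK G' := by
  obtain ⟨T⟩ := h
  exact ⟨⟨T.a, T.θ, T.a_anti, fun u x y h => T.θ_anti u x y (hG h),
    fun u x y h => T.parity u x y (hG h), fun x y u v h h' => T.sq x y u v (hG h) (hG h')⟩⟩

theorem ite_lt_anti [LinearOrder V] {u x : V} (h : u ≠ x) :
    2 * (if x < u then (0 : ZMod 4) else 1) = 2 * (if u < x then (0 : ZMod 4) else 1) + 2 := by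
  rcases lt_or_gt_of_ne h with h | h
  · rw [if_neg h.not_gt, if_pos h]
    rfl
  · rw [if_pos h, if_neg h.not_gt]
    rfl

/-- Pull-back along a weak map: the edge `xy` of `G` is routed through the set `S x y`. -/
theorem IsVK.pullback {H : SimpleGraph W} (hH : IsVK H) (G : SimpleGraph V) (f : V → W)
    (hf : Set.InjOn f G.support) (S : V → V → Set W) (hsymm : ∀ x y, S x y = S y x)
    (hjoin : ∀ x y, G.Adj x y → RIn H (S x y) (f x) (f y))
    (hav : ∀ x y z, G.Adj x y → z ∈ G.support → z ≠ x → z ≠ y → f z ∉ S x y)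
    (hdisj : ∀ x y u v, G.Adj x y → G.Adj u v → u ≠ x → u ≠ y → v ≠ x → v ≠ y →
      Disjoint (S x y) (S u v)) : IsVK G := by
  classical
  obtain ⟨T⟩ := hH
  let _ : LinearOrder V := linearOrderOfSTO WellOrderingRel
  choose w hw using hjoin
  obtain ⟨p, hp, hrev⟩ : ∃ p : ∀ x y, G.Adj x y → H.Walk (f x) (f y),
      (∀ x y h, ∀ z ∈ (p x y h).support, z ∈ S x y) ∧
        ∀ x y (h : G.Adj x y), p y x h.symm = (p x y h).reverse := by
    refine ⟨fun x y h => if x < y then w x y h else (w y x h.symm).reverse, ?_, ?_⟩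
    · intro x y h z hz
      by_cases hxy : x < y
      · simp only [if_pos hxy] at hz
        exact hw x y h z hz
      · simp only [if_neg hxy, Walk.support_reverse, List.mem_reverse] at hz
        rw [hsymm]
        exact hw y x h.symm z hz
    · intro x y h
      rcases lt_or_gt_of_ne h.ne with hxy | hxy
      · simp only [if_pos hxy, if_neg hxy.not_gt]
      · simp only [if_pos hxy, if_neg hxy.not_gt, Walk.reverse_reverse]
  let a : V → V → ZMod 4 := fun u x =>
    if u ∈ G.support ∧ x ∈ G.support then T.a (f u) (f x) else if u < x then 0 else 1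
  refine ⟨⟨a, fun u x y => if h : u ∈ G.support ∧ G.Adj x y then T.thW (f u) (p x y h.2)
    else a u y - a u x, fun u x hux => ?_, fun u x y h hx hy => ?_, fun u x y h hx hy => ?_,
    fun x y u v h h' h1 h2 h3 h4 => ?_⟩⟩
  · by_cases hs : u ∈ G.support ∧ x ∈ G.support
    · simp only [a, if_pos hs, if_pos hs.symm]
      exact T.a_anti _ _ fun e => hux (hf hs.1 hs.2 e)
    · simp only [a, if_neg hs, if_neg (fun h : x ∈ G.support ∧ u ∈ G.support => hs h.symm)]
      exact ite_lt_anti hux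
  · by_cases hu : u ∈ G.support
    · rw [dif_pos ⟨hu, h.symm⟩, dif_pos ⟨hu, h⟩, hrev x y h]
      exact T.thW_reverse _ fun hm => hav x y u h hu hx hy (hp x y h _ hm)
    · rw [dif_neg fun k => hu k.1, dif_neg fun k => hu k.1, neg_sub]
  · by_cases hu : u ∈ G.support
    · rw [dif_pos ⟨hu, h⟩]
      simp only [a, if_pos (And.intro hu h.mem_support_left),
        if_pos (And.intro hu h.mem_support_right)]
      exact T.thW_parity _ fun hm => hav x y u h hu hx hy (hp x y h _ hm)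
    · rw [dif_neg fun k => hu k.1]
  · rw [dif_pos ⟨h'.mem_support_left, h⟩, dif_pos ⟨h.mem_support_right, h'⟩,
      dif_pos ⟨h'.mem_support_right, h⟩, dif_pos ⟨h.mem_support_left, h'⟩]
    exact T.thW_sq _ _ fun z hz hz' =>
      Set.disjoint_left.1 (hdisj x y u v h h' h1 h2 h3 h4) (hp x y h z hz) (hp u v h' z hz')

theorem isVK_of_forall_not_adj (h : ∀ x y, ¬ G.Adj x y) : IsVK G := by
  classical
  let _ : LinearOrder V := linearOrderOfSTO WellOrderingRel
  exact ⟨⟨fun u x => if u < x then 0 else 1, fun _ _ _ => 0, fun _ _ hux => ite_lt_anti hux,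
    fun _ x y k => (h x y k).elim, fun _ x y k => (h x y k).elim,
    fun x y _ _ k => (h x y k).elim⟩⟩

theorem IsVK.of_minorOn {H : SimpleGraph W} (hH : IsVK H) (h : MinorOn G H) : IsVK G := by
  obtain ⟨B, h1, h2, h3⟩ := h
  by_cases hG : ∀ x y, ¬ G.Adj x y
  · exact isVK_of_forall_not_adj hG
  push Not at hG
  obtain ⟨x₀, y₀, h₀⟩ := hG
  have : Nonempty W := ⟨(h1 x₀ h₀.mem_support_left).1.some⟩
  choose! r hr using fun x hx => (h1 x hx).1
  refine hH.pullback G r (fun x hx y hy e => ?_) (fun x y => B x ∪ B y)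
    (fun x y => Set.union_comm _ _) (fun x y hxy => ?_) (fun x y z hxy hz hx hy => ?_)
    (fun x y u v h h' k1 k2 k3 k4 => ?_)
  · by_contra hne
    exact Set.disjoint_left.1 (h2 x hx y hy hne) (hr x hx) (e ▸ hr y hy)
  · exact ((h1 x hxy.mem_support_left).union_of_sAdj (h1 y hxy.mem_support_right)
      (h3 x y hxy)).rIn (Or.inl (hr x hxy.mem_support_left)) (Or.inr (hr y hxy.mem_support_right))
  · rintro (k | k)
    · exact Set.disjoint_left.1 (h2 z hz x hxy.mem_support_left hx) (hr z hz) k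
    · exact Set.disjoint_left.1 (h2 z hz y hxy.mem_support_right hy) (hr z hz) k
  · simp only [Set.disjoint_union_left, Set.disjoint_union_right]
    exact ⟨⟨h2 x h.mem_support_left u h'.mem_support_left k1.symm,
      h2 y h.mem_support_right u h'.mem_support_left k2.symm⟩,
      h2 x h.mem_support_left v h'.mem_support_right k3.symm,
      h2 y h.mem_support_right v h'.mem_support_right k4.symm⟩

theorem not_isVK_K5 : ¬ IsVK K5 := by
  rintro ⟨T⟩
  have h4 : (4 : ZMod 4) = 0 := rfl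
  have sq : ∀ x y u v : Fin 5, (x ≠ y ∧ u ≠ v ∧ u ≠ x ∧ u ≠ y ∧ v ≠ x ∧ v ≠ y) →
      T.θ u x y + T.θ y u v - T.θ v x y - T.θ x u v = 0 := fun x y u v h =>
    T.sq x y u v h.1 h.2.1 h.2.2.1 h.2.2.2.1 h.2.2.2.2.1 h.2.2.2.2.2
  have pa : ∀ u x y : Fin 5, (x ≠ y ∧ u ≠ x ∧ u ≠ y) →
      2 * T.θ u x y = 2 * (T.a u y - T.a u x) := fun u x y h =>
    T.parity u x y h.1 h.2.1 h.2.2
  have an := T.a_anti
  have h2 : (2 : ZMod 4) = 0 := by
    linear_combination
      sq 0 1 2 3 (by decide) + sq 0 1 2 4 (by decide) + sq 0 1 3 4 (by decide) +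
      sq 0 2 1 3 (by decide) + sq 0 2 1 4 (by decide) + sq 0 2 3 4 (by decide) +
      sq 0 3 1 2 (by decide) + sq 0 3 1 4 (by decide) + sq 0 3 2 4 (by decide) +
      sq 0 4 1 2 (by decide) + sq 0 4 1 3 (by decide) + sq 0 4 2 3 (by decide) +
      sq 1 2 3 4 (by decide) + sq 1 3 2 4 (by decide) + sq 1 4 2 3 (by decide) +
      (-1) * pa 2 0 1 (by decide) + pa 0 2 3 (by decide) + pa 4 0 1 (by decide) +
      pa 0 2 4 (by decide) + pa 0 3 4 (by decide) + (-1) * pa 1 0 2 (by decide) +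
      (-1) * pa 2 1 3 (by decide) + pa 0 1 3 (by decide) + (-1) * pa 2 1 4 (by decide) +
      pa 4 0 2 (by decide) + pa 0 1 4 (by decide) + (-1) * pa 2 3 4 (by decide) +
      (-1) * pa 1 0 3 (by decide) + (-1) * pa 3 1 2 (by decide) + pa 0 1 2 (by decide) +
      pa 4 0 3 (by decide) + (-1) * pa 3 2 4 (by decide) + (-1) * pa 1 0 4 (by decide) +
      pa 3 0 4 (by decide) + (-1) * pa 4 2 3 (by decide) + an 0 1 (by decide) +
      an 0 2 (by decide) + an 0 3 (by decide) + an 0 4 (by decide) + an 1 2 (by decide) +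
      an 1 3 (by decide) + an 1 4 (by decide) + (T.a 0 3 + (-2) * T.a 4 0 + (2) * T.a 0 4 +
      T.a 1 0 + (-1) * T.a 0 1 + (-1) * T.a 2 4 + T.a 4 2 + (-1) * T.a 3 0 +
      (4)) * h4
  exact absurd h2 (by decide)

theorem not_isVK_K33 : ¬ IsVK K33 := by
  rintro ⟨T⟩
  have h4 : (4 : ZMod 4) = 0 := rfl
  have sq : ∀ x y u v : Fin 3 ⊕ Fin 3, ((x.isLeft = true ∧ y.isRight = true) ∧
      (u.isLeft = true ∧ v.isRight = true) ∧ u ≠ x ∧ u ≠ y ∧ v ≠ x ∧ v ≠ y) →
      T.θ u x y + T.θ y u v - T.θ v x y - T.θ x u v = 0 := fun x y u v h =>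
    T.sq x y u v (Or.inl h.1) (Or.inl h.2.1) h.2.2.1 h.2.2.2.1 h.2.2.2.2.1 h.2.2.2.2.2
  have pa : ∀ u x y : Fin 3 ⊕ Fin 3, ((x.isLeft = true ∧ y.isRight = true) ∧ u ≠ x ∧ u ≠ y) →
      2 * T.θ u x y = 2 * (T.a u y - T.a u x) := fun u x y h =>
    T.parity u x y (Or.inl h.1) h.2.1 h.2.2
  have an := T.a_anti
  have h2 : (2 : ZMod 4) = 0 := by
    linear_combination
      sq (.inl 0) (.inr 0) (.inl 1) (.inr 1) (by decide) +
      sq (.inl 0) (.inr 0) (.inl 1) (.inr 2) (by decide) +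
      sq (.inl 0) (.inr 0) (.inl 2) (.inr 1) (by decide) +
      sq (.inl 0) (.inr 0) (.inl 2) (.inr 2) (by decide) +
      sq (.inl 0) (.inr 1) (.inl 1) (.inr 0) (by decide) +
      sq (.inl 0) (.inr 1) (.inl 1) (.inr 2) (by decide) +
      sq (.inl 0) (.inr 1) (.inl 2) (.inr 0) (by decide) +
      sq (.inl 0) (.inr 1) (.inl 2) (.inr 2) (by decide) +
      sq (.inl 0) (.inr 2) (.inl 1) (.inr 0) (by decide) +
      sq (.inl 0) (.inr 2) (.inl 1) (.inr 1) (by decide) +
      sq (.inl 0) (.inr 2) (.inl 2) (.inr 0) (by decide) +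
      sq (.inl 0) (.inr 2) (.inl 2) (.inr 1) (by decide) +
      sq (.inl 1) (.inr 0) (.inl 2) (.inr 1) (by decide) +
      sq (.inl 1) (.inr 0) (.inl 2) (.inr 2) (by decide) +
      sq (.inl 1) (.inr 1) (.inl 2) (.inr 0) (by decide) +
      sq (.inl 1) (.inr 1) (.inl 2) (.inr 2) (by decide) +
      sq (.inl 1) (.inr 2) (.inl 2) (.inr 0) (by decide) +
      sq (.inl 1) (.inr 2) (.inl 2) (.inr 1) (by decide) +
      (-1) * pa (.inl 1) (.inl 0) (.inr 0) (by decide) +
      pa (.inr 1) (.inl 0) (.inr 0) (by decide) + pa (.inl 0) (.inl 1) (.inr 1) (by decide) +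
      pa (.inr 2) (.inl 0) (.inr 0) (by decide) + pa (.inl 0) (.inl 1) (.inr 2) (by decide) +
      (-1) * pa (.inl 2) (.inl 0) (.inr 0) (by decide) +
      (-1) * pa (.inr 0) (.inl 2) (.inr 1) (by decide) +
      pa (.inl 0) (.inl 2) (.inr 1) (by decide) +
      (-1) * pa (.inr 0) (.inl 2) (.inr 2) (by decide) +
      pa (.inl 0) (.inl 2) (.inr 2) (by decide) +
      (-1) * pa (.inl 1) (.inl 0) (.inr 1) (by decide) +
      pa (.inr 0) (.inl 0) (.inr 1) (by decide) + pa (.inl 0) (.inl 1) (.inr 0) (by decide) +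
      pa (.inr 2) (.inl 0) (.inr 1) (by decide) +
      (-1) * pa (.inl 2) (.inl 0) (.inr 1) (by decide) +
      (-1) * pa (.inr 1) (.inl 2) (.inr 0) (by decide) +
      pa (.inl 0) (.inl 2) (.inr 0) (by decide) +
      (-1) * pa (.inr 1) (.inl 2) (.inr 2) (by decide) +
      (-1) * pa (.inl 1) (.inl 0) (.inr 2) (by decide) +
      pa (.inr 0) (.inl 0) (.inr 2) (by decide) + pa (.inr 1) (.inl 0) (.inr 2) (by decide) +
      (-1) * pa (.inl 2) (.inl 0) (.inr 2) (by decide) +
      (-1) * pa (.inr 2) (.inl 2) (.inr 0) (by decide) +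
      (-1) * pa (.inr 2) (.inl 2) (.inr 1) (by decide) +
      (-1) * pa (.inl 2) (.inl 1) (.inr 0) (by decide) +
      pa (.inl 1) (.inl 2) (.inr 1) (by decide) + pa (.inl 1) (.inl 2) (.inr 2) (by decide) +
      (-1) * pa (.inl 2) (.inl 1) (.inr 1) (by decide) +
      pa (.inl 1) (.inl 2) (.inr 0) (by decide) +
      (-1) * pa (.inl 2) (.inl 1) (.inr 2) (by decide) + an (.inl 0) (.inl 1) (by decide) +
      an (.inl 0) (.inl 2) (by decide) + an (.inl 1) (.inl 2) (by decide) +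
      (T.a (.inl 1) (.inl 0) + (-1) * T.a (.inr 1) (.inl 0) + T.a (.inl 0) (.inr 1) +
      (-1) * T.a (.inl 0) (.inl 1) + (-1) * T.a (.inr 2) (.inl 0) + T.a (.inl 0) (.inr 2) +
      (-1) * T.a (.inl 2) (.inr 0) + T.a (.inl 2) (.inl 0) + T.a (.inr 0) (.inl 2) +
      (-1) * T.a (.inl 0) (.inl 2) + (-1) * T.a (.inr 0) (.inl 0) + T.a (.inl 0) (.inr 0) +
      (-1) * T.a (.inl 2) (.inr 1) + T.a (.inr 1) (.inl 2) + (-1) * T.a (.inl 2) (.inr 2) +
      T.a (.inr 2) (.inl 2) + T.a (.inl 2) (.inl 1) + (-1) * T.a (.inl 1) (.inl 2) +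
      (2)) * h4
  exact absurd h2 (by decide)

theorem IsVK.planar (h : IsVK G) : Planar G := by
  refine ⟨fun ⟨B, h1, h2, h3⟩ => not_isVK_K5 (h.of_minorOn ?_),
    fun ⟨B, h1, h2, h3⟩ => not_isVK_K33 (h.of_minorOn ?_)⟩
  all_goals exact ⟨B, fun x _ => h1 x, fun x _ y _ => h2 x y, h3⟩

theorem isVK_K4 : IsVK (⊤ : SimpleGraph (Fin 4)) := by
  refine ⟨⟨fun u x => if u < x then 0 else 1,
    ![![![0, 0, 0, 0], ![0, 0, 0, 2], ![0, 0, 0, 0], ![0, 2, 0, 0]],
      ![![0, 0, 3, 3], ![0, 0, 0, 0], ![1, 0, 0, 0], ![1, 0, 0, 0]],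
      ![![0, 0, 0, 3], ![0, 0, 0, 3], ![0, 0, 0, 0], ![1, 1, 0, 0]],
      ![![0, 0, 0, 0], ![0, 0, 0, 0], ![0, 0, 0, 0], ![0, 0, 0, 0]]], ?_, ?_, ?_, ?_⟩⟩
  all_goals decide

theorem isVK_of_ncard_support_le [Finite V] (h : G.support.ncard ≤ 4) : IsVK G := by
  have hfin : G.support.Finite := Set.toFinite _
  obtain ⟨f, -, hf⟩ := hfin.exists_injOn_of_encard_le (t := (Set.univ : Set (Fin 4))) (by
    rw [← hfin.cast_ncard_eq, Set.encard_univ, ENat.card_eq_coe_fintype_card, Fintype.card_fin]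
    exact_mod_cast h)
  refine isVK_K4.pullback G f hf (fun x y => {f x, f y}) (fun x y => Set.pair_comm _ _)
    (fun x y hxy => ?_) (fun x y z hxy hz hx hy => ?_) (fun x y u v h h' k1 k2 k3 k4 => ?_)
  · exact RIn.of_adj (fun e => hxy.ne (hf hxy.mem_support_left hxy.mem_support_right e))
      (by simp) (by simp)
  · rintro (k | k)
    · exact hx (hf hz hxy.mem_support_left k)
    · exact hy (hf hz hxy.mem_support_right k)
  · rw [Set.disjoint_left]
    rintro _ (rfl | rfl) (k | k)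
    · exact k1 (hf h.mem_support_left h'.mem_support_left k).symm
    · exact k3 (hf h.mem_support_left h'.mem_support_right k).symm
    · exact k2 (hf h.mem_support_right h'.mem_support_left k).symm
    · exact k4 (hf h.mem_support_right h'.mem_support_right k).symm

end Pool.Agent.Lib.Common.Pl
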