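import Pool.Agent.Lib.Common.Planar.Sums
import Pool.Agent.Lib.Common.Planar.Rep
import Pool.Agent.Lib.Common.Planar.Link

/-! Graphs without `K₅` and `K₃,₃` minors carry a van Kampen cochain. -/

namespace Pool.Agent.Lib.Common.Pl

open SimpleGraph

variable {V W : Type} {G : SimpleGraph V}

/-- Two adjacent vertices with alternating neighbours on a cycle give `K₃,₃`. -/
theorem wagner_not_planar_alt (C : Cyc G) {x y : V} {i k j l : ℕ} (h1 : i < k) (h2 : k < j)
    (h3 : j < l) (h4 : l < i + C.n) (hxy : G.Adj x y) (hx : x ∉ C.verts) (hy : y ∉ C.verts)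
    (hi : G.Adj x (C.c i)) (hj : G.Adj x (C.c j)) (hk : G.Adj y (C.c k))
    (hl : G.Adj y (C.c l)) : ¬ Planar G := by
  have hin : C.c (i + C.n - 1 + 1) = C.c i := by
    rw [Nat.sub_add_cancel (by omega), C.per]
  have hs : ∀ s, 0 < s → G.Adj (C.c (s - 1)) (C.c s) := fun s hs => by
    have := C.adj (s - 1)
    rwa [Nat.sub_add_cancel hs] at this
  have hxa : ∀ s t, Disjoint {x} (C.arc s t) := fun s t =>
    Set.disjoint_singleton_left.2 fun h => hx (C.arc_subset_verts _ _ h)
  have hya : ∀ s t, Disjoint {y} (C.arc s t) := fun s t =>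
    Set.disjoint_singleton_left.2 fun h => hy (C.arc_subset_verts _ _ h)
  refine not_planar_of_K33 ![{x}, C.arc k (j - 1), C.arc l (i + C.n - 1)]
    ![{y}, C.arc i (k - 1), C.arc j (l - 1)] ?_ ?_ ?_ ?_ ?_ ?_
  · intro s
    fin_cases s
    exacts [connSet_singleton _ _, C.connSet_arc (by omega), C.connSet_arc (by omega)]
  · intro s
    fin_cases s
    exacts [connSet_singleton _ _, C.connSet_arc (by omega), C.connSet_arc (by omega)]
  · intro s t hst
    fin_cases s <;> fin_cases t <;> simp only [Fin.mk_lt_mk] at hst <;> try omega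
    · exact hxa _ _
    · exact hxa _ _
    · exact C.disjoint_arc (by omega) (by omega)
  · intro s t hst
    fin_cases s <;> fin_cases t <;> simp only [Fin.mk_lt_mk] at hst <;> try omega
    · exact hya _ _
    · exact hya _ _
    · exact C.disjoint_arc (by omega) (by omega)
  · intro s t
    fin_cases s <;> fin_cases t
    · exact Set.disjoint_singleton.2 hxy.ne
    · exact hxa _ _
    · exact hxa _ _
    · exact (hya _ _).symm
    · exact (C.disjoint_arc (by omega) (by omega)).symm
    · exact C.disjoint_arc (by omega) (by omega)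
    · exact (hya _ _).symm
    · exact (C.disjoint_arc (by omega) (by omega)).symm
    · exact (C.disjoint_arc (by omega) (by omega)).symm
  · intro s t
    fin_cases s <;> fin_cases t
    · exact ⟨_, rfl, _, rfl, hxy⟩
    · exact ⟨_, rfl, _, C.c_mem_arc le_rfl (by omega), hi⟩
    · exact ⟨_, rfl, _, C.c_mem_arc le_rfl (by omega), hj⟩
    · exact ⟨_, C.c_mem_arc le_rfl (by omega), _, rfl, hk.symm⟩
    · exact ⟨_, C.c_mem_arc le_rfl (by omega), _, C.c_mem_arc (by omega) le_rfl,
        (hs k (by omega)).symm⟩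
    · exact ⟨_, C.c_mem_arc (by omega) le_rfl, _, C.c_mem_arc le_rfl (by omega), hs j (by omega)⟩
    · exact ⟨_, C.c_mem_arc le_rfl (by omega), _, rfl, hl.symm⟩
    · exact ⟨_, C.c_mem_arc (l := i + C.n - 1) (by omega) le_rfl, _,
        C.c_mem_arc le_rfl (by omega), hin ▸ C.adj (i + C.n - 1)⟩
    · exact ⟨_, C.c_mem_arc le_rfl (by omega), _, C.c_mem_arc (by omega) le_rfl,
        (hs l (by omega)).symm⟩

/-- Two adjacent vertices with three common neighbours on a cycle give `K₅`. -/
theorem wagner_not_planar_three (C : Cyc G) {x y : V} {i j k : ℕ} (h1 : i < j) (h2 : j < k)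
    (h3 : k < i + C.n) (hxy : G.Adj x y) (hx : x ∉ C.verts) (hy : y ∉ C.verts)
    (hxi : G.Adj x (C.c i)) (hxj : G.Adj x (C.c j)) (hxk : G.Adj x (C.c k))
    (hyi : G.Adj y (C.c i)) (hyj : G.Adj y (C.c j)) (hyk : G.Adj y (C.c k)) : ¬ Planar G := by
  have hin : C.c (i + C.n - 1 + 1) = C.c i := by
    rw [Nat.sub_add_cancel (by omega), C.per]
  have hs : ∀ s, 0 < s → G.Adj (C.c (s - 1)) (C.c s) := fun s hs => by
    have := C.adj (s - 1)
    rwa [Nat.sub_add_cancel hs] at this
  have hxa : ∀ s t, Disjoint {x} (C.arc s t) := fun s t =>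
    Set.disjoint_singleton_left.2 fun h => hx (C.arc_subset_verts _ _ h)
  have hya : ∀ s t, Disjoint {y} (C.arc s t) := fun s t =>
    Set.disjoint_singleton_left.2 fun h => hy (C.arc_subset_verts _ _ h)
  refine not_planar_of_K5
    ![{x}, {y}, C.arc i (j - 1), C.arc j (k - 1), C.arc k (i + C.n - 1)] ?_ ?_ ?_
  · intro s
    fin_cases s
    exacts [connSet_singleton _ _, connSet_singleton _ _, C.connSet_arc (by omega),
      C.connSet_arc (by omega), C.connSet_arc (by omega)]
  · intro s t hst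
    fin_cases s <;> fin_cases t <;> simp only [Fin.mk_lt_mk] at hst <;> try omega
    · exact Set.disjoint_singleton.2 hxy.ne
    · exact hxa _ _
    · exact hxa _ _
    · exact hxa _ _
    · exact hya _ _
    · exact hya _ _
    · exact hya _ _
    · exact C.disjoint_arc (by omega) (by omega)
    · exact C.disjoint_arc (by omega) (by omega)
    · exact C.disjoint_arc (by omega) (by omega)
  · intro s t hst
    fin_cases s <;> fin_cases t <;> simp only [Fin.mk_lt_mk] at hst <;> try omega
    · exact ⟨_, rfl, _, rfl, hxy⟩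
    · exact ⟨_, rfl, _, C.c_mem_arc le_rfl (by omega), hxi⟩
    · exact ⟨_, rfl, _, C.c_mem_arc le_rfl (by omega), hxj⟩
    · exact ⟨_, rfl, _, C.c_mem_arc le_rfl (by omega), hxk⟩
    · exact ⟨_, rfl, _, C.c_mem_arc le_rfl (by omega), hyi⟩
    · exact ⟨_, rfl, _, C.c_mem_arc le_rfl (by omega), hyj⟩
    · exact ⟨_, rfl, _, C.c_mem_arc le_rfl (by omega), hyk⟩
    · exact ⟨_, C.c_mem_arc (by omega) le_rfl, _, C.c_mem_arc le_rfl (by omega), hs j (by omega)⟩
    · exact ⟨_, C.c_mem_arc le_rfl (by omega), _,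
        C.c_mem_arc (l := i + C.n - 1) (by omega) le_rfl, hin ▸ (C.adj (i + C.n - 1)).symm⟩
    · exact ⟨_, C.c_mem_arc (by omega) le_rfl, _, C.c_mem_arc le_rfl (by omega), hs k (by omega)⟩

/-- An edge may be added to a subgraph if its ends are joined through an unused connected set. -/
theorem Planar.sup_edge_of_conn (h : Planar G) {H : SimpleGraph V} (hH : H ≤ G) {D : Set V}
    {a b : V} (hD : ConnSet G D) (hDH : Disjoint D H.support) (ha : a ∉ D) (hb : b ∉ D)
    (haD : SAdj G D {a}) (hbD : SAdj G D {b}) : Planar (H ⊔ edge a b) := by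
  classical
  have hsup : ∀ x ∈ (H ⊔ edge a b).support, x ∉ D := by
    rintro x ⟨y, hxy | hxy⟩ hx
    · exact Set.disjoint_left.1 hDH hx hxy.mem_support_left
    · rcases (edge_adj _ _ _ _).1 hxy with ⟨⟨rfl, -⟩ | ⟨rfl, -⟩, -⟩
      exacts [ha hx, hb hx]
  have hmem : ∀ x, x ∈ (if x = a then D ∪ {a} else {x} : Set V) := fun x => by
    split_ifs with hx
    · exact Or.inr hx
    · rfl
  refine h.of_minorOn ⟨fun x => if x = a then D ∪ {a} else {x}, ?_, ?_, ?_⟩
  · intro x _
    dsimp only
    split_ifs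
    · exact hD.union_of_sAdj (connSet_singleton _ _) haD
    · exact connSet_singleton _ _
  · intro x hx y hy hxy
    dsimp only
    split_ifs with h1 h2 h2
    · exact absurd (h1.trans h2.symm) hxy
    · exact Set.disjoint_singleton_right.2 fun h => h.elim (hsup y hy) h2
    · exact Set.disjoint_singleton_left.2 fun h => h.elim (hsup x hx) h1
    · exact Set.disjoint_singleton.2 hxy
  · have key : a ≠ b → SAdj G (if a = a then D ∪ {a} else {a} : Set V)
        (if b = a then D ∪ {a} else {b} : Set V) := by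
      intro hab
      rw [if_pos rfl, if_neg hab.symm]
      exact hbD.mono Set.subset_union_left le_rfl
    rintro x y (hxy | hxy)
    · exact ⟨x, hmem x, y, hmem y, hH hxy⟩
    · rcases (edge_adj _ _ _ _).1 hxy with ⟨⟨rfl, rfl⟩ | ⟨rfl, rfl⟩, hne⟩
      · exact key hne
      · exact (key hne.symm).symm

/-- The splitting step of Thomassen's proof. -/
theorem wagner_split (h : Planar G) {x y : V} (hxy : G.Adj x y)
    (h' : IsVK (G.map (contr {x, y} x))) (C : Cyc G) (hC : Disjoint C.verts {x, y})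
    (hbd : bd G {x, y} ⊆ C.verts) : IsVK G := by
  have hx : x ∉ C.verts := fun hx => Set.disjoint_left.1 hC hx (Or.inl rfl)
  have hy : y ∉ C.verts := fun hy => Set.disjoint_left.1 hC hy (Or.inr rfl)
  have hX : ∀ a, G.Adj x a → a ≠ y → a ∈ C.verts := fun a ha hay =>
    hbd ⟨fun h => h.elim ha.ne' hay, x, Or.inl rfl, ha.symm⟩
  have hY : ∀ a, G.Adj y a → a ≠ x → a ∈ C.verts := fun a ha hax =>
    hbd ⟨fun h => h.elim hax ha.ne', y, Or.inr rfl, ha.symm⟩
  have hxa : ∀ s t, x ∉ C.arc s t := fun s t h => hx (C.arc_subset_verts _ _ h)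
  have hya : ∀ s t, y ∉ C.arc s t := fun s t h => hy (C.arc_subset_verts _ _ h)
  refine isVK_of_split hxy h' ?_ ?_
  · intro a a' b b' ha ha' hb hb' hay hay' hbx hbx' haa hbb hab hab' hab2 hab2'
    obtain ⟨i, rfl⟩ := hX a ha hay
    obtain ⟨j, hj1, hj2, rfl⟩ := C.exists_pos (hX a' ha' hay') i
    obtain ⟨k, hk1, hk2, rfl⟩ := C.exists_pos (hY b hb hbx) i
    obtain ⟨l, hl1, hl2, rfl⟩ := C.exists_pos (hY b' hb' hbx') i
    have hij : i ≠ j := fun e => haa (by rw [e])
    have hik : i ≠ k := fun e => hab (by rw [e])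
    have hil : i ≠ l := fun e => hab' (by rw [e])
    have hjk : j ≠ k := fun e => hab2 (by rw [e])
    have hjl : j ≠ l := fun e => hab2' (by rw [e])
    by_cases hk : k < j <;> by_cases hl : l < j
    · refine ⟨C.arc j (i + C.n), C.arc (i + 1) (j - 1),
        (C.disjoint_arc (by omega) (by omega)).symm, hxa _ _, hya _ _, hxa _ _, hya _ _, ?_, ?_⟩
      · refine (C.connSet_arc (by omega)).rIn ?_ (C.c_mem_arc le_rfl (by omega))
        rw [← C.per i]
        exact C.c_mem_arc (by omega) le_rfl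
      · exact (C.connSet_arc (by omega)).rIn (C.c_mem_arc (by omega) (by omega))
          (C.c_mem_arc (by omega) (by omega))
    · exact absurd h (wagner_not_planar_alt C (i := i) (k := k) (j := j) (l := l) (by omega) hk
        (by omega) hl2 hxy hx hy ha ha' hb hb')
    · exact absurd h (wagner_not_planar_alt C (i := i) (k := l) (j := j) (l := k) (by omega) hl
        (by omega) hk2 hxy hx hy ha ha' hb' hb)
    · refine ⟨C.arc i j, C.arc (j + 1) (i + C.n - 1),
        C.disjoint_arc (by omega) (by omega), hxa _ _, hya _ _, hxa _ _, hya _ _,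
        C.rIn_arc hj1, ?_⟩
      exact (C.connSet_arc (by omega)).rIn (C.c_mem_arc (by omega) (by omega))
        (C.c_mem_arc (by omega) (by omega))
  · intro a b c hxa' hya' hxb hyb hxc hyc
    by_contra hcon
    push Not at hcon
    obtain ⟨hab, hac, hbc⟩ := hcon
    obtain ⟨i, rfl⟩ := hX a hxa' hya'.ne'
    obtain ⟨j, hj1, hj2, rfl⟩ := C.exists_pos (hX b hxb hyb.ne') i
    obtain ⟨k, hk1, hk2, rfl⟩ := C.exists_pos (hX c hxc hyc.ne') i
    have hij : i ≠ j := fun e => hab (by rw [e])
    have hik : i ≠ k := fun e => hac (by rw [e])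
    have hjk : j ≠ k := fun e => hbc (by rw [e])
    rcases lt_or_gt_of_ne hjk with hlt | hlt
    · exact wagner_not_planar_three C (by omega) hlt hk2 hxy hx hy hxa' hxb hxc hya' hyb hyc h
    · exact wagner_not_planar_three C (by omega) hlt hj2 hxy hx hy hxa' hxc hxb hya' hyc hyb h

theorem Planar.isVK [Finite V] (h : Planar G) : IsVK G := by
  induction hn : G.support.ncard using Nat.strong_induction_on generalizing G with
  | _ n ih =>
  have IH : ∀ H : SimpleGraph V, Planar H → ∀ u ∈ G.support, H.support ⊆ G.support →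
      u ∉ H.support → IsVK H := fun H hH u hu hsub hu' =>
    ih _ (hn ▸ Set.ncard_lt_ncard ⟨hsub, fun h => hu' (h hu)⟩) hH rfl
  by_cases h4 : G.support.ncard ≤ 4
  · exact isVK_of_ncard_support_le h4
  have h5 : 5 ≤ G.support.ncard := by omega
  have hne : ∀ a b : V, (G.support \ {a, b}).Nonempty := fun a b => by
    obtain ⟨c, hc, hc'⟩ := link_exists_notMem (T := G.support) (U := {a, b})
      (lt_of_le_of_lt (Set.ncard_insert_le _ _) (by rw [Set.ncard_singleton]; omega))
    exact ⟨c, hc, hc'⟩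
  -- the support of the edges meeting a component
  have hinc : ∀ (Z : Set V) (u : V), (inc G (comp G (G.support \ Z) u)).support ⊆
      comp G (G.support \ Z) u ∪ Z := by
    intro Z u x hx
    rcases support_inc_subset hx with h | h
    · exact Or.inl h
    · right
      by_contra hZ
      exact bd_comp_subset h ⟨support_mono inc_le hx, hZ⟩
  by_cases h1 : ∀ a, ConnSet G (G.support \ {a})
  swap
  · push Not at h1
    obtain ⟨a, ha⟩ := h1
    obtain ⟨u, hu, u', hu', huu⟩ := link_not_connSet (by simpa using hne a a) ha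
    rw [← inc_sup_res G (comp G (G.support \ {a}) u)]
    refine IsVK.sup_one (IH _ (h.mono inc_le) u' hu'.1 (support_mono inc_le) ?_)
      (IH _ (h.mono res_le) u hu.1 (support_mono res_le) ?_) a ?_
    · exact fun hx => (hinc _ _ hx).elim huu hu'.2
    · exact fun hx => support_res_subset hx (mem_comp_self hu)
    · exact fun x hx => (hinc _ _ hx.1).elim (fun h => absurd h (support_res_subset hx.2)) id
  by_cases h3 : ThreeConnOn G G.support
  swap
  · unfold ThreeConnOn at h3
    push Not at h3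
    obtain ⟨a, b, hab⟩ := h3
    obtain ⟨u, hu, u', hu', huu⟩ := link_not_connSet (hne a b) hab
    have hab' : a ≠ b := by
      rintro rfl
      exact hab (by simpa using h1 a)
    have e1 : (G.support \ {b}) \ {a} = G.support \ {a, b} := by
      ext t
      simp only [Set.mem_sdiff, Set.mem_insert_iff, Set.mem_singleton_iff]
      tauto
    have e2 : (G.support \ {a}) \ {b} = G.support \ {a, b} := by
      ext t
      simp only [Set.mem_sdiff, Set.mem_insert_iff, Set.mem_singleton_iff]
      tauto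
    have att : ∀ u ∈ G.support \ {a, b}, ∀ u' ∈ G.support \ {a, b},
        u' ∉ comp G (G.support \ {a, b}) u →
        SAdj G (comp G (G.support \ {a, b}) u) {a} ∧
          SAdj G (comp G (G.support \ {a, b}) u) {b} := by
      intro u hu u' hu' huu
      obtain ⟨v, hv, hva⟩ := link_exit (h1 b) (z := a) (u := u) (u' := u') (e1 ▸ hu)
        ⟨hu'.1, fun h => hu'.2 (Or.inr h)⟩ (by rw [e1]; exact huu)
      obtain ⟨w, hw, hwb⟩ := link_exit (h1 a) (z := b) (u := u) (u' := u') (e2 ▸ hu)
        ⟨hu'.1, fun h => hu'.2 (Or.inl h)⟩ (by rw [e2]; exact huu)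
      rw [e1] at hv
      rw [e2] at hw
      exact ⟨⟨v, hv, a, rfl, hva⟩, ⟨w, hw, b, rfl, hwb⟩⟩
    have huu' : u ∉ comp G (G.support \ {a, b}) u' := fun h => huu (RIn.symm h)
    obtain ⟨haD, hbD⟩ := att u hu u' hu' huu
    obtain ⟨haD', hbD'⟩ := att u' hu' u hu huu'
    set D := comp G (G.support \ {a, b}) u with hD
    set D' := comp G (G.support \ {a, b}) u' with hD'
    have hDs : D ⊆ G.support \ {a, b} := comp_subset
    have hDs' : D' ⊆ G.support \ {a, b} := comp_subset
    have haS : a ∈ G.support := by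
      obtain ⟨v, -, _, rfl, hva⟩ := haD
      exact hva.mem_support_right
    have hbS : b ∈ G.support := by
      obtain ⟨v, -, _, rfl, hva⟩ := hbD
      exact hva.mem_support_right
    have hedge : ∀ H : SimpleGraph V, (H ⊔ edge a b).support ⊆ H.support ∪ {a, b} := by
      rintro H x ⟨y, hxy | hxy⟩
      · exact Or.inl hxy.mem_support_left
      · rcases (edge_adj _ _ _ _).1 hxy with ⟨⟨rfl, -⟩ | ⟨rfl, -⟩, -⟩
        exacts [Or.inr (Or.inl rfl), Or.inr (Or.inr rfl)]
    have hsubS : ∀ H : SimpleGraph V, H ≤ G → (H ⊔ edge a b).support ⊆ G.support := by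
      intro H hH x hx
      rcases hedge H hx with h | rfl | rfl
      exacts [support_mono hH h, haS, hbS]
    have hadj : ∀ H : SimpleGraph V, (H ⊔ edge a b).Adj a b := fun H =>
      Or.inr ((edge_adj _ _ _ _).2 ⟨Or.inl ⟨rfl, rfl⟩, hab'⟩)
    have p1 : Planar (inc G D ⊔ edge a b) := by
      refine h.sup_edge_of_conn inc_le (connSet_comp hu') ?_ (fun h => (hDs' h).2 (Or.inl rfl))
        (fun h => (hDs' h).2 (Or.inr rfl)) haD' hbD'
      refine Set.disjoint_left.2 fun x hx hx' => ?_
      rcases hinc _ _ hx' with h | h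
      · exact huu (RIn.trans h (RIn.symm hx))
      · exact (hDs' hx).2 h
    have p2 : Planar (res G Dᶜ ⊔ edge a b) :=
      h.sup_edge_of_conn res_le (connSet_comp hu)
        (Set.disjoint_left.2 fun x hx hx' => support_res_subset hx' hx)
        (fun h => (hDs h).2 (Or.inl rfl)) (fun h => (hDs h).2 (Or.inr rfl)) haD hbD
    refine (IsVK.sup_two (IH _ p1 u' hu'.1 (hsubS _ inc_le) ?_)
      (IH _ p2 u hu.1 (hsubS _ res_le) ?_) (hadj _) (hadj _) ?_).mono ?_
    · intro hx
      rcases hedge _ hx with h | h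
      · exact (hinc _ _ h).elim huu hu'.2
      · exact hu'.2 h
    · intro hx
      rcases hedge _ hx with h | h
      · exact support_res_subset h (mem_comp_self hu)
      · exact hu.2 h
    · rintro x ⟨hx1, hx2⟩
      rcases hedge _ hx1 with h | h
      · rcases hinc _ _ h with h | h
        · rcases hedge _ hx2 with h' | h'
          · exact absurd h (support_res_subset h')
          · exact h'
        · exact h
      · exact h
    · conv_lhs => rw [← inc_sup_res G D]
      exact sup_le_sup le_sup_left le_sup_left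
  obtain ⟨x, y, hxy, hc⟩ := exists_contractible le_rfl h5 h3
  obtain ⟨C, hC, hbd⟩ := exists_link_cyc h le_rfl (connSet_pair hxy) (by
    have h6 := Set.ncard_insert_le x ({y} : Set V)
    rw [Set.ncard_singleton] at h6
    have h7 := Set.le_ncard_sdiff ({x, y} : Set V) G.support
    omega) hc
  refine wagner_split h hxy (IH _ (h.map_contr (connSet_pair hxy) (Or.inl rfl)) y
    hxy.mem_support_right ?_ ?_) C hC hbd
  · rintro _ ⟨_, -, a, b, hab, rfl, rfl⟩
    by_cases ha : a ∈ ({x, y} : Set V)
    · rw [contr_of_mem ha]; exact hxy.mem_support_left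
    · rw [contr_of_notMem ha]; exact hab.mem_support_left
  · rintro ⟨_, -, a, b, -, ha', rfl⟩
    by_cases ha : a ∈ ({x, y} : Set V)
    · rw [contr_of_mem ha] at ha'; exact hxy.ne ha'
    · rw [contr_of_notMem ha] at ha'; exact ha (Or.inr ha')

theorem Planar.pullback [Finite W] {H : SimpleGraph W} (hH : Planar H) (G : SimpleGraph V)
    (f : V → W) (hf : Set.InjOn f G.support) (S : V → V → Set W) (hsymm : ∀ x y, S x y = S y x)
    (hjoin : ∀ x y, G.Adj x y → RIn H (S x y) (f x) (f y))
    (hav : ∀ x y z, G.Adj x y → z ∈ G.support → z ≠ x → z ≠ y → f z ∉ S x y)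
    (hdisj : ∀ x y u v, G.Adj x y → G.Adj u v → u ≠ x → u ≠ y → v ≠ x → v ≠ y →
      Disjoint (S x y) (S u v)) : Planar G :=
  (hH.isVK.pullback G f hf S hsymm hjoin hav hdisj).planar

theorem Planar.sup_one [Finite V] {G₁ G₂ : SimpleGraph V} (h₁ : Planar G₁) (h₂ : Planar G₂)
    (a : V) (h : G₁.support ∩ G₂.support ⊆ {a}) : Planar (G₁ ⊔ G₂) :=
  (h₁.isVK.sup_one h₂.isVK a h).planar

theorem Planar.sup_two [Finite V] {G₁ G₂ : SimpleGraph V} (h₁ : Planar G₁) (h₂ : Planar G₂)
    {a b : V} (hab₁ : G₁.Adj a b) (hab₂ : G₂.Adj a b) (h : G₁.support ∩ G₂.support ⊆ {a, b}) :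
    Planar (G₁ ⊔ G₂) :=
  (h₁.isVK.sup_two h₂.isVK hab₁ hab₂ h).planar

theorem planar_of_split_cyc [Finite V] {x y : V} (hxy : G.Adj x y)
    (h : Planar (G.map (contr {x, y} x))) (C : Cyc G) (hx : x ∉ C.verts) (hy : y ∉ C.verts)
    {i j : ℕ} (hij : i < j) (hj : j < i + C.n) (hY : ∀ b, G.Adj y b → b ≠ x → b ∈ C.arc i j)
    (hX : ∀ a, G.Adj x a → a ≠ y → a ∈ C.arc j (i + C.n)) : Planar G :=
  (isVK_of_split_cyc hxy h.isVK C hx hy hij hj hY hX).planar

theorem planar_of_rep [Finite V] {K : Set V} {k₀ : V} (hk : k₀ ∈ K) (hK : ConnSet G K)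
    (C : Cyc G) (hCK : Disjoint C.verts K) (hbd : bd G K ⊆ C.verts)
    (h₁ : Planar (inc G K ⊔ C.graph)) (h₂ : Planar (G.map (contr K k₀))) : Planar G :=
  (isVK_of_rep hk hK C hCK hbd h₁.isVK h₂.isVK).planar

theorem planar_of_ncard_support_le [Finite V] (h : G.support.ncard ≤ 4) : Planar G :=
  (isVK_of_ncard_support_le h).planar

end Pool.Agent.Lib.Common.Pl
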