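import Pool.Agent.Lib.Common.Planar.VK

/-! A drawing in which independent edges are disjoint gives a van Kampen cochain. -/

namespace Pool.Agent.Lib.Common.Pl

open SimpleGraph

variable {V : Type}

/-- `Λ` is the increment on `[0, 1]` of a continuous logarithm of a multiple of `F`. -/
def LogInc (F : ℝ → ℂ) (Λ : ℂ) : Prop :=
  ∃ (L : ℝ → ℂ) (c : ℂ), Continuous L ∧ (∀ t, Complex.exp (L t) = c * F t) ∧ Λ = L 1 - L 0

theorem exists_log {X : Type} [NormedAddCommGroup X] [NormedSpace ℝ X] {F : X → ℂ}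
    (hF : Continuous F) (h0 : ∀ t, F t ≠ 0) :
    ∃ L : X → ℂ, Continuous L ∧ ∀ t, Complex.exp (L t) = F t := by
  have h1 : IsSimplyConnected (Set.univ : Set X) := by
    have := (convex_univ (𝕜 := ℝ) (E := X)).contractibleSpace Set.univ_nonempty
    exact SimplyConnectedSpace.ofContractible _
  obtain ⟨L, hL, hL'⟩ := Complex.exists_continuousOn_eqOn_exp_comp h1 isOpen_univ
    hF.continuousOn (by
      rintro ⟨t, -, ht⟩
      exact h0 t ht)
  exact ⟨L, continuousOn_univ.1 hL, fun t => hL' (Set.mem_univ t)⟩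

theorem LogInc.unique {F : ℝ → ℂ} {Λ Λ' : ℂ} (h : LogInc F Λ) (h' : LogInc F Λ') : Λ = Λ' := by
  obtain ⟨L, c, hL, hc, rfl⟩ := h
  obtain ⟨L', c', hL', hc', rfl⟩ := h'
  have h1 : ∀ t, Complex.exp (L t - L' t) = c / c' := by
    intro t
    have h2 := Complex.exp_ne_zero (L' t)
    rw [hc'] at h2
    rw [Complex.exp_sub, hc, hc', mul_div_mul_right _ _ (right_ne_zero_of_mul h2)]
  have h3 := Complex.isCoveringMap_exp.const_of_comp (g := fun t => L t - L' t) (hL.sub hL')
    (fun s t => Subtype.ext ((h1 s).trans (h1 t).symm)) 1 0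
  linear_combination h3

theorem LogInc.rev {F : ℝ → ℂ} {Λ : ℂ} (h : LogInc F Λ) :
    LogInc (fun t => F (1 - t)) (-Λ) := by
  obtain ⟨L, c, hL, hc, rfl⟩ := h
  exact ⟨fun t => L (1 - t), c, by fun_prop, fun t => hc _, by simp⟩

theorem LogInc.exp_mul {F : ℝ → ℂ} {Λ : ℂ} (h : LogInc F Λ) : Complex.exp Λ * F 0 = F 1 := by
  obtain ⟨L, c, -, hc, rfl⟩ := h
  have h2 := Complex.exp_ne_zero (L 0)
  rw [hc] at h2
  have h3 := left_ne_zero_of_mul h2
  have h4 := right_ne_zero_of_mul h2
  rw [Complex.exp_sub, hc, hc]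
  field_simp

theorem logInc_sq {γ δ : ℝ → ℂ} (hγ : Continuous γ) (hδ : Continuous δ) (h : ∀ s t, γ s ≠ δ t)
    {A B C D : ℂ} (hA : LogInc (fun s => γ s - δ 0) A) (hB : LogInc (fun t => δ t - γ 1) B)
    (hC : LogInc (fun s => γ s - δ 1) C) (hD : LogInc (fun t => δ t - γ 0) D) :
    A + B - C - D = 0 := by
  obtain ⟨M, hM, hM'⟩ := exists_log (F := fun q : ℝ × ℝ => γ q.1 - δ q.2) (by fun_prop)
    fun q => sub_ne_zero.2 (h _ _)
  have a1 := hA.unique ⟨fun s => M (s, 0), 1, by fun_prop, fun s => by simp [hM'], rfl⟩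
  have a2 := hB.unique ⟨fun t => M (1, t), -1, by fun_prop, fun s => by simp [hM'], rfl⟩
  have a3 := hC.unique ⟨fun s => M (s, 1), 1, by fun_prop, fun s => by simp [hM'], rfl⟩
  have a4 := hD.unique ⟨fun t => M (0, t), -1, by fun_prop, fun s => by simp [hM'], rfl⟩
  linear_combination a1 + a2 - a3 - a4

theorem isVK_of_weakDrawing (G : SimpleGraph V) (pos : V → ℝ × ℝ)
    (hinj : Function.Injective pos) (S : V → V → Set (ℝ × ℝ)) (hsymm : ∀ x y, S x y = S y x)
    (hjoin : ∀ x y, G.Adj x y → JoinedIn (S x y) (pos x) (pos y))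
    (hav : ∀ x y z, G.Adj x y → z ≠ x → z ≠ y → pos z ∉ S x y)
    (hdisj : ∀ x y u v, G.Adj x y → G.Adj u v → u ≠ x → u ≠ y → v ≠ x → v ≠ y →
      Disjoint (S x y) (S u v)) : IsVK G := by
  classical
  let _ : LinearOrder V := linearOrderOfSTO WellOrderingRel
  let e : ℝ × ℝ → ℂ := Complex.equivRealProdCLM.symm
  have he : Function.Injective e := Complex.equivRealProdCLM.symm.injective
  have hec : Continuous e := Complex.equivRealProdCLM.symm.continuous
  -- parametrised arcs
  have h0 : ∀ x y, G.Adj x y → ∃ g : ℝ → ℝ × ℝ, Continuous g ∧ g 0 = pos x ∧ g 1 = pos y ∧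
      ∀ t, g t ∈ S x y := by
    intro x y h
    obtain ⟨γ, hγ⟩ := hjoin x y h
    refine ⟨γ.extend, γ.continuous_extend, γ.extend_zero, γ.extend_one, fun t => ?_⟩
    obtain ⟨s, hs⟩ : γ.extend t ∈ Set.range γ := γ.extend_range ▸ Set.mem_range_self t
    exact hs ▸ hγ s
  choose! g₀ hg₀ using h0
  obtain ⟨g, hg, hrev⟩ : ∃ g : V → V → ℝ → ℝ × ℝ, (∀ x y, G.Adj x y → Continuous (g x y) ∧
      g x y 0 = pos x ∧ g x y 1 = pos y ∧ ∀ t, g x y t ∈ S x y) ∧
      ∀ x y, G.Adj x y → ∀ t, g y x t = g x y (1 - t) := by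
    refine ⟨fun x y => if x < y then g₀ x y else fun t => g₀ y x (1 - t), ?_, ?_⟩
    · intro x y h
      by_cases hxy : x < y
      · simp only [if_pos hxy]
        exact hg₀ x y h
      · simp only [if_neg hxy]
        obtain ⟨k1, k2, k3, k4⟩ := hg₀ y x h.symm
        exact ⟨by fun_prop, by simpa using k3, by simpa using k2, fun t => hsymm x y ▸ k4 _⟩
    · intro x y h t
      rcases lt_or_gt_of_ne h.ne with hxy | hxy
      · simp only [if_pos hxy, if_neg hxy.not_gt]
      · simp only [if_pos hxy, if_neg hxy.not_gt, sub_sub_cancel]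
  -- directions
  let a : V → V → ℤ := fun u x => if u < x then 0 else 1
  let l : V → V → ℂ := fun u x => Complex.log (e (pos (max u x)) - e (pos (min u x)))
  have hl : ∀ u x, l u x = l x u := fun u x => by simp only [l, max_comm u x, min_comm u x]
  have hla : ∀ u x, u ≠ x →
      Complex.exp (l u x + a u x * (Real.pi * Complex.I)) = e (pos x) - e (pos u) := by
    intro u x hux
    have hne : e (pos x) - e (pos u) ≠ 0 := sub_ne_zero.2 fun k => hux (hinj (he k)).symm
    rcases lt_or_gt_of_ne hux with h | h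
    · simp only [l, a, if_pos h, max_eq_right h.le, min_eq_left h.le, Int.cast_zero, zero_mul,
        add_zero, Complex.exp_log hne]
    · have hne' : e (pos u) - e (pos x) ≠ 0 := sub_ne_zero.2 fun k => hux (hinj (he k))
      simp only [l, a, if_neg h.not_gt, max_eq_left h.le, min_eq_right h.le, Int.cast_one, one_mul,
        Complex.exp_add, Complex.exp_log hne', Complex.exp_pi_mul_I]
      ring
  have hex : ∀ u x y, G.Adj x y → u ≠ x → u ≠ y → ∃ n : ℤ,
      LogInc (fun t => e (g x y t) - e (pos u))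
        (l u y - l u x + ((a u y - a u x + 2 * n : ℤ) : ℂ) * (Real.pi * Complex.I)) := by
    intro u x y h hx hy
    obtain ⟨k1, k2, k3, k4⟩ := hg x y h
    obtain ⟨L, hL, hL'⟩ := exists_log (F := fun t => e (g x y t) - e (pos u)) (by fun_prop)
      fun t => sub_ne_zero.2 fun k => hav x y u h hx hy (he k ▸ k4 t)
    have h1 : LogInc (fun t => e (g x y t) - e (pos u)) (L 1 - L 0) :=
      ⟨L, 1, hL, fun t => by rw [hL', one_mul], rfl⟩
    have h2 := h1.exp_mul
    simp only [k2, k3] at h2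
    rw [← hla u x hx, ← hla u y hy, ← Complex.exp_add, Complex.exp_eq_exp_iff_exists_int] at h2
    obtain ⟨n, hn⟩ := h2
    refine ⟨n, ?_⟩
    have h3 : l u y - l u x + ((a u y - a u x + 2 * n : ℤ) : ℂ) * (Real.pi * Complex.I) =
        L 1 - L 0 := by
      push_cast
      linear_combination -hn
    rwa [h3]
  choose! n hn using hex
  have hπ : (Real.pi * Complex.I : ℂ) ≠ 0 :=
    mul_ne_zero (by exact_mod_cast Real.pi_ne_zero) Complex.I_ne_zero
  have h4 : (4 : ZMod 4) = 0 := rfl
  refine ⟨⟨fun u x => (a u x : ZMod 4), fun u x y => ((a u y - a u x + 2 * n u x y : ℤ) : ZMod 4),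
    fun u x hux => ?_, fun u x y h hx hy => ?_, fun u x y h hx hy => ?_,
    fun x y u v h h' h1 h2 h3 h5 => ?_⟩⟩
  · simpa only [a, Int.cast_ite, Int.cast_zero, Int.cast_one] using ite_lt_anti hux
  · have k1 := (hn u x y h hx hy).rev
    have k2 := hn u y x h.symm hy hx
    simp only [hrev x y h] at k2
    have k3 := k1.unique k2
    have k4 : ((a u x - a u y + 2 * n u y x : ℤ) : ℂ) = ((-(a u y - a u x + 2 * n u x y) : ℤ) : ℂ) := by
      apply mul_right_cancel₀ hπ
      rw [Int.cast_neg]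
      linear_combination -k3
    rw [Int.cast_injective k4, Int.cast_neg]
  · push_cast
    linear_combination (n u x y : ZMod 4) * h4
  · obtain ⟨k1, k2, k3, k4⟩ := hg x y h
    obtain ⟨m1, m2, m3, m4⟩ := hg u v h'
    have k5 := logInc_sq (γ := fun t => e (g x y t)) (δ := fun t => e (g u v t)) (by fun_prop)
      (by fun_prop)
      (fun s t k => Set.disjoint_left.1 (hdisj x y u v h h' h1 h2 h3 h5) (k4 s) (he k ▸ m4 t))
      (by simpa only [m2] using hn u x y h h1 h2)
      (by simpa only [k3] using hn y u v h' h2.symm h5.symm)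
      (by simpa only [m3] using hn v x y h h3 h5)
      (by simpa only [k2] using hn x u v h' h1.symm h3.symm)
    rw [hl y v, hl y u, hl x v, hl x u] at k5
    have k6 : (((a u y - a u x + 2 * n u x y) + (a y v - a y u + 2 * n y u v) -
        (a v y - a v x + 2 * n v x y) - (a x v - a x u + 2 * n x u v) : ℤ) : ℂ) = ((0 : ℤ) : ℂ) := by
      apply mul_right_cancel₀ hπ
      rw [Int.cast_sub, Int.cast_sub, Int.cast_add]
      linear_combination k5
    have k7 := congrArg (Int.cast : ℤ → ZMod 4) (Int.cast_injective k6)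
    rw [Int.cast_sub, Int.cast_sub, Int.cast_add, Int.cast_zero] at k7
    exact k7

end Pool.Agent.Lib.Common.Pl
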